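import Pool.Agent.HQD.DefsB
import Pool.Agent.HQ.Bas
import Pool.Agent.HQ.Surj
import Pool.Agent.HQ.RePar
import Pool.Agent.HQ.Gro
import Pool.Agent.HQ.StayA
import Pool.Agent.HQ.LimD
import Pool.Agent.HQ.UBas
import Pool.Agent.HQ.Al29

/-!
# HQD [AlD]: discs in an unstable manifold are holomorphic in the parameter
-/

set_option autoImplicit false

open Filter Topology Set Metric

namespace Pool.Agent.HQ

/-- iterates on unstable curves -/
theorem AlD_iter (Q : QS) {p : E} (hp : p ∈ Sad Q.F) : ∃ κ : ℝ, 1 < κ ∧ ∀ n : ℕ,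
    ∃ l : ℂ, κ ^ n ≤ ‖l‖ ∧ ∀ z, (Q.F ^ n) (Q.Xu p z) = Q.Xu ((Q.F ^ n) p) (l * z) := by
  obtain ⟨κ, Λ, hκ, -, hb⟩ := mult_bound Q
  refine ⟨κ, hκ, fun n => ?_⟩
  induction n with
  | zero => exact ⟨1, by simp, fun z => by simp⟩
  | succ n ih =>
    obtain ⟨l, hl, hz⟩ := ih
    have hp' : (Q.F ^ n) p ∈ Sad Q.F := by
      have := (Q.toSys.mem_Sad (n : ℤ) p).2 hp
      rwa [zpow_natCast] at this
    obtain ⟨l', -, hl'⟩ := func_eq Q hp'
    have h1 := (hb _ hp' l' hl').1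
    refine ⟨l' * l, ?_, fun z => ?_⟩
    · rw [norm_mul, pow_succ']
      exact mul_le_mul h1 hl (by positivity) (norm_nonneg _)
    · rw [pow_succ', Equiv.Perm.mul_apply, Equiv.Perm.mul_apply, hz, hl', mul_assoc]

/-- multipliers: if `F ^ k` fixes the saddle `p`, it acts on the unstable curve by an expansion -/
theorem mult_pow (Q : QS) {p : E} (hp : p ∈ Sad Q.F) {k : ℕ} (hk : 0 < k)
    (hkp : (Q.F ^ k) p = p) : ∃ l : ℂ, 1 < ‖l‖ ∧ ∀ z, (Q.F ^ k) (Q.Xu p z) = Q.Xu p (l * z) := by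
  obtain ⟨κ, hκ, h⟩ := AlD_iter Q hp
  obtain ⟨l, hl, hz⟩ := h k
  rw [hkp] at hz
  exact ⟨l, (one_lt_pow₀ hκ hk.ne').trans_le hl, hz⟩

/-- iterates of the inverse map on the unstable curve -/
theorem AlD_back (Q : QS) {p : E} {k : ℕ} {l : ℂ} (hl : l ≠ 0)
    (h : ∀ z, (Q.F ^ k) (Q.Xu p z) = Q.Xu p (l * z)) (n : ℕ) (z : ℂ) :
    (Q.F⁻¹ ^ (k * n)) (Q.Xu p z) = Q.Xu p (z / l ^ n) := by
  have h1 : ∀ (n : ℕ) (z : ℂ), (Q.F ^ (k * n)) (Q.Xu p z) = Q.Xu p (l ^ n * z) := by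
    intro n
    induction n with
    | zero => intro z; simp
    | succ n ih =>
      intro z
      rw [Nat.mul_succ, pow_add, Equiv.Perm.mul_apply, h, ih, pow_succ, mul_assoc]
  have h2 := h1 n (z / l ^ n)
  have h3 : l ^ n * (z / l ^ n) = z := by
    have : l ^ n ≠ 0 := pow_ne_zero n hl
    field_simp
  rw [h3] at h2
  rw [← h2, inv_pow]
  exact (Q.F ^ (k * n)).symm_apply_apply _

/-- uniform convergence to the saddle under backward iteration -/
theorem AlD_unif (S : Sys) {p : E} {k : ℕ} (hk : 0 < k) (hkp : (S.F⁻¹ ^ k) p = p) {D : Set ℂ}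
    (hD : IsOpen D) {σ : ℂ → E} (hσ : DifferentiableOn ℂ σ D) (hM : ∀ z ∈ D, S.M (σ z) = 0)
    (h : ∀ z ∈ D, σ z ∈ Wu S.F p) {K : Set ℂ} (hK : IsCompact K) (hKD : K ⊆ D) {δ : ℝ}
    (hδ : 0 < δ) : ∃ n0 : ℕ, ∀ n ≥ n0, ∀ z ∈ K, dist ((S.F⁻¹ ^ (k * n)) (σ z)) p < δ := by
  by_contra hcon
  push Not at hcon
  choose m hm z hz hbig using hcon
  obtain ⟨φ, hφ, g, -, hl, -⟩ := lim_disc S.dual hD hσ hM (fun i => k * m i)
  have hm' : Tendsto m atTop atTop := tendsto_atTop_mono hm tendsto_id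
  -- the limit is `p`
  have hg : ∀ w ∈ D, g w = p := by
    intro w hw
    have h1 := hl.tendsto_at hw
    have h2 : Tendsto (fun n : ℕ => (S.F⁻¹ ^ (k * n)) (σ w)) atTop (𝓝 p) :=
      StayA_of_Ws S.dual hk hkp (h w hw)
    have h3 := h2.comp (hm'.comp hφ.tendsto_atTop)
    exact tendsto_nhds_unique h1 h3
  have hu := (tendstoLocallyUniformlyOn_iff_forall_isCompact hD).1 hl K hKD hK
  rw [Metric.tendstoUniformlyOn_iff] at hu
  obtain ⟨i, hi⟩ := (hu δ hδ).exists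
  have h4 := hi (z (φ i)) (hz (φ i))
  rw [hg _ (hKD (hz (φ i))), dist_comm] at h4
  have h5 := hbig (φ i)
  exact absurd h4 (not_lt.2 h5)

/-- a holomorphic disc `σ : D → W^u(p)` in `K⁻` is `Ξ_p ∘ τ` with `τ` holomorphic -/
theorem alD (Q : QS) {p : E} (hp : p ∈ Sad Q.F) {D : Set ℂ} (hD : IsOpen D)
    (hc : IsPreconnected D) {σ : ℂ → E} (hσ : DifferentiableOn ℂ σ D)
    (h : ∀ z ∈ D, σ z ∈ Wu Q.F p) :
    ∃ τ : ℂ → ℂ, DifferentiableOn ℂ τ D ∧ ∀ z ∈ D, σ z = Q.Xu p (τ z) := by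
  have _ := hc
  have hX := Q.hu p hp
  obtain ⟨k, hk, hkp, -⟩ := id hp
  obtain ⟨l, hl, hlz⟩ := mult_pow Q hp hk hkp
  have hl0 : l ≠ 0 := by
    rintro rfl
    rw [norm_zero] at hl
    linarith
  have hkp' : (Q.F⁻¹ ^ k) p = p := by
    conv_lhs => rw [← hkp]
    rw [inv_pow]
    exact (Q.F ^ k).symm_apply_apply p
  have hτ' : ∀ z, ∃ t, z ∈ D → Q.Xu p t = σ z := by
    intro z
    by_cases hz : z ∈ D
    · have := h z hz
      rw [← hX.range] at this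
      obtain ⟨t, ht⟩ := this
      exact ⟨t, fun _ => ht⟩
    · exact ⟨0, fun hz' => absurd hz' hz⟩
  choose τ hτ using hτ'
  have hM : ∀ z ∈ D, Q.M (σ z) = 0 := by
    intro z hz
    rw [← hτ z hz]
    exact U_M0 Q (Xu_mem_U Q hp) _
  have hXc : Continuous (Q.Xu p) := hX.diff.continuous
  -- separation on the fundamental annulus
  obtain ⟨δ, hδ, hsep⟩ : ∃ δ > 0, ∀ z : ℂ, 1 / ‖l‖ ≤ ‖z‖ → ‖z‖ ≤ 1 →
      δ ≤ dist (Q.Xu p z) p := by
    have hAc : IsCompact (closedBall (0 : ℂ) 1 ∩ {z | 1 / ‖l‖ ≤ ‖z‖}) :=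
      (isCompact_closedBall _ _).inter_right (isClosed_le continuous_const continuous_norm)
    have hne : (closedBall (0 : ℂ) 1 ∩ {z | 1 / ‖l‖ ≤ ‖z‖}).Nonempty := by
      refine ⟨1, by simp, ?_⟩
      change 1 / ‖l‖ ≤ ‖(1 : ℂ)‖
      rw [norm_one, div_le_one (by linarith)]
      exact hl.le
    obtain ⟨w, ⟨hw1, hw2⟩, hmin⟩ := hAc.exists_isMinOn hne
      (f := fun z => dist (Q.Xu p z) p) (by fun_prop)
    refine ⟨dist (Q.Xu p w) p, ?_, fun z h1 h2 => hmin ⟨mem_closedBall_zero_iff.2 h2, h1⟩⟩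
    refine dist_pos.2 ?_
    intro hcon
    have hw0 : w = 0 := hX.inj (by rw [hcon, hX.zero])
    have hw3 : 1 / ‖l‖ ≤ ‖w‖ := hw2
    rw [hw0, norm_zero] at hw3
    have : 0 < 1 / ‖l‖ := by
      have : 0 < ‖l‖ := by linarith
      positivity
    linarith
  -- local boundedness
  have hbd : ∀ v ∈ D, ∃ R : ℝ, ∀ᶠ z in 𝓝 v, ‖τ z‖ ≤ R := by
    intro v hv
    obtain ⟨r, hr, hball⟩ := Metric.isOpen_iff.1 hD v hv
    have hKD : closedBall v (r / 2) ⊆ D := (closedBall_subset_ball (by linarith)).trans hball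
    obtain ⟨n0, hn0⟩ := AlD_unif Q.toSys hk hkp' hD hσ hM h (isCompact_closedBall v (r / 2))
      hKD hδ
    refine ⟨‖l‖ ^ n0, ?_⟩
    filter_upwards [closedBall_mem_nhds v (by linarith : 0 < r / 2)] with z hz
    by_contra hcon
    push Not at hcon
    -- the first time in the unit disc
    have hl1 : Tendsto (fun m : ℕ => ‖τ z‖ / ‖l‖ ^ m) atTop (𝓝 0) := by
      have := (tendsto_pow_atTop_atTop_of_one_lt hl).inv_tendsto_atTop.const_mul ‖τ z‖
      rw [mul_zero] at this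
      exact this
    have hex : ∃ m : ℕ, ‖τ z‖ / ‖l‖ ^ m ≤ 1 :=
      ((hl1.eventually_lt_const one_pos).exists).imp fun m hm => hm.le
    classical
    set m := Nat.find hex with hm
    have hm1 : ‖τ z‖ / ‖l‖ ^ m ≤ 1 := Nat.find_spec hex
    have hlpos : 0 < ‖l‖ := by linarith
    have hmn : n0 < m := by
      by_contra hle
      push Not at hle
      have h1 : ‖l‖ ^ m ≤ ‖l‖ ^ n0 := pow_le_pow_right₀ hl.le hle
      rw [div_le_one (by positivity)] at hm1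
      linarith
    have hm2 : 1 < ‖τ z‖ / ‖l‖ ^ (m - 1) := by
      have := Nat.find_min hex (m := m - 1) (by omega)
      push Not at this
      exact this
    have hm3 : 1 / ‖l‖ ≤ ‖τ z / l ^ m‖ := by
      rw [norm_div, norm_pow, div_le_iff₀ hlpos]
      have h1 : ‖l‖ ^ m = ‖l‖ ^ (m - 1) * ‖l‖ := by
        rw [← pow_succ]
        congr 1
        omega
      rw [h1]
      have h2 : ‖τ z‖ / (‖l‖ ^ (m - 1) * ‖l‖) * ‖l‖ = ‖τ z‖ / ‖l‖ ^ (m - 1) := by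
        field_simp
      rw [h2]
      exact hm2.le
    have hm4 : ‖τ z / l ^ m‖ ≤ 1 := by
      rw [norm_div, norm_pow]
      exact hm1
    have h5 := hsep _ hm3 hm4
    have h6 := hn0 m hmn.le z hz
    rw [← hτ z (hKD hz), AlD_back Q hl0 hlz m (τ z)] at h6
    linarith
  have hcont : ∀ v ∈ D, ContinuousAt τ v := by
    intro v hv
    obtain ⟨R, hR⟩ := hbd v hv
    refine RePar_tend (A := fun z => Q.Xu p (τ z)) hXc hX.inj (fun z => rfl) hR ?_
    have h1 : Tendsto σ (𝓝 v) (𝓝 (σ v)) :=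
      ((hσ v hv).differentiableAt (hD.mem_nhds hv)).continuousAt
    rw [← hτ v hv] at h1
    refine h1.congr' ?_
    filter_upwards [hD.mem_nhds hv] with z hz
    exact (hτ z hz).symm
  refine ⟨τ, fun v hv => DifferentiableAt.differentiableWithinAt ?_, fun z hz => (hτ z hz).symm⟩
  have himm := hX.imm (τ v)
  have hd : HasDerivAt (Q.Xu p) (deriv (Q.Xu p) (τ v)) (τ v) := (hX.diff _).hasDerivAt
  have hor : (deriv (Q.Xu p) (τ v)).1 ≠ 0 ∨ (deriv (Q.Xu p) (τ v)).2 ≠ 0 := by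
    by_contra hcon
    push Not at hcon
    exact himm (Prod.ext hcon.1 hcon.2)
  have hσv : DifferentiableAt ℂ σ v := (hσ v hv).differentiableAt (hD.mem_nhds hv)
  have hnear : (fun z => Q.Xu p (τ z)) =ᶠ[𝓝 v] σ := by
    filter_upwards [hD.mem_nhds hv] with z hz
    exact hτ z hz
  have hσ' : DifferentiableAt ℂ (fun z => Q.Xu p (τ z)) v := hσv.congr_of_eventuallyEq hnear
  rcases hor with h1 | h1
  · have h2 : HasDerivAt (fun s => (Q.Xu p s).1) (deriv (Q.Xu p) (τ v)).1 (τ v) := hd.fst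
    refine Al29_diff (f := fun s => (Q.Xu p s).1) (k := fun z => (Q.Xu p (τ z)).1)
      hX.diff.fst ?_ hσ'.fst (hcont v hv) (fun z => rfl)
    rw [h2.deriv]
    exact h1
  · have h2 : HasDerivAt (fun s => (Q.Xu p s).2) (deriv (Q.Xu p) (τ v)).2 (τ v) := hd.snd
    refine Al29_diff (f := fun s => (Q.Xu p s).2) (k := fun z => (Q.Xu p (τ z)).2)
      hX.diff.snd ?_ hσ'.snd (hcont v hv) (fun z => rfl)
    rw [h2.deriv]
    exact h1

end Pool.Agent.HQ
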