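import Pool.Agent.HQD.GmD
import Pool.Agent.HQ.Hur
import Pool.Agent.HQ.LEq
import Pool.Agent.HQ.Fr23

/-!
# HQD [Ba]: crossings persist when the curve moves
-/

set_option autoImplicit false

open Filter Topology Set Metric

namespace Pool.Agent.HQ

theorem Ba_Us_diff (Q : QS) {σ : ℂ → E} (hσ : σ ∈ Q.Us) : Differentiable ℂ σ := by
  rw [← Q.dual_U] at hσ
  exact U_diff Q.dual hσ

theorem Ba_Us_nc (Q : QS) {σ : ℂ → E} (hσ : σ ∈ Q.Us) (w : ℂ) : NC σ w := by
  have h := Ba_Us_diff Q hσ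
  rw [← Q.dual_U] at hσ
  exact nc_of_entire h (U_ne Q.dual hσ) w

/-- if `h` vanishes near a point of a ball then it vanishes on the ball -/
theorem Ba_ident {h : ℂ → ℂ} {b : ℂ} {r : ℝ} (hh : DifferentiableOn ℂ h (ball b r)) {z : ℂ}
    (hz : z ∈ ball b r) (h0 : ∀ᶠ t in 𝓝 z, h t = 0) {y : ℂ} (hy : y ∈ ball b r) : h y = 0 := by
  have h1 : AnalyticOnNhd ℂ h (ball b r) := hh.analyticOnNhd isOpen_ball
  have h2 : AnalyticOnNhd ℂ (fun _ : ℂ => (0 : ℂ)) (ball b r) := analyticOnNhd_const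
  exact h1.eqOn_of_preconnected_of_eventuallyEq h2 (convex_ball b r).isPreconnected hz h0 hy

theorem B4a (Q : QS) {D : Set ℂ} (hD : IsOpen D) {g : ℂ → E} {gs : ℕ → ℂ → E}
    (hgs : ∀ n, DifferentiableOn ℂ (gs n) D) (hlim : TendstoLocallyUniformlyOn gs g atTop D)
    {z₀ : ℂ} (hz₀ : z₀ ∈ D) {σ : ℂ → E} (hσ : σ ∈ Q.Us) {w₀ : ℂ} (h0 : g z₀ = σ w₀)
    (hX : ∃ᶠ t in 𝓝 z₀, 0 < Q.P (g t)) :
    ∀ η > 0, ∀ᶠ i in atTop, ∃ z ∈ ball z₀ η, ∃ w ∈ ball w₀ η, z ∈ D ∧ gs i z = σ w ∧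
      ∃ᶠ t in 𝓝 z, 0 < Q.P (gs i t) := by
  intro η hη
  have hg : DifferentiableOn ℂ g D := hlim.differentiableOn (Eventually.of_forall hgs) hD
  have hσd := Ba_Us_diff Q hσ
  obtain ⟨ε₀, hε₀, -, hloc⟩ := local_eq isOpen_univ (mem_univ w₀) hσd.differentiableOn
    (Ba_Us_nc Q hσ w₀)
  set ε := min η ε₀ with hεdef
  have hε : 0 < ε := lt_min hη hε₀
  obtain ⟨δ, hδ, H, hH'⟩ := hloc ε hε (min_le_right _ _)
  have hH := hH' δ hδ le_rfl
  obtain ⟨C, hC⟩ := hH.lip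
  -- a small disc
  have hcont : ContinuousAt g z₀ := (hg.continuousOn).continuousAt (hD.mem_nhds hz₀)
  obtain ⟨r1, hr1, hb1⟩ := Metric.continuousAt_iff.1 hcont (δ / 2) (half_pos hδ)
  obtain ⟨r2, hr2, hb2⟩ := Metric.isOpen_iff.1 hD z₀ hz₀
  set r := min r1 r2 / 2 with hr
  have hm : 0 < min r1 r2 := lt_min hr1 hr2
  have hr0 : 0 < r := half_pos hm
  have hrr1 : r < r1 := by
    have := min_le_left r1 r2
    rw [hr]; linarith
  have hrr2 : r < r2 := by
    have := min_le_right r1 r2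
    rw [hr]; linarith
  have hcb : closedBall z₀ r ⊆ D := (closedBall_subset_ball hrr2).trans hb2
  have hgin : ∀ z ∈ closedBall z₀ r, g z ∈ ball (σ w₀) (δ / 2) := by
    intro z hz
    rw [← h0, mem_ball]
    refine hb1 ?_
    exact lt_of_le_of_lt (mem_closedBall.1 hz) hrr1
  have hunif : TendstoUniformlyOn gs g atTop (closedBall z₀ r) :=
    (tendstoLocallyUniformlyOn_iff_tendstoUniformlyOn_of_compact
      (isCompact_closedBall z₀ r)).1 (hlim.mono hcb)
  rw [Metric.tendstoUniformlyOn_iff] at hunif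
  have hev1 : ∀ᶠ i in atTop, ∀ z ∈ closedBall z₀ r, gs i z ∈ ball (σ w₀) δ := by
    filter_upwards [hunif (δ / 2) (half_pos hδ)] with i hi z hz
    have h1 := hi z hz
    have h2 := mem_ball.1 (hgin z hz)
    rw [mem_ball]
    calc dist (gs i z) (σ w₀) ≤ dist (gs i z) (g z) + dist (g z) (σ w₀) := dist_triangle _ _ _
      _ < δ := by
        rw [dist_comm (gs i z)]
        linarith
  have hgin' : ∀ z ∈ closedBall z₀ r, g z ∈ ball (σ w₀) δ := fun z hz =>
    ball_subset_ball (by linarith) (hgin z hz)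
  have hbD : ball z₀ r ⊆ D := ball_subset_closedBall.trans hcb
  have hHg : DifferentiableOn ℂ (fun z => H (g z)) (ball z₀ r) :=
    hH.dh.2 g (ball z₀ r) isOpen_ball (hg.mono hbD) (fun z hz =>
      hgin' z (ball_subset_closedBall hz))
  have hHgs : ∀ᶠ i in atTop, DifferentiableOn ℂ (fun z => H (gs i z)) (ball z₀ r) := by
    filter_upwards [hev1] with i hi
    exact hH.dh.2 (gs i) (ball z₀ r) isOpen_ball ((hgs i).mono hbD) (fun z hz =>
      hi z (ball_subset_closedBall hz))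
  have hHlim : TendstoUniformlyOn (fun i z => H (gs i z)) (fun z => H (g z)) atTop
      (ball z₀ r) := by
    rw [Metric.tendstoUniformlyOn_iff]
    intro e he
    have hC0 : 0 < |C| + 1 := by positivity
    filter_upwards [hev1, hunif (e / (|C| + 1)) (div_pos he hC0)] with i hi1 hi2 z hz
    have hz' := ball_subset_closedBall hz
    have h1 := hC (g z) (hgin' z hz') (gs i z) (hi1 z hz')
    have h2 := hi2 z hz'
    rw [dist_eq_norm] at h2 ⊢
    have h3 : C * ‖g z - gs i z‖ ≤ (|C| + 1) * ‖g z - gs i z‖ :=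
      mul_le_mul_of_nonneg_right (by linarith [le_abs_self C]) (norm_nonneg _)
    calc ‖H (g z) - H (gs i z)‖ ≤ (|C| + 1) * ‖g z - gs i z‖ := h1.trans h3
      _ < (|C| + 1) * (e / (|C| + 1)) := mul_lt_mul_of_pos_left h2 hC0
      _ = e := mul_div_cancel₀ e hC0.ne'
  have hz₀r : z₀ ∈ ball z₀ r := mem_ball_self hr0
  have hσw : σ w₀ ∈ σ '' ball w₀ ε := ⟨w₀, mem_ball_self hε, rfl⟩
  have hHz₀ : H (g z₀) = 0 := by
    rw [hH.zero _ (hgin' z₀ (mem_closedBall_self hr0.le)), h0]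
    exact hσw
  have hzero : ∀ {k : ℂ → E} {t : ℂ}, k t ∈ ball (σ w₀) δ → H (k t) = 0 → Q.P (k t) = 0 := by
    intro k t hk h1
    obtain ⟨s, -, hs⟩ := (hH.zero _ hk).1 h1
    rw [← hs]
    exact Us_P Q hσ s
  have hnc : NC (fun z => H (g z)) z₀ := by
    intro hcon
    refine hX ?_
    filter_upwards [hcon, isOpen_ball.mem_nhds hz₀r] with t ht htr
    have h1 : H (g t) = 0 := by
      rw [not_not.1 ht, hHz₀]
    rw [hzero (k := g) (hgin' t (ball_subset_closedBall htr)) h1]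
    exact lt_irrefl 0
  -- a point where `H ∘ g` does not vanish
  obtain ⟨b, hb, hbr⟩ := (hnc.and_eventually (isOpen_ball.mem_nhds hz₀r)).exists
  have hb' : H (g b) ≠ 0 := by
    have h2 : H (g b) ≠ H (g z₀) := hb
    rwa [hHz₀] at h2
  have hev2 : ∀ᶠ i in atTop, H (gs i b) ≠ 0 :=
    (hHlim.tendsto_at hbr).eventually_ne hb'
  have hmin : 0 < min η r := lt_min hη hr0
  have hzp := zero_persist isOpen_ball hz₀r hHgs hHlim.tendstoLocallyUniformlyOn hHz₀ hnc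
    (min η r) hmin
  filter_upwards [hzp, hev1, hev2, hHgs] with i ⟨z, hz, hz0⟩ hi1 hi2 hi3
  have hzr : z ∈ ball z₀ r := ball_subset_ball (min_le_right _ _) hz
  have hzc : z ∈ closedBall z₀ r := ball_subset_closedBall hzr
  obtain ⟨w, hw, hwz⟩ := (hH.zero _ (hi1 z hzc)).1 hz0
  refine ⟨z, ball_subset_ball (min_le_left _ _) hz, w,
    ball_subset_ball (min_le_left _ _) hw, hcb hzc, hwz.symm, ?_⟩
  intro hcon
  have hP : ∀ᶠ t in 𝓝 z, Q.P (gs i t) = 0 := by
    filter_upwards [hcon] with t ht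
    exact le_antisymm (not_lt.1 ht) (Q.P0 _)
  have hncg : NC (gs i) z := by
    intro hc
    refine hi2 (Ba_ident hi3 hzr ?_ hbr)
    filter_upwards [hc] with t ht
    rw [not_not.1 ht]
    exact hz0
  have hGm := (iso Q hD (hgs i) (hcb hzc) hP hncg hσ hwz.symm).1
  obtain ⟨e, he, hes⟩ := Metric.isOpen_iff.1 isOpen_ball w hw
  obtain ⟨ρ, hρ, hρs⟩ := hGm e he
  refine hi2 (Ba_ident hi3 hzr ?_ hbr)
  filter_upwards [isOpen_ball.mem_nhds (mem_ball_self hρ), isOpen_ball.mem_nhds hzr] with t ht htr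
  exact (hH.zero _ (hi1 t (ball_subset_closedBall htr))).2 (image_mono hes (hρs t ht))

end Pool.Agent.HQ
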