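import Pool.Agent.HQD.GmD
import Pool.Agent.HQ.Hur
import Pool.Agent.HQ.LEq
import Pool.Agent.HQ.Fr23

/-!
# HQD [Bb]: crossings persist when the stable curve moves
-/

set_option autoImplicit false

open Filter Topology Set Metric

namespace Pool.Agent.HQ

theorem Bb_Us_diff (Q : QS) {σ : ℂ → E} (hσ : σ ∈ Q.Us) : Differentiable ℂ σ :=
  U_diff Q.dual (by rw [Q.dual_U]; exact hσ)

theorem Bb_Us_nc (Q : QS) {σ : ℂ → E} (hσ : σ ∈ Q.Us) (w : ℂ) : NC σ w :=
  nc_of_entire (Bb_Us_diff Q hσ) (U_ne Q.dual (by rw [Q.dual_U]; exact hσ)) w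

/-- the germ of a curve with `P > 0` frequently is not contained in a stable curve -/
theorem Bb_not_Gm (Q : QS) {g σ : ℂ → E} {z w : ℂ} (hσ : σ ∈ Q.Us)
    (hX : ∃ᶠ t in 𝓝 z, 0 < Q.P (g t)) : ¬ Gm g z σ w := by
  intro h
  obtain ⟨r, hr, hb⟩ := h 1 one_pos
  obtain ⟨t, ht1, ht2⟩ := (Metric.nhds_basis_ball.frequently_iff.1 hX) r hr
  obtain ⟨s, -, hs⟩ := hb t ht1
  rw [← hs, Us_P Q hσ] at ht2
  exact lt_irrefl _ ht2

/-- a nonconstant disc is nowhere locally constant -/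
theorem Bb_nc {D : Set ℂ} (hD : IsOpen D) (hc : IsPreconnected D) {g : ℂ → E}
    (hg : DifferentiableOn ℂ g D) {z₀ z : ℂ} (hz₀ : z₀ ∈ D) (hz : z ∈ D) (h : NC g z₀) :
    NC g z := by
  by_contra hcon
  unfold NC at hcon
  rw [not_frequently] at hcon
  have hev : ∀ᶠ t in 𝓝 z, g t = g z := hcon.mono fun t ht => not_not.1 ht
  have han : AnalyticOnNhd ℂ g D := hg.analyticOnNhd hD
  have heq := han.eqOn_of_preconnected_of_eventuallyEq analyticOnNhd_const hc hz hev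
  refine h ?_
  filter_upwards [hD.mem_nhds hz₀] with t ht
  rw [heq ht, heq hz₀]
  exact not_not.2 rfl

/-- the intersection point is isolated -/
theorem Bb_isol (Q : QS) {D : Set ℂ} (hD : IsOpen D) {g : ℂ → E}
    (hg : DifferentiableOn ℂ g D) {z₀ : ℂ} (hz₀ : z₀ ∈ D) {σ : ℂ → E} (hσ : σ ∈ Q.Us)
    {w₀ : ℂ} (h0 : g z₀ = σ w₀) (hX : ∃ᶠ t in 𝓝 z₀, 0 < Q.P (g t)) :
    ∃ η > 0, closedBall z₀ η ⊆ D ∧ ∀ z ∈ closedBall z₀ η, ∀ w ∈ closedBall w₀ η, g z = σ w →
      z = z₀ ∧ w = w₀ := by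
  have hdσ := Bb_Us_diff Q hσ
  have hncσ := Bb_Us_nc Q hσ w₀
  -- isolation in the source of `g`
  have h1 : ∃ ε > 0, ∀ᶠ z in 𝓝[≠] z₀, g z ∉ σ '' ball w₀ ε := by
    by_contra hcon
    push Not at hcon
    refine Bb_not_Gm Q (w := w₀) hσ hX (germ_acc isOpen_univ (mem_univ w₀) hdσ.differentiableOn hncσ
      hD hz₀ hg h0 fun ε hε => ?_)
    have h := hcon ε hε
    rw [Filter.Frequently]
    intro h2
    exact h h2
  obtain ⟨ε, hε, hev⟩ := h1
  -- isolation in the source of `σ`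
  have h2 : ∀ᶠ w in 𝓝[≠] w₀, σ w ≠ σ w₀ := by
    have han : AnalyticAt ℂ (fun w => σ w - σ w₀) w₀ :=
      (hdσ.sub_const _).analyticAt w₀
    rcases han.eventually_eq_zero_or_eventually_ne_zero with h | h
    · exfalso
      refine hncσ (h.mono fun w hw => not_not.2 (sub_eq_zero.1 hw))
    · exact h.mono fun w hw => sub_ne_zero.1 hw
  rw [eventually_nhdsWithin_iff] at hev h2
  obtain ⟨r1, hr1, hb1⟩ := Metric.eventually_nhds_iff_ball.1 hev
  obtain ⟨r2, hr2, hb2⟩ := Metric.eventually_nhds_iff_ball.1 h2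
  obtain ⟨r3, hr3, hb3⟩ := Metric.isOpen_iff.1 hD z₀ hz₀
  set m := min (min r1 r2) (min r3 ε) with hm
  have hm0 : 0 < m := lt_min (lt_min hr1 hr2) (lt_min hr3 hε)
  have hm1 : m / 2 < m := half_lt_self hm0
  have a1 : m ≤ r1 := (min_le_left _ _).trans (min_le_left _ _)
  have a2 : m ≤ r2 := (min_le_left _ _).trans (min_le_right _ _)
  have a3 : m ≤ r3 := (min_le_right _ _).trans (min_le_left _ _)
  have a4 : m ≤ ε := (min_le_right _ _).trans (min_le_right _ _)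
  refine ⟨m / 2, half_pos hm0,
    (closedBall_subset_ball (hm1.trans_le a3)).trans hb3, fun z hz w hw he => ?_⟩
  have hz' : z = z₀ := by
    by_contra hne
    refine hb1 z (closedBall_subset_ball (hm1.trans_le a1) hz) hne ?_
    exact ⟨w, closedBall_subset_ball (hm1.trans_le a4) hw, he.symm⟩
  refine ⟨hz', ?_⟩
  by_contra hne
  refine hb2 w (closedBall_subset_ball (hm1.trans_le a2) hw) hne ?_
  rw [← he, hz', h0]

/-- eventually the intersections stay away from the boundary -/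
theorem Bb_bd {g σ : ℂ → E} {σs : ℕ → ℂ → E} (hlim : TendstoLocallyUniformly σs σ atTop)
    {z₀ w₀ : ℂ} {η : ℝ} (hη : 0 < η) (hg : ContinuousOn g (closedBall z₀ η)) (hσ : Continuous σ)
    (h : ∀ z ∈ closedBall z₀ η, ∀ w ∈ closedBall w₀ η, g z = σ w → z = z₀ ∧ w = w₀) :
    ∀ᶠ j in atTop, ∀ z ∈ closedBall z₀ η, ∀ w ∈ closedBall w₀ η, g z = σs j w →
      z ∈ ball z₀ η ∧ w ∈ ball w₀ η := by
  set K : Set (ℂ × ℂ) := (closedBall z₀ η ×ˢ closedBall w₀ η) \ (ball z₀ η ×ˢ ball w₀ η) with hK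
  have hKc : IsCompact K :=
    ((isCompact_closedBall z₀ η).prod (isCompact_closedBall w₀ η)).diff
      (isOpen_ball.prod isOpen_ball)
  have hfc : ContinuousOn (fun p : ℂ × ℂ => dist (g p.1) (σ p.2)) K := by
    have e1 : ContinuousOn (fun p : ℂ × ℂ => g p.1) K :=
      hg.comp continuousOn_fst fun p hp => hp.1.1
    have e2 : ContinuousOn (fun p : ℂ × ℂ => σ p.2) K := (hσ.comp continuous_snd).continuousOn
    exact continuous_dist.comp_continuousOn (e1.prodMk e2)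
  obtain ⟨c, hc, hcl⟩ : ∃ c > 0, ∀ p ∈ K, c ≤ dist (g p.1) (σ p.2) := by
    rcases K.eq_empty_or_nonempty with he | hne
    · exact ⟨1, one_pos, fun p hp => by rw [he] at hp; exact absurd hp (notMem_empty p)⟩
    · obtain ⟨p, hp, hmin⟩ := hKc.exists_isMinOn hne hfc
      refine ⟨dist (g p.1) (σ p.2), ?_, fun q hq => hmin hq⟩
      refine dist_pos.2 fun he => ?_
      obtain ⟨e1, e2⟩ := h p.1 hp.1.1 p.2 hp.1.2 he
      refine hp.2 ⟨?_, ?_⟩
      · rw [e1]; exact mem_ball_self hη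
      · rw [e2]; exact mem_ball_self hη
  rw [tendstoLocallyUniformly_iff_forall_isCompact] at hlim
  have h1 := Metric.tendstoUniformlyOn_iff.1 (hlim _ (isCompact_closedBall w₀ η)) c hc
  filter_upwards [h1] with j hj z hz w hw he
  by_contra hcon
  have hpK : (z, w) ∈ K := ⟨⟨hz, hw⟩, fun hp => hcon ⟨hp.1, hp.2⟩⟩
  have h2 := hcl _ hpK
  have h3 := hj w hw
  change c ≤ dist (g z) (σ w) at h2
  rw [he, dist_comm] at h2
  exact absurd h3 (not_lt.2 h2)

theorem B4b (Q : QS) {D : Set ℂ} (hD : IsOpen D) (hc : IsPreconnected D) {g : ℂ → E}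
    (hg : DifferentiableOn ℂ g D) {z₀ : ℂ} (hz₀ : z₀ ∈ D) {σ : ℂ → E} {σs : ℕ → ℂ → E}
    (hσs : ∀ n, σs n ∈ Q.Us) (hσ : σ ∈ Q.Us) (hlim : TendstoLocallyUniformly σs σ atTop)
    {w₀ : ℂ} (h0 : g z₀ = σ w₀) (hX : ∃ᶠ t in 𝓝 z₀, 0 < Q.P (g t)) :
    ∀ η > 0, ∀ᶠ j in atTop, ∃ z ∈ ball z₀ η, ∃ w ∈ ball w₀ η, z ∈ D ∧ g z = σs j w ∧
      ∃ᶠ t in 𝓝 z, 0 < Q.P (g t) := by
  intro η₁ hη₁
  have hdσ := Bb_Us_diff Q hσ
  have hncσ := Bb_Us_nc Q hσ w₀
  have hP0 : Q.P (g z₀) = 0 := by rw [h0]; exact Us_P Q hσ w₀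
  have hncg : NC g z₀ := hX.mono fun t ht he => by
    rw [he, hP0] at ht
    exact lt_irrefl _ ht
  obtain ⟨η₂, hη₂, hsub, hiso⟩ := Bb_isol Q hD hg hz₀ hσ h0 hX
  set η := min (η₁ / 2) η₂ with hη
  have hη0 : 0 < η := lt_min (half_pos hη₁) hη₂
  have hηη₁ : η < η₁ := (min_le_left _ _).trans_lt (half_lt_self hη₁)
  have hsub' : closedBall z₀ η ⊆ D := (closedBall_subset_closedBall (min_le_right _ _)).trans hsub
  have hbd := Bb_bd (g := g) (w₀ := w₀) hlim hη0 (hg.continuousOn.mono hsub') hdσ.continuous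
    (fun z hz w hw he => hiso z (closedBall_subset_closedBall (min_le_right _ _) hz) w
      (closedBall_subset_closedBall (min_le_right _ _) hw) he)
  have hex : ∀ᶠ j in atTop, ∃ w ∈ ball w₀ η, ∃ z ∈ ball z₀ η, σs j w = g z := by
    rcases ip (Γ := g) (g := σ) (gs := σs) hD hz₀ hg hncg isOpen_univ (mem_univ w₀)
      (fun n => (Bb_Us_diff Q (hσs n)).differentiableOn)
      (tendstoLocallyUniformlyOn_univ.2 hlim) h0.symm with h | h
    · exfalso
      refine Bb_not_Gm Q (w := w₀) hσ hX ?_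
      exact germ_symm hD hz₀ hg hncg isOpen_univ (mem_univ w₀) hdσ.differentiableOn hncσ h0.symm h
    · exact h η hη0
  filter_upwards [hbd, hex] with j hj1 hj2
  by_contra hcon
  push Not at hcon
  -- the set of intersection parameters
  set A : Set ℂ := {z | z ∈ closedBall z₀ η ∧ ∃ w ∈ closedBall w₀ η, g z = σs j w} with hA
  have hdj : Differentiable ℂ (σs j) := Bb_Us_diff Q (hσs j)
  have hPA : ∀ z ∈ A, ∀ᶠ t in 𝓝 z, Q.P (g t) = 0 := by
    rintro z ⟨hz, w, hw, he⟩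
    obtain ⟨hz1, hw1⟩ := hj1 z hz w hw he
    have h1 := hcon z (ball_subset_ball hηη₁.le hz1) w (ball_subset_ball hηη₁.le hw1) (hsub' hz) he
    exact h1.mono fun t ht => le_antisymm ht (Q.P0 _)
  have hAo : IsOpen A := by
    rw [Metric.isOpen_iff]
    rintro z ⟨hz, w, hw, he⟩
    obtain ⟨hz1, hw1⟩ := hj1 z hz w hw he
    have hnc : NC g z := Bb_nc hD hc hg hz₀ (hsub' hz) hncg
    have hG := (iso Q hD hg (hsub' hz) (hPA z ⟨hz, w, hw, he⟩) hnc (hσs j) he).1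
    obtain ⟨r1, hr1, hb1⟩ := Metric.isOpen_iff.1 isOpen_ball z hz1
    obtain ⟨r2, hr2, hb2⟩ := Metric.isOpen_iff.1 isOpen_ball w hw1
    obtain ⟨r3, hr3, hb3⟩ := hG r2 hr2
    refine ⟨min r1 r3, lt_min hr1 hr3, fun t ht => ?_⟩
    obtain ⟨s, hs1, hs2⟩ := hb3 t (ball_subset_ball (min_le_right _ _) ht)
    exact ⟨ball_subset_closedBall (hb1 (ball_subset_ball (min_le_left _ _) ht)),
      s, ball_subset_closedBall (hb2 hs1), hs2.symm⟩
  have hAcl : IsClosed A := by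
    refine IsSeqClosed.isClosed fun u z hu hlim2 => ?_
    have hz : z ∈ closedBall z₀ η := isClosed_closedBall.mem_of_tendsto hlim2
      (Eventually.of_forall fun n => (hu n).1)
    choose w hw he using fun n => (hu n).2
    obtain ⟨w', hw', φ, hφ, hlim3⟩ := (isCompact_closedBall w₀ η).tendsto_subseq hw
    refine ⟨hz, w', hw', ?_⟩
    have h1 : Tendsto (fun n => g (u (φ n))) atTop (𝓝 (g z)) := by
      have hgc : ContinuousAt g z :=
        (hg.differentiableAt (hD.mem_nhds (hsub' hz))).continuousAt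
      exact hgc.tendsto.comp (hlim2.comp hφ.tendsto_atTop)
    have h2 : Tendsto (fun n => σs j (w (φ n))) atTop (𝓝 (σs j w')) :=
      (hdj.continuous.tendsto w').comp hlim3
    refine tendsto_nhds_unique h1 ?_
    have h3 : (fun n => g (u (φ n))) = fun n => σs j (w (φ n)) := funext fun n => he (φ n)
    rw [h3]
    exact h2
  obtain ⟨w, hw, z, hz, he⟩ := hj2
  have hne : A.Nonempty := ⟨z, ball_subset_closedBall hz, w, ball_subset_closedBall hw, he.symm⟩
  have huniv : A = univ := IsClopen.eq_univ ⟨hAcl, hAo⟩ hne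
  have hfar : z₀ + ((2 * η : ℝ) : ℂ) ∈ A := by rw [huniv]; exact mem_univ _
  have h4 := hfar.1
  rw [mem_closedBall, dist_eq_norm, add_sub_cancel_left, Complex.norm_real,
    Real.norm_of_nonneg (by positivity)] at h4
  linarith

end Pool.Agent.HQ
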