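import Pool.Agent.HQD.GmD
import Pool.Agent.HQ.Loc
import Pool.Agent.HQ.GrF
import Pool.Agent.HQ.Fr23
import Pool.Agent.HQ.Surj

/-!
# HQD [N1]: intersections of unstable and stable curves are boundary points
-/

set_option autoImplicit false

open Filter Topology Set Metric

namespace Pool.Agent.HQ

/-- after the substitution `w ↦ w ^ m` a holomorphic function with a zero at `0` is an `m`-th
power -/
theorem N1_root {h : ℂ → ℂ} (hh : AnalyticAt ℂ h 0) (h0 : h 0 = 0)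
    (hnc : ¬ ∀ᶠ w in 𝓝 (0 : ℂ), h w = 0) {m : ℕ} (hm : 0 < m) :
    ∃ ρ : ℂ → ℂ, AnalyticAt ℂ ρ 0 ∧ ρ 0 = 0 ∧ ∀ᶠ w in 𝓝 (0 : ℂ), h (w ^ m) = ρ w ^ m := by
  obtain ⟨k, u, hu, hu0, hEq⟩ := hh.exists_eventuallyEq_pow_smul_nonzero_iff.2 hnc
  have hk : 0 < k := by
    rcases Nat.eq_zero_or_pos k with rfl | hk
    · exfalso
      have := hEq.self_of_nhds
      simp only [pow_zero, one_smul] at this
      exact hu0 (this.symm.trans h0)
    · exact hk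
  obtain ⟨c, hc⟩ := IsAlgClosed.exists_pow_nat_eq (u 0) hm
  have hpow : AnalyticAt ℂ (fun w : ℂ => w ^ m) 0 := analyticAt_id.pow m
  have hp0 : (0 : ℂ) ^ m = 0 := zero_pow hm.ne'
  have hum : AnalyticAt ℂ (fun w : ℂ => u (w ^ m)) 0 :=
    AnalyticAt.fun_comp (g := u) (f := fun w : ℂ => w ^ m) (by rw [hp0]; exact hu) hpow
  have hw : AnalyticAt ℂ (fun w => u (w ^ m) / u 0) 0 := hum.div analyticAt_const hu0
  have hv : AnalyticAt ℂ (fun w => c * (u (w ^ m) / u 0) ^ (1 / m : ℂ)) 0 := by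
    apply AnalyticAt.mul analyticAt_const
    apply AnalyticAt.cpow hw analyticAt_const
    simp only [zero_pow hm.ne']
    rw [div_self hu0]
    exact Complex.one_mem_slitPlane
  have hvm : ∀ w : ℂ, (c * (u (w ^ m) / u 0) ^ (1 / m : ℂ)) ^ m = u (w ^ m) := by
    intro w
    rw [mul_pow, hc, one_div, Complex.cpow_nat_inv_pow _ hm.ne']
    field_simp
  refine ⟨fun w => w ^ k * (c * (u (w ^ m) / u 0) ^ (1 / m : ℂ)), ?_, ?_, ?_⟩
  · exact (analyticAt_id.pow k).mul hv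
  · simp only [zero_pow hk.ne', zero_mul]
  · have ht : Tendsto (fun w : ℂ => w ^ m) (𝓝 0) (𝓝 0) := by
      have := hpow.continuousAt.tendsto
      rwa [hp0] at this
    filter_upwards [ht.eventually hEq] with w hw1
    rw [hw1, sub_zero, mul_pow, hvm, smul_eq_mul, ← pow_mul, ← pow_mul, mul_comm m k]

theorem N1_par {ξ σ : ℂ → E} (hξ : Differentiable ℂ ξ) (hσ : Differentiable ℂ σ) {z v : ℂ}
    (hnξ : NC ξ z) (L : E →L[ℂ] ℂ) (hL : NC (fun t => L (σ t)) v) (h : ξ z = σ v)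
    (hg : Gm ξ z σ v) :
    ∃ m : ℕ, 0 < m ∧ ∃ r > 0, ∃ φ : ℂ → ℂ, DifferentiableOn ℂ φ (ball 0 r) ∧ φ 0 = v ∧
      ∀ w ∈ ball (0 : ℂ) r, ξ (z + w ^ m) = σ (φ w) := by
  have hgd : Differentiable ℂ (fun t => L (σ t)) := L.differentiable.comp hσ
  obtain ⟨m, hm, t₀, ht₀, φ, hφ, -, -, hφ0, hφm, himg⟩ :=
    local_coord isOpen_univ (mem_univ v) hgd.differentiableOn hL
  have hgr : Differentiable ℂ (fun w : ℂ => L (ξ (z + w)) - L (ξ z)) :=
    (L.differentiable.comp (hξ.comp ((differentiable_const z).add differentiable_id))).sub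
      (differentiable_const _)
  have hga : AnalyticAt ℂ (fun w : ℂ => L (ξ (z + w)) - L (ξ z)) 0 := hgr.analyticAt 0
  have key : ∀ᶠ w in 𝓝 (0 : ℂ), ∃ t ∈ ball (0 : ℂ) t₀, ξ (z + w) = σ (φ t) ∧
      L (ξ (z + w)) - L (ξ z) = t ^ m := by
    obtain ⟨δ, hδ, hδs⟩ := Metric.mem_nhds_iff.1 (himg t₀ ht₀ le_rfl)
    obtain ⟨r, hr, hball⟩ := hg δ hδ
    filter_upwards [ball_mem_nhds (0 : ℂ) hr] with w hw
    have hzw : z + w ∈ ball z r := by
      rw [mem_ball, dist_eq_norm, add_sub_cancel_left]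
      rwa [mem_ball_zero_iff] at hw
    obtain ⟨s, hs, hs2⟩ := hball _ hzw
    obtain ⟨t, ht, rfl⟩ := hδs hs
    refine ⟨t, ht, hs2.symm, ?_⟩
    have h1 : L (σ (φ t)) = L (σ v) + t ^ m := hφm t ht
    rw [← hs2, h1, h, add_sub_cancel_left]
  have hnc : ¬ ∀ᶠ w in 𝓝 (0 : ℂ), L (ξ (z + w)) - L (ξ z) = 0 := by
    intro hz
    have h1 : ∀ᶠ w in 𝓝 (0 : ℂ), ξ (z + w) = ξ z := by
      filter_upwards [hz, key] with w h2 h3
      obtain ⟨t, -, h4, h5⟩ := h3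
      rw [h2] at h5
      have h6 : t = 0 := pow_eq_zero_iff hm.ne' |>.1 h5.symm
      rw [h4, h6, hφ0, h]
    have h2 : Tendsto (fun y : ℂ => y - z) (𝓝 z) (𝓝 0) := by
      have h3 : Continuous fun y : ℂ => y - z := by fun_prop
      exact h3.tendsto' z 0 (sub_self z)
    refine hnξ ?_
    filter_upwards [h2.eventually h1] with y hy
    rw [add_sub_cancel] at hy
    exact not_not.2 hy
  obtain ⟨ρ, hρ, hρ0, hρm⟩ := N1_root hga (by rw [add_zero, sub_self]) hnc hm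
  have hpt : Tendsto (fun w : ℂ => w ^ m) (𝓝 0) (𝓝 0) := by
    have := (continuous_pow m : Continuous fun w : ℂ => w ^ m).tendsto 0
    rwa [zero_pow hm.ne'] at this
  have hex : ∀ᶠ w in 𝓝 (0 : ℂ), ∃ ζ ∈ (Polynomial.nthRoots m (1 : ℂ)).toFinset,
      ξ (z + w ^ m) = σ (φ (ζ * ρ w)) := by
    filter_upwards [hρm, hpt.eventually key] with w h1 h2
    obtain ⟨t, -, h3, h4⟩ := h2
    rw [h1] at h4
    by_cases h5 : ρ w = 0
    · refine ⟨1, ?_, ?_⟩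
      · rw [Multiset.mem_toFinset, Polynomial.mem_nthRoots hm, one_pow]
      · rw [h5, zero_pow hm.ne'] at h4
        have h6 : t = 0 := pow_eq_zero_iff hm.ne' |>.1 h4.symm
        rw [h3, h5, h6, mul_zero]
    · refine ⟨t / ρ w, ?_, ?_⟩
      · rw [Multiset.mem_toFinset, Polynomial.mem_nthRoots hm, div_pow, ← h4,
          div_self (pow_ne_zero _ h5)]
      · rw [h3, div_mul_cancel₀ _ h5]
  have hsel : ∃ ζ : ℂ, ∃ᶠ w in 𝓝[≠] (0 : ℂ), ξ (z + w ^ m) = σ (φ (ζ * ρ w)) := by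
    by_contra hcon
    push Not at hcon
    have h1 : ∀ᶠ w in 𝓝[≠] (0 : ℂ), ∀ ζ ∈ (Polynomial.nthRoots m (1 : ℂ)).toFinset,
        ξ (z + w ^ m) ≠ σ (φ (ζ * ρ w)) := by
      rw [Filter.eventually_all_finset]
      exact fun ζ _ => hcon ζ
    obtain ⟨w, h2, h3⟩ := (h1.and (hex.filter_mono nhdsWithin_le_nhds)).exists
    obtain ⟨ζ, h4, h5⟩ := h3
    exact h2 ζ h4 h5
  obtain ⟨ζ, hζ⟩ := hsel
  have hφa : AnalyticAt ℂ φ 0 := hφ.analyticAt (ball_mem_nhds 0 ht₀)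
  have hcomp : AnalyticAt ℂ (fun w => φ (ζ * ρ w)) 0 := by
    refine AnalyticAt.fun_comp (g := φ) (f := fun w => ζ * ρ w) ?_ (analyticAt_const.mul hρ)
    rw [hρ0, mul_zero]
    exact hφa
  have hA : AnalyticAt ℂ (fun w => ξ (z + w ^ m) - σ (φ (ζ * ρ w))) 0 := by
    refine AnalyticAt.sub ?_ ?_
    · exact (hξ.comp ((differentiable_const z).add (differentiable_id.pow m))).analyticAt 0
    · exact AnalyticAt.fun_comp (g := σ) (f := fun w => φ (ζ * ρ w)) (hσ.analyticAt _) hcomp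
  have hev : ∀ᶠ w in 𝓝 (0 : ℂ), ξ (z + w ^ m) - σ (φ (ζ * ρ w)) = 0 := by
    refine hA.frequently_zero_iff_eventually_zero.1 ?_
    exact hζ.mono fun w hw => sub_eq_zero.2 hw
  obtain ⟨r, hr, hball⟩ := Metric.eventually_nhds_iff_ball.1
    (hev.and hcomp.eventually_analyticAt)
  refine ⟨m, hm, r, hr, fun w => φ (ζ * ρ w), ?_, ?_, ?_⟩
  · intro w hw
    exact (hball w hw).2.differentiableAt.differentiableWithinAt
  · change φ (ζ * ρ 0) = v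
    rw [hρ0, mul_zero, hφ0]
  · intro w hw
    exact sub_eq_zero.1 (hball w hw).1

/-- local parametrisation of the intersection of two curves with the same germ -/
theorem par_int {ξ σ : ℂ → E} (hξ : Differentiable ℂ ξ) (hσ : Differentiable ℂ σ) {z v : ℂ}
    (hnξ : NC ξ z) (hnσ : NC σ v) (h : ξ z = σ v) (hg : Gm ξ z σ v) :
    ∃ m : ℕ, 0 < m ∧ ∃ r > 0, ∃ φ : ℂ → ℂ, DifferentiableOn ℂ φ (ball 0 r) ∧ φ 0 = v ∧
      ∀ w ∈ ball (0 : ℂ) r, ξ (z + w ^ m) = σ (φ w) := by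
  have h1 : ∃ᶠ t in 𝓝 v, (σ t).1 ≠ (σ v).1 ∨ (σ t).2 ≠ (σ v).2 := by
    refine Frequently.mono hnσ fun t ht => ?_
    by_contra hcon
    push Not at hcon
    exact ht (Prod.ext hcon.1 hcon.2)
  rcases Filter.frequently_or_distrib.1 h1 with h2 | h2
  · exact N1_par hξ hσ hnξ (ContinuousLinearMap.fst ℂ ℂ ℂ) h2 h hg
  · exact N1_par hξ hσ hnξ (ContinuousLinearMap.snd ℂ ℂ ℂ) h2 h hg

/-- the half of [N1] on the unstable side -/
theorem N1_half (Q : QS) {ξ : ℂ → E} (hξ : ξ ∈ Q.U) {σ : ℂ → E} (hσ : σ ∈ Q.Us) {z v : ℂ}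
    (h : ξ z = σ v) : ∃ᶠ t in 𝓝 z, 0 < Q.P (ξ t) := by
  by_contra hcon
  have hz0 : ∀ᶠ t in 𝓝 z, Q.P (ξ t) = 0 := by
    refine (not_frequently.1 hcon).mono fun t ht => le_antisymm (not_lt.1 ht) (Q.P0 _)
  have hσ' : σ ∈ Q.dual.U := by rw [Q.dual_U]; exact hσ
  have dξ : Differentiable ℂ ξ := U_diff Q hξ
  have dσ : Differentiable ℂ σ := U_diff Q.dual hσ'
  have nξ : ∀ z, NC ξ z := nc_of_entire dξ (U_ne Q hξ)
  have nσ : ∀ v, NC σ v := nc_of_entire dσ (U_ne Q.dual hσ')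
  obtain ⟨e, -, he⟩ := U_eq_one Q hξ
  obtain ⟨e', -, he'⟩ := U_eq_one Q.dual hσ'
  have hr : ∀ᶠ t in 𝓝 e, 0 < Q.P (ξ t) := by
    have h1 : Continuous fun t => Q.P (ξ t) := Q.cP.comp dξ.continuous
    exact (h1.tendsto e).eventually (lt_mem_nhds (by rw [he]; exact one_pos))
  have hr' : ∀ᶠ t in 𝓝 e', 0 < Q.M (σ t) := by
    have h1 : Continuous fun t => Q.M (σ t) := Q.cM.comp dσ.continuous
    refine (h1.tendsto e').eventually (lt_mem_nhds ?_)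
    have h2 : Q.M (σ e') = 1 := he'
    rw [h2]
    exact one_pos
  obtain ⟨r, hr0, hrb⟩ := Metric.eventually_nhds_iff_ball.1 hr
  obtain ⟨r', hr0', hrb'⟩ := Metric.eventually_nhds_iff_ball.1 hr'
  set C : Set (ℂ × ℂ) := {x | ξ x.1 = σ x.2 ∧ ∀ᶠ t in 𝓝 x.1, Q.P (ξ t) = 0} with hC
  have hd1 : ∀ x ∈ C, r ≤ ‖x.1 - e‖ := by
    intro x hx
    by_contra hlt
    have h1 : 0 < Q.P (ξ x.1) := hrb x.1 (by rw [mem_ball, dist_eq_norm]; exact not_le.1 hlt)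
    rw [hx.1, Us_P Q hσ] at h1
    exact lt_irrefl _ h1
  have hd2 : ∀ x ∈ C, r' ≤ ‖x.2 - e'‖ := by
    intro x hx
    by_contra hlt
    have h1 : 0 < Q.M (σ x.2) := hrb' x.2 (by rw [mem_ball, dist_eq_norm]; exact not_le.1 hlt)
    rw [← hx.1, U_M Q hξ] at h1
    exact lt_irrefl _ h1
  have hcl : IsClosed C := by
    refine isClosed_of_closure_subset fun x hx => ?_
    have heq : ξ x.1 = σ x.2 := by
      have h1 : IsClosed {x : ℂ × ℂ | ξ x.1 = σ x.2} :=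
        isClosed_eq (dξ.continuous.comp continuous_fst) (dσ.continuous.comp continuous_snd)
      exact closure_minimal (fun y hy => hy.1) h1 hx
    refine ⟨heq, ?_⟩
    by_contra hnz
    have hgm : Gm ξ x.1 σ x.2 := by
      refine germ_acc isOpen_univ (mem_univ _) dσ.differentiableOn (nσ _) isOpen_univ
        (mem_univ _) dξ.differentiableOn heq ?_
      intro ε hε
      rw [frequently_nhdsWithin_iff]
      have h1 : ∃ᶠ y in 𝓝 x, y ∈ C := mem_closure_iff_frequently.1 hx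
      have h2 : ∀ᶠ y in 𝓝 x, y.2 ∈ ball x.2 ε :=
        (continuous_snd.tendsto x).eventually (ball_mem_nhds _ hε)
      have h3 : ∃ᶠ y in 𝓝 x, ξ y.1 ∈ σ '' ball x.2 ε ∧ y.1 ∈ ({x.1}ᶜ : Set ℂ) := by
        refine (h1.and_eventually h2).mono fun y hy => ⟨⟨y.2, hy.2, hy.1.1.symm⟩, ?_⟩
        intro h4
        rw [mem_singleton_iff] at h4
        apply hnz
        rw [← h4]
        exact hy.1.2
      exact (continuous_fst.tendsto x).frequently h3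
    apply hnz
    obtain ⟨ρ, hρ, hb⟩ := hgm 1 one_pos
    filter_upwards [ball_mem_nhds x.1 hρ] with t ht
    obtain ⟨s, -, hs⟩ := hb t ht
    rw [← hs]
    exact Us_P Q hσ s
  set Φ : ℂ × ℂ → ℝ := fun x => ‖x.1 - e‖ * ‖x.2 - e'‖ with hΦ
  have hΦc : Continuous Φ := by
    rw [hΦ]
    fun_prop
  have hzv : (z, v) ∈ C := ⟨h, hz0⟩
  have hcomp : ∀ A : ℝ, IsCompact (C ∩ {x | Φ x ≤ A}) := by
    intro A
    refine IsCompact.of_isClosed_subset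
      ((isCompact_closedBall e (A / r')).prod (isCompact_closedBall e' (A / r)))
      (hcl.inter (isClosed_le hΦc continuous_const)) ?_
    rintro x ⟨hx1, hx2⟩
    have h1 := hd1 x hx1
    have h2 := hd2 x hx1
    have h3 : ‖x.1 - e‖ * ‖x.2 - e'‖ ≤ A := hx2
    refine ⟨?_, ?_⟩
    · rw [mem_closedBall, dist_eq_norm, le_div_iff₀ hr0']
      exact (mul_le_mul_of_nonneg_left h2 (norm_nonneg _)).trans h3
    · rw [mem_closedBall, dist_eq_norm, le_div_iff₀ hr0, mul_comm]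
      exact (mul_le_mul_of_nonneg_right h1 (norm_nonneg _)).trans h3
  obtain ⟨x₀, hx₀, hmin⟩ := (hcomp (Φ (z, v))).exists_isMinOn ⟨(z, v), hzv, le_refl (Φ (z, v))⟩
    hΦc.continuousOn
  have hmin' : ∀ x ∈ C, Φ x₀ ≤ Φ x := by
    intro x hx
    by_cases h1 : Φ x ≤ Φ (z, v)
    · exact hmin ⟨hx, h1⟩
    · have h2 : Φ x₀ ≤ Φ (z, v) := hx₀.2
      exact h2.trans (not_le.1 h1).le
  obtain ⟨x₁, hx₁, hmax⟩ := (hcomp (Φ x₀)).exists_isMaxOn ⟨x₀, hx₀.1, le_refl (Φ x₀)⟩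
    (f := fun x => ‖x.1 - e‖) (by fun_prop)
  have hgm : Gm ξ x₁.1 σ x₁.2 :=
    (iso Q isOpen_univ dξ.differentiableOn (mem_univ x₁.1) hx₁.1.2 (nξ _) hσ hx₁.1.1).1
  obtain ⟨m, hm, ρ, hρ, φ, hφ, hφ0, hpar⟩ := par_int dξ dσ (nξ _) (nσ _) hx₁.1.1 hgm
  have hpt : Tendsto (fun w : ℂ => x₁.1 + w ^ m) (𝓝 0) (𝓝 x₁.1) := by
    have h3 : Continuous fun w : ℂ => x₁.1 + w ^ m := by fun_prop
    exact h3.tendsto' 0 _ (by rw [zero_pow hm.ne', add_zero])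
  have hin : ∀ᶠ w in 𝓝 (0 : ℂ), (x₁.1 + w ^ m, φ w) ∈ C := by
    filter_upwards [ball_mem_nhds (0 : ℂ) hρ, hpt.eventually hx₁.1.2.eventually_nhds] with w h1 h2
    exact ⟨hpar w h1, h2⟩
  have hpos : ∀ x ∈ C, 0 < Φ x := fun x hx =>
    mul_pos (hr0.trans_le (hd1 x hx)) (hr0'.trans_le (hd2 x hx))
  have hne : ∀ x ∈ C, (x.1 - e) * (x.2 - e') ≠ 0 := by
    intro x hx h0
    have h1 := hpos x hx
    have h2 : Φ x = ‖(x.1 - e) * (x.2 - e')‖ := (norm_mul _ _).symm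
    rw [h2, h0, norm_zero] at h1
    exact lt_irrefl _ h1
  have hG : ∀ᶠ w in 𝓝 (0 : ℂ),
      (fun w => ((x₁.1 + w ^ m - e) * (φ w - e'))⁻¹) w =
      (fun w => ((x₁.1 + w ^ m - e) * (φ w - e'))⁻¹) 0 := by
    refine Complex.eventually_eq_of_isLocalMax_norm ?_ ?_
    · filter_upwards [ball_mem_nhds (0 : ℂ) hρ, hin] with w h1 h2
      have h3 : DifferentiableAt ℂ φ w := hφ.differentiableAt (isOpen_ball.mem_nhds h1)
      have h4 : DifferentiableAt ℂ (fun w : ℂ => (x₁.1 + w ^ m - e) * (φ w - e')) w := by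
        refine DifferentiableAt.mul ?_ (h3.sub_const e')
        fun_prop
      exact h4.inv (hne _ h2)
    · filter_upwards [hin] with w h1
      have h2 : Φ x₁ ≤ Φ (x₁.1 + w ^ m, φ w) := le_trans hx₁.2 (hmin' _ h1)
      have h3 : ‖((x₁.1 + w ^ m - e) * (φ w - e'))⁻¹‖ = (Φ (x₁.1 + w ^ m, φ w))⁻¹ := by
        rw [norm_inv, norm_mul]
      have h4 : ‖((x₁.1 + (0 : ℂ) ^ m - e) * (φ 0 - e'))⁻¹‖ = (Φ x₁)⁻¹ := by
        rw [norm_inv, norm_mul, hφ0, zero_pow hm.ne', add_zero]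
      change ‖((x₁.1 + w ^ m - e) * (φ w - e'))⁻¹‖ ≤ ‖((x₁.1 + (0 : ℂ) ^ m - e) * (φ 0 - e'))⁻¹‖
      rw [h3, h4]
      exact inv_anti₀ (hpos x₁ hx₁.1) h2
  have hfin : ∀ᶠ w in 𝓝 (0 : ℂ), ‖x₁.1 + w ^ m - e‖ ≤ ‖x₁.1 - e‖ := by
    filter_upwards [hin, hG] with w h1 h2
    have h3 : Φ (x₁.1 + w ^ m, φ w) = Φ x₁ := by
      have h4 := congrArg norm (inv_injective h2)
      rw [norm_mul, norm_mul, hφ0, zero_pow hm.ne', add_zero] at h4
      exact h4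
    exact hmax (a := (x₁.1 + w ^ m, φ w)) ⟨h1, le_of_eq_of_le h3 hx₁.2⟩
  obtain ⟨δ, hδ, hδb⟩ := Metric.eventually_nhds_iff_ball.1 hfin
  have ha0 : 0 < ‖x₁.1 - e‖ := hr0.trans_le (hd1 _ hx₁.1)
  have hδm : 0 < δ ^ m := pow_pos hδ m
  set c : ℝ := δ ^ m / (2 * ‖x₁.1 - e‖) with hc
  have hc0 : 0 < c := div_pos hδm (by linarith)
  obtain ⟨w, hw⟩ := IsAlgClosed.exists_pow_nat_eq ((c : ℂ) * (x₁.1 - e)) hm
  have hwn : ‖w‖ ^ m = δ ^ m / 2 := by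
    rw [← norm_pow, hw, norm_mul, Complex.norm_real, Real.norm_of_nonneg hc0.le, hc]
    field_simp
  have hwb : w ∈ ball (0 : ℂ) δ := by
    rw [mem_ball_zero_iff]
    refine lt_of_pow_lt_pow_left₀ m hδ.le ?_
    rw [hwn]
    linarith
  have h1 := hδb w hwb
  have h2 : x₁.1 + w ^ m - e = ((1 + c : ℝ) : ℂ) * (x₁.1 - e) := by
    rw [hw]
    push_cast
    ring
  rw [h2, norm_mul, Complex.norm_real, Real.norm_of_nonneg (by linarith)] at h1
  nlinarith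

/-- (N1) at an intersection of an unstable and a stable curve neither `P` vanishes near the
point on the unstable curve nor `M` on the stable one -/
theorem N1 (Q : QS) {ξ : ℂ → E} (hξ : ξ ∈ Q.U) {σ : ℂ → E} (hσ : σ ∈ Q.Us) {z v : ℂ}
    (h : ξ z = σ v) : (∃ᶠ t in 𝓝 z, 0 < Q.P (ξ t)) ∧ ∃ᶠ t in 𝓝 v, 0 < Q.M (σ t) :=
  ⟨N1_half Q hξ hσ h,
    N1_half Q.dual (by rw [Q.dual_U]; exact hσ) (by rw [Q.dual_Us]; exact hξ) h.symm⟩

end Pool.Agent.HQ
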