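import Pool.Agent.HQD.Defs

/-!
# HQD module ZClo: closure of sets of curves
-/

set_option autoImplicit false

open Filter Topology Set Metric

namespace Pool.Agent.HQ

theorem subset_Clo (A : Set (ℂ → E)) : A ⊆ Clo A := by
  intro h hh R ε hε
  refine ⟨h, hh, fun z _ => ?_⟩
  rw [sub_self, norm_zero]
  exact hε

theorem Clo_mono {A B : Set (ℂ → E)} (h : A ⊆ B) : Clo A ⊆ Clo B := by
  intro f hf R ε hε
  obtain ⟨g, hg, h1⟩ := hf R ε hε
  exact ⟨g, h hg, h1⟩

theorem Clo_Clo (A : Set (ℂ → E)) : Clo (Clo A) = Clo A := by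
  apply Subset.antisymm
  · intro f hf R ε hε
    obtain ⟨g, hg, h1⟩ := hf R (ε / 2) (half_pos hε)
    obtain ⟨k, hk, h2⟩ := hg R (ε / 2) (half_pos hε)
    refine ⟨k, hk, fun z hz => ?_⟩
    have e : k z - f z = (k z - g z) + (g z - f z) := by abel
    rw [e]
    calc ‖(k z - g z) + (g z - f z)‖ ≤ ‖k z - g z‖ + ‖g z - f z‖ := norm_add_le _ _
      _ < ε := by linarith [h1 z hz, h2 z hz]
  · exact subset_Clo _

theorem mem_Clo_iff {A : Set (ℂ → E)} {h : ℂ → E} :
    h ∈ Clo A ↔ ∃ g : ℕ → ℂ → E, (∀ n, g n ∈ A) ∧ TendstoLocallyUniformly g h atTop := by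
  constructor
  · intro hh
    choose g hg h1 using fun n : ℕ => hh (n : ℝ) (1 / ((n : ℝ) + 1)) (by positivity)
    refine ⟨g, hg, ?_⟩
    rw [tendstoLocallyUniformly_iff_forall_isCompact]
    intro K hK
    rw [Metric.tendstoUniformlyOn_iff]
    intro ε hε
    obtain ⟨B, hB⟩ := hK.isBounded.exists_norm_le
    obtain ⟨N1, hN1⟩ := exists_nat_gt B
    obtain ⟨N2, hN2⟩ := exists_nat_one_div_lt hε
    filter_upwards [eventually_ge_atTop N1, eventually_ge_atTop N2] with n hn1 hn2 x hx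
    have hn1' : (N1 : ℝ) ≤ n := by exact_mod_cast hn1
    have hn2' : (N2 : ℝ) ≤ n := by exact_mod_cast hn2
    have h2 := h1 n x (by linarith [hB x hx])
    have h4 : 1 / ((n : ℝ) + 1) ≤ 1 / ((N2 : ℝ) + 1) := by
      apply one_div_le_one_div_of_le
      · positivity
      · linarith
    rw [dist_comm, dist_eq_norm]
    linarith
  · rintro ⟨g, hg, ht⟩ R ε hε
    rw [tendstoLocallyUniformly_iff_forall_isCompact] at ht
    have h1 := ht (closedBall 0 R) (isCompact_closedBall 0 _)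
    rw [Metric.tendstoUniformlyOn_iff] at h1
    obtain ⟨i, hi⟩ := (h1 ε hε).exists
    refine ⟨g i, hg i, fun z hz => ?_⟩
    rw [← dist_eq_norm, dist_comm]
    apply hi z
    rw [mem_closedBall, dist_zero_right]
    exact hz

/-- continuous convergence along all subsequences gives locally uniform convergence -/
theorem ZClo_seq {f : ℕ → ℂ → E} {f0 : ℂ → E} (hc : Continuous f0)
    (h : ∀ φ : ℕ → ℕ, StrictMono φ → ∀ (z : ℕ → ℂ) (w : ℂ), Tendsto z atTop (𝓝 w) →
      Tendsto (fun k => f (φ k) (z k)) atTop (𝓝 (f0 w))) :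
    TendstoLocallyUniformly f f0 atTop := by
  rw [tendstoLocallyUniformly_iff_forall_isCompact]
  intro K hK
  rw [Metric.tendstoUniformlyOn_iff]
  intro ε hε
  by_contra hne
  rw [not_eventually] at hne
  obtain ⟨φ, hφ, h1⟩ := extraction_of_frequently_atTop hne
  push Not at h1
  choose z hzK hz using h1
  obtain ⟨w, -, ψ, hψ, hw⟩ := hK.tendsto_subseq hzK
  have h2 := h (fun k => φ (ψ k)) (hφ.comp hψ) (fun k => z (ψ k)) w hw
  have h3 : Tendsto (fun k => f0 (z (ψ k))) atTop (𝓝 (f0 w)) := (hc.tendsto w).comp hw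
  have h4 := h3.dist h2
  rw [dist_self] at h4
  have h5 := ge_of_tendsto h4 (Eventually.of_forall fun k => hz (ψ k))
  linarith

theorem tlu_zoom (S : Sys) {g : ℕ → ℂ → E} {h : ℂ → E} (hc : Continuous h)
    (hg : TendstoLocallyUniformly g h atTop) (n : ℕ) {b s : ℕ → ℂ} {b' s' : ℂ}
    (hb : Tendsto b atTop (𝓝 b')) (hs : Tendsto s atTop (𝓝 s')) :
    TendstoLocallyUniformly (fun k z => (S.F ^ n) (g k (b k + s k * z)))
      (fun z => (S.F ^ n) (h (b' + s' * z))) atTop := by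
  have hF : Continuous (⇑(S.F ^ n)) := (S.diff_pow n).continuous
  apply ZClo_seq
  · exact hF.comp (hc.comp (by fun_prop))
  · intro φ hφ z w hz
    have hφt := hφ.tendsto_atTop
    have h1 : Tendsto (fun k => b (φ k) + s (φ k) * z k) atTop (𝓝 (b' + s' * w)) :=
      (hb.comp hφt).add ((hs.comp hφt).mul hz)
    have h2 : TendstoLocallyUniformly (fun k => g (φ k)) h atTop := by
      intro u hu x
      obtain ⟨t, ht1, ht2⟩ := hg u hu x
      exact ⟨t, ht1, hφt.eventually ht2⟩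
    have h3 : Tendsto (fun k => g (φ k) (b (φ k) + s (φ k) * z k)) atTop
        (𝓝 (h (b' + s' * w))) :=
      tendsto_comp_of_locally_uniform_limit hc.continuousAt h1
        (fun u hu => by
          obtain ⟨t, ht, h4⟩ := h2 u hu (b' + s' * w)
          exact ⟨t, ht, h4⟩)
    exact (hF.tendsto _).comp h3

theorem Clo_zoom (S : Sys) {A : Set (ℂ → E)} {h : ℂ → E} (hh : h ∈ Clo A) (hc : Continuous h)
    (n : ℕ) (b s : ℂ) : (fun z => (S.F ^ n) (h (b + s * z))) ∈
      Clo ((fun g z => (S.F ^ n) (g (b + s * z))) '' A) := by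
  obtain ⟨g, hg, ht⟩ := mem_Clo_iff.1 hh
  refine mem_Clo_iff.2 ⟨fun k z => (S.F ^ n) (g k (b + s * z)), fun k => ⟨g k, hg k, rfl⟩, ?_⟩
  exact tlu_zoom S hc ht n (tendsto_const_nhds (x := b)) (tendsto_const_nhds (x := s))

end Pool.Agent.HQ
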