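import Pool.Agent.HQD.DefsB
import Pool.Agent.HQD.ZClo
import Pool.Agent.HQD.N1
import Pool.Agent.HQD.Ba
import Pool.Agent.HQD.Bb

/-!
# HQD [Cr]: the crossing predicate
-/

set_option autoImplicit false

open Filter Topology Set Metric

namespace Pool.Agent.HQ

theorem WsO_zpow (S : Sys) {q x : E} (n : ℤ) : (S.F ^ n) x ∈ WsO S.F q ↔ x ∈ WsO S.F q := by
  constructor
  · rintro ⟨i, hi⟩
    refine ⟨i - n, ?_⟩
    have h1 : (S.F ^ i) q = (S.F ^ n) ((S.F ^ (i - n)) q) := by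
      rw [← Equiv.Perm.mul_apply, ← zpow_add]
      congr 2
      ring
    rw [h1, S.mem_Ws] at hi
    exact hi
  · rintro ⟨i, hi⟩
    refine ⟨n + i, ?_⟩
    rw [zpow_add, Equiv.Perm.mul_apply, S.mem_Ws]
    exact hi

theorem WsO_orb (S : Sys) {q : E} (n : ℤ) : WsO S.F ((S.F ^ n) q) = WsO S.F q := by
  ext x
  constructor
  · rintro ⟨i, hi⟩
    refine ⟨i + n, ?_⟩
    rw [zpow_add, Equiv.Perm.mul_apply]
    exact hi
  · rintro ⟨i, hi⟩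
    refine ⟨i - n, ?_⟩
    rw [← Equiv.Perm.mul_apply, ← zpow_add, sub_add_cancel]
    exact hi

theorem self_mem_WsO (S : Sys) (q : E) : q ∈ WsO S.F q := by
  refine ⟨0, ?_⟩
  rw [zpow_zero]
  exact S.self_mem_Ws q

theorem WsO_P (S : Sys) {q x : E} (hq : q ∈ Sad S.F) (hx : x ∈ WsO S.F q) : S.P x = 0 := by
  obtain ⟨i, hi⟩ := hx
  exact S.Ws_P ((S.mem_Sad i q).2 hq) hi

theorem Clo_diff {A : Set (ℂ → E)} (hA : ∀ g ∈ A, Differentiable ℂ g) {h : ℂ → E}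
    (hh : h ∈ Clo A) : Differentiable ℂ h := by
  obtain ⟨g, hg, hl⟩ := mem_Clo_iff.1 hh
  have h1 : DifferentiableOn ℂ h univ :=
    (tendstoLocallyUniformlyOn_univ.2 hl).differentiableOn
      (Eventually.of_forall fun n => (hA _ (hg n)).differentiableOn) isOpen_univ
  exact differentiableOn_univ.1 h1

/-- crossings of reparametrised iterates -/
theorem CrAt_affine (Q : QS) {g : ℂ → E} {q : E} {n : ℤ} {a b z : ℂ} (ha : a ≠ 0)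
    (h : CrAt Q (fun t => (Q.F ^ n) (g (a * t + b))) z q) : CrAt Q g (a * z + b) q := by
  obtain ⟨h1, h2⟩ := h
  refine ⟨(WsO_zpow Q.toSys n).1 h1, ?_⟩
  have h3 : Tendsto (fun t : ℂ => a * t + b) (𝓝 z) (𝓝 (a * z + b)) :=
    ((continuous_const.mul continuous_id).add continuous_const).tendsto z
  refine h3.frequently (h2.mono fun t ht => ?_)
  have h4 := Q.P_zpow n (g (a * t + b))
  have h5 : 0 < Q.d ^ n := zpow_pos Q.d_pos n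
  have h6 : 0 < Q.d ^ n * Q.P (g (a * t + b)) := by rw [← h4]; exact ht
  exact (mul_pos_iff_of_pos_left h5).1 h6

theorem Cr_Xs_mem (Q : QS) {p : E} (hp : p ∈ Sad Q.F) : Q.Xs p ∈ Q.Us := by
  have h := Xu_mem_U Q.dual (p := p) (by rw [Q.dual_Sad]; exact hp)
  rw [Q.dual_U] at h
  exact h

/-- the unstable curves cross at every intersection -/
theorem CrAt_U (Q : QS) {ξ : ℂ → E} (hξ : ξ ∈ Q.U) {q : E} (hq : q ∈ Sad Q.F) {z : ℂ}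
    (h : ξ z ∈ WsO Q.F q) : CrAt Q ξ z q := by
  refine ⟨h, ?_⟩
  obtain ⟨i, hi⟩ := h
  have hq' : (Q.F ^ i) q ∈ Sad Q.F := (Q.mem_Sad i q).2 hq
  rw [← Fr23_Xs_range Q hq'] at hi
  obtain ⟨v, hv⟩ := hi
  exact (N1 Q hξ (Cr_Xs_mem Q hq') hv.symm).1

theorem CrAt_lim (Q : QS) {D : Set ℂ} (hD : IsOpen D) {g : ℂ → E} {gs : ℕ → ℂ → E}
    (hgs : ∀ n, DifferentiableOn ℂ (gs n) D) (hlim : TendstoLocallyUniformlyOn gs g atTop D)
    {z₀ : ℂ} (hz₀ : z₀ ∈ D) {q : E} (hq : q ∈ Sad Q.F) (h : CrAt Q g z₀ q) :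
    ∀ η > 0, ∀ᶠ i in atTop, ∃ z ∈ ball z₀ η, z ∈ D ∧ CrAt Q (gs i) z q := by
  intro η hη
  obtain ⟨⟨i, hi⟩, h2⟩ := h
  have hq' : (Q.F ^ i) q ∈ Sad Q.F := (Q.mem_Sad i q).2 hq
  rw [← Fr23_Xs_range Q hq'] at hi
  obtain ⟨v, hv⟩ := hi
  filter_upwards [B4a Q hD hgs hlim hz₀ (Cr_Xs_mem Q hq') hv.symm h2 η hη] with j hj
  obtain ⟨z, hz, w, hw, hzD, he, hf⟩ := hj
  refine ⟨z, hz, hzD, ⟨i, ?_⟩, hf⟩
  rw [← Fr23_Xs_range Q hq']
  exact ⟨w, he.symm⟩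

theorem CrAt_Clo (Q : QS) {A : Set (ℂ → E)} (hA : ∀ g ∈ A, Differentiable ℂ g) {h : ℂ → E}
    (hh : h ∈ Clo A) {z : ℂ} {q : E} (hq : q ∈ Sad Q.F) (hc : CrAt Q h z q) :
    ∃ g ∈ A, ∃ z', CrAt Q g z' q := by
  obtain ⟨g, hg, hl⟩ := mem_Clo_iff.1 hh
  have h1 := CrAt_lim Q isOpen_univ (fun n => (hA _ (hg n)).differentiableOn)
    (tendstoLocallyUniformlyOn_univ.2 hl) (mem_univ z) hq hc 1 one_pos
  obtain ⟨i, z', -, -, h2⟩ := h1.exists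
  exact ⟨g i, hg i, z', h2⟩

/-- a curve crossing at a point of the closure of the saddles crosses the stable manifolds of all
nearby saddles -/
theorem CrAt_near (Q : QS) {D : Set ℂ} (hD : IsOpen D) (hc : IsPreconnected D) {g : ℂ → E}
    (hg : DifferentiableOn ℂ g D) {z₀ : ℂ} (hz₀ : z₀ ∈ D) (h0 : g z₀ ∈ closure (Sad Q.F))
    (hX : ∃ᶠ t in 𝓝 z₀, 0 < Q.P (g t)) :
    ∃ δ > 0, ∀ q ∈ Sad Q.F, dist q (g z₀) < δ → ∃ z ∈ D, CrAt Q g z q := by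
  by_contra hcon
  push Not at hcon
  have h1 : ∀ n : ℕ, ∃ q ∈ Sad Q.F, dist q (g z₀) < 1 / ((n : ℝ) + 1) ∧
      ∀ z ∈ D, ¬ CrAt Q g z q := fun n => hcon _ (by positivity)
  choose q hq hd hn using h1
  obtain ⟨φ, hφ, σ, hσ, hlim⟩ := U_seq Q.dual (ξ := fun n => Q.Xs (q n)) (fun n => by
    rw [Q.dual_U]
    exact Cr_Xs_mem Q (hq n))
  rw [Q.dual_U] at hσ
  have h2 : Tendsto (fun n => Q.Xs (q (φ n)) 0) atTop (𝓝 (σ 0)) := UBas_pt hlim 0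
  have h3 : Tendsto (fun n => q (φ n)) atTop (𝓝 (g z₀)) := by
    rw [tendsto_iff_dist_tendsto_zero]
    refine squeeze_zero (fun n => dist_nonneg) (fun n => (hd (φ n)).le) ?_
    exact tendsto_one_div_add_atTop_nhds_zero_nat.comp hφ.tendsto_atTop
  have h4 : (fun n => Q.Xs (q (φ n)) 0) = fun n => q (φ n) :=
    funext fun n => (Q.hs _ (hq (φ n))).zero
  rw [h4] at h2
  have h5 : g z₀ = σ 0 := tendsto_nhds_unique h3 h2
  obtain ⟨j, z, -, w, -, hzD, he, hf⟩ := (B4b Q hD hc hg hz₀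
    (fun n => Cr_Xs_mem Q (hq (φ n))) hσ hlim h5 hX 1 one_pos).exists
  refine hn (φ j) z hzD ⟨⟨0, ?_⟩, hf⟩
  rw [zpow_zero, Equiv.Perm.one_apply, ← Fr23_Xs_range Q (hq (φ j))]
  exact ⟨w, he.symm⟩

end Pool.Agent.HQ
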