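import Pool.Agent.HQ.Defs
import Pool.Agent.HQ.Bas

/-!
# HQD: zoom classes of entire curves, crossings (definitions)

Paper: `/team-store/HQD_paper.md`.
-/

set_option autoImplicit false

open Filter Topology Set Metric

namespace Pool.Agent.HQ

/-- closure of a set of curves for locally uniform convergence -/
def Clo (A : Set (ℂ → E)) : Set (ℂ → E) :=
  {h | ∀ R ε : ℝ, 0 < ε → ∃ g ∈ A, ∀ z : ℂ, ‖z‖ ≤ R → ‖g z - h z‖ < ε}

/-- normalised entire curves in `M = 0`, centred in `P = 0`, with quadratic growth of `P` -/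
structure Sys.CC (S : Sys) (g : ℂ → E) : Prop where
  diff : Differentiable ℂ g
  M0 : ∀ z, S.M (g z) = 0
  P0 : S.P (g 0) = 0
  le1 : ∀ z, ‖z‖ ≤ 1 → S.P (g z) ≤ 1
  eq1 : ∃ z, ‖z‖ ≤ 1 ∧ S.P (g z) = 1
  gr : ∀ z, 1 ≤ ‖z‖ → S.P (g z) ≤ S.d * ‖z‖ ^ 2

/-- classes of curves which are closed and stable under zooming -/
structure Sys.ZC (S : Sys) (C : Set (ℂ → E)) : Prop where
  sub : ∀ g ∈ C, S.CC g
  cl : ∀ g ∈ Clo C, S.CC g → g ∈ C
  zoom : ∀ g ∈ C, ∀ (n : ℕ) (b : ℂ) (s : ℝ), 0 < s →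
    S.CC (fun z => (S.F ^ n) (g (b + s * z))) → (fun z => (S.F ^ n) (g (b + s * z))) ∈ C

/-- the passing property: zeros of `P` on the curves of the class whose orbits pass through `O` -/
def Sys.PP (S : Sys) (C : Set (ℂ → E)) (O : Set E) : Prop :=
  ∀ g ∈ C, ∃ (a : ℂ) (r : ℝ) (n : ℕ), 0 < r ∧ 0 < S.P (g a) ∧
    (∃ b ∈ ball a r, S.P (g b) = 0) ∧ ∀ z ∈ closedBall a (2 * r), (S.F ^ n) (g z) ∈ interior O

/-- the recentred curves -/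
structure Sys.HC (S : Sys) (R : ℝ) (h : ℂ → E) : Prop where
  diff : Differentiable ℂ h
  M0 : ∀ z, S.M (h z) = 0
  P0 : S.P (h 0) = 0
  big : ∃ z, ‖z‖ ≤ R + 1 ∧ S.P (h z) = 1
  gr : ∀ z, S.P (h z) ≤ S.d * (‖z‖ + R + 1) ^ 2

/-- extendable sets of curves -/
def Sys.Ext (S : Sys) (q : ℕ) (σ : ℝ) (A : Set (ℂ → E)) : Prop :=
  ∀ h ∈ A, ∃ (n : ℕ) (s : ℝ), 1 ≤ n ∧ n ≤ q ∧ σ ≤ s ∧ s ≤ 1 / 2 ∧
    (fun z : ℂ => (S.F ^ n) (h (s * z))) ∈ A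

/-- the Jacobian determinant has modulus at most one -/
def Sys.Det (S : Sys) : Prop := ∀ x, ‖(fderiv ℂ (⇑S.F) x).det‖ ≤ 1

/-- the maximum of `u` over the closed disc with centre `b` and radius `s` -/
noncomputable def mx (u : ℂ → ℝ) (b : ℂ) (s : ℝ) : ℝ :=
  sSup ((fun w : ℂ => u (b + s * w)) '' closedBall 0 1)

/-- the derivatives of orders `1, ..., m - 1` vanish at `0` -/
def ordGe (m : ℕ) (h : ℂ → E) : Prop := ∀ i : ℕ, 0 < i → i < m → iteratedDeriv i h 0 = 0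

/-- the diagonal map with entries `l`, `μ` -/
noncomputable def dg (l μ : ℂ) : E →L[ℂ] E :=
  (l • ContinuousLinearMap.fst ℂ ℂ ℂ).prod (μ • ContinuousLinearMap.snd ℂ ℂ ℂ)

theorem dg_apply (l μ : ℂ) (z : E) : dg l μ z = (l * z.1, μ * z.2) := rfl

/-- a vector complementary to `v` -/
noncomputable def perp (v : E) : E :=
  (-(starRingEnd ℂ v.2) / ((‖v.1‖ ^ 2 + ‖v.2‖ ^ 2 : ℝ) : ℂ),
    (starRingEnd ℂ v.1) / ((‖v.1‖ ^ 2 + ‖v.2‖ ^ 2 : ℝ) : ℂ))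

/-- the linear chart with axes `v` and `perp v / q` -/
noncomputable def chart (q : ℝ) (v : E) : E →L[ℂ] E :=
  (ContinuousLinearMap.fst ℂ ℂ ℂ).smulRight v +
    (ContinuousLinearMap.snd ℂ ℂ ℂ).smulRight (((q : ℂ)⁻¹) • perp v)

/-- the inverse of the chart -/
noncomputable def chartInv (q : ℝ) (v : E) : E →L[ℂ] E :=
  ((perp v).2 • ContinuousLinearMap.fst ℂ ℂ ℂ - (perp v).1 • ContinuousLinearMap.snd ℂ ℂ ℂ).prod
    ((q : ℂ) • (v.1 • ContinuousLinearMap.snd ℂ ℂ ℂ - v.2 • ContinuousLinearMap.fst ℂ ℂ ℂ))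

/-- a linear map that expands the horizontal cone by `κ` and contracts the vertical cone -/
structure HypL (A : E →L[ℂ] E) (κ : ℝ) : Prop where
  u : ∀ z : E, ‖z.2‖ ≤ ‖z.1‖ → ‖(A z).2‖ ≤ ‖(A z).1‖ ∧ κ * ‖z.1‖ ≤ ‖(A z).1‖
  s : ∀ z : E, ‖(A z).1‖ ≤ ‖(A z).2‖ → ‖z.1‖ ≤ ‖z.2‖ ∧ κ * ‖(A z).2‖ ≤ ‖z.2‖

/-- a crossing of the curve `g` with the curve `σ`: a common point that is a limit of points of `g`
with `P > 0` -/
structure QS.X (Q : QS) (g : ℂ → E) (z : ℂ) (σ : ℂ → E) (w : ℂ) : Prop where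
  eq : g z = σ w
  fr : ∃ᶠ t in 𝓝 z, 0 < Q.P (g t)

/-- the orbit relation: some point of the orbit of `q` has an unstable manifold that meets the
stable manifold of `q'` -/
def QS.Rel (Q : QS) (q q' : E) : Prop :=
  ∃ j : ℤ, (Wu Q.F ((Q.F ^ j) q) ∩ Ws Q.F q').Nonempty

/-- normalised limits of affine reparametrisations of unstable manifolds of points of `t` -/
def QS.Ct (Q : QS) (t : Set E) : Set (ℂ → E) :=
  {g | Q.CC g ∧ g ∈ Clo {k | ∃ q ∈ t, ∃ a b : ℂ, a ≠ 0 ∧ k = fun z => Q.Xu q (a * z + b)}}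

end Pool.Agent.HQ
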