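import Pool.Agent.HQD.Defs

/-!
# HQD: definitions for the blocks B, C, D
-/

set_option autoImplicit false

open Filter Topology Set Metric

namespace Pool.Agent.HQ

/-- union of the stable sets of the points of the orbit of `q` -/
def WsO (F : Equiv.Perm E) (q : E) : Set E := {x | ∃ i : ℤ, x ∈ Ws F ((F ^ i) q)}

/-- the curve `g` crosses the stable manifolds of the orbit of `q` at the parameter `z` -/
def CrAt (Q : QS) (g : ℂ → E) (z : ℂ) (q : E) : Prop :=
  g z ∈ WsO Q.F q ∧ ∃ᶠ t in 𝓝 z, 0 < Q.P (g t)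

/-- the unstable manifold of `q` meets the stable manifolds of the orbit of `q'` -/
def Rto (Q : QS) (q q' : E) : Prop := ∃ z : ℂ, Q.Xu q z ∈ WsO Q.F q'

/-- the saddles related to `q` -/
def Cls (Q : QS) (q : E) : Set E := {q' | q' ∈ Sad Q.F ∧ Rto Q q q'}

/-- `q` generates a terminal class -/
def Trm (Q : QS) (q : E) : Prop := q ∈ Sad Q.F ∧ ∀ q' ∈ Sad Q.F, Rto Q q q' → Rto Q q' q

/-- the affine reparametrisations of the unstable curves of the saddles of a set -/
def AffC (Q : QS) (T : Set E) : Set (ℂ → E) :=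
  {k | ∃ q ∈ T, ∃ a b : ℂ, a ≠ 0 ∧ k = fun z => Q.Xu q (a * z + b)}

end Pool.Agent.HQ
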