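import Pool.Agent.HQD.Defs

/-!
# HQD: definitions for Lemma P
-/

set_option autoImplicit false

open Filter Topology Set Metric

namespace Pool.Agent.HQ

/-- continuous functions with the local super mean value property -/
def SMV (D : Set ℂ) (s : ℂ → ℝ) : Prop :=
  ContinuousOn s D ∧ ∀ w ∈ D, ∃ ρ > 0, closedBall w ρ ⊆ D ∧
    ∀ r, 0 < r → r ≤ ρ → Real.circleAverage s w r ≤ s w

/-- the mean value property of `P` along discs on which it is positive -/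
def Sys.MV (S : Sys) : Prop :=
  ∀ (γ : ℂ → E) (a : ℂ) (R : ℝ), 0 < R → DifferentiableOn ℂ γ (ball a R) →
    (∀ z ∈ ball a R, 0 < S.P (γ z)) → ∀ r, 0 < r → r < R →
      Real.circleAverage (fun z => S.P (γ z)) a r = S.P (γ a)

/-- the coordinates of `Y` in the chart of the curve `ξ` (of order `m` at `0`) -/
noncomputable def cc (q : ℝ) (m : ℕ) (ξ : ℂ → E) (Y : E) : E :=
  chartInv q (iteratedDeriv m ξ 0) (Y - ξ 0)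

/-- a compact family of curves of `U` of constant order centred on `Z`, stable under the dynamics
in both directions, with a curve for each point of `Z` -/
structure WF (Q : QS) (Z : Set E) (m : ℕ) (c₁ c₂ κ Λ : ℝ) (W : Set (ℂ → E)) : Prop where
  sub : W ⊆ Q.U
  cen : ∀ ξ ∈ W, ξ 0 ∈ Z
  ex : ∀ x ∈ Z, ∃ ξ ∈ W, ξ 0 = x
  cl : ∀ (ξ : ℕ → ℂ → E) (η : ℂ → E), (∀ n, ξ n ∈ W) → TendstoLocallyUniformly ξ η atTop → η ∈ W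
  m0 : 0 < m
  ord : ∀ ξ ∈ W, ordGe m ξ
  c0 : 0 < c₁
  lo : ∀ ξ ∈ W, c₁ ≤ ‖iteratedDeriv m ξ 0‖
  hi : ∀ ξ ∈ W, ‖iteratedDeriv m ξ 0‖ ≤ c₂
  k1 : 1 < κ
  fwd : ∀ ξ ∈ W, ∃ η ∈ W, ∃ a : ℂ, κ ≤ ‖a‖ ∧ ‖a‖ ≤ Λ ∧ ∀ z, Q.F (ξ z) = η (a * z)
  bwd : ∀ ξ ∈ W, ∃ η ∈ W, ∃ a : ℂ, κ ≤ ‖a‖ ∧ ‖a‖ ≤ Λ ∧ ∀ z, Q.F (η z) = ξ (a * z)

/-- chains of curves of `W` for `F ^ N` -/
structure Chn (Q : QS) (W : Set (ℂ → E)) (κ : ℝ) (N : ℕ) (η : ℤ → ℂ → E) : Prop where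
  mem : ∀ j, η j ∈ W
  step : ∀ j, ∃ a : ℂ, κ ^ N ≤ ‖a‖ ∧ ∀ z, (Q.F ^ N) (η j z) = η (j + 1) (a * z)

/-- the hyperbolic estimates for `F ^ N` in the charts of `W`, in the boxes of size `ε` -/
def Est (Q : QS) (W : Set (ℂ → E)) (κ q ε : ℝ) (m N : ℕ) : Prop :=
  ∀ ξ ∈ W, ∀ η ∈ W, ∀ a : ℂ, κ ^ N ≤ ‖a‖ → (∀ z, (Q.F ^ N) (ξ z) = η (a * z)) →
    ∃ l μ : ℂ, 2 ≤ ‖l‖ ∧ ‖μ‖ ≤ 1 / 2 ∧
      (∀ Y Y' : E, ‖cc q m ξ Y‖ ≤ ε → ‖cc q m ξ Y'‖ ≤ ε →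
        ‖cc q m η ((Q.F ^ N) Y) - cc q m η ((Q.F ^ N) Y') - dg l μ (cc q m ξ Y - cc q m ξ Y')‖ ≤
          ‖cc q m ξ Y - cc q m ξ Y'‖ / 8) ∧
      ∀ w : E, ‖chartInv q (iteratedDeriv m η 0) (fderiv ℂ (⇑(Q.F ^ N)) (ξ 0) w) -
        dg l μ (chartInv q (iteratedDeriv m ξ 0) w)‖ ≤
          ‖chartInv q (iteratedDeriv m ξ 0) w‖ / 8

/-- local mean value property -/
def LMV (D : Set ℂ) (u : ℂ → ℝ) : Prop :=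
  ContinuousOn u D ∧ ∀ w ∈ D, ∃ ρ > 0, closedBall w ρ ⊆ D ∧
    ∀ r, 0 < r → r ≤ ρ → Real.circleAverage u w r = u w

end Pool.Agent.HQ
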