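import Pool.Agent.HQD.Defs
import Pool.Agent.HQ.UBas
import Pool.Agent.HQ.GrF
import Pool.Agent.HQ.Acc60
import Pool.Agent.HQ.Lk4

/-!
# HQD module F1u: unstable manifolds are dense in the frontier of `K⁻`
-/

set_option autoImplicit false

open Filter Topology Set Metric

namespace Pool.Agent.HQ

/-- `P` takes positive values near the centre of a curve of `U` -/
theorem U_freq (Q : QS) {ξ : ℂ → E} (hξ : ξ ∈ Q.U) : ∃ᶠ t in 𝓝 (0 : ℂ), 0 < Q.P (ξ t) := by
  rw [Metric.nhds_basis_ball.frequently_iff]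
  intro r hr
  obtain ⟨z, hz, hz2⟩ := U_pos Q hξ hr
  exact ⟨z, hz, hz2⟩

theorem F1u (Q : QS) (hH : Hen Q.toSys) {q : E} (hq : q ∈ Sad Q.F) :
    frontier Q.Km ⊆ closure (⋃ j : ℕ, Wu Q.F ((Q.F ^ j) q)) := by
  intro y hy
  have hyM : Q.M y = 0 := by
    have := hy.1
    rwa [Q.isClosed_Km.closure_eq] at this
  rw [Metric.mem_closure_iff]
  intro ε hε
  have hε2 : 0 < ε / 2 := by positivity
  obtain ⟨x, hx, hxM⟩ : ∃ x ∈ ball y (ε / 2), 0 < Q.M x := by
    by_contra hcon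
    push Not at hcon
    refine hy.2 (mem_interior.2 ⟨ball y (ε / 2), fun x hx => ?_, isOpen_ball, mem_ball_self hε2⟩)
    exact le_antisymm (hcon x hx) (Q.M0 x)
  have hxy : x ≠ y := fun h => by rw [h, hyM] at hxM; exact lt_irrefl _ hxM
  have hn : 0 < ‖x - y‖ := norm_pos_iff.2 (sub_ne_zero.2 hxy)
  have hn2 : ‖x - y‖ < ε / 2 := by rwa [← dist_eq_norm]
  set T : ℂ → E := fun t => y + t • (x - y) with hT
  have hTd : Differentiable ℂ T :=
    (differentiable_const _).add (differentiable_id.smul_const _)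
  have hTy : ∀ t, ‖T t - y‖ = ‖t‖ * ‖x - y‖ := fun t => by
    rw [hT]
    simp [norm_smul]
  have h0 : Q.M (T 0) = 0 := by simpa [hT] using hyM
  have h1 : 0 < Q.M (T 1) := by simpa [hT] using hxM
  have hr : 1 < ε / 2 / ‖x - y‖ := by rwa [one_lt_div hn]
  obtain ⟨a2, b2, A2⟩ := exists_acc' Q.cM Q.M0 hTd.continuous (D := ball 0 (ε / 2 / ‖x - y‖))
    isOpen_ball (convex_ball _ _).isPreconnected
    ⟨0, mem_ball_self (by positivity), h0⟩ ⟨1, by simpa using hr, h1⟩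
  have hXd : Differentiable ℂ (Q.Xu q) := (Q.hu q hq).diff
  obtain ⟨a1, b1, A1, -⟩ := exists_acc Q.cP Q.P0 hXd.continuous isOpen_univ (mem_univ (0 : ℂ))
    (by rw [(Q.hu q hq).zero]; exact Q.Sad_P hq) (U_freq Q (Xu_mem_U Q hq)) 1 one_pos
  obtain ⟨m, -, z, -, s, -, -, hs, hd⟩ := link hH isOpen_univ isOpen_ball
    hXd.differentiableOn hTd.differentiableOn A1 A2 one_pos hε2 0
  refine ⟨(Q.F ^ m) (Q.Xu q z), mem_iUnion.2 ⟨m, ?_⟩, ?_⟩
  · have h2 : Q.Xu q z ∈ Wu Q.F q := by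
      rw [← (Q.hu q hq).range]
      exact mem_range_self z
    have h3 := (Q.mem_Wu (m : ℤ) (Q.Xu q z) q).2 h2
    simpa using h3
  · have h4 : dist (T s) y < ε / 2 := by
      rw [dist_eq_norm, hTy]
      rw [mem_ball, dist_zero_right] at hs
      calc ‖s‖ * ‖x - y‖ < ε / 2 / ‖x - y‖ * ‖x - y‖ := by gcongr
        _ = ε / 2 := by field_simp
    calc dist y ((Q.F ^ m) (Q.Xu q z)) ≤ dist y (T s) + dist (T s) ((Q.F ^ m) (Q.Xu q z)) :=
          dist_triangle _ _ _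
      _ < ε / 2 + ε / 2 := by
          rw [dist_comm y (T s), dist_comm (T s) ((Q.F ^ m) (Q.Xu q z))]
          exact add_lt_add h4 hd
      _ = ε := by ring

/-- unstable manifolds of saddle points are dense in the frontier of `K⁻` -/
theorem F1u_all (Q : QS) (hH : Hen Q.toSys) (hS : (Sad Q.F).Nonempty) :
    frontier Q.Km ⊆ closure (⋃ p ∈ Sad Q.F, Wu Q.F p) := by
  obtain ⟨q, hq⟩ := hS
  refine (F1u Q hH hq).trans (closure_mono (iUnion_subset fun j => ?_))
  have h1 : (Q.F ^ j) q ∈ Sad Q.F := by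
    have := (Q.mem_Sad (j : ℤ) q).2 hq
    simpa using this
  exact subset_biUnion_of_mem (u := fun p => Wu Q.F p) h1

/-- stable manifolds of saddle points are dense in the frontier of `K⁺` -/
theorem F1s_all (Q : QS) (hH : Hen Q.toSys) (hS : (Sad Q.F).Nonempty) :
    frontier Q.Kp ⊆ closure (⋃ p ∈ Sad Q.F, Ws Q.F p) := by
  have h := F1u_all Q.dual hH.dual (by rw [QS.dual_Sad]; exact hS)
  rw [QS.dual_Sad] at h
  have h2 : ∀ p, Wu Q.dual.F p = Ws Q.F p := fun p => by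
    unfold Wu
    rw [QS.dual_F, inv_inv]
  simp only [h2] at h
  exact h

end Pool.Agent.HQ
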