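import Pool.Agent.HQD.Fu

/-!
# HQD [F2u]: a terminal class of saddles
-/

set_option autoImplicit false

open Filter Topology Set Metric

namespace Pool.Agent.HQ

/-- There is a nonempty invariant set `t` of saddles, relatively closed in the set of saddles,
such that the boundary points of the unstable manifolds of `t` are in the closure of `t`. -/
theorem F2u (Q : QS) (hdet : Q.Det) : ∃ t ⊆ Sad Q.F, t.Nonempty ∧
    (∀ p, Q.F p ∈ t ↔ p ∈ t) ∧ (∀ p ∈ Sad Q.F, p ∈ closure t → p ∈ t) ∧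
    ∀ p ∈ t, ∀ z, Q.P (Q.Xu p z) = 0 → (∃ᶠ s in 𝓝 z, 0 < Q.P (Q.Xu p s)) →
      Q.Xu p z ∈ closure t := by
  obtain ⟨q₀, h0⟩ := exists_Trm Q (sad_ne Q.toSys hdet)
  refine ⟨Cls Q q₀, fun q hq => hq.1, ⟨q₀, h0.1, Rto_refl Q h0.1⟩, fun p => ?_,
    fun p hp hpc => Cls_clo Q h0 hp hpc, fun p hp z hz hz' => F2t Q hdet h0 hp hz hz'⟩
  have := Cls_zpow Q h0 (q := p) 1
  rwa [zpow_one] at this

end Pool.Agent.HQ
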