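import Pool.Agent.HQD.ZD0
import Pool.Agent.HQD.Cr

/-!
# HQD [P1]: every curve of the class `CC` crosses the stable manifold of a saddle
-/

set_option autoImplicit false

open Filter Topology Set Metric

namespace Pool.Agent.HQ

theorem PP_univ (S : Sys) {C : Set (ℂ → E)} (hC : ∀ g ∈ C, S.CC g) : S.PP C univ := by
  intro g hg
  obtain ⟨a, ha1, ha2⟩ := (hC g hg).eq1
  refine ⟨a, 2, 0, two_pos, by rw [ha2]; exact one_pos, ⟨0, ?_, (hC g hg).P0⟩, ?_⟩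
  · rw [mem_ball, dist_comm, dist_zero_right]
    linarith
  · intro z _
    rw [interior_univ]
    exact mem_univ _

/-- the zoom class generated by a curve -/
theorem ZC_gen (S : Sys) {g : ℂ → E} (hg : S.CC g) :
    S.ZC {h | S.CC h ∧ h ∈ Clo {k : ℂ → E | ∃ (n : ℕ) (b : ℂ) (s : ℝ), 0 < s ∧
      k = fun z => (S.F ^ n) (g (b + s * z))}} := by
  set A : Set (ℂ → E) := {k : ℂ → E | ∃ (n : ℕ) (b : ℂ) (s : ℝ), 0 < s ∧
      k = fun z => (S.F ^ n) (g (b + s * z))} with hA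
  refine ⟨fun h hh => hh.1, fun h hh hc => ⟨hc, ?_⟩, fun h hh n b s hs hc => ⟨hc, ?_⟩⟩
  · have h1 : Clo {h | S.CC h ∧ h ∈ Clo A} ⊆ Clo (Clo A) := Clo_mono fun k hk => hk.2
    rw [Clo_Clo] at h1
    exact h1 hh
  · refine Clo_mono ?_ (Clo_zoom S hh.2 hh.1.diff.continuous n b s)
    rintro _ ⟨_, ⟨m, b', s', hs', rfl⟩, rfl⟩
    refine ⟨n + m, b' + s' * b, s' * s, mul_pos hs' hs, ?_⟩
    funext z
    show (S.F ^ n) ((S.F ^ m) (g (b' + s' * (b + s * z)))) =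
      (S.F ^ (n + m)) (g (b' + s' * b + ((s' * s : ℝ) : ℂ) * z))
    rw [pow_add, Equiv.Perm.mul_apply]
    congr 3
    push_cast
    ring

theorem P1 (Q : QS) (hdet : Q.Det) {g : ℂ → E} (hg : Q.CC g) :
    ∃ q ∈ Sad Q.F, ∃ z, CrAt Q g z q := by
  set A : Set (ℂ → E) := {k : ℂ → E | ∃ (n : ℕ) (b : ℂ) (s : ℝ), 0 < s ∧
      k = fun z => (Q.F ^ n) (g (b + s * z))} with hA
  have hZ := ZC_gen Q.toSys hg
  set C : Set (ℂ → E) := {h | Q.CC h ∧ h ∈ Clo A} with hC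
  have hgC : g ∈ C := by
    refine ⟨hg, subset_Clo _ ⟨0, 0, 1, one_pos, ?_⟩⟩
    funext z
    simp
  obtain ⟨R, h, hh, hd, hM, h0, hf, -⟩ := zoomD0 Q.toSys hdet hZ ⟨g, hgC⟩ isClosed_univ
    (PP_univ Q.toSys hZ.sub)
  obtain ⟨δ, hδ, hn⟩ := CrAt_near Q isOpen_univ isPreconnected_univ hd.differentiableOn
    (mem_univ 0) h0 hf
  obtain ⟨q, hq, hqd⟩ := Metric.mem_closure_iff.1 h0 δ hδ
  rw [dist_comm] at hqd
  obtain ⟨z, -, hz⟩ := hn q hq hqd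
  obtain ⟨k, ⟨g', hg', ζ, -, rfl⟩, z', hz'⟩ := CrAt_Clo Q (A := {k | ∃ g ∈ C, ∃ ζ : ℂ, ‖ζ‖ ≤ R ∧
    k = fun z => g (ζ + z)}) (by
      rintro _ ⟨g', hg', ζ, -, rfl⟩
      exact hg'.1.diff.comp (differentiable_id.const_add ζ)) hh hq hz
  have h1 : CrAt Q g' (1 * z' + ζ) q := by
    refine CrAt_affine Q (n := 0) one_ne_zero ?_
    have h2 : (fun t : ℂ => (Q.F ^ (0 : ℤ)) (g' (1 * t + ζ))) = fun z => g' (ζ + z) := by
      funext t
      rw [zpow_zero, Equiv.Perm.one_apply, one_mul, add_comm]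
    rw [h2]
    exact hz'
  obtain ⟨k, ⟨n, b, s, hs, rfl⟩, z'', hz''⟩ := CrAt_Clo Q (A := A) (by
      rintro _ ⟨n, b, s, -, rfl⟩
      exact (Q.diff_pow n).comp (hg.diff.comp ((differentiable_id.const_mul (s : ℂ)).const_add b)))
    hg'.2 hq h1
  refine ⟨q, hq, (s : ℂ) * z'' + b, CrAt_affine Q (n := (n : ℤ)) (by exact_mod_cast hs.ne') ?_⟩
  have h2 : (fun t : ℂ => (Q.F ^ (n : ℤ)) (g ((s : ℂ) * t + b))) =
      fun z => (Q.F ^ n) (g (b + s * z)) := by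
    funext t
    rw [zpow_natCast, add_comm]
  rw [h2]
  exact hz''

end Pool.Agent.HQ
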