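import Pool.Agent.HQD.Tm
import Pool.Agent.HQD.P1

/-!
# HQD [Fu]: boundary points of unstable manifolds of a terminal class (D4, D5)
-/

set_option autoImplicit false

open Filter Topology Set Metric

namespace Pool.Agent.HQ

theorem Fu_func_pow (Q : QS) {p : E} (hp : p ∈ Sad Q.F) (n : ℕ) :
    (Q.F ^ n) p ∈ Sad Q.F ∧
      ∃ l : ℂ, l ≠ 0 ∧ ∀ z, (Q.F ^ n) (Q.Xu p z) = Q.Xu ((Q.F ^ n) p) (l * z) := by
  induction n with
  | zero => exact ⟨by simpa using hp, 1, one_ne_zero, fun z => by simp⟩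
  | succ n ih =>
    obtain ⟨h1, l, hl, h2⟩ := ih
    obtain ⟨l', hl', h3⟩ := func_eq Q h1
    refine ⟨?_, l' * l, mul_ne_zero hl' hl, fun z => ?_⟩
    · rw [pow_succ', Equiv.Perm.mul_apply]
      exact Sad_apply Q.dF Q.dG h1
    · rw [pow_succ', Equiv.Perm.mul_apply, Equiv.Perm.mul_apply, h2, h3, mul_assoc]

theorem Fu_aff_diff (Q : QS) {q₀ : E} : ∀ g ∈ AffC Q (Cls Q q₀), Differentiable ℂ g := by
  rintro _ ⟨q, hq, a, b, -, rfl⟩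
  exact (Q.hu q hq.1).diff.comp ((differentiable_id.const_mul a).add_const b)

theorem Fu_aff_zoom (Q : QS) {q₀ : E} (h0 : Trm Q q₀) {g : ℂ → E}
    (hg : g ∈ AffC Q (Cls Q q₀)) (n : ℕ) {b s : ℂ} (hs : s ≠ 0) :
    (fun z => (Q.F ^ n) (g (b + s * z))) ∈ AffC Q (Cls Q q₀) := by
  obtain ⟨q, hq, a, β, ha, rfl⟩ := hg
  obtain ⟨h1, l, hl, h2⟩ := Fu_func_pow Q hq.1 n
  refine ⟨(Q.F ^ n) q, ?_, l * a * s, l * (a * b + β), ?_, ?_⟩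
  · have := (Cls_zpow Q h0 (q := q) (n : ℤ)).2 hq
    rwa [zpow_natCast] at this
  · exact mul_ne_zero (mul_ne_zero hl ha) hs
  · funext z
    rw [h2]
    congr 1
    ring

theorem CT_ZC (Q : QS) {q₀ : E} (h0 : Trm Q q₀) : Q.ZC (Q.Ct (Cls Q q₀)) := by
  refine ⟨fun g hg => hg.1, fun g hg hgC => ⟨hgC, ?_⟩, fun g hg n b s hs hC => ⟨hC, ?_⟩⟩
  · have h1 : Q.Ct (Cls Q q₀) ⊆ Clo (AffC Q (Cls Q q₀)) := fun k hk => hk.2
    have h2 := Clo_mono h1 hg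
    rw [Clo_Clo] at h2
    exact h2
  · have h1 : g ∈ Clo (AffC Q (Cls Q q₀)) := hg.2
    have h2 := Clo_zoom Q.toSys h1 hg.1.diff.continuous n b (s : ℂ)
    have hs' : (s : ℂ) ≠ 0 := Complex.ofReal_ne_zero.2 hs.ne'
    refine Clo_mono ?_ h2
    rintro _ ⟨k, hk, rfl⟩
    exact Fu_aff_zoom Q h0 hk n hs'

theorem CT_ne (Q : QS) {q₀ : E} (h0 : Trm Q q₀) : (Q.Ct (Cls Q q₀)).Nonempty := by
  have u := Q.hu q₀ h0.1
  obtain ⟨b, n, s, g, hs, -, -, hC, hlim⟩ := zoomEx Q.toSys u.diff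
    ⟨0, by rw [u.zero]; exact Q.Sad_P h0.1⟩
    (by
      obtain ⟨z, -, hz⟩ := u.eq_one
      exact ⟨z, by rw [hz]; exact one_pos⟩)
  refine ⟨g, hC, mem_Clo_iff.2 ⟨_, fun k => ?_, hlim⟩⟩
  have hmem : Q.Xu q₀ ∈ AffC Q (Cls Q q₀) :=
    ⟨q₀, ⟨h0.1, Rto_refl Q h0.1⟩, 1, 0, one_ne_zero, by
      funext z
      rw [one_mul, add_zero]⟩
  exact Fu_aff_zoom Q h0 hmem (n k) (Complex.ofReal_ne_zero.2 (hs k).ne')

theorem Fu_mem_Cls (Q : QS) {q₀ : E} (h0 : Trm Q q₀) {g : ℂ → E}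
    (hg : g ∈ Clo (AffC Q (Cls Q q₀))) {q : E} (hq : q ∈ Sad Q.F) {z : ℂ}
    (hc : CrAt Q g z q) : q ∈ Cls Q q₀ := by
  obtain ⟨g', hg', z', hc'⟩ := CrAt_Clo Q (Fu_aff_diff Q) hg hq hc
  obtain ⟨q', hq', hr⟩ := Rto_of_AffC Q hg' hc'
  exact Cls_up Q h0 hq' hq hr

/-- (D4) -/
theorem CT_cross (Q : QS) (hdet : Q.Det) {q₀ : E} (h0 : Trm Q q₀) {g : ℂ → E}
    (hg : g ∈ Q.Ct (Cls Q q₀)) {p : E} (hp : p ∈ Cls Q q₀) : ∃ z, CrAt Q g z p := by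
  obtain ⟨q, hq, z, hc⟩ := P1 Q hdet hg.1
  have hqC : q ∈ Cls Q q₀ := Fu_mem_Cls Q h0 hg.2 hq hc
  obtain ⟨z', -, hz'⟩ := CrAt_trans Q hq hp.1 isOpen_univ hg.1.diff.differentiableOn
    (fun z _ => hg.1.M0 z) ⟨z, mem_univ _, hc⟩ (Cls_rto Q h0 hqC hp)
  exact ⟨z', hz'⟩

/-- (D5) -/
theorem F2t (Q : QS) (hdet : Q.Det) {q₀ : E} (h0 : Trm Q q₀) {p : E}
    (hp : p ∈ Cls Q q₀) {z : ℂ} (hz : Q.P (Q.Xu p z) = 0)
    (hz' : ∃ᶠ t in 𝓝 z, 0 < Q.P (Q.Xu p t)) : Q.Xu p z ∈ closure (Cls Q q₀) := by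
  have key : ∀ e : ℝ, 0 < e → ∃ y ∈ closure (Cls Q q₀), y ∈ closedBall (Q.Xu p z) e := by
    intro e he
    have hPP : Q.PP (Q.Ct (Cls Q q₀)) (closedBall (Q.Xu p z) e) := by
      intro g hg
      obtain ⟨a, r, n, hr, ha, hb, hball⟩ := pass_near Q hp.1 hg.1.diff hg.1.M0
        (CT_cross Q hdet h0 hg hp) hz hz' he
      exact ⟨a, r, n, hr, ha, hb, fun w hw => ball_subset_interior_closedBall (hball w hw)⟩
    obtain ⟨R, h, hh, hd, -, hS, hf, m, hm⟩ := zoomD0 Q.toSys hdet (CT_ZC Q h0) (CT_ne Q h0)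
      isClosed_closedBall hPP
    obtain ⟨δ, hδ, hnear⟩ := CrAt_near Q isOpen_univ isPreconnected_univ hd.differentiableOn
      (mem_univ (0 : ℂ)) hS hf
    have hcl : h 0 ∈ closure (Cls Q q₀) := by
      rw [Metric.mem_closure_iff]
      intro ε hε
      obtain ⟨q, hq, hqd⟩ := Metric.mem_closure_iff.1 hS (min δ ε) (lt_min hδ hε)
      rw [dist_comm] at hqd
      obtain ⟨z1, -, hz1⟩ := hnear q hq (lt_of_lt_of_le hqd (min_le_left _ _))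
      have hA : ∀ k ∈ {k : ℂ → E | ∃ g ∈ Q.Ct (Cls Q q₀), ∃ ζ : ℂ, ‖ζ‖ ≤ R ∧
          k = fun z => g (ζ + z)}, Differentiable ℂ k := by
        rintro _ ⟨g, hg, ζ, -, rfl⟩
        exact hg.1.diff.comp ((differentiable_const ζ).add differentiable_id)
      obtain ⟨k, ⟨g, hg, ζ, -, rfl⟩, z2, hz2⟩ := CrAt_Clo Q hA hh hq hz1
      have hz3 : CrAt Q g (1 * z2 + ζ) q := by
        refine CrAt_affine Q (n := 0) one_ne_zero ?_
        have h5 : (fun t => (Q.F ^ (0 : ℤ)) (g (1 * t + ζ))) = fun z => g (ζ + z) := by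
          funext t
          rw [zpow_zero, one_mul, add_comm t ζ]
          rfl
        rw [h5]
        exact hz2
      refine ⟨q, Fu_mem_Cls Q h0 hg.2 hq hz3, ?_⟩
      rw [dist_comm]
      exact lt_of_lt_of_le hqd (min_le_right _ _)
    refine ⟨(Q.F ^ m) (h 0), ?_, hm⟩
    have := (Cls_clo_zpow Q h0 (x := h 0) (m : ℤ)).2 hcl
    rwa [zpow_natCast] at this
  rw [← closure_closure, Metric.mem_closure_iff]
  intro ε hε
  obtain ⟨y, hy, hy2⟩ := key (ε / 2) (by positivity)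
  refine ⟨y, hy, ?_⟩
  rw [mem_closedBall, dist_comm] at hy2
  linarith

end Pool.Agent.HQ
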