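import Pool.Agent.HQD.Defs
import Pool.Agent.HQD.DefsP
import Pool.Agent.HQ.Gro

/-!
# HQD module PChn: chains
-/

set_option autoImplicit false

open Filter Topology Set Metric

namespace Pool.Agent.HQ

theorem PChn_fwd {Q : QS} {Z : Set E} {m : ℕ} {c₁ c₂ κ Λ : ℝ} {W : Set (ℂ → E)}
    (hW : WF Q Z m c₁ c₂ κ Λ W) (N : ℕ) : ∀ ξ ∈ W, ∃ η ∈ W, ∃ a : ℂ, κ ^ N ≤ ‖a‖ ∧
      ∀ z, (Q.F ^ N) (ξ z) = η (a * z) := by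
  induction N with
  | zero =>
    intro ξ hξ
    exact ⟨ξ, hξ, 1, by simp, fun z => by simp⟩
  | succ N ih =>
    intro ξ hξ
    obtain ⟨η₁, h1, a₁, ha₁, -, e₁⟩ := hW.fwd ξ hξ
    obtain ⟨η, h2, a₂, ha₂, e₂⟩ := ih η₁ h1
    have hk : 0 ≤ κ := by have := hW.k1; linarith
    refine ⟨η, h2, a₂ * a₁, ?_, fun z => ?_⟩
    · rw [pow_succ, norm_mul]
      exact mul_le_mul ha₂ ha₁ hk (norm_nonneg _)
    · rw [pow_succ, Equiv.Perm.mul_apply, e₁, e₂, mul_assoc]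

theorem PChn_bwd {Q : QS} {Z : Set E} {m : ℕ} {c₁ c₂ κ Λ : ℝ} {W : Set (ℂ → E)}
    (hW : WF Q Z m c₁ c₂ κ Λ W) (N : ℕ) : ∀ ξ ∈ W, ∃ η ∈ W, ∃ a : ℂ, κ ^ N ≤ ‖a‖ ∧
      ∀ z, (Q.F ^ N) (η z) = ξ (a * z) := by
  induction N with
  | zero =>
    intro ξ hξ
    exact ⟨ξ, hξ, 1, by simp, fun z => by simp⟩
  | succ N ih =>
    intro ξ hξ
    obtain ⟨η₁, h1, a₁, ha₁, -, e₁⟩ := hW.bwd ξ hξ
    obtain ⟨η, h2, a₂, ha₂, e₂⟩ := ih η₁ h1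
    have hk : 0 ≤ κ := by have := hW.k1; linarith
    refine ⟨η, h2, a₁ * a₂, ?_, fun z => ?_⟩
    · rw [pow_succ', norm_mul]
      exact mul_le_mul ha₁ ha₂ (pow_nonneg hk _) (norm_nonneg _)
    · rw [pow_succ', Equiv.Perm.mul_apply, e₂, e₁, mul_assoc]

theorem exists_chn {Q : QS} {Z : Set E} {m : ℕ} {c₁ c₂ κ Λ : ℝ} {W : Set (ℂ → E)}
    (hW : WF Q Z m c₁ c₂ κ Λ W) (N : ℕ) {ξ : ℂ → E} (hξ : ξ ∈ W) :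
    ∃ η : ℤ → ℂ → E, Chn Q W κ N η ∧ η 0 = ξ := by
  obtain ⟨x, hx0, hx⟩ := Gro_int
    (R := fun s t : {g : ℂ → E // g ∈ W} => ∃ a : ℂ, κ ^ N ≤ ‖a‖ ∧
      ∀ z, (Q.F ^ N) (s.1 z) = t.1 (a * z))
    (fun t => by
      obtain ⟨η, h1, h2⟩ := PChn_fwd hW N t.1 t.2
      exact ⟨⟨η, h1⟩, h2⟩)
    (fun t => by
      obtain ⟨η, h1, h2⟩ := PChn_bwd hW N t.1 t.2
      exact ⟨⟨η, h1⟩, h2⟩) ⟨ξ, hξ⟩
  exact ⟨fun j => (x j).1, ⟨fun j => (x j).2, hx⟩, congrArg Subtype.val hx0⟩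

theorem Chn.center {Q : QS} {W : Set (ℂ → E)} {κ : ℝ} {N : ℕ} {η : ℤ → ℂ → E}
    (h : Chn Q W κ N η) (j : ℤ) (i : ℤ) : (Q.F ^ ((N : ℤ) * i)) (η j 0) = η (j + i) 0 := by
  have hs : ∀ k : ℤ, (Q.F ^ (N : ℤ)) (η k 0) = η (k + 1) 0 := by
    intro k
    obtain ⟨a, -, ha⟩ := h.step k
    have h1 := ha 0
    rw [mul_zero] at h1
    rw [zpow_natCast]
    exact h1
  induction i using Int.induction_on with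
  | zero => simp
  | succ i ih =>
    have e1 : (N : ℤ) * ((i : ℤ) + 1) = (N : ℤ) + (N : ℤ) * (i : ℤ) := by ring
    rw [e1, zpow_add, Equiv.Perm.mul_apply, ih, hs, add_assoc]
  | pred i ih =>
    have e1 : (N : ℤ) * (-(i : ℤ)) = (N : ℤ) + (N : ℤ) * (-(i : ℤ) - 1) := by ring
    rw [e1, zpow_add, Equiv.Perm.mul_apply] at ih
    have h2 := hs (j + (-(i : ℤ) - 1))
    have e2 : j + (-(i : ℤ) - 1) + 1 = j + -(i : ℤ) := by ring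
    rw [e2, ← ih] at h2
    exact ((Q.F ^ (N : ℤ)).injective h2).symm

theorem PChn_dual {Q : QS} {Z : Set E} {m' : ℕ} {c₁' c₂' κ' Λ' : ℝ}
    {W' : Set (ℂ → E)} (hW' : WF Q.dual Z m' c₁' c₂' κ' Λ' W') (N : ℕ) :
    ∀ σ ∈ W', ∃ τ ∈ W', ∃ a : ℂ, κ' ^ N ≤ ‖a‖ ∧ ∀ z, (Q.F ^ N) (σ (a * z)) = τ z := by
  induction N with
  | zero =>
    intro ξ hξ
    exact ⟨ξ, hξ, 1, by simp, fun z => by simp⟩
  | succ N ih =>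
    intro ξ hξ
    obtain ⟨η₁, h1, a₁, ha₁, e₁⟩ := ih ξ hξ
    obtain ⟨η, h2, a₂, ha₂, -, e₂⟩ := hW'.bwd η₁ h1
    have hk : 0 ≤ κ' := by have := hW'.k1; linarith
    refine ⟨η, h2, a₁ * a₂, ?_, fun z => ?_⟩
    · rw [pow_succ, norm_mul]
      exact mul_le_mul ha₁ ha₂ hk (norm_nonneg _)
    · rw [pow_succ', Equiv.Perm.mul_apply, mul_assoc, e₁]
      have h3 : Q.F⁻¹ (η z) = η₁ (a₂ * z) := e₂ z
      rw [← h3]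
      exact Q.F.apply_symm_apply _

/-- for every point of `Z` there is a chain of stable curves centred on the same orbit -/
theorem exists_dual_chain {Q : QS} {Z : Set E} {m' : ℕ} {c₁' c₂' κ' Λ' : ℝ}
    {W' : Set (ℂ → E)} (hW' : WF Q.dual Z m' c₁' c₂' κ' Λ' W') (N : ℕ) {σ : ℂ → E}
    (hσ : σ ∈ W') : ∃ τ : ℕ → ℂ → E, (∀ i, τ i ∈ W') ∧ τ 0 = σ ∧
      ∀ i, ∃ a : ℂ, κ' ^ N ≤ ‖a‖ ∧ ∀ z, (Q.F ^ N) (τ i (a * z)) = τ (i + 1) z := by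
  have h0 : ∀ s : {g : ℂ → E // g ∈ W'}, ∃ t : {g : ℂ → E // g ∈ W'}, ∃ a : ℂ,
      κ' ^ N ≤ ‖a‖ ∧ ∀ z, (Q.F ^ N) (s.1 (a * z)) = t.1 z := by
    intro s
    obtain ⟨τ, h1, h2⟩ := PChn_dual hW' N s.1 s.2
    exact ⟨⟨τ, h1⟩, h2⟩
  choose f hf using h0
  refine ⟨fun i => (f^[i] ⟨σ, hσ⟩).1, fun i => (f^[i] ⟨σ, hσ⟩).2, rfl, fun i => ?_⟩
  have h1 := hf (f^[i] ⟨σ, hσ⟩)
  rw [← Function.iterate_succ_apply' f i] at h1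
  exact h1

end Pool.Agent.HQ
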