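import Pool.Agent.HQD.Defs
import Pool.Agent.HQD.DefsP

/-!
# HQD module PCon: cones and thinness for sequences
-/

set_option autoImplicit false

open Filter Topology Set Metric

namespace Pool.Agent.HQ

private theorem PCon_comp {l μ : ℂ} (hl : 2 ≤ ‖l‖) (hμ : ‖μ‖ ≤ 1 / 2) {w w' : E}
    (h : ‖w' - dg l μ w‖ ≤ ‖w‖ / 8) :
    2 * ‖w.1‖ - ‖w‖ / 8 ≤ ‖w'.1‖ ∧ ‖w'.2‖ ≤ 1 / 2 * ‖w.2‖ + ‖w‖ / 8 := by
  have h1 : ‖(w' - dg l μ w).1‖ ≤ ‖w‖ / 8 := (norm_fst_le _).trans h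
  have h2 : ‖(w' - dg l μ w).2‖ ≤ ‖w‖ / 8 := (norm_snd_le _).trans h
  rw [dg_apply, Prod.fst_sub] at h1
  rw [dg_apply, Prod.snd_sub] at h2
  simp only at h1 h2
  constructor
  · have h3 : ‖l * w.1‖ ≤ ‖w'.1‖ + ‖w'.1 - l * w.1‖ := by
      have h4 : l * w.1 = w'.1 - (w'.1 - l * w.1) := by ring
      calc ‖l * w.1‖ = ‖w'.1 - (w'.1 - l * w.1)‖ := by rw [← h4]
        _ ≤ _ := norm_sub_le _ _
    rw [norm_mul] at h3
    have h5 : 2 * ‖w.1‖ ≤ ‖l‖ * ‖w.1‖ := mul_le_mul_of_nonneg_right hl (norm_nonneg _)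
    linarith
  · have h3 : ‖w'.2‖ ≤ ‖μ * w.2‖ + ‖w'.2 - μ * w.2‖ := by
      have h4 : w'.2 = μ * w.2 + (w'.2 - μ * w.2) := by ring
      calc ‖w'.2‖ = ‖μ * w.2 + (w'.2 - μ * w.2)‖ := by rw [← h4]
        _ ≤ _ := norm_add_le _ _
    rw [norm_mul] at h3
    have h5 : ‖μ‖ * ‖w.2‖ ≤ 1 / 2 * ‖w.2‖ := mul_le_mul_of_nonneg_right hμ (norm_nonneg _)
    linarith

theorem cone_vec {l μ : ℂ} (hl : 2 ≤ ‖l‖) (hμ : ‖μ‖ ≤ 1 / 2) {w w' : E}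
    (h : ‖w' - dg l μ w‖ ≤ ‖w‖ / 8) :
    (‖w.2‖ ≤ ‖w.1‖ → ‖w'.2‖ ≤ ‖w'.1‖ ∧ 8 / 5 * ‖w.1‖ ≤ ‖w'.1‖) ∧
      (‖w'.1‖ ≤ ‖w'.2‖ → ‖w.1‖ ≤ ‖w.2‖ ∧ 8 / 5 * ‖w'.2‖ ≤ ‖w.2‖) ∧
      ‖w'.2‖ ≤ 5 / 8 * ‖w‖ ∧ ‖w.1‖ ≤ 1 / 2 * ‖w'.1‖ + 1 / 16 * ‖w‖ := by
  obtain ⟨h1, h2⟩ := PCon_comp hl hμ h
  have hw : ‖w‖ = max ‖w.1‖ ‖w.2‖ := Prod.norm_def w
  have hn1 := norm_nonneg w.1
  have hn2 := norm_nonneg w.2
  refine ⟨?_, ?_, ?_, ?_⟩
  · intro h3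
    rw [max_eq_left h3] at hw
    rw [hw] at h1 h2
    constructor <;> linarith
  · intro h3
    rcases le_or_gt ‖w.1‖ ‖w.2‖ with h4 | h4
    · rw [max_eq_right h4] at hw
      rw [hw] at h1 h2
      exact ⟨h4, by linarith⟩
    · rw [max_eq_left h4.le] at hw
      rw [hw] at h1 h2
      exfalso
      linarith
  · have h3 : ‖w.2‖ ≤ ‖w‖ := norm_snd_le w
    linarith
  · linarith

theorem thin_seq {w : ℕ → E} {n : ℕ} {R : ℝ}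
    (h : ∀ j < n, ∃ l μ : ℂ, 2 ≤ ‖l‖ ∧ ‖μ‖ ≤ 1 / 2 ∧ ‖w (j + 1) - dg l μ (w j)‖ ≤ ‖w j‖ / 8)
    (hR : ∀ j ≤ n, ‖w j‖ ≤ R) :
    ‖(w n).2‖ ≤ max ‖(w n).1‖ (R * (5 / 8) ^ n) ∧ ‖(w 0).1‖ ≤ max ‖(w 0).2‖ (R * (5 / 8) ^ n) := by
  constructor
  · rcases le_or_gt ‖(w n).2‖ ‖(w n).1‖ with h1 | h1
    · exact h1.trans (le_max_left _ _)
    · refine le_trans ?_ (le_max_right _ _)
      have key : ∀ i ≤ n, ‖(w (n - i)).1‖ ≤ ‖(w (n - i)).2‖ ∧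
          ‖(w n).2‖ ≤ (5 / 8) ^ i * ‖(w (n - i)).2‖ := by
        intro i
        induction i with
        | zero =>
          intro _
          rw [Nat.sub_zero]
          exact ⟨h1.le, by rw [pow_zero, one_mul]⟩
        | succ i ih =>
          intro hi
          obtain ⟨h2, h3⟩ := ih (by omega)
          obtain ⟨l, μ, hl, hμ, hw⟩ := h (n - (i + 1)) (by omega)
          have e : n - (i + 1) + 1 = n - i := by omega
          rw [e] at hw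
          obtain ⟨h4, h5⟩ := (cone_vec hl hμ hw).2.1 h2
          refine ⟨h4, ?_⟩
          have h6 : ‖(w (n - i)).2‖ ≤ 5 / 8 * ‖(w (n - (i + 1))).2‖ := by linarith
          calc ‖(w n).2‖ ≤ (5 / 8) ^ i * ‖(w (n - i)).2‖ := h3
            _ ≤ (5 / 8) ^ i * (5 / 8 * ‖(w (n - (i + 1))).2‖) :=
                mul_le_mul_of_nonneg_left h6 (by positivity)
            _ = _ := by ring
      obtain ⟨-, h2⟩ := key n le_rfl
      rw [Nat.sub_self] at h2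
      have h3 : ‖(w 0).2‖ ≤ R := (norm_snd_le _).trans (hR 0 (Nat.zero_le _))
      calc ‖(w n).2‖ ≤ (5 / 8) ^ n * ‖(w 0).2‖ := h2
        _ ≤ (5 / 8) ^ n * R := mul_le_mul_of_nonneg_left h3 (by positivity)
        _ = _ := mul_comm _ _
  · rcases le_or_gt ‖(w 0).1‖ ‖(w 0).2‖ with h1 | h1
    · exact h1.trans (le_max_left _ _)
    · refine le_trans ?_ (le_max_right _ _)
      have key : ∀ i ≤ n, ‖(w i).2‖ ≤ ‖(w i).1‖ ∧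
          ‖(w 0).1‖ ≤ (5 / 8) ^ i * ‖(w i).1‖ := by
        intro i
        induction i with
        | zero =>
          intro _
          exact ⟨h1.le, by rw [pow_zero, one_mul]⟩
        | succ i ih =>
          intro hi
          obtain ⟨h2, h3⟩ := ih (by omega)
          obtain ⟨l, μ, hl, hμ, hw⟩ := h i (by omega)
          obtain ⟨h4, h5⟩ := (cone_vec hl hμ hw).1 h2
          refine ⟨h4, ?_⟩
          have h6 : ‖(w i).1‖ ≤ 5 / 8 * ‖(w (i + 1)).1‖ := by linarith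
          calc ‖(w 0).1‖ ≤ (5 / 8) ^ i * ‖(w i).1‖ := h3
            _ ≤ (5 / 8) ^ i * (5 / 8 * ‖(w (i + 1)).1‖) :=
                mul_le_mul_of_nonneg_left h6 (by positivity)
            _ = _ := by ring
      obtain ⟨-, h2⟩ := key n le_rfl
      have h3 : ‖(w n).1‖ ≤ R := (norm_fst_le _).trans (hR n le_rfl)
      calc ‖(w 0).1‖ ≤ (5 / 8) ^ n * ‖(w n).1‖ := h2
        _ ≤ (5 / 8) ^ n * R := mul_le_mul_of_nonneg_left h3 (by positivity)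
        _ = _ := mul_comm _ _

end Pool.Agent.HQ
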