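import Pool.Agent.HQD.Defs
import Pool.Agent.HQ.FixA

/-!
# HQD module ZLead: leading coefficients under composition
-/

set_option autoImplicit false

open Filter Topology Set Metric

namespace Pool.Agent.HQ

theorem ZLead_sub (h : ℂ → E) (c : E) {i : ℕ} (hi : 0 < i) :
    iteratedDeriv i (fun z => h z - c) 0 = iteratedDeriv i h 0 := by
  obtain ⟨j, rfl⟩ : ∃ j, i = j + 1 := ⟨i - 1, by omega⟩
  rw [iteratedDeriv_succ', iteratedDeriv_succ']
  congr 1
  funext z
  exact deriv_sub_const c

theorem ZLead_ord {h : ℂ → E} {m : ℕ} (ho : ordGe m h) :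
    ∀ i < m, iteratedDeriv i (fun z => h z - h 0) 0 = 0 := by
  intro i hi
  rcases Nat.eq_zero_or_pos i with rfl | h0
  · rw [iteratedDeriv_zero, sub_self]
  · rw [ZLead_sub h (h 0) h0]
    exact ho i h0 hi

theorem lead_map {G : E → E} (hG : Differentiable ℂ G) {h : ℂ → E} (hh : Differentiable ℂ h)
    (s : ℂ) {m : ℕ} (hm : 0 < m) (ho : ordGe m h) :
    ordGe m (fun z => G (h (s * z))) ∧
      iteratedDeriv m (fun z => G (h (s * z))) 0 =
        s ^ m • fderiv ℂ G (h 0) (iteratedDeriv m h 0) := by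
  set L : E := (m.factorial : ℂ)⁻¹ • iteratedDeriv m h 0 with hL
  have hφ : Differentiable ℂ (fun z => h z - h 0) := hh.sub_const _
  have h1 : Tendsto (fun z : ℂ => (z ^ m)⁻¹ • (h z - h 0)) (𝓝[≠] 0) (𝓝 L) := by
    have h2 := FixA_tendsto (hφ.analyticAt 0) (ZLead_ord ho)
    rw [ZLead_sub h (h 0) hm] at h2
    exact h2
  have h2 : Tendsto (fun z : ℂ => (z ^ m)⁻¹ • (h (s * z) - h 0)) (𝓝[≠] 0) (𝓝 (s ^ m • L)) := by
    rcases eq_or_ne s 0 with rfl | hs
    · rw [zero_pow hm.ne', zero_smul]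
      have h3 : (fun z : ℂ => (z ^ m)⁻¹ • (h (0 * z) - h 0)) = fun _ => (0 : E) := by
        funext z
        rw [zero_mul, sub_self, smul_zero]
      rw [h3]
      exact tendsto_const_nhds
    · have h4 : Tendsto (fun w : ℂ => s * w) (𝓝[≠] 0) (𝓝[≠] 0) := by
        rw [tendsto_nhdsWithin_iff]
        constructor
        · have h5 : Tendsto (fun w : ℂ => s * w) (𝓝 0) (𝓝 (s * 0)) :=
            (continuous_const.mul continuous_id).tendsto 0
          rw [mul_zero] at h5
          exact h5.mono_left nhdsWithin_le_nhds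
        · filter_upwards [self_mem_nhdsWithin] with w hw
          exact mul_ne_zero hs hw
      have h5 := (h1.comp h4).const_smul (s ^ m)
      refine h5.congr fun w => ?_
      simp only [Function.comp]
      rw [smul_smul, mul_pow, mul_inv, mul_inv_cancel_left₀ (pow_ne_zero _ hs)]
  have hd : Tendsto (fun z => h (s * z) - h 0) (𝓝[≠] (0 : ℂ)) (𝓝 0) := by
    have h3 : Continuous (fun z : ℂ => h (s * z) - h 0) :=
      (hh.continuous.comp (continuous_const.mul continuous_id)).sub continuous_const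
    have h4 := h3.tendsto 0
    rw [mul_zero, sub_self] at h4
    exact h4.mono_left nhdsWithin_le_nhds
  have h3 := (hG (h 0)).hasFDerivAt.hasFDerivWithinAt.lim (s := univ) hd
    (Eventually.of_forall fun _ => mem_univ _) h2
  have h4 : Tendsto (fun z : ℂ => (z ^ m)⁻¹ • (G (h (s * z)) - G (h (s * 0)))) (𝓝[≠] 0)
      (𝓝 (fderiv ℂ G (h 0) (s ^ m • L))) := by
    refine h3.congr fun z => ?_
    rw [add_sub_cancel, mul_zero]
  have hψ : Differentiable ℂ (fun z => G (h (s * z)) - G (h (s * 0))) :=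
    (hG.comp (hh.comp (differentiable_id.const_mul s))).sub_const _
  obtain ⟨h5, h6⟩ := FixA_coeff (hψ.analyticAt 0) h4
  constructor
  · intro i hi him
    have h7 := h5 i him
    rw [ZLead_sub (fun z => G (h (s * z))) (G (h (s * 0))) hi] at h7
    exact h7
  · rw [ZLead_sub (fun z => G (h (s * z))) (G (h (s * 0))) hm] at h6
    rw [h6, hL, map_smul, map_smul, smul_smul, smul_smul]
    congr 1
    have h10 : (m.factorial : ℂ) ≠ 0 := Nat.cast_ne_zero.2 (Nat.factorial_ne_zero m)
    field_simp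

theorem ordGe_lim {g : ℕ → ℂ → E} (hg : ∀ n, Differentiable ℂ (g n)) {h : ℂ → E}
    (hl : TendstoLocallyUniformly g h atTop) {m : ℕ} (ho : ∀ n, ordGe m (g n)) :
    ordGe m h := by
  intro i hi him
  have h1 := FixA_lim i g h hg hl
  have h2 : (fun n => iteratedDeriv i (g n) 0) = fun _ => (0 : E) := by
    funext n
    exact ho n i hi him
  rw [h2] at h1
  exact tendsto_nhds_unique h1 tendsto_const_nhds

theorem ordGe_all {h : ℂ → E} (hh : Differentiable ℂ h) (ho : ∀ m, ordGe m h) (z : ℂ) :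
    h z = h 0 := by
  have hφ : Differentiable ℂ (fun z => h z - h 0) := hh.sub_const _
  have h2 : analyticOrderAt (fun z => h z - h 0) 0 = ⊤ := by
    refine ENat.eq_top_iff_forall_ge.2 fun n => ?_
    exact (natCast_le_analyticOrderAt_iff_iteratedDeriv_eq_zero (hφ.analyticAt 0)).2
      fun i hi => ZLead_ord (ho n) i hi
  have h3 := analyticOrderAt_eq_top.1 h2
  have h4 : AnalyticOnNhd ℂ (fun z => h z - h 0) univ := fun w _ => hφ.analyticAt w
  have h5 := h4.eqOn_zero_of_preconnected_of_eventuallyEq_zero isPreconnected_univ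
    (mem_univ (0 : ℂ)) h3 (mem_univ z)
  exact sub_eq_zero.1 h5

end Pool.Agent.HQ
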