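import Pool.Agent.HQD.Defs

/-!
# HQD module ZLin: the linear charts
-/

set_option autoImplicit false

open Filter Topology Set Metric

namespace Pool.Agent.HQ

theorem chart_apply (q : ℝ) (v z : E) :
    chart q v z = z.1 • v + z.2 • ((q : ℂ)⁻¹ • perp v) := by
  simp [chart]

theorem chartInv_apply (q : ℝ) (v w : E) : chartInv q v w =
    (w.1 * (perp v).2 - w.2 * (perp v).1, (q : ℂ) * (v.1 * w.2 - v.2 * w.1)) := by
  unfold chartInv
  refine Prod.ext ?_ ?_
  · simp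
    ring
  · simp

theorem ZLin_den {v : E} (hv : v ≠ 0) : ((‖v.1‖ ^ 2 + ‖v.2‖ ^ 2 : ℝ) : ℂ) ≠ 0 := by
  have hpos : 0 < ‖v.1‖ ^ 2 + ‖v.2‖ ^ 2 := by
    by_contra hcon
    have h3 := sq_nonneg ‖v.1‖
    have h4 := sq_nonneg ‖v.2‖
    have h1 : ‖v.1‖ ^ 2 = 0 := by linarith
    have h2 : ‖v.2‖ ^ 2 = 0 := by linarith
    apply hv
    refine Prod.ext ?_ ?_
    · exact norm_eq_zero.mp (pow_eq_zero_iff (two_ne_zero)|>.mp h1)
    · exact norm_eq_zero.mp (pow_eq_zero_iff (two_ne_zero)|>.mp h2)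
  exact_mod_cast hpos.ne'

theorem perp_det {v : E} (hv : v ≠ 0) : v.1 * (perp v).2 - v.2 * (perp v).1 = 1 := by
  have hden := ZLin_den hv
  have h1 : v.1 * (starRingEnd ℂ v.1) = ((‖v.1‖ ^ 2 : ℝ) : ℂ) := by
    rw [Complex.mul_conj, Complex.normSq_eq_norm_sq]
  have h2 : v.2 * (starRingEnd ℂ v.2) = ((‖v.2‖ ^ 2 : ℝ) : ℂ) := by
    rw [Complex.mul_conj, Complex.normSq_eq_norm_sq]
  unfold perp
  simp only
  rw [mul_div_assoc', mul_div_assoc', ← sub_div, div_eq_one_iff_eq hden, mul_neg, sub_neg_eq_add,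
    h1, h2]
  push_cast
  ring

theorem chart_left {q : ℝ} (hq : q ≠ 0) {v : E} (hv : v ≠ 0) (z : E) :
    chartInv q v (chart q v z) = z := by
  have hq' : (q : ℂ) ≠ 0 := by exact_mod_cast hq
  have hd := perp_det hv
  rw [chartInv_apply, chart_apply]
  refine Prod.ext ?_ ?_
  · simp only [Prod.fst_add, Prod.smul_fst, Prod.snd_add, Prod.smul_snd, smul_eq_mul]
    linear_combination z.1 * hd
  · simp only [Prod.fst_add, Prod.smul_fst, Prod.snd_add, Prod.smul_snd, smul_eq_mul]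
    field_simp
    linear_combination z.2 * hd

theorem chart_right {q : ℝ} (hq : q ≠ 0) {v : E} (hv : v ≠ 0) (w : E) :
    chart q v (chartInv q v w) = w := by
  have hq' : (q : ℂ) ≠ 0 := by exact_mod_cast hq
  have hd := perp_det hv
  rw [chart_apply, chartInv_apply]
  refine Prod.ext ?_ ?_
  · simp only [Prod.fst_add, Prod.smul_fst, smul_eq_mul]
    field_simp
    linear_combination w.1 * hd
  · simp only [Prod.snd_add, Prod.smul_snd, smul_eq_mul]
    field_simp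
    linear_combination w.2 * hd

/-- the determinant of a linear map of the plane in coordinates -/
theorem ZLin_det (L : E →L[ℂ] E) : L.det = (L (1, 0)).1 * (L (0, 1)).2 - (L (0, 1)).1 * (L (1, 0)).2 := by
  unfold ContinuousLinearMap.det
  rw [← LinearMap.det_toMatrix (Module.Basis.finTwoProd ℂ), Matrix.det_fin_two]
  simp [LinearMap.toMatrix_apply]

theorem ZLin_apply (L : E →L[ℂ] E) (w : E) : L w = w.1 • L (1, 0) + w.2 • L (0, 1) := by
  rw [← map_smul, ← map_smul, ← map_add]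
  congr 1
  refine Prod.ext ?_ ?_ <;> simp

theorem ZLin_area (L : E →L[ℂ] E) (v w : E) :
    (L v).1 * (L w).2 - (L v).2 * (L w).1 = L.det * (v.1 * w.2 - v.2 * w.1) := by
  rw [ZLin_det, ZLin_apply L v, ZLin_apply L w]
  simp only [Prod.fst_add, Prod.smul_fst, Prod.snd_add, Prod.smul_snd, smul_eq_mul]
  ring

theorem chart_diag {q : ℝ} (hq : q ≠ 0) {L : E →L[ℂ] E} {v v' : E} (hv : v ≠ 0)
    (hv' : v' ≠ 0) {l : ℂ} (hl : l ≠ 0) (hL : L v = l • v') (z : E) :
    chartInv q v' (L (chart q v z)) =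
      (l * z.1 + (q : ℂ)⁻¹ * ((L (perp v)).1 * (perp v').2 - (L (perp v)).2 * (perp v').1) * z.2,
        L.det / l * z.2) := by
  have hq' : (q : ℂ) ≠ 0 := by exact_mod_cast hq
  have hd' := perp_det hv'
  have hd := perp_det hv
  have ha := ZLin_area L v (perp v)
  rw [hL, hd, mul_one] at ha
  simp only [Prod.smul_fst, Prod.smul_snd, smul_eq_mul] at ha
  rw [chartInv_apply, chart_apply, map_add, map_smul, map_smul, map_smul, hL]
  refine Prod.ext ?_ ?_
  · simp only [Prod.fst_add, Prod.smul_fst, Prod.snd_add, Prod.smul_snd, smul_eq_mul]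
    linear_combination l * z.1 * hd'
  · simp only [Prod.fst_add, Prod.smul_fst, Prod.snd_add, Prod.smul_snd, smul_eq_mul]
    field_simp
    linear_combination z.2 * ha

theorem perp_bound {c₁ c₂ : ℝ} (hc : 0 < c₁) :
    ∃ C : ℝ, ∀ v : E, c₁ ≤ ‖v‖ → ‖v‖ ≤ c₂ → ‖perp v‖ ≤ C := by
  refine ⟨c₂ / c₁ ^ 2, fun v h1 h2 => ?_⟩
  have hc2 : 0 ≤ c₂ := hc.le.trans (h1.trans h2)
  have hden : c₁ ^ 2 ≤ ‖v.1‖ ^ 2 + ‖v.2‖ ^ 2 := by
    rw [Prod.norm_def] at h1
    rcases le_total ‖v.1‖ ‖v.2‖ with h | h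
    · rw [max_eq_right h] at h1
      have := pow_le_pow_left₀ hc.le h1 2
      have := sq_nonneg ‖v.1‖
      linarith
    · rw [max_eq_left h] at h1
      have := pow_le_pow_left₀ hc.le h1 2
      have := sq_nonneg ‖v.2‖
      linarith
  have hpos : 0 < ‖v.1‖ ^ 2 + ‖v.2‖ ^ 2 := lt_of_lt_of_le (by positivity) hden
  have key : ∀ w : ℂ, ‖w‖ ≤ c₂ → ‖w / ((‖v.1‖ ^ 2 + ‖v.2‖ ^ 2 : ℝ) : ℂ)‖ ≤ c₂ / c₁ ^ 2 := by
    intro w hw
    rw [norm_div, Complex.norm_real, Real.norm_of_nonneg hpos.le]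
    exact div_le_div₀ hc2 hw (by positivity) hden
  unfold perp
  rw [Prod.norm_mk]
  refine max_le ?_ ?_
  · apply key
    rw [norm_neg, RCLike.norm_conj]
    exact (norm_snd_le v).trans h2
  · apply key
    rw [RCLike.norm_conj]
    exact (norm_fst_le v).trans h2

end Pool.Agent.HQ
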