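import Pool.Agent.HQD.Defs
import Pool.Agent.HQD.DefsP
import Pool.Agent.HQD.PCon
import Pool.Agent.HQD.PChn
import Pool.Agent.HQD.ZLin
import Pool.Agent.HQD.ZLead
import Pool.Agent.HQ.UBas

/-!
# HQD module PGs0: slopes of the stable directions
-/

set_option autoImplicit false

open Filter Topology Set Metric

namespace Pool.Agent.HQ

theorem PGs0_cone {W : ℕ → E} {C : ℝ}
    (hs : ∀ j, ∃ l μ : ℂ, 2 ≤ ‖l‖ ∧ ‖μ‖ ≤ 1 / 2 ∧ ‖W (j + 1) - dg l μ (W j)‖ ≤ ‖W j‖ / 8)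
    (hb : ∀ j, ‖W j‖ ≤ C) (hne : ∀ j, W j ≠ 0) (j : ℕ) : ‖(W j).1‖ < ‖(W j).2‖ := by
  by_contra hcon
  push Not at hcon
  have h1 : ∀ i, ‖(W (j + i)).2‖ ≤ ‖(W (j + i)).1‖ ∧
      (8 / 5 : ℝ) ^ i * ‖(W j).1‖ ≤ ‖(W (j + i)).1‖ := by
    intro i
    induction i with
    | zero => exact ⟨hcon, by simp⟩
    | succ i ih =>
      obtain ⟨l, μ, hl, hμ, hw⟩ := hs (j + i)
      obtain ⟨h2, h3⟩ := (cone_vec hl hμ hw).1 ih.1
      refine ⟨h2, ?_⟩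
      calc (8 / 5 : ℝ) ^ (i + 1) * ‖(W j).1‖ = 8 / 5 * ((8 / 5 : ℝ) ^ i * ‖(W j).1‖) := by
            rw [pow_succ]
            ring
        _ ≤ 8 / 5 * ‖(W (j + i)).1‖ := by
            have := ih.2
            linarith
        _ ≤ ‖(W (j + (i + 1))).1‖ := h3
  have hpos : 0 < ‖(W j).1‖ := by
    rw [norm_pos_iff]
    intro h0
    apply hne j
    rw [h0, norm_zero] at hcon
    refine Prod.ext h0 ?_
    exact norm_le_zero_iff.1 hcon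
  obtain ⟨n, hn⟩ := pow_unbounded_of_one_lt (C / ‖(W j).1‖) (by norm_num : (1 : ℝ) < 8 / 5)
  rw [div_lt_iff₀ hpos] at hn
  have h4 := (h1 n).2
  have h5 := (norm_fst_le (W (j + n))).trans (hb (j + n))
  linarith

theorem PGs0_inv_bound {c₁ c₂ q : ℝ} (hc : 0 < c₁) (hq : 1 ≤ q) {c : ℝ} :
    ∃ C : ℝ, ∀ v u : E, c₁ ≤ ‖v‖ → ‖v‖ ≤ c₂ → ‖u‖ ≤ c → ‖chartInv q v u‖ ≤ C := by
  obtain ⟨P, hP⟩ := perp_bound (c₁ := c₁) (c₂ := c₂) hc
  refine ⟨2 * |c| * (|P| + q * |c₂|), fun v u h1 h2 h3 => ?_⟩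
  have hp := (hP v h1 h2).trans (le_abs_self P)
  have hv : ‖v‖ ≤ |c₂| := h2.trans (le_abs_self _)
  have hu : ‖u‖ ≤ |c| := h3.trans (le_abs_self _)
  have u1 := (norm_fst_le u).trans hu
  have u2 := (norm_snd_le u).trans hu
  have v1 := (norm_fst_le v).trans hv
  have v2 := (norm_snd_le v).trans hv
  have p1 := (norm_fst_le (perp v)).trans hp
  have p2 := (norm_snd_le (perp v)).trans hp
  have hc0 : 0 ≤ |c| := abs_nonneg c
  have hc20 : 0 ≤ |c₂| := abs_nonneg c₂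
  have hP0 : 0 ≤ |P| := abs_nonneg P
  have hq0 : 0 ≤ q := by linarith
  rw [chartInv_apply, Prod.norm_mk]
  refine max_le ?_ ?_
  · calc ‖u.1 * (perp v).2 - u.2 * (perp v).1‖ ≤ ‖u.1 * (perp v).2‖ + ‖u.2 * (perp v).1‖ :=
          norm_sub_le _ _
      _ ≤ |c| * |P| + |c| * |P| := by
          rw [norm_mul, norm_mul]
          exact add_le_add (mul_le_mul u1 p2 (norm_nonneg _) hc0)
            (mul_le_mul u2 p1 (norm_nonneg _) hc0)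
      _ ≤ 2 * |c| * (|P| + q * |c₂|) := by nlinarith [mul_nonneg hc0 (mul_nonneg hq0 hc20)]
  · rw [norm_mul, Complex.norm_real, Real.norm_of_nonneg hq0]
    calc q * ‖v.1 * u.2 - v.2 * u.1‖ ≤ q * (|c₂| * |c| + |c₂| * |c|) := by
          refine mul_le_mul_of_nonneg_left ?_ hq0
          refine (norm_sub_le _ _).trans ?_
          rw [norm_mul, norm_mul]
          exact add_le_add (mul_le_mul v1 u2 (norm_nonneg _) hc20)
            (mul_le_mul v2 u1 (norm_nonneg _) hc20)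
      _ ≤ 2 * |c| * (|P| + q * |c₂|) := by nlinarith [mul_nonneg hc0 hP0]

theorem PGs0_low {c₁ c₂ q : ℝ} (hc : 0 < c₁) (hq : 1 ≤ q) :
    ∃ C > 0, ∀ v u : E, c₁ ≤ ‖v‖ → ‖v‖ ≤ c₂ → ‖u‖ ≤ C * ‖chartInv q v u‖ := by
  obtain ⟨P, hP⟩ := perp_bound (c₁ := c₁) (c₂ := c₂) hc
  refine ⟨|c₂| + |P| + 1, by positivity, fun v u h1 h2 => ?_⟩
  have hv0 : v ≠ 0 := by
    rintro rfl
    rw [norm_zero] at h1
    linarith
  have hq0 : (0 : ℝ) < q := by linarith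
  have hp := (hP v h1 h2).trans (le_abs_self P)
  have hv : ‖v‖ ≤ |c₂| := h2.trans (le_abs_self _)
  set z := chartInv q v u with hz
  have hu : u = chart q v z := (chart_right hq0.ne' hv0 u).symm
  rw [hu, chart_apply]
  have z1 := norm_fst_le z
  have z2 := norm_snd_le z
  have hn := norm_nonneg z
  have hqi : ‖((q : ℂ)⁻¹ • perp v : E)‖ ≤ |P| := by
    rw [norm_smul, norm_inv, Complex.norm_real, Real.norm_of_nonneg hq0.le]
    have : q⁻¹ ≤ 1 := inv_le_one_of_one_le₀ hq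
    calc q⁻¹ * ‖perp v‖ ≤ 1 * |P| := mul_le_mul this hp (norm_nonneg _) zero_le_one
      _ = |P| := one_mul _
  calc ‖z.1 • v + z.2 • ((q : ℂ)⁻¹ • perp v)‖ ≤ ‖z.1 • v‖ + ‖z.2 • ((q : ℂ)⁻¹ • perp v)‖ :=
        norm_add_le _ _
    _ ≤ ‖z‖ * |c₂| + ‖z‖ * |P| := by
        rw [norm_smul, norm_smul]
        exact add_le_add (mul_le_mul z1 hv (norm_nonneg _) hn)
          (mul_le_mul z2 hqi (norm_nonneg _) hn)
    _ ≤ (|c₂| + |P| + 1) * ‖z‖ := by nlinarith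

theorem slope_s0 {Q : QS} {Z : Set E} {m m' : ℕ} {c₁ c₂ κ Λ c₁' c₂' κ' Λ' : ℝ}
    {W W' : Set (ℂ → E)} (hW : WF Q Z m c₁ c₂ κ Λ W) (hW' : WF Q.dual Z m' c₁' c₂' κ' Λ' W')
    {q ε : ℝ} {N : ℕ} (hN : 1 ≤ N) (hq : 1 ≤ q) (hε : 0 < ε) (hE : Est Q W κ q ε m N) :
    ∃ c > 0, ∀ ξ ∈ W, ∀ σ ∈ W', σ 0 = ξ 0 →
      ‖(chartInv q (iteratedDeriv m ξ 0) (iteratedDeriv m' σ 0)).1‖ ≤
        3 / 8 * ‖(chartInv q (iteratedDeriv m ξ 0) (iteratedDeriv m' σ 0)).2‖ ∧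
      c ≤ ‖(chartInv q (iteratedDeriv m ξ 0) (iteratedDeriv m' σ 0)).2‖ := by
  obtain ⟨C, hC⟩ := PGs0_inv_bound (c₁ := c₁) (c₂ := c₂) (q := q) hW.c0 hq (c := c₂')
  obtain ⟨C', hC', hlow⟩ := PGs0_low (c₁ := c₁) (c₂ := c₂) (q := q) hW.c0 hq
  refine ⟨c₁' / C', div_pos hW'.c0 hC', fun ξ hξ σ hσ h0 => ?_⟩
  obtain ⟨η, hη, hη0⟩ := exists_chn hW N hξ
  obtain ⟨τ, hτ, hτ0, hτs⟩ := exists_dual_chain hW' N hσ
  choose a' ha' ha's using hτs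
  have hηs : ∀ j : ℕ, ∃ a : ℂ, κ ^ N ≤ ‖a‖ ∧
      ∀ z, (Q.F ^ N) (η (j : ℤ) z) = η ((j + 1 : ℕ) : ℤ) (a * z) := by
    intro j
    obtain ⟨a, h1, h2⟩ := hη.step (j : ℤ)
    refine ⟨a, h1, fun z => ?_⟩
    rw [h2 z]
    push_cast
    rfl
  choose a ha has using hηs
  -- centres
  have hcen : ∀ j : ℕ, τ j 0 = η (j : ℤ) 0 := by
    intro j
    induction j with
    | zero =>
      rw [hτ0, h0, ← hη0]
      rfl
    | succ j ih =>
      have h1 := ha's j 0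
      have h2 := has j 0
      rw [mul_zero] at h1 h2
      rw [← h1, ← h2, ih]
  set v : ℕ → E := fun j => iteratedDeriv m (η (j : ℤ)) 0 with hv
  set u : ℕ → E := fun j => iteratedDeriv m' (τ j) 0 with hu
  have hvb : ∀ j, c₁ ≤ ‖v j‖ ∧ ‖v j‖ ≤ c₂ := fun j =>
    ⟨hW.lo _ (hη.mem _), hW.hi _ (hη.mem _)⟩
  have hub : ∀ j, c₁' ≤ ‖u j‖ ∧ ‖u j‖ ≤ c₂' := fun j =>
    ⟨hW'.lo _ (hτ _), hW'.hi _ (hτ _)⟩
  have hκ : 1 ≤ κ' ^ N := one_le_pow₀ hW'.k1.le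
  have ha1 : ∀ j, 1 ≤ ‖a' j‖ := fun j => hκ.trans (ha' j)
  have ha0 : ∀ j, a' j ≠ 0 := fun j h => by
    have := ha1 j
    rw [h, norm_zero] at this
    linarith
  have hτd : ∀ j, Differentiable ℂ (τ j) := fun j => U_diff Q.dual (hW'.sub (hτ j))
  have hD : ∀ j : ℕ, fderiv ℂ (⇑(Q.F ^ N)) (η (j : ℤ) 0) (u j) = (a' j ^ m')⁻¹ • u (j + 1) := by
    intro j
    have h1 := (lead_map (Q.diff_pow N) (hτd j) (a' j) hW'.m0 (hW'.ord _ (hτ j))).2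
    have h2 : (fun z => (Q.F ^ N) (τ j (a' j * z))) = τ (j + 1) := by
      funext z
      exact ha's j z
    rw [h2] at h1
    rw [← hcen j]
    change fderiv ℂ (⇑(Q.F ^ N)) (τ j 0) (iteratedDeriv m' (τ j) 0) =
      (a' j ^ m')⁻¹ • iteratedDeriv m' (τ (j + 1)) 0
    rw [h1, smul_smul, inv_mul_cancel₀ (pow_ne_zero _ (ha0 j)), one_smul]
  set w : ℕ → E := fun j => chartInv q (v j) (u j) with hw
  have hwb : ∀ j, ‖w j‖ ≤ C := fun j => hC _ _ (hvb j).1 (hvb j).2 (hub j).2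
  have hC0 : 0 ≤ C := (norm_nonneg _).trans (hwb 0)
  have hwn : ∀ j, w j ≠ 0 := by
    intro j h
    have h1 := hlow (v j) (u j) (hvb j).1 (hvb j).2
    have h2 : chartInv q (v j) (u j) = 0 := h
    rw [h2, norm_zero, mul_zero] at h1
    have h3 := (hub j).1
    have h4 := hW'.c0
    linarith
  set A : ℕ → ℂ := fun j => ∏ i ∈ Finset.range j, (a' i ^ m')⁻¹ with hA
  have hA1 : ∀ j, ‖A j‖ ≤ 1 := by
    intro j
    rw [hA]
    simp only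
    rw [norm_prod]
    refine Finset.prod_le_one (fun i _ => norm_nonneg _) fun i _ => ?_
    rw [norm_inv, norm_pow]
    exact inv_le_one_of_one_le₀ (one_le_pow₀ (ha1 i))
  have hAn : ∀ j, A j ≠ 0 := fun j =>
    Finset.prod_ne_zero_iff.2 fun i _ => inv_ne_zero (pow_ne_zero _ (ha0 i))
  have hs : ∀ j, ∃ l μ : ℂ, 2 ≤ ‖l‖ ∧ ‖μ‖ ≤ 1 / 2 ∧
      ‖A (j + 1) • w (j + 1) - dg l μ (A j • w j)‖ ≤ ‖A j • w j‖ / 8 := by
    intro j
    obtain ⟨l, μ, hl, hμ, -, h2⟩ := hE (η (j : ℤ)) (hη.mem _) (η ((j + 1 : ℕ) : ℤ)) (hη.mem _)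
      (a j) (ha j) (has j)
    refine ⟨l, μ, hl, hμ, ?_⟩
    have h3 := h2 (u j)
    rw [hD j, map_smul] at h3
    have h4 : A (j + 1) • w (j + 1) - dg l μ (A j • w j) =
        A j • ((a' j ^ m')⁻¹ • w (j + 1) - dg l μ (w j)) := by
      rw [map_smul, smul_sub, smul_smul, hA]
      simp only
      rw [Finset.prod_range_succ]
    rw [h4, norm_smul, norm_smul, mul_div_assoc]
    exact mul_le_mul_of_nonneg_left h3 (norm_nonneg _)
  have hWb : ∀ j, ‖A j • w j‖ ≤ C := by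
    intro j
    rw [norm_smul]
    calc ‖A j‖ * ‖w j‖ ≤ 1 * C := mul_le_mul (hA1 j) (hwb j) (norm_nonneg _) zero_le_one
      _ = C := one_mul _
  have hWn : ∀ j, A j • w j ≠ 0 := fun j => smul_ne_zero (hAn j) (hwn j)
  have hcone := PGs0_cone (W := fun j => A j • w j) hs hWb hWn
  have hc0 := hcone 0
  have hc1 := hcone 1
  have hA0 : A 0 • w 0 = w 0 := by
    rw [hA]
    simp
  obtain ⟨l, μ, hl, hμ, h5⟩ := hs 0
  obtain ⟨-, -, h6, h7⟩ := cone_vec hl hμ h5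
  simp only [hA0] at hc0 h6 h7
  have hnorm : ‖w 0‖ = ‖(w 0).2‖ := by
    rw [Prod.norm_def]
    exact max_eq_right hc0.le
  rw [hnorm] at h6 h7
  have hwe : w 0 = chartInv q (iteratedDeriv m ξ 0) (iteratedDeriv m' σ 0) := by
    rw [hw]
    simp only
    rw [hv, hu]
    simp only
    rw [hτ0, ← hη0]
    rfl
  rw [← hwe]
  simp only [zero_add] at h6 h7
  refine ⟨by linarith, ?_⟩
  rw [div_le_iff₀ hC', mul_comm, ← hnorm]
  exact (hub 0).1.trans (hlow (v 0) (u 0) (hvb 0).1 (hvb 0).2)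

end Pool.Agent.HQ
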