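import Pool.Agent.HQD.Defs
import Pool.Agent.HQD.DefsP

/-!
# HQD module PSmv: functions with the (super) mean value property
-/

set_option autoImplicit false

open Filter Topology Set Metric

namespace Pool.Agent.HQ

private lemma ci_of {D : Set ℂ} {s : ℂ → ℝ} (hs : ContinuousOn s D) {w : ℂ} {ρ r : ℝ}
    (hρ : closedBall w ρ ⊆ D) (hr : 0 < r) (hrρ : r ≤ ρ) : CircleIntegrable s w r := by
  apply ContinuousOn.circleIntegrable hr.le
  apply hs.mono
  intro z hz
  apply hρ
  exact sphere_subset_closedBall.trans (closedBall_subset_closedBall hrρ) hz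

private lemma exb {D : Set ℂ} (hD : IsOpen D) {w : ℂ} (hw : w ∈ D) :
    ∃ ρ > 0, closedBall w ρ ⊆ D := by
  obtain ⟨ρ, hρ, h⟩ := Metric.nhds_basis_closedBall.mem_iff.1 (hD.mem_nhds hw)
  exact ⟨ρ, hρ, h⟩

theorem SMV_const (D : Set ℂ) (hD : IsOpen D) (c : ℝ) : SMV D (fun _ => c) := by
  refine ⟨continuousOn_const, fun w hw => ?_⟩
  obtain ⟨ρ, hρ, h⟩ := exb hD hw
  refine ⟨ρ, hρ, h, fun r _ _ => ?_⟩
  rw [Real.circleAverage_const]

theorem LMV.smv {D : Set ℂ} {u : ℂ → ℝ} (h : LMV D u) : SMV D u := by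
  refine ⟨h.1, fun w hw => ?_⟩
  obtain ⟨ρ, hρ, h1, h2⟩ := h.2 w hw
  exact ⟨ρ, hρ, h1, fun r hr hr' => (h2 r hr hr').le⟩

theorem LMV.mono {D D' : Set ℂ} (hD' : IsOpen D') (h : D' ⊆ D) {u : ℂ → ℝ} (hu : LMV D u) :
    LMV D' u := by
  refine ⟨hu.1.mono h, fun w hw => ?_⟩
  obtain ⟨ρ, hρ, h1, h2⟩ := hu.2 w (h hw)
  obtain ⟨ρ', hρ', h'⟩ := exb hD' hw
  exact ⟨min ρ ρ', lt_min hρ hρ', (closedBall_subset_closedBall (min_le_right _ _)).trans h',
    fun r hr hr' => h2 r hr (hr'.trans (min_le_left _ _))⟩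

theorem SMV.mono {D D' : Set ℂ} (hD' : IsOpen D') (h : D' ⊆ D) {u : ℂ → ℝ} (hu : SMV D u) :
    SMV D' u := by
  refine ⟨hu.1.mono h, fun w hw => ?_⟩
  obtain ⟨ρ, hρ, h1, h2⟩ := hu.2 w (h hw)
  obtain ⟨ρ', hρ', h'⟩ := exb hD' hw
  exact ⟨min ρ ρ', lt_min hρ hρ', (closedBall_subset_closedBall (min_le_right _ _)).trans h',
    fun r hr hr' => h2 r hr (hr'.trans (min_le_left _ _))⟩

theorem LMV.affine {D : Set ℂ} {u : ℂ → ℝ} (h : LMV D u) (a b : ℝ) :
    LMV D (fun w => a + b * u w) := by
  have hc : ContinuousOn (fun w => b * u w) D := continuousOn_const.mul h.1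
  refine ⟨continuousOn_const.add hc, fun w hw => ?_⟩
  obtain ⟨ρ, hρ, h1, h2⟩ := h.2 w hw
  refine ⟨ρ, hρ, h1, fun r hr hr' => ?_⟩
  have e1 : Real.circleAverage (fun w => a + b * u w) w r =
      Real.circleAverage (fun _ => a) w r + Real.circleAverage (fun w => b * u w) w r :=
    Real.circleAverage_fun_add (circleIntegrable_const a w r) (ci_of hc h1 hr hr')
  have e2 : Real.circleAverage (fun w => b * u w) w r = b * Real.circleAverage u w r := by
    have := Real.circleAverage_fun_smul (a := b) (f := u) (c := w) (R := r)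
    simpa [smul_eq_mul] using this
  rw [e1, Real.circleAverage_const, e2, h2 r hr hr']

theorem LMV.sub {D : Set ℂ} {u v : ℂ → ℝ} (h : LMV D u) (h' : LMV D v) :
    LMV D (fun w => u w - v w) := by
  refine ⟨h.1.sub h'.1, fun w hw => ?_⟩
  obtain ⟨ρ, hρ, h1, h2⟩ := h.2 w hw
  obtain ⟨ρ', hρ', h1', h2'⟩ := h'.2 w hw
  refine ⟨min ρ ρ', lt_min hρ hρ', (closedBall_subset_closedBall (min_le_left _ _)).trans h1,
    fun r hr hr' => ?_⟩
  rw [Real.circleAverage_fun_sub (ci_of h.1 h1 hr (hr'.trans (min_le_left _ _)))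
    (ci_of h'.1 h1' hr (hr'.trans (min_le_right _ _))), h2 r hr (hr'.trans (min_le_left _ _)),
    h2' r hr (hr'.trans (min_le_right _ _))]

theorem LMV_re {D : Set ℂ} (hD : IsOpen D) {f : ℂ → ℂ} (hf : DifferentiableOn ℂ f D) :
    LMV D (fun w => (f w).re) := by
  refine ⟨Complex.continuous_re.comp_continuousOn hf.continuousOn, fun w hw => ?_⟩
  obtain ⟨ρ, hρ, h⟩ := exb hD hw
  refine ⟨ρ, hρ, h, fun r hr hr' => ?_⟩
  have hci : CircleIntegrable f w r := by
    apply ContinuousOn.circleIntegrable hr.le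
    exact hf.continuousOn.mono
      ((sphere_subset_closedBall.trans (closedBall_subset_closedBall hr')).trans h)
  have e : Real.circleAverage (fun w => Complex.reCLM (f w)) w r =
      Complex.reCLM (Real.circleAverage f w r) :=
    Complex.reCLM.circleAverage_comp_comm hci
  have e2 : Real.circleAverage f w r = f w := by
    apply DiffContOnCl.circleAverage
    apply DifferentiableOn.diffContOnCl
    rw [abs_of_pos hr, closure_ball _ hr.ne']
    exact hf.mono ((closedBall_subset_closedBall hr').trans h)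
  rw [e2] at e
  exact e

theorem SMV.add {D : Set ℂ} {s t : ℂ → ℝ} (hs : SMV D s) (ht : SMV D t) :
    SMV D (fun w => s w + t w) := by
  refine ⟨hs.1.add ht.1, fun w hw => ?_⟩
  obtain ⟨ρ, hρ, h1, h2⟩ := hs.2 w hw
  obtain ⟨ρ', hρ', h1', h2'⟩ := ht.2 w hw
  refine ⟨min ρ ρ', lt_min hρ hρ', (closedBall_subset_closedBall (min_le_left _ _)).trans h1,
    fun r hr hr' => ?_⟩
  rw [Real.circleAverage_fun_add (ci_of hs.1 h1 hr (hr'.trans (min_le_left _ _)))
    (ci_of ht.1 h1' hr (hr'.trans (min_le_right _ _)))]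
  exact add_le_add (h2 r hr (hr'.trans (min_le_left _ _))) (h2' r hr (hr'.trans (min_le_right _ _)))

theorem SMV_log {D : Set ℂ} (hD : IsOpen D) {e₀ : ℂ} (he : e₀ ∉ D) {c : ℝ} (hc : 0 ≤ c) :
    SMV D (fun w => c * Real.log ‖w - e₀‖) := by
  have hcon : ContinuousOn (fun w : ℂ => Real.log ‖w - e₀‖) D := by
    apply ContinuousOn.log
    · fun_prop
    · intro x hx h0
      rw [norm_eq_zero, sub_eq_zero] at h0
      exact he (h0 ▸ hx)
  refine ⟨continuousOn_const.mul hcon, fun w hw => ?_⟩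
  obtain ⟨ρ, hρ, h⟩ := exb hD hw
  refine ⟨ρ, hρ, h, fun r hr hr' => ?_⟩
  have e2 : Real.circleAverage (fun w : ℂ => c * Real.log ‖w - e₀‖) w r =
      c * Real.circleAverage (fun w : ℂ => Real.log ‖w - e₀‖) w r := by
    have := Real.circleAverage_fun_smul (a := c) (f := fun w : ℂ => Real.log ‖w - e₀‖)
      (c := w) (R := r)
    simpa [smul_eq_mul] using this
  have hd : r ≤ ‖w - e₀‖ := by
    by_contra hlt
    push Not at hlt
    apply he
    apply h
    rw [mem_closedBall, dist_eq_norm, norm_sub_rev]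
    linarith
  have e3 := circleAverage_log_norm_sub_const_eq_log_radius_add_posLog (a := e₀) (c := w)
    (R := r) hr.ne'
  have hpos : 0 < ‖w - e₀‖ := lt_of_lt_of_le hr hd
  have e4 : Real.posLog (r⁻¹ * ‖w - e₀‖) = Real.log (r⁻¹ * ‖w - e₀‖) := by
    apply Real.posLog_eq_log
    rw [abs_of_nonneg (by positivity)]
    rw [inv_mul_eq_div, le_div_iff₀ hr]
    linarith
  rw [e4, Real.log_mul (inv_ne_zero hr.ne') hpos.ne', Real.log_inv] at e3
  rw [e2, e3]
  apply le_of_eq
  ring

open scoped Classical in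
/-- gluing -/
theorem SMV_glue {D R : Set ℂ} (hD : IsOpen D) (hR : IsOpen R) (hRD : R ⊆ D) {s θ : ℂ → ℝ}
    (hs : SMV D s) (hθ : SMV R θ) (hθc : ContinuousOn θ (closure R ∩ D))
    (hb : ∀ w ∈ closure R ∩ D, w ∉ R → s w ≤ θ w) :
    SMV D (fun w => if w ∈ R then min (s w) (θ w) else s w) := by
  set g : ℂ → ℝ := fun w => if w ∈ R then min (s w) (θ w) else s w with hg
  have hle : ∀ w, g w ≤ s w := by
    intro w
    simp only [hg]
    split_ifs
    · exact min_le_left _ _
    · exact le_rfl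
  have hgcl : ∀ w ∈ closure R ∩ D, g w = min (s w) (θ w) := by
    intro w hw
    by_cases hwR : w ∈ R
    · simp [hg, hwR]
    · simp only [hg, hwR, if_false]
      exact (min_eq_left (hb w hw hwR)).symm
  have hcon : ContinuousOn g D := by
    intro w hw
    by_cases hcl : w ∈ closure R
    · -- two pieces
      have h1 : ContinuousWithinAt g (closure R ∩ D) w := by
        have h0 : ContinuousWithinAt (fun w => min (s w) (θ w)) (closure R ∩ D) w :=
          ((hs.1 w hw).mono inter_subset_right).min (hθc w ⟨hcl, hw⟩)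
        exact h0.congr (fun y hy => hgcl y hy) (hgcl w ⟨hcl, hw⟩)
      by_cases hwR : w ∈ R
      · have : closure R ∩ D ∈ 𝓝 w :=
          mem_of_superset (hR.mem_nhds hwR) (fun y hy => ⟨subset_closure hy, hRD hy⟩)
        exact (h1.continuousAt this).continuousWithinAt
      · have h2 : ContinuousWithinAt g (D \ R) w := by
          have h0 : ContinuousWithinAt s (D \ R) w := (hs.1 w hw).mono sdiff_subset
          apply h0.congr
          · intro y hy
            simp [hg, hy.2]
          · simp [hg, hwR]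
        have h3 := h1.union h2
        apply h3.mono
        intro y hy
        by_cases hyR : y ∈ R
        · exact Or.inl ⟨subset_closure hyR, hy⟩
        · exact Or.inr ⟨hy, hyR⟩
    · have h2 : ContinuousAt s w := (hs.1 w hw).continuousAt (hD.mem_nhds hw)
      have hev : ∀ᶠ y in 𝓝 w, g y = s y := by
        filter_upwards [isClosed_closure.isOpen_compl.mem_nhds hcl] with y hy
        have : y ∉ R := fun h => hy (subset_closure h)
        simp [hg, this]
      exact (h2.congr (hev.mono fun y hy => hy.symm)).continuousWithinAt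
  refine ⟨hcon, fun w hw => ?_⟩
  by_cases hwR : w ∈ R
  · obtain ⟨ρ, hρ, h1, h2⟩ := hs.2 w hw
    obtain ⟨ρ', hρ', h1', h2'⟩ := hθ.2 w hwR
    refine ⟨min ρ ρ', lt_min hρ hρ', (closedBall_subset_closedBall (min_le_left _ _)).trans h1,
      fun r hr hr' => ?_⟩
    have hr1 := hr'.trans (min_le_left _ _)
    have hr2 := hr'.trans (min_le_right _ _)
    have hgi := ci_of hcon h1 hr hr1
    have e1 : Real.circleAverage g w r ≤ s w := by
      refine (Real.circleAverage_mono hgi (ci_of hs.1 h1 hr hr1) ?_).trans (h2 r hr hr1)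
      intro x _
      exact hle x
    have e2 : Real.circleAverage g w r ≤ θ w := by
      refine (Real.circleAverage_mono hgi (ci_of hθ.1 h1' hr hr2) ?_).trans (h2' r hr hr2)
      intro x hx
      have hxR : x ∈ R := by
        apply h1'
        rw [abs_of_pos hr] at hx
        exact sphere_subset_closedBall.trans (closedBall_subset_closedBall hr2) hx
      simp only [hg, hxR, if_true]
      exact min_le_right _ _
    have : g w = min (s w) (θ w) := by simp [hg, hwR]
    show Real.circleAverage g w r ≤ g w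
    rw [this]
    exact le_min e1 e2
  · obtain ⟨ρ, hρ, h1, h2⟩ := hs.2 w hw
    refine ⟨ρ, hρ, h1, fun r hr hr' => ?_⟩
    have hgi := ci_of hcon h1 hr hr'
    have e1 : Real.circleAverage g w r ≤ s w := by
      refine (Real.circleAverage_mono hgi (ci_of hs.1 h1 hr hr') ?_).trans (h2 r hr hr')
      intro x _
      exact hle x
    have : g w = s w := by simp [hg, hwR]
    show Real.circleAverage g w r ≤ g w
    rw [this]
    exact e1

end Pool.Agent.HQ
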