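import Pool.Agent.HQD.Defs
import Pool.Agent.HQD.DefsP
import Pool.Agent.HQD.PSmv

/-!
# HQD module PLev: a positive point on a level curve
-/

set_option autoImplicit false

open Filter Topology Set Metric

namespace Pool.Agent.HQ

/-- a continuous function which attains its maximum over a circle as its average is constant on
the circle -/
theorem PLev_circle {p : ℂ → ℝ} {a : ℂ} {ρ m : ℝ} (hρ : 0 < ρ) (hp : Continuous p)
    (hle : ∀ z : ℂ, dist z a = ρ → p z ≤ m) (hav : Real.circleAverage p a ρ = m) :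
    ∀ z : ℂ, dist z a = ρ → p z = m := by
  intro z hz
  by_contra hne
  have hlt : p z < m := lt_of_le_of_ne (hle z hz) hne
  have hzs : z ∈ circleMap a ρ '' Ioc 0 (2 * Real.pi) := by
    rw [image_circleMap_Ioc, abs_of_pos hρ]
    exact hz
  obtain ⟨θ₀, hθ₀, hθz⟩ := hzs
  have hc : Continuous fun θ : ℝ => m - p (circleMap a ρ θ) :=
    continuous_const.sub (hp.comp (continuous_circleMap a ρ))
  have hpos : 0 < ∫ θ in (0 : ℝ)..(2 * Real.pi), (m - p (circleMap a ρ θ)) := by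
    refine intervalIntegral.integral_pos Real.two_pi_pos hc.continuousOn ?_
      ⟨θ₀, ⟨hθ₀.1.le, hθ₀.2⟩, ?_⟩
    · intro θ _
      have h1 : dist (circleMap a ρ θ) a = ρ := by
        rw [dist_eq_norm, circleMap_sub_center, norm_circleMap_zero, abs_of_pos hρ]
      linarith [hle _ h1]
    · show 0 < m - p (circleMap a ρ θ₀)
      rw [hθz]
      linarith
  have hint : (∫ θ in (0 : ℝ)..(2 * Real.pi), (m - p (circleMap a ρ θ))) =
      2 * Real.pi * m - ∫ θ in (0 : ℝ)..(2 * Real.pi), p (circleMap a ρ θ) := by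
    rw [intervalIntegral.integral_sub]
    · simp
    · exact continuous_const.intervalIntegrable _ _
    · exact (hp.comp (continuous_circleMap a ρ)).intervalIntegrable _ _
  rw [Real.circleAverage_def, smul_eq_mul] at hav
  have h2 : (∫ θ in (0 : ℝ)..(2 * Real.pi), p (circleMap a ρ θ)) = 2 * Real.pi * m := by
    have h3 : (2 * Real.pi) ≠ 0 := Real.two_pi_pos.ne'
    rw [← hav]
    field_simp
  rw [hint, h2, sub_self] at hpos
  exact lt_irrefl _ hpos

theorem level_pos {f : ℂ → ℂ} {p : ℂ → ℝ} {r e : ℝ} (hr : 0 < r) (he : 0 < e)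
    (hf : Continuous f) (hp : Continuous p) (h0 : f 0 = 0) (hpp : ∃ᶠ t in 𝓝 (0 : ℂ), 0 < p t)
    (hfr : ∀ z : ℂ, ‖z‖ = r → e < ‖f z‖)
    (hmv : ∀ (a : ℂ) (R : ℝ), 0 < R → (∀ z ∈ ball a R, 0 < p z) → ∀ ρ, 0 < ρ → ρ < R →
      Real.circleAverage p a ρ = p a) :
    ∃ z : ℂ, ‖z‖ < r ∧ ‖f z‖ = e ∧ 0 < p z := by
  by_contra hcon
  push Not at hcon
  set K : Set ℂ := closedBall 0 r ∩ {z | ‖f z‖ ≤ e} with hK
  have hKc : IsCompact K :=
    (isCompact_closedBall (0 : ℂ) r).inter_right (isClosed_le hf.norm continuous_const)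
  have h0K : (0 : ℂ) ∈ K := ⟨mem_closedBall_self hr.le, by simp [h0, he.le]⟩
  obtain ⟨z₀, hz₀, hmax⟩ := hKc.exists_isMaxOn ⟨0, h0K⟩ hp.continuousOn
  have hm : 0 < p z₀ := by
    have h1 : ∀ᶠ t in 𝓝 (0 : ℂ), t ∈ ball (0 : ℂ) r ∧ ‖f t‖ < e := by
      have h2 : Tendsto (fun t => ‖f t‖) (𝓝 0) (𝓝 ‖f 0‖) := hf.norm.tendsto 0
      rw [h0, norm_zero] at h2
      filter_upwards [ball_mem_nhds (0 : ℂ) hr, h2.eventually_lt_const he] with t h3 h4
      exact ⟨h3, h4⟩
    obtain ⟨t, ht, ht1, ht2⟩ := (hpp.and_eventually h1).exists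
    exact ht.trans_le (hmax ⟨ball_subset_closedBall ht1, ht2.le⟩)
  set T : Set ℂ := K ∩ {z | p z = p z₀} with hT
  have hTc : IsClosed T := hKc.isClosed.inter (isClosed_eq hp continuous_const)
  have hTo : IsOpen T := by
    rw [Metric.isOpen_iff]
    rintro z ⟨⟨hz1, hz2⟩, hz3⟩
    have hz1' : ‖z‖ < r := by
      refine lt_of_le_of_ne (mem_closedBall_zero_iff.1 hz1) fun h => ?_
      have := hfr z h
      exact absurd (this.trans_le hz2) (lt_irrefl _)
    have hz3' : p z = p z₀ := hz3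
    have hz2' : ‖f z‖ < e := by
      refine lt_of_le_of_ne hz2 fun h => ?_
      have := hcon z hz1' h
      rw [hz3'] at this
      linarith
    have hO : IsOpen {w : ℂ | ‖w‖ < r ∧ ‖f w‖ < e ∧ 0 < p w} :=
      (isOpen_lt continuous_norm continuous_const).inter
        ((isOpen_lt hf.norm continuous_const).inter (isOpen_lt continuous_const hp))
    obtain ⟨R, hR, hsub⟩ := Metric.isOpen_iff.1 hO z ⟨hz1', hz2', by rw [hz3']; exact hm⟩
    refine ⟨R, hR, fun w hw => ?_⟩
    have hwK : ∀ u ∈ ball z R, u ∈ K := fun u hu => by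
      obtain ⟨h1, h2, -⟩ := hsub hu
      exact ⟨mem_closedBall_zero_iff.2 h1.le, h2.le⟩
    refine ⟨hwK w hw, ?_⟩
    show p w = p z₀
    rcases eq_or_ne w z with rfl | hne
    · exact hz3'
    · have hρ : 0 < dist w z := dist_pos.2 hne
      have hρR : dist w z < R := hw
      refine PLev_circle hρ hp (fun u hu => ?_) ?_ w rfl
      · refine hmax (hwK u ?_)
        rw [mem_ball, hu]
        exact hρR
      · rw [hmv z R hR (fun u hu => (hsub hu).2.2) _ hρ hρR]
        exact hz3'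
  have hTu : T = univ := IsClopen.eq_univ ⟨hTc, hTo⟩ ⟨z₀, hz₀, rfl⟩
  have h1 : ((r + 1 : ℝ) : ℂ) ∈ T := by
    rw [hTu]
    exact mem_univ _
  have h2 := mem_closedBall_zero_iff.1 h1.1.1
  rw [Complex.norm_real, Real.norm_of_nonneg (by linarith)] at h2
  linarith

end Pool.Agent.HQ
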