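import Pool.Agent.HQD.Defs
import Pool.Agent.HQD.DefsP

/-!
# HQD module PTay: uniform Taylor estimate
-/

set_option autoImplicit false

open Filter Topology Set Metric

namespace Pool.Agent.HQ

/-- the first terms of the Taylor series -/
theorem PTay_sum {m : ℕ} (hm : 0 < m) {h : ℂ → E} (ho : ordGe m h) (z : ℂ) :
    ∑ i ∈ Finset.range (m + 1), (i.factorial : ℂ)⁻¹ • (z - 0) ^ i • iteratedDeriv i h 0 =
      h 0 + ((m.factorial : ℂ)⁻¹ * z ^ m) • iteratedDeriv m h 0 := by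
  obtain ⟨k, rfl⟩ : ∃ k, m = k + 1 := ⟨m - 1, by omega⟩
  rw [Finset.sum_range_succ, Finset.sum_range_succ']
  have h1 : ∑ i ∈ Finset.range k, ((i + 1).factorial : ℂ)⁻¹ • (z - 0) ^ (i + 1) •
      iteratedDeriv (i + 1) h 0 = 0 := by
    apply Finset.sum_eq_zero
    intro i hi
    rw [ho (i + 1) (by omega) (by have := Finset.mem_range.1 hi; omega), smul_zero, smul_zero]
  rw [h1]
  simp [sub_zero, iteratedDeriv_zero, smul_smul]

/-- the estimate for small arguments -/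
theorem PTay_small {m : ℕ} (hm : 0 < m) {M : ℝ} {h : ℂ → E} (hd : Differentiable ℂ h)
    (ho : ordGe m h) (hM : ∀ z, ‖z‖ ≤ 1 → ‖h z‖ ≤ M) {z : ℂ} (hz : ‖z‖ ≤ 1 / 2) :
    ‖h z - h 0 - ((m.factorial : ℂ)⁻¹ * z ^ m) • iteratedDeriv m h 0‖ ≤
      2 * M * ‖z‖ ^ (m + 1) := by
  have hM0 : 0 ≤ M := (norm_nonneg _).trans (hM 0 (by simp))
  have h1 := Complex.hasSum_taylorSeries_of_entire hd 0 z
  rw [← hasSum_nat_add_iff' (m + 1), PTay_sum hm ho z] at h1
  have h2 : ∀ n : ℕ, ‖iteratedDeriv n h 0‖ ≤ n.factorial * M := by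
    intro n
    have := Complex.norm_iteratedDeriv_le_of_forall_mem_sphere_norm_le (f := h) (c := 0) (R := 1)
      (C := M) n one_pos hd.diffContOnCl (fun w hw => hM w (by
        rw [mem_sphere_zero_iff_norm] at hw
        exact hw.le))
    simpa using this
  have h3 : ∀ n : ℕ, ‖((n + (m + 1)).factorial : ℂ)⁻¹ • (z - 0) ^ (n + (m + 1)) •
      iteratedDeriv (n + (m + 1)) h 0‖ ≤ (M * ‖z‖ ^ (m + 1)) * ‖z‖ ^ n := by
    intro n
    rw [norm_smul, norm_smul, norm_inv, norm_pow, sub_zero, Complex.norm_natCast]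
    have h4 := h2 (n + (m + 1))
    have h5 : (0 : ℝ) < ((n + (m + 1)).factorial : ℝ) := by
      exact_mod_cast Nat.factorial_pos _
    calc ((n + (m + 1)).factorial : ℝ)⁻¹ * (‖z‖ ^ (n + (m + 1)) *
          ‖iteratedDeriv (n + (m + 1)) h 0‖)
        ≤ ((n + (m + 1)).factorial : ℝ)⁻¹ * (‖z‖ ^ (n + (m + 1)) *
          ((n + (m + 1)).factorial * M)) := by gcongr
      _ = (M * ‖z‖ ^ (m + 1)) * ‖z‖ ^ n := by
          field_simp
          ring
  have hg : HasSum (fun n : ℕ => (M * ‖z‖ ^ (m + 1)) * ‖z‖ ^ n)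
      ((M * ‖z‖ ^ (m + 1)) * (1 - ‖z‖)⁻¹) :=
    (hasSum_geometric_of_lt_one (norm_nonneg z) (by linarith)).mul_left _
  have h6 := tsum_of_norm_bounded hg h3
  rw [h1.tsum_eq] at h6
  have h7 : (1 - ‖z‖)⁻¹ ≤ 2 := by
    rw [inv_le_comm₀ (by linarith) (by norm_num)]
    linarith
  have h8 : 0 ≤ M * ‖z‖ ^ (m + 1) := by positivity
  rw [sub_sub]
  refine h6.trans ?_
  nlinarith

theorem taylor_unif {m : ℕ} (hm : 0 < m) {M : ℝ} : ∃ C : ℝ, 0 < C ∧ ∀ h : ℂ → E,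
    Differentiable ℂ h → ordGe m h → (∀ z, ‖z‖ ≤ 1 → ‖h z‖ ≤ M) → ∀ z : ℂ, ‖z‖ ≤ 1 →
      ‖h z - h 0 - ((m.factorial : ℂ)⁻¹ * z ^ m) • iteratedDeriv m h 0‖ ≤ C * ‖z‖ ^ (m + 1) := by
  refine ⟨3 * |M| * 2 ^ (m + 1) + 1, by positivity, fun h hd ho hM z hz => ?_⟩
  have hM0 : 0 ≤ M := (norm_nonneg _).trans (hM 0 (by simp))
  rw [abs_of_nonneg hM0]
  have hp : 0 ≤ ‖z‖ ^ (m + 1) := by positivity
  have h2 : (1 : ℝ) ≤ 2 ^ (m + 1) := one_le_pow₀ (by norm_num)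
  rcases le_total ‖z‖ (1 / 2) with hz2 | hz2
  · refine (PTay_small hm hd ho hM hz2).trans ?_
    apply mul_le_mul_of_nonneg_right _ hp
    nlinarith
  · have h3 : ‖iteratedDeriv m h 0‖ ≤ m.factorial * M := by
      have := Complex.norm_iteratedDeriv_le_of_forall_mem_sphere_norm_le (f := h) (c := 0)
        (R := 1) (C := M) m one_pos hd.diffContOnCl (fun w hw => hM w (by
          rw [mem_sphere_zero_iff_norm] at hw
          exact hw.le))
      simpa using this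
    have hf : (0 : ℝ) < (m.factorial : ℝ) := by exact_mod_cast Nat.factorial_pos _
    have h4 : ‖((m.factorial : ℂ)⁻¹ * z ^ m) • iteratedDeriv m h 0‖ ≤ M := by
      rw [norm_smul, norm_mul, norm_inv, norm_pow, Complex.norm_natCast]
      have h5 : ‖z‖ ^ m ≤ 1 := pow_le_one₀ (norm_nonneg z) hz
      calc (m.factorial : ℝ)⁻¹ * ‖z‖ ^ m * ‖iteratedDeriv m h 0‖
          ≤ (m.factorial : ℝ)⁻¹ * 1 * (m.factorial * M) := by gcongr
        _ = M := by field_simp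
    have h5 : ‖h z - h 0 - ((m.factorial : ℂ)⁻¹ * z ^ m) • iteratedDeriv m h 0‖ ≤ 3 * M := by
      refine (norm_sub_le _ _).trans ?_
      have h6 := norm_sub_le (h z) (h 0)
      have h7 := hM z hz
      have h8 := hM 0 (by simp)
      linarith
    have h6 : 1 ≤ 2 ^ (m + 1) * ‖z‖ ^ (m + 1) := by
      rw [← mul_pow]
      exact one_le_pow₀ (by linarith)
    refine h5.trans ?_
    nlinarith [mul_le_mul_of_nonneg_left h6 (by linarith : 0 ≤ 3 * M)]

end Pool.Agent.HQ
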