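import Pool.Agent.HQD.Defs
import Pool.Agent.HQD.DefsP
import Pool.Agent.HQD.PLev
import Pool.Agent.HQD.PTay
import Pool.Agent.HQD.PCon
import Pool.Agent.HQD.PChn
import Pool.Agent.HQD.PGs0
import Pool.Agent.HQD.ZLin
import Pool.Agent.HQ.Hur
import Pool.Agent.HQ.UBas
import Pool.Agent.HQ.GrF
import Pool.Agent.HQ.FixA

/-!
# HQD module PGs: good points on stable curves
-/

set_option autoImplicit false

open Filter Topology Set Metric

namespace Pool.Agent.HQ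

/-- the second coordinate in the chart -/
noncomputable def PGs_f (q : ℝ) (v w : E) : ℂ := (q : ℂ) * (v.1 * w.2 - v.2 * w.1)

theorem PGs_snd (q : ℝ) (m : ℕ) (ξ : ℂ → E) (Y : E) :
    (cc q m ξ Y).2 = PGs_f q (iteratedDeriv m ξ 0) (Y - ξ 0) := by
  unfold cc
  rw [chartInv_apply]
  rfl

theorem PGs_sub {q : ℝ} (hq : 0 ≤ q) (v v' w w' : E) :
    ‖PGs_f q v w - PGs_f q v' w'‖ ≤ 2 * q * (‖v - v'‖ * ‖w‖ + ‖v'‖ * ‖w - w'‖) := by
  have h1 : PGs_f q v w - PGs_f q v' w' = (q : ℂ) * (((v - v').1 * w.2 - (v - v').2 * w.1) +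
      (v'.1 * (w - w').2 - v'.2 * (w - w').1)) := by
    unfold PGs_f
    simp only [Prod.fst_sub, Prod.snd_sub]
    ring
  rw [h1, norm_mul, Complex.norm_real, Real.norm_of_nonneg hq]
  have h2 : ∀ a b : E, ‖a.1 * b.2 - a.2 * b.1‖ ≤ 2 * (‖a‖ * ‖b‖) := by
    intro a b
    refine (norm_sub_le _ _).trans ?_
    rw [norm_mul, norm_mul]
    have h3 : ‖a.1‖ * ‖b.2‖ ≤ ‖a‖ * ‖b‖ :=
      mul_le_mul (norm_fst_le a) (norm_snd_le b) (norm_nonneg _) (norm_nonneg _)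
    have h4 : ‖a.2‖ * ‖b.1‖ ≤ ‖a‖ * ‖b‖ :=
      mul_le_mul (norm_snd_le a) (norm_fst_le b) (norm_nonneg _) (norm_nonneg _)
    linarith
  have h3 := (norm_add_le ((v - v').1 * w.2 - (v - v').2 * w.1)
    (v'.1 * (w - w').2 - v'.2 * (w - w').1)).trans (add_le_add (h2 (v - v') w) (h2 v' (w - w')))
  calc q * ‖(v - v').1 * w.2 - (v - v').2 * w.1 + (v'.1 * (w - w').2 - v'.2 * (w - w').1)‖
      ≤ q * (2 * (‖v - v'‖ * ‖w‖) + 2 * (‖v'‖ * ‖w - w'‖)) := mul_le_mul_of_nonneg_left h3 hq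
    _ = _ := by ring

theorem PGs_zero (q : ℝ) (v : E) : PGs_f q v 0 = 0 := by
  unfold PGs_f
  simp

/-- uniform bound for the charts -/
theorem PGs_bound {q c₁ c₂ : ℝ} (hq : 0 ≤ q) (hc : 0 < c₁) : ∃ K > 0, ∀ v : E, c₁ ≤ ‖v‖ →
    ‖v‖ ≤ c₂ → ∀ w : E, ‖chartInv q v w‖ ≤ K * ‖w‖ := by
  obtain ⟨C, hC⟩ := perp_bound (c₁ := c₁) (c₂ := c₂) hc
  refine ⟨2 * (|C| + q * |c₂| + 1), by positivity, fun v h1 h2 w => ?_⟩
  have hp : ‖perp v‖ ≤ |C| := (hC v h1 h2).trans (le_abs_self C)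
  have hv : ‖v‖ ≤ |c₂| := h2.trans (le_abs_self _)
  have hw := norm_nonneg w
  rw [chartInv_apply, Prod.norm_mk]
  have h3 : ∀ a b : ℂ, ∀ B : ℝ, ‖a‖ ≤ B → ‖b‖ ≤ B → ‖a * w.2 - b * w.1‖ ≤ 2 * (B * ‖w‖) := by
    intro a b B ha hb
    have hB : 0 ≤ B := (norm_nonneg a).trans ha
    refine (norm_sub_le _ _).trans ?_
    rw [norm_mul, norm_mul]
    have h4 : ‖a‖ * ‖w.2‖ ≤ B * ‖w‖ := mul_le_mul ha (norm_snd_le w) (norm_nonneg _) hB
    have h5 : ‖b‖ * ‖w.1‖ ≤ B * ‖w‖ := mul_le_mul hb (norm_fst_le w) (norm_nonneg _) hB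
    linarith
  refine max_le ?_ ?_
  · have h4 := h3 (-(perp v).1) (-(perp v).2) |C| (by rw [norm_neg]; exact (norm_fst_le _).trans hp)
      (by rw [norm_neg]; exact (norm_snd_le _).trans hp)
    have h5 : -(perp v).1 * w.2 - -(perp v).2 * w.1 = w.1 * (perp v).2 - w.2 * (perp v).1 := by ring
    rw [h5] at h4
    refine h4.trans ?_
    have h6 : 0 ≤ q * |c₂| := by positivity
    nlinarith
  · rw [norm_mul, Complex.norm_real, Real.norm_of_nonneg hq]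
    have h4 := h3 v.1 v.2 |c₂| ((norm_fst_le v).trans hv) ((norm_snd_le v).trans hv)
    have h5 := mul_le_mul_of_nonneg_left h4 hq
    refine h5.trans ?_
    have h6 : 0 ≤ |C| := abs_nonneg _
    nlinarith

/-- uniform slope of the stable curves in the unstable charts -/
theorem slope_s {Q : QS} {Z : Set E} {m m' : ℕ} {c₁ c₂ κ Λ c₁' c₂' κ' Λ' : ℝ}
    {W W' : Set (ℂ → E)} (hW : WF Q Z m c₁ c₂ κ Λ W) (hW' : WF Q.dual Z m' c₁' c₂' κ' Λ' W')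
    {q ε : ℝ} {N : ℕ} (hN : 1 ≤ N) (hq : 1 ≤ q) (hε : 0 < ε) (hE : Est Q W κ q ε m N) :
    ∃ r > 0, ∃ c > 0, r ≤ 1 ∧ ∀ ξ ∈ W, ∀ σ ∈ W', σ 0 = ξ 0 → ∀ z : ℂ, ‖z‖ ≤ r →
      ‖(cc q m ξ (σ z)).1‖ ≤ ‖(cc q m ξ (σ z)).2‖ ∧ ‖cc q m ξ (σ z)‖ ≤ ε ∧
      c * ‖z‖ ^ m' ≤ ‖(cc q m ξ (σ z)).2‖ := by
  obtain ⟨c0, hc0, hslope⟩ := slope_s0 hW hW' hN hq hε hE
  obtain ⟨M, hM⟩ := U_bdd Q.dual 1
  obtain ⟨C, hC, hT⟩ := taylor_unif hW'.m0 (M := M)
  obtain ⟨K, hK, hKb⟩ := PGs_bound (q := q) (c₂ := c₂) (by linarith) hW.c0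
  have hm' := hW'.m0
  set F : ℝ := (m'.factorial : ℝ) with hF
  have hF1 : 1 ≤ F := by
    rw [hF]
    exact_mod_cast Nat.factorial_pos m'
  have hF0 : 0 < F := by linarith
  set r : ℝ := min 1 (min (c0 / F / (4 * (K * C))) (ε / (K * (|c₂'| + C)))) with hr
  have hr0 : 0 < r := by
    rw [hr]
    refine lt_min one_pos (lt_min (by positivity) (by positivity))
  refine ⟨r, hr0, c0 / F / 2, by positivity, min_le_left _ _, ?_⟩
  intro ξ hξ σ hσ hcen z hz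
  have hz1 : ‖z‖ ≤ 1 := hz.trans (min_le_left _ _)
  have hz2 : ‖z‖ ≤ c0 / F / (4 * (K * C)) :=
    hz.trans ((min_le_right _ _).trans (min_le_left _ _))
  have hz3 : ‖z‖ ≤ ε / (K * (|c₂'| + C)) :=
    hz.trans ((min_le_right _ _).trans (min_le_right _ _))
  have hσU := hW'.sub hσ
  have hTz := hT σ (U_diff Q.dual hσU) (hW'.ord σ hσ) (fun y hy => hM σ hσU y hy) z hz1
  set v : E := iteratedDeriv m ξ 0 with hv
  set lead : E := iteratedDeriv m' σ 0 with hlead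
  set rem : E := σ z - σ 0 - ((m'.factorial : ℂ)⁻¹ * z ^ m') • lead with hrem
  set w : E := chartInv q v lead with hw
  obtain ⟨hs1, hs2⟩ := hslope ξ hξ σ hσ hcen
  rw [← hv, ← hlead, ← hw] at hs1 hs2
  have hKv : ∀ y : E, ‖chartInv q v y‖ ≤ K * ‖y‖ := hKb v (hW.lo ξ hξ) (hW.hi ξ hξ)
  -- the expansion
  have hexp : cc q m ξ (σ z) = ((m'.factorial : ℂ)⁻¹ * z ^ m') • w + chartInv q v rem := by
    have h1 : σ z - ξ 0 = ((m'.factorial : ℂ)⁻¹ * z ^ m') • lead + rem := by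
      rw [hrem, ← hcen]
      abel
    unfold cc
    rw [← hv, h1, map_add, map_smul]
  have hn : ‖((m'.factorial : ℂ)⁻¹ * z ^ m')‖ = ‖z‖ ^ m' / F := by
    rw [norm_mul, norm_inv, norm_pow, Complex.norm_natCast, hF]
    ring
  set a : ℝ := ‖z‖ ^ m' / F with ha
  have hzn : 0 ≤ ‖z‖ := norm_nonneg z
  have ha0 : 0 ≤ a := by positivity
  have hR : ‖chartInv q v rem‖ ≤ a * (c0 / 4) := by
    have h1 : ‖chartInv q v rem‖ ≤ K * (C * ‖z‖ ^ (m' + 1)) :=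
      (hKv rem).trans (mul_le_mul_of_nonneg_left hTz hK.le)
    refine h1.trans ?_
    have h2 : K * (C * ‖z‖ ^ (m' + 1)) = ‖z‖ ^ m' * ((K * C) * ‖z‖) := by
      rw [pow_succ]
      ring
    rw [h2]
    have h3 : (K * C) * ‖z‖ ≤ c0 / F / 4 := by
      calc (K * C) * ‖z‖ ≤ (K * C) * (c0 / F / (4 * (K * C))) :=
            mul_le_mul_of_nonneg_left hz2 (by positivity)
        _ = c0 / F / 4 := by field_simp
    calc ‖z‖ ^ m' * ((K * C) * ‖z‖) ≤ ‖z‖ ^ m' * (c0 / F / 4) :=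
          mul_le_mul_of_nonneg_left h3 (by positivity)
      _ = a * (c0 / 4) := by
          rw [ha]
          ring
  have hb1 : ‖(cc q m ξ (σ z)).1‖ ≤ a * ‖w.1‖ + a * (c0 / 4) := by
    rw [hexp, Prod.fst_add, Prod.smul_fst]
    refine (norm_add_le _ _).trans (add_le_add ?_ ((norm_fst_le _).trans hR))
    rw [norm_smul, hn]
  have hb2 : a * ‖w.2‖ - a * (c0 / 4) ≤ ‖(cc q m ξ (σ z)).2‖ := by
    rw [hexp, Prod.snd_add, Prod.smul_snd]
    have h1 : a * ‖w.2‖ = ‖(((m'.factorial : ℂ)⁻¹ * z ^ m') • w.2)‖ := by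
      rw [norm_smul, hn]
    have h2 := norm_sub_norm_le ((((m'.factorial : ℂ)⁻¹ * z ^ m') • w.2)) (-(chartInv q v rem).2)
    rw [sub_neg_eq_add, norm_neg] at h2
    have h3 : ‖(chartInv q v rem).2‖ ≤ a * (c0 / 4) := (norm_snd_le _).trans hR
    rw [h1]
    linarith
  refine ⟨?_, ?_, ?_⟩
  · have h1 : a * ‖w.1‖ ≤ a * (3 / 8 * ‖w.2‖) := mul_le_mul_of_nonneg_left hs1 ha0
    have h2 : a * c0 ≤ a * ‖w.2‖ := mul_le_mul_of_nonneg_left hs2 ha0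
    nlinarith
  · have h1 : ‖cc q m ξ (σ z)‖ ≤ K * ‖σ z - σ 0‖ := by
      unfold cc
      rw [← hcen]
      exact hKv _
    have h2 : ‖σ z - σ 0‖ ≤ (|c₂'| + C) * ‖z‖ := by
      have h3 : σ z - σ 0 = ((m'.factorial : ℂ)⁻¹ * z ^ m') • lead + rem := by
        rw [hrem]
        abel
      rw [h3]
      refine (norm_add_le _ _).trans ?_
      rw [norm_smul, hn, add_mul]
      have h4 : ‖z‖ ^ m' ≤ ‖z‖ := by
        calc ‖z‖ ^ m' ≤ ‖z‖ ^ 1 := pow_le_pow_of_le_one hzn hz1 hm'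
          _ = ‖z‖ := pow_one _
      have h5 : ‖z‖ ^ (m' + 1) ≤ ‖z‖ := by
        calc ‖z‖ ^ (m' + 1) ≤ ‖z‖ ^ 1 := pow_le_pow_of_le_one hzn hz1 (by omega)
          _ = ‖z‖ := pow_one _
      refine add_le_add ?_ (hTz.trans (mul_le_mul_of_nonneg_left h5 hC.le))
      have h6 : a ≤ ‖z‖ := by
        rw [ha, div_le_iff₀ hF0]
        nlinarith
      have h7 : ‖lead‖ ≤ |c₂'| := (hW'.hi σ hσ).trans (le_abs_self _)
      calc a * ‖lead‖ ≤ ‖z‖ * |c₂'| := mul_le_mul h6 h7 (norm_nonneg _) hzn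
        _ = |c₂'| * ‖z‖ := mul_comm _ _
    calc ‖cc q m ξ (σ z)‖ ≤ K * ‖σ z - σ 0‖ := h1
      _ ≤ K * ((|c₂'| + C) * ‖z‖) := mul_le_mul_of_nonneg_left h2 hK.le
      _ ≤ K * ((|c₂'| + C) * (ε / (K * (|c₂'| + C)))) := by gcongr
      _ = ε := by
          have : 0 < |c₂'| + C := by positivity
          field_simp
  · have h2 : a * c0 ≤ a * ‖w.2‖ := mul_le_mul_of_nonneg_left hs2 ha0
    have h3 : c0 / F / 2 * ‖z‖ ^ m' = a * c0 / 2 := by
      rw [ha]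
      ring
    rw [h3]
    nlinarith

/-- locally uniform convergence of the second coordinates -/
theorem PGs_tlu {q : ℝ} (hq : 0 < q) {v : ℕ → E} {v' : E} (hv : Tendsto v atTop (𝓝 v'))
    {g : ℕ → ℂ → E} {h : ℂ → E} (hc : Continuous h) (hl : TendstoLocallyUniformly g h atTop)
    {b : ℕ → E} {b' : E} (hb : Tendsto b atTop (𝓝 b')) (w : ℂ) :
    TendstoLocallyUniformlyOn (fun n z => PGs_f q (v n) (g n z - b n) - w)
      (fun z => PGs_f q v' (h z - b') - w) atTop univ := by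
  rw [tendstoLocallyUniformlyOn_iff_forall_isCompact isOpen_univ]
  intro K _ hK
  obtain ⟨B, hB⟩ := hK.exists_bound_of_continuousOn hc.continuousOn
  have hlK : TendstoUniformlyOn g h atTop K :=
    (tendstoLocallyUniformlyOn_iff_tendstoUniformlyOn_of_compact hK).1
      hl.tendstoLocallyUniformlyOn
  rw [Metric.tendstoUniformlyOn_iff] at hlK ⊢
  intro ε hε
  set D : ℝ := 2 * q * (|B| + ‖b'‖ + 2 + 2 * ‖v'‖) + 1 with hD
  have hD0 : 0 < D := by positivity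
  set δ : ℝ := min 1 (ε / (2 * D)) with hδ
  have hδ0 : 0 < δ := lt_min one_pos (by positivity)
  have hδ1 : δ ≤ 1 := min_le_left _ _
  have e1 : ∀ᶠ n in atTop, ‖v n - v'‖ < δ := by
    have := (hv.sub_const v').norm
    rw [sub_self, norm_zero] at this
    exact this.eventually (gt_mem_nhds hδ0)
  have e2 : ∀ᶠ n in atTop, ‖b n - b'‖ < δ := by
    have := (hb.sub_const b').norm
    rw [sub_self, norm_zero] at this
    exact this.eventually (gt_mem_nhds hδ0)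
  filter_upwards [hlK δ hδ0, e1, e2] with n h1 h2 h3 z hz
  have h4 := h1 z hz
  rw [dist_eq_norm] at h4
  rw [dist_comm, dist_eq_norm]
  have h5 : PGs_f q (v n) (g n z - b n) - w - (PGs_f q v' (h z - b') - w) =
      PGs_f q (v n) (g n z - b n) - PGs_f q v' (h z - b') := by ring
  rw [h5]
  have h6 : ‖g n z - b n - (h z - b')‖ ≤ 2 * δ := by
    have h7 : g n z - b n - (h z - b') = -(h z - g n z) - (b n - b') := by abel
    rw [h7]
    refine (norm_sub_le _ _).trans ?_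
    rw [norm_neg]
    linarith
  have h8 : ‖g n z - b n‖ ≤ |B| + ‖b'‖ + 2 := by
    have h9 : g n z - b n = (g n z - b n - (h z - b')) + h z - b' := by abel
    have h10 := hB z hz
    calc ‖g n z - b n‖ = ‖(g n z - b n - (h z - b')) + h z - b'‖ := by rw [← h9]
      _ ≤ ‖(g n z - b n - (h z - b')) + h z‖ + ‖b'‖ := norm_sub_le _ _
      _ ≤ ‖g n z - b n - (h z - b')‖ + ‖h z‖ + ‖b'‖ := by
          have := norm_add_le (g n z - b n - (h z - b')) (h z)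
          linarith
      _ ≤ |B| + ‖b'‖ + 2 := by
          have := le_abs_self B
          linarith
  calc ‖PGs_f q (v n) (g n z - b n) - PGs_f q v' (h z - b')‖
      ≤ 2 * q * (‖v n - v'‖ * ‖g n z - b n‖ + ‖v'‖ * ‖g n z - b n - (h z - b')‖) :=
        PGs_sub hq.le _ _ _ _
    _ ≤ 2 * q * (δ * (|B| + ‖b'‖ + 2) + ‖v'‖ * (2 * δ)) := by
        gcongr
    _ = δ * (D - 1) := by
        rw [hD]
        ring
    _ < δ * (2 * D) := by
        apply mul_lt_mul_of_pos_left _ hδ0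
        linarith
    _ ≤ ε / (2 * D) * (2 * D) := by
        gcongr
        exact min_le_right _ _
    _ = ε := by field_simp

/-- uniform positivity on the level curves -/
theorem PGs_unif (Q : QS) (hMV : Q.dual.MV) {Z : Set E} {m m' : ℕ}
    {c₁ c₂ κ Λ c₁' c₂' κ' Λ' : ℝ} {W W' : Set (ℂ → E)} (hW : WF Q Z m c₁ c₂ κ Λ W)
    (hW' : WF Q.dual Z m' c₁' c₂' κ' Λ' W') {q r c e : ℝ} (hq : 0 < q) (hr : 0 < r) (he : 0 < e)
    (hec : e < c * r ^ m')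
    (hsl : ∀ ξ ∈ W, ∀ σ ∈ W', σ 0 = ξ 0 → ∀ z : ℂ, ‖z‖ ≤ r →
      c * ‖z‖ ^ m' ≤ ‖(cc q m ξ (σ z)).2‖) :
    ∃ c' > 0, ∀ ξ ∈ W, ∀ σ ∈ W', σ 0 = ξ 0 →
      ∃ z : ℂ, ‖z‖ ≤ r ∧ ‖(cc q m ξ (σ z)).2‖ = e ∧ c' ≤ Q.M (σ z) := by
  -- one pair
  have hone : ∀ ξ ∈ W, ∀ σ ∈ W', σ 0 = ξ 0 →
      ∃ z : ℂ, ‖z‖ < r ∧ ‖(cc q m ξ (σ z)).2‖ = e ∧ 0 < Q.M (σ z) := by
    intro ξ hξ σ hσ hcen
    have hσU := hW'.sub hσ
    have hdσ := U_diff Q.dual hσU
    refine level_pos (f := fun z => (cc q m ξ (σ z)).2) (p := fun z => Q.M (σ z)) hr he ?_ ?_ ?_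
      ?_ ?_ ?_
    · have h1 : (fun z => (cc q m ξ (σ z)).2) =
          fun z => PGs_f q (iteratedDeriv m ξ 0) (σ z - ξ 0) := by
        funext z
        exact PGs_snd q m ξ (σ z)
      rw [h1]
      unfold PGs_f
      have h2 := hdσ.continuous
      fun_prop
    · exact Q.cM.comp hdσ.continuous
    · change (cc q m ξ (σ 0)).2 = 0
      rw [PGs_snd, hcen, sub_self, PGs_zero]
    · rw [Metric.nhds_basis_ball.frequently_iff]
      intro s hs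
      exact U_pos Q.dual hσU hs
    · intro z hz
      have h1 := hsl ξ hξ σ hσ hcen z hz.le
      rw [hz] at h1
      exact hec.trans_le h1
    · intro a R hR hpos ρ hρ hρR
      exact hMV σ a R hR hdσ.differentiableOn hpos ρ hρ hρR
  by_contra hcon
  push Not at hcon
  have h1 : ∀ n : ℕ, ∃ ξ ∈ W, ∃ σ ∈ W', σ 0 = ξ 0 ∧ ∀ z : ℂ, ‖z‖ ≤ r →
      ‖(cc q m ξ (σ z)).2‖ = e → Q.M (σ z) < 1 / ((n : ℝ) + 1) :=
    fun n => hcon _ (by positivity)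
  choose ξ hξ σ hσ hcen hlt using h1
  obtain ⟨φ, hφ, ξ', hξ', hlξ⟩ := U_seq Q fun n => hW.sub (hξ n)
  obtain ⟨ψ, hψ, σ', hσ', hlσ⟩ := U_seq Q.dual fun n => hW'.sub (hσ (φ n))
  have hlξ2 : TendstoLocallyUniformly (fun n => ξ (φ (ψ n))) ξ' atTop := by
    intro u hu x
    obtain ⟨t, ht, h2⟩ := hlξ u hu x
    exact ⟨t, ht, hψ.tendsto_atTop.eventually h2⟩
  have hξW : ξ' ∈ W := hW.cl (fun n => ξ (φ (ψ n))) ξ' (fun n => hξ _) hlξ2
  have hσW : σ' ∈ W' := hW'.cl (fun n => σ (φ (ψ n))) σ' (fun n => hσ _) hlσ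
  have hp1 := UBas_pt hlξ2 0
  have hp2 := UBas_pt hlσ 0
  have hcen' : σ' 0 = ξ' 0 := by
    refine tendsto_nhds_unique hp2 ?_
    refine hp1.congr fun n => ?_
    exact (hcen _).symm
  obtain ⟨z0, hz0, hz1, hz2⟩ := hone ξ' hξW σ' hσW hcen'
  have hdξ : ∀ n, Differentiable ℂ (ξ (φ (ψ n))) := fun n => U_diff Q (hW.sub (hξ _))
  have hdσ : ∀ n, Differentiable ℂ (σ (φ (ψ n))) := fun n => U_diff Q.dual (hW'.sub (hσ _))
  have hv := FixA_lim m _ _ hdξ hlξ2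
  have hcσ : Continuous σ' := (U_diff Q.dual hσ').continuous
  set w0 : ℂ := (cc q m ξ' (σ' z0)).2 with hw0
  have htl := PGs_tlu hq hv hcσ hlσ hp1 w0
  have h0 : PGs_f q (iteratedDeriv m ξ' 0) (σ' z0 - ξ' 0) - w0 = 0 := by
    rw [hw0, PGs_snd, sub_self]
  have hdiff : Differentiable ℂ fun z => PGs_f q (iteratedDeriv m ξ' 0) (σ' z - ξ' 0) - w0 := by
    unfold PGs_f
    have h2 := U_diff Q.dual hσ'
    have h3 : Differentiable ℂ fun z => (σ' z).1 := h2.fst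
    have h4 : Differentiable ℂ fun z => (σ' z).2 := h2.snd
    simp only [Prod.fst_sub, Prod.snd_sub]
    fun_prop
  have hnc : NC (fun z => PGs_f q (iteratedDeriv m ξ' 0) (σ' z - ξ' 0) - w0) z0 := by
    apply nc_of_entire hdiff
    refine ⟨z0, 0, ?_⟩
    rw [h0, hcen', sub_self, PGs_zero, zero_sub]
    intro h2
    have h3 : w0 = 0 := by
      rw [← neg_eq_zero]
      exact h2.symm
    rw [h3, norm_zero] at hz1
    exact he.ne hz1
  have hdn : ∀ᶠ n in atTop, DifferentiableOn ℂ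
      (fun z => PGs_f q (iteratedDeriv m (ξ (φ (ψ n))) 0) (σ (φ (ψ n)) z - ξ (φ (ψ n)) 0) - w0)
      univ := by
    refine Eventually.of_forall fun n => Differentiable.differentiableOn ?_
    unfold PGs_f
    have h3 : Differentiable ℂ fun z => (σ (φ (ψ n)) z).1 := (hdσ n).fst
    have h4 : Differentiable ℂ fun z => (σ (φ (ψ n)) z).2 := (hdσ n).snd
    simp only [Prod.fst_sub, Prod.snd_sub]
    fun_prop
  have hzp := zero_persist isOpen_univ (mem_univ z0) hdn htl h0 hnc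
  -- a small disc where `M` is large
  set c' : ℝ := Q.M (σ' z0) / 2 with hc'
  have hc'0 : 0 < c' := by
    rw [hc']
    linarith
  have hMn : ∃ η > 0, ∀ᶠ n in atTop, ∀ z ∈ ball z0 η, c' < Q.M (σ (φ (ψ n)) z) := by
    have h1 : ∀ᶠ x in 𝓝 (σ' z0), c' < Q.M x := by
      refine Q.cM.continuousAt.eventually (lt_mem_nhds ?_)
      rw [hc']
      linarith
    obtain ⟨δ, hδ, h1'⟩ := Metric.eventually_nhds_iff.1 h1
    obtain ⟨t, ht, h2⟩ := Metric.tendstoLocallyUniformly_iff.1 hlσ (δ / 2) (by linarith) z0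
    have h3 : ∀ᶠ z in 𝓝 z0, dist (σ' z) (σ' z0) < δ / 2 :=
      Metric.tendsto_nhds.1 hcσ.continuousAt (δ / 2) (by linarith)
    obtain ⟨η, hη, h4⟩ := Metric.mem_nhds_iff.1 (Filter.inter_mem ht h3)
    refine ⟨η, hη, ?_⟩
    filter_upwards [h2] with n h5 z hz
    have h6 := h4 hz
    have h7 : dist (σ' z) (σ (φ (ψ n)) z) < δ / 2 := h5 z h6.1
    have h8 : dist (σ' z) (σ' z0) < δ / 2 := h6.2
    refine h1' ?_
    calc dist (σ (φ (ψ n)) z) (σ' z0) ≤ dist (σ (φ (ψ n)) z) (σ' z) + dist (σ' z) (σ' z0) :=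
          dist_triangle _ _ _
      _ < δ := by
          rw [dist_comm (σ (φ (ψ n)) z)]
          linarith
  obtain ⟨η, hη, hMη⟩ := hMn
  have e3 : ∀ᶠ n : ℕ in atTop, 1 / ((n : ℝ) + 1) < c' :=
    (tendsto_one_div_add_atTop_nhds_zero_nat (𝕜 := ℝ)).eventually (gt_mem_nhds hc'0)
  obtain ⟨n, ⟨z, hz3, hz4⟩, h5, h6⟩ :=
    ((hzp (min η (r - ‖z0‖)) (lt_min hη (by linarith))).and (hMη.and e3)).exists
  have hz5 : z ∈ ball z0 η := ball_subset_ball (min_le_left _ _) hz3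
  have hz6 : ‖z‖ ≤ r := by
    have h7 : ‖z - z0‖ < r - ‖z0‖ := by
      rw [← dist_eq_norm]
      exact lt_of_lt_of_le hz3 (min_le_right _ _)
    have h8 : ‖z‖ ≤ ‖z - z0‖ + ‖z0‖ := by
      have := norm_add_le (z - z0) z0
      rwa [sub_add_cancel] at this
    linarith
  have hz7 : ‖(cc q m (ξ (φ (ψ n))) (σ (φ (ψ n)) z)).2‖ = e := by
    rw [PGs_snd, sub_eq_zero.1 hz4]
    exact hz1
  have h8 := hlt (φ (ψ n)) z hz6 hz7
  have h9 := h5 z hz5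
  have h10 : 1 / ((φ (ψ n) : ℝ) + 1) ≤ 1 / ((n : ℝ) + 1) := by
    have h11 : n ≤ φ (ψ n) := (hψ.id_le n).trans (hφ.id_le _)
    have h12 : (n : ℝ) ≤ (φ (ψ n) : ℝ) := by exact_mod_cast h11
    have h13 : (0 : ℝ) ≤ n := Nat.cast_nonneg n
    exact one_div_le_one_div_of_le (by linarith) (by linarith)
  linarith

theorem good_s (Q : QS) (hMV : Q.dual.MV) {Z : Set E} {m m' : ℕ}
    {c₁ c₂ κ Λ c₁' c₂' κ' Λ' : ℝ} {W W' : Set (ℂ → E)} (hW : WF Q Z m c₁ c₂ κ Λ W)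
    (hW' : WF Q.dual Z m' c₁' c₂' κ' Λ' W') {q ε : ℝ} {N : ℕ} (hN : 1 ≤ N) (hq : 1 ≤ q)
    (hε : 0 < ε) (hE : Est Q W κ q ε m N) :
    ∃ e₀ > 0, ∀ e, 0 < e → e ≤ e₀ → ∃ c > 0, ∀ η : ℤ → ℂ → E, Chn Q W κ N η → ∀ j : ℤ,
      ∃ V : E, ‖(cc q m (η j) V).2‖ = e ∧ c ≤ Q.M V ∧
        ∀ i : ℕ, ‖cc q m (η (j + i)) ((Q.F ^ ((N : ℤ) * i)) V)‖ ≤ e := by
  obtain ⟨r, hr, c, hc, hr1, hsl⟩ := slope_s hW hW' hN hq hε hE
  refine ⟨c * r ^ m' / 2, by positivity, fun e he he0 => ?_⟩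
  have hec : e < c * r ^ m' := by
    have : 0 < c * r ^ m' := by positivity
    linarith
  obtain ⟨c', hc', hun⟩ := PGs_unif Q hMV hW hW' (by linarith : 0 < q) hr he hec
    fun ξ hξ σ hσ h0 z hz => (hsl ξ hξ σ hσ h0 z hz).2.2
  refine ⟨c', hc', fun η hη j => ?_⟩
  obtain ⟨σ, hσ, hσ0⟩ := hW'.ex (η j 0) (hW.cen _ (hη.mem j))
  obtain ⟨z, hz1, hz2, hz3⟩ := hun (η j) (hη.mem j) σ hσ hσ0
  refine ⟨σ z, hz2, hz3, ?_⟩
  obtain ⟨τ, hτ, hτ0, hτs⟩ := exists_dual_chain hW' N hσ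
  -- the orbit on the stable chain
  have horb : ∀ i : ℕ, (∃ y : ℂ, ‖y‖ ≤ r ∧ (Q.F ^ ((N : ℤ) * i)) (σ z) = τ i y) ∧
      (Q.F ^ ((N : ℤ) * i)) (σ 0) = τ i 0 := by
    intro i
    induction i with
    | zero =>
      refine ⟨⟨z, hz1, ?_⟩, ?_⟩ <;> simp [hτ0]
    | succ i ih =>
      obtain ⟨⟨y, hy1, hy2⟩, hy3⟩ := ih
      obtain ⟨a, ha, hstep⟩ := hτs i
      have ha1 : 1 ≤ ‖a‖ := le_trans (one_le_pow₀ hW'.k1.le) ha
      have ha0 : a ≠ 0 := by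
        rintro rfl
        rw [norm_zero] at ha1
        linarith
      have hpow : ∀ Y : E, (Q.F ^ ((N : ℤ) * ((i + 1 : ℕ) : ℤ))) Y =
          (Q.F ^ N) ((Q.F ^ ((N : ℤ) * (i : ℤ))) Y) := by
        intro Y
        have h1 : (N : ℤ) * ((i + 1 : ℕ) : ℤ) = (N : ℤ) + (N : ℤ) * (i : ℤ) := by
          push_cast
          ring
        rw [h1, zpow_add, zpow_natCast, Equiv.Perm.mul_apply]
      refine ⟨⟨y / a, ?_, ?_⟩, ?_⟩
      · rw [norm_div]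
        exact (div_le_self (norm_nonneg _) ha1).trans hy1
      · rw [hpow, hy2, ← hstep, mul_div_cancel₀ _ ha0]
      · rw [hpow, hy3, ← hstep, mul_zero]
  have hcenτ : ∀ i : ℕ, τ i 0 = η (j + i) 0 := by
    intro i
    rw [← (horb i).2, hσ0]
    exact hη.center j i
  have hslope : ∀ i : ℕ, ‖(cc q m (η (j + i)) ((Q.F ^ ((N : ℤ) * i)) (σ z))).1‖ ≤
      ‖(cc q m (η (j + i)) ((Q.F ^ ((N : ℤ) * i)) (σ z))).2‖ ∧
      ‖cc q m (η (j + i)) ((Q.F ^ ((N : ℤ) * i)) (σ z))‖ ≤ ε := by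
    intro i
    obtain ⟨⟨y, hy1, hy2⟩, -⟩ := horb i
    rw [hy2]
    have h1 := hsl (η (j + i)) (hη.mem _) (τ i) (hτ i) (hcenτ i) y hy1
    exact ⟨h1.1, h1.2.1⟩
  have hsnd : ∀ i : ℕ, ‖(cc q m (η (j + i)) ((Q.F ^ ((N : ℤ) * i)) (σ z))).2‖ ≤ e := by
    intro i
    induction i with
    | zero =>
      simp only [Nat.cast_zero, mul_zero, add_zero, zpow_zero, Equiv.Perm.coe_one, id_eq]
      exact hz2.le
    | succ i ih =>
      obtain ⟨a, ha, hstep⟩ := hη.step (j + i)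
      obtain ⟨l, μ, hl, hμ, hest, -⟩ := hE (η (j + i)) (hη.mem _) (η (j + i + 1)) (hη.mem _) a ha hstep
      set Y := (Q.F ^ ((N : ℤ) * (i : ℤ))) (σ z) with hY
      have hpow : (Q.F ^ ((N : ℤ) * ((i + 1 : ℕ) : ℤ))) (σ z) = (Q.F ^ N) Y := by
        have h1 : (N : ℤ) * ((i + 1 : ℕ) : ℤ) = (N : ℤ) + (N : ℤ) * (i : ℤ) := by
          push_cast
          ring
        rw [h1, zpow_add, zpow_natCast, Equiv.Perm.mul_apply]
      have hidx : j + ((i + 1 : ℕ) : ℤ) = j + i + 1 := by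
        push_cast
        ring
      have hc0 : cc q m (η (j + i)) (η (j + i) 0) = 0 := by
        unfold cc
        rw [sub_self, map_zero]
      have hc1 : cc q m (η (j + i + 1)) ((Q.F ^ N) (η (j + i) 0)) = 0 := by
        have h2 := hstep 0
        rw [mul_zero] at h2
        rw [h2]
        unfold cc
        rw [sub_self, map_zero]
      have h3 := hest Y (η (j + i) 0) (hslope i).2 (by rw [hc0, norm_zero]; exact hε.le)
      rw [hc0, hc1, sub_zero, sub_zero] at h3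
      have h4 := (cone_vec hl hμ h3).2.1
      have h5 := (hslope (i + 1)).1
      rw [hpow, hidx] at h5
      have h6 := (h4 h5).2
      rw [hpow, hidx]
      have h7 : 0 ≤ ‖(cc q m (η (j + i + 1)) ((Q.F ^ N) Y)).2‖ := norm_nonneg _
      linarith
  intro i
  rw [Prod.norm_def]
  exact max_le ((hslope i).1.trans (hsnd i)) (hsnd i)

end Pool.Agent.HQ
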