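import Pool.Agent.HQD.Defs
import Pool.Agent.HQD.DefsP
import Pool.Agent.HQD.PLev
import Pool.Agent.HQD.PTay
import Pool.Agent.HQD.PCon
import Pool.Agent.HQD.PChn
import Pool.Agent.HQD.ZLin
import Pool.Agent.HQ.Hur
import Pool.Agent.HQ.UBas
import Pool.Agent.HQ.GrF
import Pool.Agent.HQ.FixA

/-!
# HQD module PGu: good points on unstable curves
-/

set_option autoImplicit false

open Filter Topology Set Metric

namespace Pool.Agent.HQ

theorem PGu_lu {X : Type*} [PseudoMetricSpace X] {ξ : ℕ → ℂ → X} {η : ℂ → X}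
    (hη : Continuous η) :
    TendstoLocallyUniformly ξ η atTop ↔
      ∀ x, Tendsto (fun y : ℕ × ℂ => ξ y.1 y.2) (atTop ×ˢ 𝓝 x) (𝓝 (η x)) := by
  have hc : ∀ x, Tendsto (fun y : ℕ × ℂ => η y.2) (atTop ×ˢ 𝓝 x) (𝓝 (η x)) := fun x =>
    (hη.tendsto x).comp tendsto_snd
  rw [tendstoLocallyUniformly_iff_forall_tendsto]
  constructor
  · intro h x
    exact Uniform.tendsto_nhds_right.2
      ((Uniform.tendsto_nhds_right.1 (hc x)).uniformity_trans (h x))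
  · intro h x
    exact (Uniform.tendsto_nhds_left.1 (hc x)).uniformity_trans
      (Uniform.tendsto_nhds_right.1 (h x))

theorem PGu_inv_norm {q c₁ c₂ : ℝ} (hq : 1 ≤ q) (hc : 0 < c₁) :
    ∃ K : ℝ, 0 < K ∧ ∀ v : E, c₁ ≤ ‖v‖ → ‖v‖ ≤ c₂ → ∀ x : E, ‖chartInv q v x‖ ≤ K * ‖x‖ := by
  obtain ⟨C, hC⟩ := perp_bound (c₂ := c₂) hc
  refine ⟨2 * |C| + 2 * q * |c₂| + 1, by positivity, fun v h1 h2 x => ?_⟩
  have hp : ‖perp v‖ ≤ |C| := (hC v h1 h2).trans (le_abs_self _)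
  have hv : ‖v‖ ≤ |c₂| := h2.trans (le_abs_self _)
  have hx1 := norm_fst_le x
  have hx2 := norm_snd_le x
  have hp1 := (norm_fst_le (perp v)).trans hp
  have hp2 := (norm_snd_le (perp v)).trans hp
  have hv1 := (norm_fst_le v).trans hv
  have hv2 := (norm_snd_le v).trans hv
  have hx0 := norm_nonneg x
  rw [chartInv_apply, Prod.norm_mk]
  refine max_le ?_ ?_
  · calc ‖x.1 * (perp v).2 - x.2 * (perp v).1‖ ≤ ‖x.1 * (perp v).2‖ + ‖x.2 * (perp v).1‖ :=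
          norm_sub_le _ _
      _ = ‖x.1‖ * ‖(perp v).2‖ + ‖x.2‖ * ‖(perp v).1‖ := by rw [norm_mul, norm_mul]
      _ ≤ ‖x‖ * |C| + ‖x‖ * |C| := by gcongr
      _ ≤ (2 * |C| + 2 * q * |c₂| + 1) * ‖x‖ := by
          have : 0 ≤ 2 * q * |c₂| * ‖x‖ := by positivity
          nlinarith
  · rw [norm_mul, Complex.norm_real, Real.norm_of_nonneg (by linarith)]
    calc q * ‖v.1 * x.2 - v.2 * x.1‖ ≤ q * (‖v.1 * x.2‖ + ‖v.2 * x.1‖) := by
          gcongr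
          exact norm_sub_le _ _
      _ = q * (‖v.1‖ * ‖x.2‖ + ‖v.2‖ * ‖x.1‖) := by rw [norm_mul, norm_mul]
      _ ≤ q * (|c₂| * ‖x‖ + |c₂| * ‖x‖) := by gcongr
      _ ≤ (2 * |C| + 2 * q * |c₂| + 1) * ‖x‖ := by
          have : 0 ≤ 2 * |C| * ‖x‖ := by positivity
          nlinarith

theorem PGu_self {q : ℝ} (hq : 1 ≤ q) {v : E} (hv : v ≠ 0) : chartInv q v v = (1, 0) := by
  have hq0 : q ≠ 0 := by linarith
  have h := chart_left hq0 hv (1, 0)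
  have h2 : chart q v (1, 0) = v := by
    rw [chart_apply]
    simp
  rwa [h2] at h

/-- uniform slope of the unstable curves in their charts -/
theorem slope_u {Q : QS} {Z : Set E} {m : ℕ} {c₁ c₂ κ Λ : ℝ} {W : Set (ℂ → E)}
    (hW : WF Q Z m c₁ c₂ κ Λ W) {q ε : ℝ} (hq : 1 ≤ q) (hε : 0 < ε) :
    ∃ r > 0, ∃ c > 0, r ≤ 1 ∧ ∀ ξ ∈ W, ∀ z : ℂ, ‖z‖ ≤ r →
      ‖(cc q m ξ (ξ z)).2‖ ≤ ‖(cc q m ξ (ξ z)).1‖ ∧ ‖cc q m ξ (ξ z)‖ ≤ ε ∧
      c * ‖z‖ ^ m ≤ ‖(cc q m ξ (ξ z)).1‖ := by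
  obtain ⟨M, hM⟩ := U_bdd Q 1
  obtain ⟨C, hC, hT⟩ := taylor_unif hW.m0 (M := M)
  obtain ⟨K, hK, hKn⟩ := PGu_inv_norm (c₂ := c₂) hq hW.c0
  set A : ℝ := ((m.factorial : ℝ))⁻¹ with hA
  have hf1 : (1 : ℝ) ≤ (m.factorial : ℝ) := by
    exact_mod_cast Nat.one_le_iff_ne_zero.mpr (Nat.factorial_ne_zero m)
  have hA0 : 0 < A := by positivity
  have hA1 : A ≤ 1 := inv_le_one_of_one_le₀ hf1
  refine ⟨min 1 (min (ε / 2) (A / (4 * (K * C)))), by positivity, A / 2, by positivity,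
    min_le_left _ _, ?_⟩
  intro ξ hξ z hz
  have hz1 : ‖z‖ ≤ 1 := hz.trans (min_le_left _ _)
  have hz2 : ‖z‖ ≤ ε / 2 := hz.trans ((min_le_right _ _).trans (min_le_left _ _))
  have hz3 : ‖z‖ ≤ A / (4 * (K * C)) := hz.trans ((min_le_right _ _).trans (min_le_right _ _))
  have hz0 := norm_nonneg z
  set v := iteratedDeriv m ξ 0 with hv
  have hv0 : v ≠ 0 := by
    intro h
    have := hW.lo ξ hξ
    rw [← hv, h, norm_zero] at this
    exact absurd hW.c0 (not_lt.mpr this)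
  have h1 := hT ξ (U_diff Q (hW.sub hξ)) (hW.ord ξ hξ) (fun z hz => hM ξ (hW.sub hξ) z hz) z hz1
  rw [← hv] at h1
  set δ := ξ z - ξ 0 - ((m.factorial : ℂ)⁻¹ * z ^ m) • v with hδ
  have h2 := hKn v (hW.lo ξ hξ) (hW.hi ξ hξ) δ
  have h3 : cc q m ξ (ξ z) = ((m.factorial : ℂ)⁻¹ * z ^ m) • (1, 0) + chartInv q v δ := by
    unfold cc
    rw [← hv, ← PGu_self hq hv0, ← map_smul, ← map_add]
    congr 1
    rw [hδ]
    abel
  have h4 : ‖chartInv q v δ‖ ≤ A / 4 * ‖z‖ ^ m := by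
    have h5 : K * ‖δ‖ ≤ K * (C * ‖z‖ ^ (m + 1)) := mul_le_mul_of_nonneg_left h1 hK.le
    have h6 : K * (C * ‖z‖ ^ (m + 1)) ≤ A / 4 * ‖z‖ ^ m := by
      rw [le_div_iff₀ (by positivity)] at hz3
      have h7 : 0 ≤ ‖z‖ ^ m := by positivity
      have h8 : K * (C * ‖z‖ ^ (m + 1)) = (‖z‖ * (4 * (K * C))) / 4 * ‖z‖ ^ m := by
        rw [pow_succ]
        ring
      rw [h8]
      gcongr
    exact h2.trans (h5.trans h6)
  have hmain : ‖(m.factorial : ℂ)⁻¹ * z ^ m‖ = A * ‖z‖ ^ m := by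
    rw [norm_mul, norm_inv, norm_pow, Complex.norm_natCast]
  have e1 : (cc q m ξ (ξ z)).1 = (m.factorial : ℂ)⁻¹ * z ^ m + (chartInv q v δ).1 := by
    rw [h3]
    simp
  have e2 : (cc q m ξ (ξ z)).2 = (chartInv q v δ).2 := by
    rw [h3]
    simp
  have d1 := (norm_fst_le (chartInv q v δ)).trans h4
  have d2 := (norm_snd_le (chartInv q v δ)).trans h4
  have f1 : 3 * A / 4 * ‖z‖ ^ m ≤ ‖(cc q m ξ (ξ z)).1‖ := by
    rw [e1]
    have := norm_sub_norm_le ((m.factorial : ℂ)⁻¹ * z ^ m) (-(chartInv q v δ).1)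
    rw [norm_neg, sub_neg_eq_add, hmain] at this
    linarith
  have f2 : ‖(cc q m ξ (ξ z)).1‖ ≤ 5 * A / 4 * ‖z‖ ^ m := by
    rw [e1]
    have := norm_add_le ((m.factorial : ℂ)⁻¹ * z ^ m) ((chartInv q v δ).1)
    rw [hmain] at this
    linarith
  have hzm0 : 0 ≤ ‖z‖ ^ m := by positivity
  have hzm : ‖z‖ ^ m ≤ ‖z‖ := by
    calc ‖z‖ ^ m ≤ ‖z‖ ^ 1 := pow_le_pow_of_le_one hz0 hz1 hW.m0
      _ = ‖z‖ := pow_one _
  have hs : ‖(cc q m ξ (ξ z)).2‖ ≤ ‖(cc q m ξ (ξ z)).1‖ := by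
    rw [e2]
    nlinarith [mul_nonneg hA0.le hzm0]
  refine ⟨hs, ?_, ?_⟩
  · rw [Prod.norm_def, max_eq_left hs]
    nlinarith [mul_nonneg hA0.le hzm0]
  · nlinarith [mul_nonneg hA0.le hzm0]

theorem PGu_cc0 (q : ℝ) (m : ℕ) (ξ : ℂ → E) : cc q m ξ (ξ 0) = 0 := by
  unfold cc
  rw [sub_self, map_zero]

theorem PGu_freq (Q : QS) {ξ : ℂ → E} (hξ : ξ ∈ Q.U) : ∃ᶠ t in 𝓝 (0 : ℂ), 0 < Q.P (ξ t) := by
  rw [Metric.nhds_basis_ball.frequently_iff]
  intro r hr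
  obtain ⟨z, hz, h⟩ := U_pos Q hξ hr
  exact ⟨z, hz, h⟩

theorem PGu_one (Q : QS) (hMV : Q.MV) {q : ℝ} {m : ℕ} {r e : ℝ} (hr : 0 < r) (he : 0 < e)
    {ξ : ℂ → E} (hξ : ξ ∈ Q.U) (hfr : ∀ z : ℂ, ‖z‖ = r → e < ‖(cc q m ξ (ξ z)).1‖) :
    ∃ z : ℂ, ‖z‖ < r ∧ ‖(cc q m ξ (ξ z)).1‖ = e ∧ 0 < Q.P (ξ z) := by
  have hd := U_diff Q hξ
  have hc := hd.continuous
  refine level_pos (f := fun z => (cc q m ξ (ξ z)).1) (p := fun z => Q.P (ξ z)) hr he ?_ ?_ ?_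
    (PGu_freq Q hξ) hfr ?_
  · unfold cc
    exact continuous_fst.comp ((chartInv q (iteratedDeriv m ξ 0)).continuous.comp
      (hc.sub continuous_const))
  · exact Q.cP.comp hc
  · show (cc q m ξ (ξ 0)).1 = 0
    rw [PGu_cc0]
    rfl
  · intro a R hR hpos ρ h1 h2
    exact hMV ξ a R hR hd.differentiableOn hpos ρ h1 h2

/-- uniform version -/
theorem PGu_unif (Q : QS) (hMV : Q.MV) {Z : Set E} {m : ℕ} {c₁ c₂ κ Λ : ℝ}
    {W : Set (ℂ → E)} (hW : WF Q Z m c₁ c₂ κ Λ W) {q : ℝ} {r e : ℝ} (hr : 0 < r) (he : 0 < e)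
    (hfr : ∀ ξ ∈ W, ∀ z : ℂ, ‖z‖ = r → e < ‖(cc q m ξ (ξ z)).1‖) :
    ∃ c > 0, ∀ ξ ∈ W, ∃ z : ℂ, ‖z‖ ≤ r ∧ ‖(cc q m ξ (ξ z)).1‖ = e ∧ c ≤ Q.P (ξ z) := by
  by_contra hcon
  push Not at hcon
  choose ξ hξ hξz using fun k : ℕ => hcon (1 / ((k : ℝ) + 1)) (by positivity)
  obtain ⟨φ, hφ, η, hη, hlim⟩ := U_seq Q (fun k => hW.sub (hξ k))
  have hηW : η ∈ W := hW.cl _ _ (fun n => hξ (φ n)) hlim
  have hηd := U_diff Q hη
  have hηc := hηd.continuous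
  obtain ⟨z₀, hz1, hz2, hz3⟩ := PGu_one Q hMV hr he hη (hfr η hηW)
  have hdn : ∀ n, Differentiable ℂ (ξ (φ n)) := fun n => U_diff Q (hW.sub (hξ (φ n)))
  -- convergence of the charts
  have hv := FixA_lim m _ η hdn hlim
  have hv0 : iteratedDeriv m η 0 ≠ 0 := by
    intro h
    have := hW.lo η hηW
    rw [h, norm_zero] at this
    exact absurd hW.c0 (not_lt.mpr this)
  have hperp : Tendsto (fun n => perp (iteratedDeriv m (ξ (φ n)) 0)) atTop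
      (𝓝 (perp (iteratedDeriv m η 0))) := by
    have hcp : ContinuousAt perp (iteratedDeriv m η 0) := by
      have hden := ZLin_den hv0
      have c1 : ContinuousAt (fun v : E => ((‖v.1‖ ^ 2 + ‖v.2‖ ^ 2 : ℝ) : ℂ))
          (iteratedDeriv m η 0) := by fun_prop
      unfold perp
      refine ContinuousAt.prodMk ?_ ?_
      · refine ContinuousAt.div ?_ c1 hden
        exact (Complex.continuous_conj.comp continuous_snd).neg.continuousAt
      · refine ContinuousAt.div ?_ c1 hden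
        exact (Complex.continuous_conj.comp continuous_fst).continuousAt
    exact hcp.tendsto.comp hv
  -- local uniform convergence of the first coordinates
  have hF : ∀ (ζ : ℂ → E) (z : ℂ), (cc q m ζ (ζ z)).1 =
      ((ζ z).1 - (ζ 0).1) * (perp (iteratedDeriv m ζ 0)).2 -
        ((ζ z).2 - (ζ 0).2) * (perp (iteratedDeriv m ζ 0)).1 := by
    intro ζ z
    unfold cc
    rw [chartInv_apply]
    rfl
  have hfd : ∀ (ζ : ℂ → E), Differentiable ℂ ζ →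
      Differentiable ℂ (fun z => (cc q m ζ (ζ z)).1 - (cc q m η (η z₀)).1) := by
    intro ζ hζ
    simp only [hF ζ]
    have g1 : Differentiable ℂ (fun z => (ζ z).1) := hζ.fst
    have g2 : Differentiable ℂ (fun z => (ζ z).2) := hζ.snd
    exact (((g1.sub_const _).mul_const _).sub ((g2.sub_const _).mul_const _)).sub_const _
  have hlu : TendstoLocallyUniformly
      (fun n z => (cc q m (ξ (φ n)) (ξ (φ n) z)).1 - (cc q m η (η z₀)).1)
      (fun z => (cc q m η (η z)).1 - (cc q m η (η z₀)).1) atTop := by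
    rw [PGu_lu (hfd η hηd).continuous]
    intro x
    have hx := (PGu_lu hηc).1 hlim x
    have h0 : Tendsto (fun y : ℕ × ℂ => ξ (φ y.1) 0) (atTop ×ˢ 𝓝 x) (𝓝 (η 0)) :=
      (UBas_pt hlim 0).comp tendsto_fst
    have hp : Tendsto (fun y : ℕ × ℂ => perp (iteratedDeriv m (ξ (φ y.1)) 0)) (atTop ×ˢ 𝓝 x)
        (𝓝 (perp (iteratedDeriv m η 0))) := hperp.comp tendsto_fst
    simp only [hF]
    have t1 := (continuous_fst.tendsto _).comp hx
    have t2 := (continuous_snd.tendsto _).comp hx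
    have t3 := (continuous_fst.tendsto _).comp h0
    have t4 := (continuous_snd.tendsto _).comp h0
    have t5 := (continuous_fst.tendsto _).comp hp
    have t6 := (continuous_snd.tendsto _).comp hp
    exact (((t1.sub t3).mul t6).sub ((t2.sub t4).mul t5)).sub tendsto_const_nhds
  -- not locally constant
  have hnc : NC (fun z => (cc q m η (η z)).1 - (cc q m η (η z₀)).1) z₀ := by
    intro hev
    have hev' : (fun z => (cc q m η (η z)).1 - (cc q m η (η z₀)).1) =ᶠ[𝓝 z₀] 0 := by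
      filter_upwards [hev] with z hz
      have hz' := not_not.1 hz
      rw [hz']
      simp
    have han : AnalyticOnNhd ℂ (fun z => (cc q m η (η z)).1 - (cc q m η (η z₀)).1) univ :=
      fun w _ => (hfd η hηd).analyticAt w
    have h5 := han.eqOn_zero_of_preconnected_of_eventuallyEq_zero isPreconnected_univ
      (mem_univ z₀) hev' (mem_univ (0 : ℂ))
    simp only [Pi.zero_apply, PGu_cc0, Prod.fst_zero, zero_sub, neg_eq_zero] at h5
    rw [h5, norm_zero] at hz2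
    exact he.ne hz2
  have hzp := zero_persist isOpen_univ (mem_univ z₀)
    (Eventually.of_forall fun n => (hfd _ (hdn n)).differentiableOn)
    (tendstoLocallyUniformlyOn_univ.2 hlu) (sub_self _) hnc
  -- positivity near the point
  have hPlim : Tendsto (fun y : ℕ × ℂ => Q.P (ξ (φ y.1) y.2)) (atTop ×ˢ 𝓝 z₀)
      (𝓝 (Q.P (η z₀))) := (Q.cP.tendsto _).comp ((PGu_lu hηc).1 hlim z₀)
  have hPev := hPlim.eventually (lt_mem_nhds (half_lt_self hz3))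
  obtain ⟨pa, hpa, pb, hpb, hab⟩ := Filter.eventually_prod_iff.1 hPev
  obtain ⟨η₁, hη₁, hball⟩ := Metric.eventually_nhds_iff_ball.1 hpb
  have e4 : ∀ᶠ k : ℕ in atTop, 1 / ((k : ℝ) + 1) < Q.P (η z₀) / 2 :=
    (tendsto_one_div_add_atTop_nhds_zero_nat (𝕜 := ℝ)).eventually
      (gt_mem_nhds (half_pos hz3))
  obtain ⟨n, ⟨z, hz, hzn⟩, hn2, hn3⟩ :=
    ((hzp (min η₁ (r - ‖z₀‖)) (lt_min hη₁ (by linarith))).and (hpa.and e4)).exists
  have hzr : ‖z‖ ≤ r := by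
    have h1 : dist z z₀ < r - ‖z₀‖ := lt_of_lt_of_le hz (min_le_right _ _)
    rw [dist_eq_norm] at h1
    have h2 : ‖z‖ ≤ ‖z - z₀‖ + ‖z₀‖ := by
      have := norm_add_le (z - z₀) z₀
      rwa [sub_add_cancel] at this
    linarith
  have hze : ‖(cc q m (ξ (φ n)) (ξ (φ n) z)).1‖ = e := by
    rw [sub_eq_zero.1 hzn]
    exact hz2
  have h6 := hξz (φ n) z hzr hze
  have h7 : Q.P (η z₀) / 2 < Q.P (ξ (φ n) z) :=
    hab hn2 (hball z (ball_subset_ball (min_le_left _ _) hz))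
  have h8 : 1 / ((φ n : ℝ) + 1) ≤ 1 / ((n : ℝ) + 1) := by
    apply one_div_le_one_div_of_le
    · positivity
    · have : (n : ℝ) ≤ φ n := by exact_mod_cast hφ.id_le n
      linarith
  linarith

theorem good_u (Q : QS) (hMV : Q.MV) {Z : Set E} {m : ℕ} {c₁ c₂ κ Λ : ℝ}
    {W : Set (ℂ → E)} (hW : WF Q Z m c₁ c₂ κ Λ W) {q ε : ℝ} {N : ℕ} (hN : 1 ≤ N) (hq : 1 ≤ q)
    (hε : 0 < ε) (hE : Est Q W κ q ε m N) :
    ∃ e₀ > 0, ∀ e, 0 < e → e ≤ e₀ → ∃ c > 0, ∀ η : ℤ → ℂ → E, Chn Q W κ N η → ∀ j : ℤ,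
      ∃ Y : E, ‖(cc q m (η j) Y).1‖ = e ∧ c ≤ Q.P Y ∧
        ∀ i : ℕ, ‖cc q m (η (j - i)) ((Q.F ^ (-((N : ℤ) * i))) Y)‖ ≤ e := by
  obtain ⟨r, hr, c, hc, hr1, hs⟩ := slope_u hW hq hε
  refine ⟨c * r ^ m / 2, by positivity, ?_⟩
  intro e he hee
  obtain ⟨c', hc', hu⟩ := PGu_unif Q hMV hW (q := q) hr he (by
    intro ξ hξ z hz
    have h := (hs ξ hξ z hz.le).2.2
    rw [hz] at h
    have h2 : 0 < c * r ^ m := by positivity
    linarith)
  refine ⟨c', hc', ?_⟩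
  intro η hη j
  obtain ⟨z, hz1, hz2, hz3⟩ := hu (η j) (hη.mem j)
  refine ⟨η j z, hz2, hz3, ?_⟩
  have key : ∀ i : ℕ, ∃ w : ℂ, ‖w‖ ≤ r ∧ (Q.F ^ (-((N : ℤ) * i))) (η j z) = η (j - i) w ∧
      ‖(cc q m (η (j - i)) (η (j - i) w)).1‖ ≤ e := by
    intro i
    induction i with
    | zero =>
      refine ⟨z, hz1, ?_, ?_⟩
      · simp
      · simp only [Nat.cast_zero, sub_zero]
        exact hz2.le
    | succ i ih =>
      obtain ⟨w, hw1, hw2, hw3⟩ := ih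
      obtain ⟨a, ha1, ha2⟩ := hη.step (j - ((i + 1 : ℕ) : ℤ))
      have ej : j - ((i + 1 : ℕ) : ℤ) + 1 = j - (i : ℤ) := by
        push_cast
        ring
      rw [ej] at ha2
      have ha3 : 1 ≤ ‖a‖ := (one_le_pow₀ hW.k1.le).trans ha1
      have ha0 : a ≠ 0 := by
        intro h
        rw [h, norm_zero] at ha3
        linarith
      have hwa : ‖w / a‖ ≤ r := by
        rw [norm_div]
        exact (div_le_self (norm_nonneg _) ha3).trans hw1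
      have hstep : (Q.F ^ N) (η (j - ((i + 1 : ℕ) : ℤ)) (w / a)) = η (j - (i : ℤ)) w := by
        rw [ha2, mul_div_cancel₀ _ ha0]
      refine ⟨w / a, hwa, ?_, ?_⟩
      · have e1 : -((N : ℤ) * ((i + 1 : ℕ) : ℤ)) = -(N : ℤ) + -((N : ℤ) * (i : ℤ)) := by
          push_cast
          ring
        rw [e1, zpow_add, Equiv.Perm.mul_apply, hw2, ← hstep, zpow_neg, zpow_natCast]
        exact (Q.F ^ N).symm_apply_apply _
      · obtain ⟨l, μ, hl, hμ, hY, -⟩ := hE _ (hη.mem (j - ((i + 1 : ℕ) : ℤ))) _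
          (hη.mem (j - (i : ℤ))) a ha1 ha2
        obtain ⟨s1, s2, -⟩ := hs _ (hη.mem (j - ((i + 1 : ℕ) : ℤ))) (w / a) hwa
        have h5 := hY (η (j - ((i + 1 : ℕ) : ℤ)) (w / a)) (η (j - ((i + 1 : ℕ) : ℤ)) 0) s2
          (by rw [PGu_cc0, norm_zero]; exact hε.le)
        have h0 : (Q.F ^ N) (η (j - ((i + 1 : ℕ) : ℤ)) 0) = η (j - (i : ℤ)) 0 := by
          rw [ha2, mul_zero]
        rw [hstep, h0, PGu_cc0, PGu_cc0, sub_zero, sub_zero] at h5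
        obtain ⟨-, h6⟩ := (cone_vec hl hμ h5).1 s1
        have h7 := norm_nonneg (cc q m (η (j - ((i + 1 : ℕ) : ℤ)))
          (η (j - ((i + 1 : ℕ) : ℤ)) (w / a))).1
        linarith
  intro i
  obtain ⟨w, hw1, hw2, hw3⟩ := key i
  obtain ⟨s1, -, -⟩ := hs _ (hη.mem (j - (i : ℤ))) w hw1
  rw [hw2, Prod.norm_def, max_eq_left s1]
  exact hw3

end Pool.Agent.HQ
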