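import Pool.Agent.HQD.Defs
import Pool.Agent.HQD.DefsP
import Pool.Agent.HQD.PSmv

/-!
# HQD module PMin: minimum principle
-/

set_option autoImplicit false

open Filter Topology Set Metric

namespace Pool.Agent.HQ

private lemma PMin_circle {g : ℂ → ℝ} {w : ℂ} {r m : ℝ} (hr : 0 < r)
    (hg : ContinuousOn g (sphere w r)) (hm : ∀ z ∈ sphere w r, m ≤ g z)
    (ha : Real.circleAverage g w r ≤ m) : ∀ z ∈ sphere w r, g z = m := by
  intro z hz
  by_contra hne
  have hlt : m < g z := lt_of_le_of_ne (hm z hz) (Ne.symm hne)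
  have hz' : z ∈ circleMap w r '' Ioc 0 (2 * Real.pi) := by
    rw [image_circleMap_Ioc, abs_of_pos hr]
    exact hz
  obtain ⟨θ, hθ, hθz⟩ := hz'
  have hmem : ∀ x : ℝ, circleMap w r x ∈ sphere w r := fun x => circleMap_mem_sphere w hr.le x
  have hcont : Continuous fun x : ℝ => g (circleMap w r x) := by
    rw [← continuousOn_univ]
    exact hg.comp (continuous_circleMap w r).continuousOn fun x _ => hmem x
  have hpos : 0 < ∫ x in (0 : ℝ)..(2 * Real.pi), (g (circleMap w r x) - m) := by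
    refine intervalIntegral.integral_pos (by positivity)
      (hcont.sub continuous_const).continuousOn (fun x _ => sub_nonneg.2 (hm _ (hmem x))) ?_
    exact ⟨θ, Ioc_subset_Icc_self hθ, by rw [hθz]; exact sub_pos.2 hlt⟩
  rw [intervalIntegral.integral_sub (hcont.intervalIntegrable _ _)
    (intervalIntegrable_const), intervalIntegral.integral_const] at hpos
  rw [Real.circleAverage_def, smul_eq_mul] at ha
  have h2pi : (0 : ℝ) < 2 * Real.pi := by positivity
  rw [inv_mul_le_iff₀ h2pi] at ha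
  simp only [smul_eq_mul, sub_zero] at hpos
  linarith

theorem min_principle {D : Set ℂ} (hD : IsOpen D) {f : ℂ → ℝ} (hf : SMV D f) {c : ℝ}
    (hb : ∀ w₀ ∈ frontier D, ∀ᶠ w in 𝓝[D] w₀, c ≤ f w)
    (hinf : ∀ᶠ w in Bornology.cobounded ℂ ⊓ 𝓟 D, c ≤ f w) : ∀ w ∈ D, c ≤ f w := by
  by_contra hcon
  push Not at hcon
  obtain ⟨w1, hw1, hw1c⟩ := hcon
  obtain ⟨hfc, hfm⟩ := hf
  set d : ℝ := (c - f w1) / 2 with hd
  have hd0 : 0 < d := by rw [hd]; linarith
  set T : Set ℂ := {w | w ∈ D ∧ f w ≤ c - d} with hT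
  have hTD : T ⊆ D := fun w hw => hw.1
  have hw1T : w1 ∈ T := ⟨hw1, by rw [hd]; linarith⟩
  have hfat : ∀ w ∈ D, ContinuousAt f w := fun w hw => hfc.continuousAt (hD.mem_nhds hw)
  have hTb : Bornology.IsBounded T := by
    rw [eventually_inf_principal, Filter.Eventually, ← Bornology.isCobounded_def,
      ← Bornology.isBounded_compl_iff] at hinf
    refine hinf.subset ?_
    intro w hw hw'
    have h1 : c ≤ f w := hw' hw.1
    have h2 : f w ≤ c - d := hw.2
    linarith
  have hTc : IsClosed T := by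
    rw [← closure_subset_iff_isClosed]
    intro w0 hw0
    have hne : (𝓝[T] w0).NeBot := mem_closure_iff_nhdsWithin_neBot.1 hw0
    by_cases hw0D : w0 ∈ D
    · refine ⟨hw0D, ?_⟩
      have h1 : Tendsto f (𝓝[T] w0) (𝓝 (f w0)) := (hfat w0 hw0D).tendsto.mono_left
        nhdsWithin_le_nhds
      refine le_of_tendsto h1 ?_
      filter_upwards [self_mem_nhdsWithin] with w hw using hw.2
    · exfalso
      have hfr : w0 ∈ frontier D := by
        rw [hD.frontier_eq]
        exact ⟨closure_mono hTD hw0, hw0D⟩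
      have h1 := (hb w0 hfr).filter_mono (nhdsWithin_mono w0 hTD)
      obtain ⟨w, hw, hwT⟩ := (h1.and self_mem_nhdsWithin).exists
      have := hwT.2
      linarith
  have hTk : IsCompact T := Metric.isCompact_of_isClosed_isBounded hTc hTb
  obtain ⟨w2, hw2T, hw2⟩ := hTk.exists_isMinOn ⟨w1, hw1T⟩ (hfc.mono hTD)
  set m := f w2 with hm
  have hmT : m ≤ c - d := hw2T.2
  have hge : ∀ w ∈ D, m ≤ f w := by
    intro w hw
    by_cases hwT : w ∈ T
    · exact hw2 hwT
    · have : ¬ f w ≤ c - d := fun h => hwT ⟨hw, h⟩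
      linarith
  set M : Set ℂ := T ∩ f ⁻¹' {m} with hM
  have hMc : IsClosed M := (hfc.mono hTD).preimage_isClosed_of_isClosed hTc isClosed_singleton
  have hMk : IsCompact M := hTk.of_isClosed_subset hMc inter_subset_left
  have hMo : IsOpen M := by
    rw [Metric.isOpen_iff]
    intro w hw
    obtain ⟨ρ, hρ, hρD, hρa⟩ := hfm w (hTD hw.1)
    refine ⟨ρ, hρ, ?_⟩
    intro z hz
    by_cases hzw : z = w
    · rw [hzw]; exact hw
    have hr : 0 < dist z w := dist_pos.2 hzw
    have hrρ : dist z w ≤ ρ := (mem_ball.1 hz).le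
    have hsD : sphere w (dist z w) ⊆ D :=
      (sphere_subset_closedBall.trans (closedBall_subset_closedBall hrρ)).trans hρD
    have hfw : f w = m := hw.2
    have h1 := PMin_circle hr (hfc.mono hsD) (fun x hx => hge x (hsD hx))
      ((hρa _ hr hrρ).trans hfw.le) z (mem_sphere.2 rfl)
    exact ⟨⟨hsD (mem_sphere.2 rfl), by rw [h1]; exact hmT⟩, h1⟩
  have hcl : IsClopen M := ⟨hMc, hMo⟩
  rcases isClopen_iff.1 hcl with h | h
  · have : w2 ∈ M := ⟨hw2T, rfl⟩
    rw [h] at this
    exact this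
  · rw [h] at hMk
    exact noncompact_univ ℂ hMk

theorem barrier_contra {D : Set ℂ} (hD : IsOpen D) {s : ℂ → ℝ} (hs : SMV D s)
    (h0 : ∀ w ∈ D, 0 ≤ s w) (hb : ∀ w₀ ∈ frontier D, ∀ᶠ w in 𝓝[D] w₀, 1 ≤ s w) {e₀ : ℂ}
    {r : ℝ} (hr : 0 < r) (he : Disjoint (ball e₀ r) D) : ∀ w ∈ D, 1 ≤ s w := by
  have hge : ∀ w ∈ D, r ≤ ‖w - e₀‖ := by
    intro w hw
    by_contra hlt
    rw [not_le] at hlt
    exact Set.disjoint_left.1 he (by rw [mem_ball, dist_eq_norm]; exact hlt) hw
  have he₀ : e₀ ∉ D := by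
    intro h
    have := hge e₀ h
    rw [sub_self, norm_zero] at this
    linarith
  have hL : ∀ w ∈ D, 0 ≤ Real.log ‖w - e₀‖ - Real.log r := fun w hw =>
    sub_nonneg.2 (Real.log_le_log hr (hge w hw))
  -- the perturbed function
  have key : ∀ δ : ℝ, 0 < δ → ∀ w ∈ D, 1 ≤ s w + δ * (Real.log ‖w - e₀‖ - Real.log r) := by
    intro δ hδ
    have hsmv : SMV D (fun w => s w + δ * (Real.log ‖w - e₀‖ - Real.log r)) := by
      have h1 := (hs.add (SMV_log hD he₀ hδ.le)).add (SMV_const D hD (-(δ * Real.log r)))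
      have h2 : (fun w : ℂ => s w + δ * (Real.log ‖w - e₀‖ - Real.log r)) =
          fun w => s w + δ * Real.log ‖w - e₀‖ + -(δ * Real.log r) := by
        funext w
        ring
      rw [h2]
      exact h1
    refine min_principle hD hsmv ?_ ?_
    · intro w₀ hw₀
      filter_upwards [hb w₀ hw₀, self_mem_nhdsWithin] with w hw hwD
      have := mul_nonneg hδ.le (hL w hwD)
      linarith
    · rw [eventually_inf_principal]
      have h3 : ∀ᶠ w : ℂ in Bornology.cobounded ℂ, r * Real.exp (1 / δ) + ‖e₀‖ ≤ ‖w‖ :=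
        tendsto_norm_cobounded_atTop.eventually_ge_atTop _
      filter_upwards [h3] with w hw hwD
      have h4 : r * Real.exp (1 / δ) ≤ ‖w - e₀‖ := by
        have := norm_sub_norm_le w e₀
        linarith
      have h5 : Real.log r + 1 / δ ≤ Real.log ‖w - e₀‖ := by
        have h6 := Real.log_le_log (by positivity) h4
        rwa [Real.log_mul hr.ne' (Real.exp_ne_zero _), Real.log_exp] at h6
      have h7 : 1 ≤ δ * (Real.log ‖w - e₀‖ - Real.log r) := by
        have h8 : 1 / δ ≤ Real.log ‖w - e₀‖ - Real.log r := by linarith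
        calc (1 : ℝ) = δ * (1 / δ) := by field_simp
          _ ≤ _ := by gcongr
      have := h0 w hwD
      linarith
  intro w hw
  refine le_of_forall_pos_le_add fun ε hε => ?_
  have hLw := hL w hw
  have h1 := key (ε / (Real.log ‖w - e₀‖ - Real.log r + 1)) (by positivity) w hw
  refine h1.trans ?_
  have h2 : ε / (Real.log ‖w - e₀‖ - Real.log r + 1) * (Real.log ‖w - e₀‖ - Real.log r) ≤ ε := by
    rw [div_mul_eq_mul_div, div_le_iff₀ (by positivity)]
    nlinarith
  linarith

end Pool.Agent.HQ
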