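import Pool.Agent.HQD.Defs
import Pool.Agent.HQD.DefsP
import Pool.Agent.HQD.PSmv

/-!
# HQD module PBar: the barrier
-/

set_option autoImplicit false

open Filter Topology Set Metric

namespace Pool.Agent.HQ

/-- the open boxes -/
def PBar_R (D : Set ℂ) (A B : ℕ → ℂ → ℂ) (e : ℝ) (n : ℕ) : Set ℂ :=
  {w | w ∈ D ∧ ∀ j ≤ n, ‖A j w‖ < e ∧ ‖B j w‖ < e}

theorem PBar_open {D : Set ℂ} (hD : IsOpen D) {A B : ℕ → ℂ → ℂ} (e : ℝ)
    (hA : ∀ n, ContinuousOn (A n) D) (hB : ∀ n, ContinuousOn (B n) D) (n : ℕ) :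
    IsOpen (PBar_R D A B e n) := by
  have h1 : ∀ f : ℂ → ℂ, ContinuousOn f D → IsOpen (D ∩ (fun w => ‖f w‖) ⁻¹' Set.Iio e) :=
    fun f hf => hf.norm.isOpen_inter_preimage hD isOpen_Iio
  have h2 : PBar_R D A B e n = D ∩ ⋂ j ∈ Set.Iic n,
      ((D ∩ (fun w => ‖A j w‖) ⁻¹' Set.Iio e) ∩ (D ∩ (fun w => ‖B j w‖) ⁻¹' Set.Iio e)) := by
    ext w
    simp only [PBar_R, Set.mem_ofPred_eq, Set.mem_inter_iff, Set.mem_iInter, Set.mem_Iic,
      Set.mem_preimage, Set.mem_Iio]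
    constructor
    · rintro ⟨h, h'⟩
      exact ⟨h, fun j hj => ⟨⟨h, (h' j hj).1⟩, ⟨h, (h' j hj).2⟩⟩⟩
    · rintro ⟨h, h'⟩
      exact ⟨h, fun j hj => ⟨(h' j hj).1.2, (h' j hj).2.2⟩⟩
  rw [h2]
  exact hD.inter ((Set.finite_Iic n).isOpen_biInter fun j _ =>
    (h1 _ (hA j)).inter (h1 _ (hB j)))

/-- inequalities pass to the closure -/
theorem PBar_clo {D R : Set ℂ} (hRD : R ⊆ D) {f : ℂ → ℝ} (hf : ContinuousOn f D) {c : ℝ}
    (h : ∀ w ∈ R, f w ≤ c) {w : ℂ} (hw : w ∈ closure R) (hwD : w ∈ D) : f w ≤ c := by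
  have h1 : (𝓝[R] w).NeBot := mem_closure_iff_nhdsWithin_neBot.1 hw
  have h2 : Tendsto f (𝓝[R] w) (𝓝 (f w)) := (hf w hwD).mono hRD
  exact le_of_tendsto h2 (eventually_nhdsWithin_of_forall h)

theorem barrier {D : Set ℂ} (hD : IsOpen D) {A B : ℕ → ℂ → ℂ} {u : ℕ → ℂ → ℝ}
    {e ρ g C : ℝ} {n₀ : ℕ} (hn₀ : 1 ≤ n₀) (hA : ∀ n, ContinuousOn (A n) D)
    (hB : ∀ n, ContinuousOn (B n) D) (hu : ∀ n, LMV D (u n)) (hg : 0 < g) (hgC : g ≤ C)
    (h0 : ∀ w ∈ D, ‖A 0 w‖ < e ∧ ‖B 0 w‖ < e)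
    (h1 : ∀ n, ∀ w ∈ D, ‖A n w‖ ≤ e → ‖B n w‖ ≤ e → ‖A (n + 1) w‖ ≤ e → ‖B (n + 1) w‖ ≤ e →
      ‖B (n + 1) w‖ < e ∧ ‖A n w‖ < e)
    (h2 : ∀ n, n₀ ≤ n → ∀ w ∈ D, (∀ j ≤ n + n₀, ‖A j w‖ ≤ e ∧ ‖B j w‖ ≤ e) → ‖A n w‖ ≤ ρ)
    (g1 : ∀ n, n₀ ≤ n → ∀ w ∈ D, (∀ j ≤ n, ‖A j w‖ ≤ e ∧ ‖B j w‖ ≤ e) → ‖A n w‖ = e →
      0 ≤ u n w)
    (g2 : ∀ n, n₀ ≤ n → ∀ w ∈ D, (∀ j ≤ n, ‖A j w‖ ≤ e ∧ ‖B j w‖ ≤ e) → ‖A n w‖ ≤ ρ →
      u n w ≤ -g)
    (g3 : ∀ n, n₀ ≤ n → ∀ w ∈ D, (∀ j ≤ n, ‖A j w‖ ≤ e ∧ ‖B j w‖ ≤ e) → -C ≤ u n w) (K : ℕ) :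
    ∃ s : ℂ → ℝ, SMV D s ∧ (∀ w ∈ D, 0 ≤ s w ∧ s w ≤ 1) ∧
      (∀ w ∈ D, ¬ (‖A 1 w‖ ≤ e ∧ ‖B 1 w‖ ≤ e) → s w = 1) ∧
      ∀ w ∈ D, (∀ j ≤ (K + 1) * n₀, ‖A j w‖ < e ∧ ‖B j w‖ < e) → s w ≤ (1 - g / C) ^ K := by
  have hC : 0 < C := lt_of_lt_of_le hg hgC
  have hlam : 0 ≤ 1 - g / C := by
    have : g / C ≤ 1 := (div_le_one hC).2 hgC
    linarith
  induction K with
  | zero =>
    refine ⟨fun _ => 1, SMV_const D hD 1, fun w _ => ⟨zero_le_one, le_rfl⟩, fun w _ _ => rfl,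
      fun w _ _ => ?_⟩
    simp
  | succ K ih =>
    obtain ⟨s, hs, hs01, hs1, hsK⟩ := ih
    set n := (K + 1) * n₀ with hn
    have hnn : n₀ ≤ n := by
      rw [hn]
      exact Nat.le_mul_of_pos_left _ (Nat.succ_pos K)
    set R := PBar_R D A B e n with hR
    have hRo : IsOpen R := PBar_open hD e hA hB n
    have hRD : R ⊆ D := fun w hw => hw.1
    set c := (1 - g / C) ^ K with hc
    have hc0 : 0 ≤ c := pow_nonneg hlam K
    have hbox : ∀ w ∈ closure R, w ∈ D → ∀ j ≤ n, ‖A j w‖ ≤ e ∧ ‖B j w‖ ≤ e := by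
      intro w hw hwD j hj
      exact ⟨PBar_clo hRD (hA j).norm (fun v hv => (hv.2 j hj).1.le) hw hwD,
        PBar_clo hRD (hB j).norm (fun v hv => (hv.2 j hj).2.le) hw hwD⟩
    have hsR : ∀ w ∈ closure R, w ∈ D → s w ≤ c := fun w hw hwD =>
      PBar_clo hRD hs.1 (fun v hv => hsK v hv.1 hv.2) hw hwD
    have hθ : LMV D (fun w => c + c / C * u n w) := (hu n).affine c (c / C)
    have hglue := SMV_glue (s := s) (θ := fun w => c + c / C * u n w) hD hRo hRD hs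
      (hθ.mono hRo hRD).smv (hθ.1.mono Set.inter_subset_right) (by
        rintro w ⟨hw, hwD⟩ hwR
        have hb := hbox w hw hwD
        have hAn : ‖A n w‖ = e := by
          by_contra hne
          apply hwR
          refine ⟨hwD, fun j hj => ?_⟩
          rcases Nat.eq_zero_or_pos j with rfl | hj0
          · exact h0 w hwD
          obtain ⟨i, rfl⟩ := Nat.exists_eq_succ_of_ne_zero hj0.ne'
          have e1 := h1 i w hwD (hb i (by omega)).1 (hb i (by omega)).2 (hb (i + 1) hj).1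
            (hb (i + 1) hj).2
          refine ⟨?_, e1.1⟩
          rcases Nat.lt_or_ge (i + 1) n with hlt | hge
          · exact (h1 (i + 1) w hwD (hb (i + 1) hj).1 (hb (i + 1) hj).2 (hb (i + 1 + 1) hlt).1
              (hb (i + 1 + 1) hlt).2).2
          · have : i.succ = n := le_antisymm hj hge
            rw [this]
            exact lt_of_le_of_ne (hb n le_rfl).1 hne
        have h3 := g1 n hnn w hwD hb hAn
        have h4 : 0 ≤ c / C * u n w := mul_nonneg (div_nonneg hc0 hC.le) h3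
        have h5 := hsR w hw hwD
        linarith)
    refine ⟨_, hglue, ?_, ?_, ?_⟩
    · intro w hwD
      have h3 := hs01 w hwD
      by_cases hw : w ∈ R
      · rw [if_pos hw]
        refine ⟨le_min h3.1 ?_, (min_le_left _ _).trans h3.2⟩
        have h4 := g3 n hnn w hwD (hbox w (subset_closure hw) hwD)
        have h5 : c / C * (-C) ≤ c / C * u n w :=
          mul_le_mul_of_nonneg_left h4 (div_nonneg hc0 hC.le)
        have h6 : c / C * (-C) = -c := by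
          field_simp
        linarith
      · rw [if_neg hw]
        exact h3
    · intro w hwD hw1
      have hw : w ∉ R := fun hw =>
        hw1 ⟨(hw.2 1 (hn₀.trans hnn)).1.le, (hw.2 1 (hn₀.trans hnn)).2.le⟩
      rw [if_neg hw]
      exact hs1 w hwD hw1
    · intro w hwD hw
      have hMn : (K + 1 + 1) * n₀ = n + n₀ := by
        rw [hn]
        ring
      rw [hMn] at hw
      have hwR : w ∈ R := ⟨hwD, fun j hj => hw j (by omega)⟩
      rw [if_pos hwR]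
      refine (min_le_right _ _).trans ?_
      have h3 := h2 n hnn w hwD fun j hj => ⟨(hw j hj).1.le, (hw j hj).2.le⟩
      have h4 := g2 n hnn w hwD (fun j hj => ⟨(hw j (by omega)).1.le, (hw j (by omega)).2.le⟩) h3
      have h5 : c / C * u n w ≤ c / C * (-g) :=
        mul_le_mul_of_nonneg_left h4 (div_nonneg hc0 hC.le)
      have h6 : (1 - g / C) ^ (K + 1) = c + c / C * (-g) := by
        rw [pow_succ, ← hc]
        field_simp
        ring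
      rw [h6]
      linarith

end Pool.Agent.HQ
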