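import Pool.Agent.HQD.Defs

/-!
# HQD module PPol: the explicit polynomial
-/

set_option autoImplicit false

open Filter Topology Set Metric

namespace Pool.Agent.HQ

/-- the symmetric binomial polynomial -/
noncomputable def PPol_g (N : ℕ) : Polynomial ℂ :=
  ∑ k ∈ Finset.range (2 * N + 1),
    Polynomial.C ((Nat.choose (2 * N) k : ℕ) : ℂ) * Polynomial.X ^ ((k - N) + (N - k))

/-- values on the unit circle -/
theorem PPol_re (N : ℕ) {v : ℂ} (hv : ‖v‖ = 1) :
    ((PPol_g N).eval v).re = (2 * (1 + v.re)) ^ N := by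
  have hvv : v * (starRingEnd ℂ) v = 1 := by
    rw [Complex.mul_conj, Complex.normSq_eq_norm_sq, hv]
    norm_num
  have h1 : (1 + v) ^ (2 * N) * ((starRingEnd ℂ) v) ^ N = (((2 * (1 + v.re)) ^ N : ℝ) : ℂ) := by
    rw [pow_mul, ← mul_pow]
    have h2 : (1 + v) ^ 2 * (starRingEnd ℂ) v = ((2 * (1 + v.re) : ℝ) : ℂ) := by
      have h3 : (1 + v) ^ 2 * (starRingEnd ℂ) v =
          (starRingEnd ℂ) v + 2 * (v * (starRingEnd ℂ) v) + v * (v * (starRingEnd ℂ) v) := by ring
      rw [h3, hvv]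
      apply Complex.ext
      · simp
        ring
      · simp
    rw [h2, Complex.ofReal_pow]
  have h4 : (1 + v) ^ (2 * N) * ((starRingEnd ℂ) v) ^ N =
      ∑ k ∈ Finset.range (2 * N + 1),
        ((Nat.choose (2 * N) k : ℕ) : ℂ) * (v ^ k * ((starRingEnd ℂ) v) ^ N) := by
    rw [add_comm, add_pow, Finset.sum_mul]
    refine Finset.sum_congr rfl fun k _ => ?_
    rw [one_pow]
    ring
  have h5 : ∀ k : ℕ, (v ^ k * ((starRingEnd ℂ) v) ^ N).re = (v ^ ((k - N) + (N - k))).re := by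
    intro k
    rcases le_total N k with h | h
    · obtain ⟨j, rfl⟩ := Nat.exists_eq_add_of_le h
      have e : N + j - N + (N - (N + j)) = j := by omega
      rw [e, pow_add]
      have e2 : v ^ N * v ^ j * ((starRingEnd ℂ) v) ^ N = v ^ j * (v * (starRingEnd ℂ) v) ^ N := by
        rw [mul_pow]
        ring
      rw [e2, hvv, one_pow, mul_one]
    · obtain ⟨j, rfl⟩ := Nat.exists_eq_add_of_le h
      have e : k - (k + j) + (k + j - k) = j := by omega
      rw [e, pow_add]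
      have e2 : v ^ k * (((starRingEnd ℂ) v) ^ k * ((starRingEnd ℂ) v) ^ j) =
          (v * (starRingEnd ℂ) v) ^ k * ((starRingEnd ℂ) v) ^ j := by
        rw [mul_pow]
        ring
      rw [e2, hvv, one_pow, one_mul, ← map_pow, Complex.conj_re]
  have h6 : ((PPol_g N).eval v).re =
      (∑ k ∈ Finset.range (2 * N + 1),
        ((Nat.choose (2 * N) k : ℕ) : ℂ) * (v ^ k * ((starRingEnd ℂ) v) ^ N)).re := by
    unfold PPol_g
    rw [Polynomial.eval_finsetSum, Complex.re_sum, Complex.re_sum]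
    refine Finset.sum_congr rfl fun k _ => ?_
    rw [Polynomial.eval_mul, Polynomial.eval_C, Polynomial.eval_pow, Polynomial.eval_X,
      ← Complex.ofReal_natCast, Complex.re_ofReal_mul, Complex.re_ofReal_mul, h5]
  rw [h6, ← h4, h1, Complex.ofReal_re]

/-- value at the centre -/
theorem PPol_zero (N : ℕ) : (PPol_g N).eval 0 = ((Nat.centralBinom N : ℕ) : ℂ) := by
  unfold PPol_g
  rw [Polynomial.eval_finsetSum, Finset.sum_eq_single N]
  · simp [Nat.centralBinom]
  · intro k _ hk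
    have e : k - N + (N - k) ≠ 0 := by omega
    rw [Polynomial.eval_mul, Polynomial.eval_pow, Polynomial.eval_X, zero_pow e, mul_zero]
  · intro h
    exact absurd (Finset.mem_range.2 (by omega)) h

theorem poly_barrier {δ : ℝ} (hδ : 0 < δ) : ∃ (f : Polynomial ℂ) (p : ℝ), 0 < p ∧
    (∀ v : ℂ, ‖v‖ = 1 → (f.eval v).re ≤ 1) ∧
    (∀ v : ℂ, ‖v‖ = 1 → δ ≤ ‖v - 1‖ → (f.eval v).re ≤ 0) ∧ p ≤ (f.eval 0).re := by
  set s : ℝ := max 0 (1 - δ ^ 2 / 4) with hs
  have hs0 : 0 ≤ s := le_max_left _ _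
  have hs1 : s < 1 := by
    rw [hs, max_lt_iff]
    constructor
    · norm_num
    · have : 0 < δ ^ 2 := by positivity
      linarith
  have ht := tendsto_self_mul_const_pow_of_lt_one hs0 hs1
  have hev : ∀ᶠ n : ℕ in atTop, (n : ℝ) * s ^ n < 1 / 2 := ht.eventually_lt_const (by norm_num)
  obtain ⟨N, hN, hN1⟩ := (hev.and (eventually_ge_atTop 1)).exists
  have hNr : (1 : ℝ) ≤ N := by exact_mod_cast hN1
  set f : Polynomial ℂ := Polynomial.C (((1 / 4 : ℝ) ^ N : ℝ) : ℂ) * PPol_g N -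
    Polynomial.C ((s ^ N : ℝ) : ℂ) with hf
  have hfe : ∀ v, (f.eval v).re = (1 / 4 : ℝ) ^ N * ((PPol_g N).eval v).re - s ^ N := by
    intro v
    rw [hf, Polynomial.eval_sub, Polynomial.eval_mul, Polynomial.eval_C, Polynomial.eval_C,
      Complex.sub_re, Complex.re_ofReal_mul, Complex.ofReal_re]
  have hcirc : ∀ v : ℂ, ‖v‖ = 1 → (f.eval v).re = ((1 + v.re) / 2) ^ N - s ^ N := by
    intro v hv
    rw [hfe, PPol_re N hv, ← mul_pow]
    congr 2
    ring
  have hre : ∀ v : ℂ, ‖v‖ = 1 → 0 ≤ (1 + v.re) / 2 ∧ (1 + v.re) / 2 ≤ 1 := by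
    intro v hv
    have h1 := Complex.abs_re_le_norm v
    rw [hv, abs_le] at h1
    constructor <;> linarith [h1.1, h1.2]
  have hsN : 0 ≤ s ^ N := pow_nonneg hs0 N
  refine ⟨f, (f.eval 0).re, ?_, ?_, ?_, le_refl _⟩
  · rw [hfe, PPol_zero, Complex.natCast_re]
    have h1 := Nat.four_pow_le_two_mul_self_mul_centralBinom N hN1
    have h2 : (4 : ℝ) ^ N ≤ 2 * N * (Nat.centralBinom N : ℝ) := by exact_mod_cast h1
    have h3 : (0 : ℝ) < 4 ^ N := by positivity
    have h4 : 1 / (2 * (N : ℝ)) ≤ (1 / 4 : ℝ) ^ N * (Nat.centralBinom N : ℝ) := by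
      rw [one_div_pow, one_div_mul_eq_div, div_le_div_iff₀ (by positivity) h3]
      linarith
    have h5 : s ^ N < 1 / (2 * (N : ℝ)) := by
      rw [lt_div_iff₀ (by positivity)]
      linarith
    linarith
  · intro v hv
    rw [hcirc v hv]
    have h1 := pow_le_one₀ (n := N) (hre v hv).1 (hre v hv).2
    linarith
  · intro v hv hd
    rw [hcirc v hv]
    have h1 : (1 + v.re) / 2 ≤ s := by
      have h2 : ‖v - 1‖ ^ 2 = 2 - 2 * v.re := by
        rw [← Complex.normSq_eq_norm_sq, Complex.normSq_sub, Complex.normSq_eq_norm_sq, hv]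
        simp
        ring
      have h3 : δ ^ 2 ≤ ‖v - 1‖ ^ 2 := pow_le_pow_left₀ hδ.le hd 2
      have h4 : (1 + v.re) / 2 ≤ 1 - δ ^ 2 / 4 := by
        rw [h2] at h3
        linarith
      exact h4.trans (le_max_right _ _)
    have h5 := pow_le_pow_left₀ (hre v hv).1 h1 N
    linarith

end Pool.Agent.HQ
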