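import Pool.Agent.HQD.Defs
import Pool.Agent.HQD.DefsP
import Pool.Agent.HQD.PBar
import Pool.Agent.HQD.PPol
import Pool.Agent.HQD.PCon
import Pool.Agent.HQD.PChn
import Pool.Agent.HQD.PSmv
import Pool.Agent.HQD.ZLin

/-!
# HQD module PSa: the forward barrier
-/

set_option autoImplicit false

open Filter Topology Set Metric

namespace Pool.Agent.HQ

theorem PSa_lin (q : ℝ) (m : ℕ) (ξ : ℂ → E) (Y Y' : E) :
    cc q m ξ Y - cc q m ξ Y' = chartInv q (iteratedDeriv m ξ 0) (Y - Y') := by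
  unfold cc
  rw [← map_sub]
  congr 1
  abel

theorem PSa_cen (q : ℝ) (m : ℕ) (ξ : ℂ → E) : cc q m ξ (ξ 0) = 0 := by
  unfold cc
  rw [sub_self, map_zero]

theorem PSa_chart {c₁ c₂ q : ℝ} (hc : 0 < c₁) (hq : 1 ≤ q) :
    ∃ C : ℝ, 0 < C ∧ ∀ v : E, c₁ ≤ ‖v‖ → ‖v‖ ≤ c₂ → ∀ z : E, ‖chart q v z‖ ≤ C * ‖z‖ := by
  obtain ⟨C, hC⟩ := perp_bound (c₁ := c₁) (c₂ := c₂) hc
  refine ⟨|c₂| + |C| + 1, by positivity, fun v h1 h2 z => ?_⟩
  rw [chart_apply]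
  have h3 : ‖z.1 • v‖ ≤ ‖z‖ * |c₂| := by
    rw [norm_smul]
    exact mul_le_mul (norm_fst_le z) (h2.trans (le_abs_self _)) (norm_nonneg _) (norm_nonneg _)
  have h4 : ‖z.2 • ((q : ℂ)⁻¹ • perp v)‖ ≤ ‖z‖ * |C| := by
    rw [norm_smul, norm_smul]
    have h5 : ‖(q : ℂ)⁻¹‖ ≤ 1 := by
      rw [norm_inv, Complex.norm_real, Real.norm_of_nonneg (by linarith)]
      exact inv_le_one_of_one_le₀ hq
    have h6 : ‖(q : ℂ)⁻¹‖ * ‖perp v‖ ≤ 1 * |C| :=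
      mul_le_mul h5 ((hC v h1 h2).trans (le_abs_self _)) (norm_nonneg _) zero_le_one
    rw [one_mul] at h6
    exact mul_le_mul (norm_snd_le z) h6 (by positivity) (norm_nonneg _)
  refine (norm_add_le _ _).trans ?_
  have h7 := norm_nonneg z
  nlinarith

theorem PSa_dist {Q : QS} {Z : Set E} {m : ℕ} {c₁ c₂ κ Λ : ℝ} {W : Set (ℂ → E)}
    (hW : WF Q Z m c₁ c₂ κ Λ W) {q : ℝ} (hq : 1 ≤ q) :
    ∃ C : ℝ, 0 < C ∧ ∀ ξ ∈ W, ∀ Y Y' : E, ‖Y - Y'‖ ≤ C * ‖cc q m ξ Y - cc q m ξ Y'‖ := by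
  obtain ⟨C, hC0, hC⟩ := PSa_chart (c₂ := c₂) hW.c0 hq
  refine ⟨C, hC0, fun ξ hξ Y Y' => ?_⟩
  have h1 := hW.lo ξ hξ
  have hv : iteratedDeriv m ξ 0 ≠ 0 := by
    intro h
    rw [h, norm_zero] at h1
    exact absurd hW.c0 (not_lt.2 h1)
  rw [PSa_lin]
  have h2 := hC _ h1 (hW.hi ξ hξ) (chartInv q (iteratedDeriv m ξ 0) (Y - Y'))
  rwa [chart_right (by linarith) hv] at h2

/-- the estimates along a chain -/
theorem PSa_step {Q : QS} {W : Set (ℂ → E)} {κ q ε : ℝ} {m N : ℕ} (hE : Est Q W κ q ε m N)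
    {η : ℤ → ℂ → E} (hη : Chn Q W κ N η) (j : ℤ) :
    ∃ l μ : ℂ, 2 ≤ ‖l‖ ∧ ‖μ‖ ≤ 1 / 2 ∧
      ∀ Y Y' : E, ‖cc q m (η j) Y‖ ≤ ε → ‖cc q m (η j) Y'‖ ≤ ε →
        ‖cc q m (η (j + 1)) ((Q.F ^ N) Y) - cc q m (η (j + 1)) ((Q.F ^ N) Y') -
          dg l μ (cc q m (η j) Y - cc q m (η j) Y')‖ ≤
          ‖cc q m (η j) Y - cc q m (η j) Y'‖ / 8 := by
  obtain ⟨a, ha, hs⟩ := hη.step j
  obtain ⟨l, μ, hl, hμ, h, -⟩ := hE _ (hη.mem j) _ (hη.mem (j + 1)) a ha hs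
  exact ⟨l, μ, hl, hμ, h⟩

theorem PSa_next {Q : QS} {W : Set (ℂ → E)} {κ : ℝ} {N : ℕ}
    {η : ℤ → ℂ → E} (hη : Chn Q W κ N η) (j : ℤ) : (Q.F ^ N) (η j 0) = η (j + 1) 0 := by
  obtain ⟨a, -, hs⟩ := hη.step j
  rw [hs 0, mul_zero]

/-- growth in the horizontal cone -/
theorem PSa_grow {w : ℕ → E} {n : ℕ}
    (h : ∀ j < n, ∃ l μ : ℂ, 2 ≤ ‖l‖ ∧ ‖μ‖ ≤ 1 / 2 ∧ ‖w (j + 1) - dg l μ (w j)‖ ≤ ‖w j‖ / 8)
    (h0 : ‖(w 0).2‖ ≤ ‖(w 0).1‖) :
    ‖(w n).2‖ ≤ ‖(w n).1‖ ∧ (8 / 5 : ℝ) ^ n * ‖(w 0).1‖ ≤ ‖(w n).1‖ := by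
  induction n with
  | zero => exact ⟨h0, by simp⟩
  | succ n ih =>
    obtain ⟨h1, h2⟩ := ih fun j hj => h j (Nat.lt_succ_of_lt hj)
    obtain ⟨l, μ, hl, hμ, h3⟩ := h n (Nat.lt_succ_self n)
    obtain ⟨h4, h5⟩ := (cone_vec hl hμ h3).1 h1
    refine ⟨h4, ?_⟩
    rw [pow_succ]
    linarith

/-- growth of the vertical cone for the past -/
theorem PSa_back {w : ℕ → E} {n : ℕ}
    (h : ∀ j < n, ∃ l μ : ℂ, 2 ≤ ‖l‖ ∧ ‖μ‖ ≤ 1 / 2 ∧ ‖w (j + 1) - dg l μ (w j)‖ ≤ ‖w j‖ / 8)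
    (h0 : ‖(w n).1‖ ≤ ‖(w n).2‖) : (8 / 5 : ℝ) ^ n * ‖(w n).2‖ ≤ ‖(w 0).2‖ := by
  induction n with
  | zero => simp
  | succ n ih =>
    obtain ⟨l, μ, hl, hμ, h3⟩ := h n (Nat.lt_succ_self n)
    obtain ⟨h4, h5⟩ := (cone_vec hl hμ h3).2.1 h0
    have h6 := ih (fun j hj => h j (Nat.lt_succ_of_lt hj)) h4
    have h7 : (8 / 5 : ℝ) ^ n * (8 / 5 * ‖(w (n + 1)).2‖) ≤ (8 / 5 : ℝ) ^ n * ‖(w n).2‖ :=
      mul_le_mul_of_nonneg_left h5 (by positivity)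
    rw [pow_succ]
    linarith

/-- modulus of continuity of `P` on a ball -/
theorem PSa_uc (S : Sys) (R : ℝ) {a : ℝ} (ha : 0 < a) :
    ∃ d > 0, ∀ Y Y' : E, ‖Y‖ ≤ R → ‖Y'‖ ≤ R → ‖Y - Y'‖ ≤ d → |S.P Y - S.P Y'| ≤ a := by
  have h1 : UniformContinuousOn S.P (closedBall (0 : E) R) :=
    (isCompact_closedBall (0 : E) R).uniformContinuousOn_of_continuous S.cP.continuousOn
  rw [Metric.uniformContinuousOn_iff] at h1
  obtain ⟨d, hd, h2⟩ := h1 a ha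
  refine ⟨d / 2, by linarith, fun Y Y' hY hY' h => ?_⟩
  have h3 := h2 Y (mem_closedBall_zero_iff.2 hY) Y' (mem_closedBall_zero_iff.2 hY')
    (by rw [dist_eq_norm]; linarith)
  rw [Real.dist_eq] at h3
  exact h3.le

theorem side_a (Q : QS) {Z : Set E} (hZs : Z ⊆ closure (Sad Q.F)) {m : ℕ} {c₁ c₂ κ Λ : ℝ}
    {W : Set (ℂ → E)} (hW : WF Q Z m c₁ c₂ κ Λ W) {q ε : ℝ} {N : ℕ} (hN : 1 ≤ N) (hq : 1 ≤ q)
    (hε : 0 < ε) (hE : Est Q W κ q ε m N) {e c : ℝ} (he : 0 < e) (heε : e ≤ ε) (hc : 0 < c)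
    (hgood : ∀ η : ℤ → ℂ → E, Chn Q W κ N η → ∀ j : ℤ,
      ∃ Y : E, ‖(cc q m (η j) Y).1‖ = e ∧ c ≤ Q.P Y ∧
        ∀ i : ℕ, ‖cc q m (η (j - i)) ((Q.F ^ (-((N : ℤ) * i))) Y)‖ ≤ e) :
    ∃ (lam : ℝ) (n₀ : ℕ), 0 ≤ lam ∧ lam < 1 ∧ ∀ η : ℤ → ℂ → E, Chn Q W κ N η → ∀ ξ : ℂ → E,
      Differentiable ℂ ξ → (∀ w, Q.M (ξ w) = 0) → ∀ D : Set ℂ, IsOpen D →
      (∀ w ∈ D, ‖cc q m (η 0) (ξ w)‖ < e) → LMV D (fun w => Q.P (ξ w)) → ∀ K : ℕ,
      ∃ s : ℂ → ℝ, SMV D s ∧ (∀ w ∈ D, 0 ≤ s w ∧ s w ≤ 1) ∧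
        (∀ w ∈ D, ¬ ‖cc q m (η 1) ((Q.F ^ (N : ℤ)) (ξ w))‖ ≤ e → s w = 1) ∧
        ∀ w ∈ D, (∀ j : ℕ, j ≤ (K + 1) * n₀ →
          ‖cc q m (η j) ((Q.F ^ ((N : ℤ) * j)) (ξ w))‖ < e) → s w ≤ lam ^ K := by
  have _ := hN
  have _ := hε
  -- the constants
  obtain ⟨Cq, hCq, hdist⟩ := PSa_dist hW hq
  obtain ⟨RK, hRK⟩ := Q.toSys.K_bdd
  set RB : ℝ := RK + Cq * e with hRB
  have hcen : ∀ ξ ∈ W, ‖ξ 0‖ ≤ RK := fun ξ hξ =>
    hRK _ (Q.toSys.clSad_P (hZs (hW.cen ξ hξ))) (Q.toSys.clSad_M (hZs (hW.cen ξ hξ)))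
  have hcenR : ∀ ξ ∈ W, ‖ξ 0‖ ≤ RB := fun ξ hξ =>
    (hcen ξ hξ).trans (by rw [hRB]; linarith [mul_pos hCq he])
  have hbox : ∀ ξ ∈ W, ∀ Y : E, ‖cc q m ξ Y‖ ≤ e → ‖Y‖ ≤ RB := by
    intro ξ hξ Y hY
    have h1 := hdist ξ hξ Y (ξ 0)
    rw [PSa_cen, sub_zero] at h1
    have h2 : ‖Y‖ ≤ ‖Y - ξ 0‖ + ‖ξ 0‖ := by
      have h3 := norm_add_le (Y - ξ 0) (ξ 0)
      rwa [sub_add_cancel] at h3
    have h3 : Cq * ‖cc q m ξ Y‖ ≤ Cq * e := mul_le_mul_of_nonneg_left hY hCq.le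
    have h4 := hcen ξ hξ
    rw [hRB]
    linarith
  obtain ⟨d₁, hd₁, huc₁⟩ := PSa_uc Q.toSys RB (a := c / 2) (by positivity)
  obtain ⟨f, p, hp, hf1, hf2, hf3⟩ := poly_barrier (δ := d₁ / (Cq * e)) (by positivity)
  obtain ⟨d₂, hd₂, huc₂⟩ := PSa_uc Q.toSys RB (a := c * p / 8) (by positivity)
  obtain ⟨r₀, hr₀, hfr₀⟩ : ∃ r₀ > 0, ∀ v : ℂ, ‖v‖ ≤ r₀ → p / 2 ≤ (f.eval v).re := by
    have h1 : Continuous fun v : ℂ => (f.eval v).re := Complex.continuous_re.comp f.continuous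
    have h2 : {v : ℂ | p / 2 < (f.eval v).re} ∈ 𝓝 (0 : ℂ) :=
      (isOpen_lt continuous_const h1).mem_nhds (by
        change p / 2 < (f.eval 0).re
        linarith)
    obtain ⟨r₀, hr₀, h3⟩ := Metric.nhds_basis_closedBall.mem_iff.1 h2
    exact ⟨r₀, hr₀, fun v hv => le_of_lt (h3 (mem_closedBall_zero_iff.2 hv))⟩
  obtain ⟨C₁, hC₁⟩ : ∃ C₁ : ℝ, ∀ v : ℂ, ‖v‖ ≤ 1 → (f.eval v).re ≤ C₁ := by
    have h1 : Continuous fun v : ℂ => (f.eval v).re := Complex.continuous_re.comp f.continuous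
    obtain ⟨C₁, h2⟩ := (isCompact_closedBall (0 : ℂ) 1).bddAbove_image h1.continuousOn
    exact ⟨C₁, fun v hv => h2 ⟨v, mem_closedBall_zero_iff.2 hv, rfl⟩⟩
  set ρ : ℝ := min (d₂ / Cq) (r₀ * e) with hρ
  have hρ0 : 0 < ρ := lt_min (by positivity) (by positivity)
  have hρ1 : Cq * ρ ≤ d₂ := by
    have h1 : ρ ≤ d₂ / Cq := min_le_left _ _
    rwa [le_div_iff₀ hCq, mul_comm] at h1
  have hρ2 : ρ ≤ r₀ * e := min_le_right _ _
  obtain ⟨n₁, hn₁⟩ : ∃ n₁ : ℕ, (5 / 8 : ℝ) ^ n₁ < min (d₁ / (Cq * (2 * e))) (ρ / e) :=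
    exists_pow_lt_of_lt_one (lt_min (by positivity) (by positivity)) (by norm_num)
  set n₀ : ℕ := n₁ + 1 with hn₀
  have hn₀1 : 1 ≤ n₀ := by omega
  have hpow : ∀ n, n₀ ≤ n → Cq * (2 * e * (5 / 8 : ℝ) ^ n) ≤ d₁ ∧ e * (5 / 8 : ℝ) ^ n ≤ ρ := by
    intro n hn
    have h1 : (5 / 8 : ℝ) ^ n ≤ (5 / 8 : ℝ) ^ n₁ :=
      pow_le_pow_of_le_one (by norm_num) (by norm_num) (by omega)
    have h2 : (5 / 8 : ℝ) ^ n ≤ d₁ / (Cq * (2 * e)) := h1.trans (hn₁.le.trans (min_le_left _ _))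
    have h3 : (5 / 8 : ℝ) ^ n ≤ ρ / e := h1.trans (hn₁.le.trans (min_le_right _ _))
    rw [le_div_iff₀ (by positivity)] at h2 h3
    constructor
    · linarith
    · linarith
  set g : ℝ := c * p / 8 with hg
  have hg0 : 0 < g := by positivity
  set C : ℝ := max g (c / 2 * max C₁ 0) with hC
  have hgC : g ≤ C := le_max_left _ _
  have hC0 : 0 < C := hg0.trans_le hgC
  refine ⟨1 - g / C, n₀, ?_, ?_, ?_⟩
  · rw [sub_nonneg, div_le_one hC0]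
    exact hgC
  · rw [sub_lt_self_iff]
    positivity
  intro η hη ξ hξd hξM D hD hD0 hLMV K
  have _ := hξM
  choose Y hY1 hY2 hY3 using fun n : ℕ => hgood η hη (n : ℤ)
  -- the sequences
  set X : ℕ → ℂ → E := fun n w => (Q.F ^ (N * n)) (ξ w) with hX
  set A : ℕ → ℂ → ℂ := fun n w => (cc q m (η n) (X n w)).1 with hA
  set B : ℕ → ℂ → ℂ := fun n w => (cc q m (η n) (X n w)).2 with hB
  set u : ℕ → ℂ → ℝ := fun n w => Q.P (X n w) -
    (((c / 2 : ℝ) : ℂ) * f.eval (A n w / (cc q m (η n) (Y n)).1)).re with hu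
  have hXs : ∀ n w, X (n + 1) w = (Q.F ^ N) (X n w) := by
    intro n w
    change (Q.F ^ (N * (n + 1))) (ξ w) = (Q.F ^ N) ((Q.F ^ (N * n)) (ξ w))
    rw [← Equiv.Perm.mul_apply, ← pow_add, Nat.mul_succ, add_comm]
  have hXd : ∀ n, Differentiable ℂ (X n) := fun n => (Q.toSys.diff_pow (N * n)).comp hξd
  have hccd : ∀ n : ℕ, Differentiable ℂ (fun w => cc q m (η n) (X n w)) := by
    intro n
    unfold cc
    exact (chartInv q (iteratedDeriv m (η n) 0)).differentiable.comp ((hXd n).sub_const _)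
  have hAd : ∀ n, Differentiable ℂ (A n) := fun n => (hccd n).fst
  have hBd : ∀ n, Differentiable ℂ (B n) := fun n => (hccd n).snd
  have hnrm : ∀ (n : ℕ) (w : ℂ) (r : ℝ), ‖cc q m (η n) (X n w)‖ ≤ r ↔ ‖A n w‖ ≤ r ∧ ‖B n w‖ ≤ r := by
    intro n w r
    rw [Prod.norm_def]
    exact max_le_iff
  have hnrm' : ∀ (n : ℕ) (w : ℂ) (r : ℝ), ‖cc q m (η n) (X n w)‖ < r ↔ ‖A n w‖ < r ∧ ‖B n w‖ < r := by
    intro n w r
    rw [Prod.norm_def]
    exact max_lt_iff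
  -- the step inequality with respect to the centres
  have hst : ∀ (n : ℕ) (w : ℂ), ‖cc q m (η n) (X n w)‖ ≤ e → ∃ l μ : ℂ, 2 ≤ ‖l‖ ∧ ‖μ‖ ≤ 1 / 2 ∧
      ‖cc q m (η ((n + 1 : ℕ) : ℤ)) (X (n + 1) w) - dg l μ (cc q m (η n) (X n w))‖ ≤
        ‖cc q m (η n) (X n w)‖ / 8 := by
    intro n w hw
    obtain ⟨l, μ, hl, hμ, h1⟩ := PSa_step hE hη (n : ℤ)
    refine ⟨l, μ, hl, hμ, ?_⟩
    have h2 := h1 (X n w) (η n 0) (hw.trans heε) (by rw [PSa_cen, norm_zero]; exact hε.le)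
    rw [PSa_next hη, PSa_cen, PSa_cen, sub_zero, sub_zero, ← hXs] at h2
    rw [Nat.cast_succ]
    exact h2
  have hYe : ∀ n : ℕ, ‖(cc q m (η n) (Y n)).1‖ = e := hY1
  have hYne : ∀ n : ℕ, (cc q m (η n) (Y n)).1 ≠ 0 := by
    intro n h
    have h1 := hYe n
    rw [h, norm_zero] at h1
    exact he.ne h1
  have hbar : ∃ s : ℂ → ℝ, SMV D s ∧ (∀ w ∈ D, 0 ≤ s w ∧ s w ≤ 1) ∧
      (∀ w ∈ D, ¬ (‖A 1 w‖ ≤ e ∧ ‖B 1 w‖ ≤ e) → s w = 1) ∧
      ∀ w ∈ D, (∀ j ≤ (K + 1) * n₀, ‖A j w‖ < e ∧ ‖B j w‖ < e) → s w ≤ (1 - g / C) ^ K := by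
    refine barrier (D := D) hD (A := A) (B := B) (u := u) (e := e)
      (ρ := ρ) (g := g) (C := C) (n₀ := n₀) hn₀1 (fun n => (hAd n).continuous.continuousOn)
      (fun n => (hBd n).continuous.continuousOn) ?_ hg0 hgC ?_ ?_ ?_ ?_ ?_ ?_ K
    · -- local mean value property
      intro n
      have h1 : LMV D (fun w => Q.P (X n w)) := by
        have h2 := hLMV.affine 0 (Q.d ^ (N * n))
        have h3 : (fun w => 0 + Q.d ^ (N * n) * Q.P (ξ w)) = fun w => Q.P (X n w) := by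
          funext w
          change _ = Q.P ((Q.F ^ (N * n)) (ξ w))
          rw [Q.toSys.P_pow, zero_add]
        rwa [h3] at h2
      refine h1.sub (LMV_re hD ?_)
      exact ((f.differentiable.comp ((hAd n).div_const _)).const_mul _).differentiableOn
    · intro w hw
      have h1 : X 0 w = ξ w := by
        change (Q.F ^ (N * 0)) (ξ w) = _
        rw [mul_zero, pow_zero]
        rfl
      have h2 := hD0 w hw
      rw [← hnrm', h1, Nat.cast_zero]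
      exact h2
    · -- h1
      intro n w hw hA1 hB1 hA2 hB2
      have h1 := (hnrm n w e).2 ⟨hA1, hB1⟩
      obtain ⟨l, μ, hl, hμ, h2⟩ := hst n w h1
      obtain ⟨h3, -, h4, -⟩ := cone_vec hl hμ h2
      refine ⟨?_, ?_⟩
      · have h5 : ‖B (n + 1) w‖ ≤ 5 / 8 * ‖cc q m (η n) (X n w)‖ := h4
        linarith
      · rcases hA1.lt_or_eq with h | h
        · exact h
        · exfalso
          have h5 : 8 / 5 * ‖A n w‖ ≤ ‖A (n + 1) w‖ := (h3 (by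
            change ‖B n w‖ ≤ ‖A n w‖
            rw [h]
            exact hB1)).2
          rw [h] at h5
          linarith
    · -- h2
      intro n hn w hw hall
      rcases le_total ‖B n w‖ ‖A n w‖ with h | h
      · have h1 := (PSa_grow (w := fun i => cc q m (η ((n + i : ℕ) : ℤ)) (X (n + i) w)) (n := n₀)
          (fun j hj => hst (n + j) w ((hnrm _ _ _).2 (hall (n + j) (by omega)))) h).2
        have h2 : ‖(cc q m (η ((n + n₀ : ℕ) : ℤ)) (X (n + n₀) w)).1‖ ≤ e :=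
          (hall (n + n₀) le_rfl).1
        have h3 : (8 / 5 : ℝ) ^ n₀ * ‖A n w‖ ≤ e := h1.trans h2
        have h4 : ‖A n w‖ ≤ e * (5 / 8 : ℝ) ^ n₀ := by
          have h5 : (5 / 8 : ℝ) ^ n₀ * (8 / 5 : ℝ) ^ n₀ = 1 := by
            rw [← mul_pow]
            norm_num
          calc ‖A n w‖ = (5 / 8 : ℝ) ^ n₀ * ((8 / 5 : ℝ) ^ n₀ * ‖A n w‖) := by
                rw [← mul_assoc, h5, one_mul]
            _ ≤ (5 / 8 : ℝ) ^ n₀ * e := mul_le_mul_of_nonneg_left h3 (by positivity)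
            _ = e * (5 / 8 : ℝ) ^ n₀ := mul_comm _ _
        exact h4.trans (hpow n₀ le_rfl).2
      · have h1 := PSa_back (w := fun i => cc q m (η (i : ℤ)) (X i w)) (n := n)
          (fun j hj => hst j w ((hnrm _ _ _).2 (hall j (by omega)))) h
        have h2 : ‖(cc q m (η ((0 : ℕ) : ℤ)) (X 0 w)).2‖ ≤ e := (hall 0 (by omega)).2
        have h3 : (8 / 5 : ℝ) ^ n * ‖B n w‖ ≤ e := h1.trans h2
        have h4 : ‖B n w‖ ≤ e * (5 / 8 : ℝ) ^ n := by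
          have h5 : (5 / 8 : ℝ) ^ n * (8 / 5 : ℝ) ^ n = 1 := by
            rw [← mul_pow]
            norm_num
          calc ‖B n w‖ = (5 / 8 : ℝ) ^ n * ((8 / 5 : ℝ) ^ n * ‖B n w‖) := by
                rw [← mul_assoc, h5, one_mul]
            _ ≤ (5 / 8 : ℝ) ^ n * e := mul_le_mul_of_nonneg_left h3 (by positivity)
            _ = e * (5 / 8 : ℝ) ^ n := mul_comm _ _
        exact h.trans (h4.trans (hpow n hn).2)
    · -- g1
      intro n hn w hw hall hAe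
      change 0 ≤ Q.P (X n w) - (((c / 2 : ℝ) : ℂ) * f.eval (A n w / (cc q m (η n) (Y n)).1)).re
      rw [Complex.re_ofReal_mul]
      set v : ℂ := A n w / (cc q m (η n) (Y n)).1 with hv
      have hv1 : ‖v‖ = 1 := by
        rw [hv, norm_div, hAe, hYe, div_self he.ne']
      rcases le_or_gt (d₁ / (Cq * e)) ‖v - 1‖ with h | h
      · have h1 := hf2 v hv1 h
        have h2 : c / 2 * (f.eval v).re ≤ 0 := mul_nonpos_of_nonneg_of_nonpos (by positivity) h1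
        linarith [Q.P0 (X n w)]
      · -- compare with the good point
        have hd1 : ‖A n w - (cc q m (η n) (Y n)).1‖ ≤ d₁ / Cq := by
          have h1 : A n w - (cc q m (η n) (Y n)).1 = (v - 1) * (cc q m (η n) (Y n)).1 := by
            rw [hv, sub_mul, div_mul_cancel₀ _ (hYne n), one_mul]
          rw [h1, norm_mul, hYe]
          have h2 : ‖v - 1‖ * e ≤ d₁ / (Cq * e) * e := mul_le_mul_of_nonneg_right h.le he.le
          have h3 : d₁ / (Cq * e) * e = d₁ / Cq := by field_simp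
          rwa [h3] at h2
        -- the backward orbit of the good point
        set T : ℕ → E := fun i => (Q.F ^ (-((N : ℤ) * ((n - i : ℕ) : ℤ)))) (Y n) with hT
        have hTs : ∀ i, i < n → T (i + 1) = (Q.F ^ N) (T i) := by
          intro i hi
          change (Q.F ^ (-((N : ℤ) * ((n - (i + 1) : ℕ) : ℤ)))) (Y n) =
            (Q.F ^ N) ((Q.F ^ (-((N : ℤ) * ((n - i : ℕ) : ℤ)))) (Y n))
          rw [← zpow_natCast, ← Equiv.Perm.mul_apply, ← zpow_add]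
          congr 2
          rw [Nat.cast_sub hi.le, Nat.cast_sub (Nat.succ_le_of_lt hi)]
          push_cast
          ring
        have hTb : ∀ i, i ≤ n → ‖cc q m (η (i : ℤ)) (T i)‖ ≤ e := by
          intro i hi
          have h1 := hY3 n (n - i)
          have h2 : (n : ℤ) - ((n - i : ℕ) : ℤ) = (i : ℤ) := by
            rw [Nat.cast_sub hi]
            ring
          rw [h2] at h1
          exact h1
        have hTn : T n = Y n := by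
          change (Q.F ^ (-((N : ℤ) * ((n - n : ℕ) : ℤ)))) (Y n) = Y n
          rw [Nat.sub_self, Nat.cast_zero, mul_zero, neg_zero, zpow_zero]
          rfl
        have h1 := (thin_seq (w := fun i => cc q m (η (i : ℤ)) (X i w) - cc q m (η (i : ℤ)) (T i))
          (n := n) (R := 2 * e) (fun j hj => by
            obtain ⟨l, μ, hl, hμ, h2⟩ := PSa_step hE hη (j : ℤ)
            refine ⟨l, μ, hl, hμ, ?_⟩
            have h3 := h2 (X j w) (T j) (((hnrm _ _ _).2 (hall j hj.le)).trans heε)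
              ((hTb j hj.le).trans heε)
            rw [← hXs, ← hTs j hj] at h3
            change ‖cc q m (η ((j + 1 : ℕ) : ℤ)) (X (j + 1) w) -
              cc q m (η ((j + 1 : ℕ) : ℤ)) (T (j + 1)) - _‖ ≤ _
            rw [Nat.cast_succ]
            exact h3) (fun j hj => by
            refine (norm_sub_le _ _).trans ?_
            have h2 := (hnrm _ _ _).2 (hall j hj)
            have h3 := hTb j hj
            linarith)).1
        change ‖(cc q m (η (n : ℤ)) (X n w) - cc q m (η (n : ℤ)) (T n)).2‖ ≤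
          max ‖(cc q m (η (n : ℤ)) (X n w) - cc q m (η (n : ℤ)) (T n)).1‖ _ at h1
        rw [hTn] at h1
        have h2 : ‖(cc q m (η (n : ℤ)) (X n w) - cc q m (η (n : ℤ)) (Y n)).1‖ ≤ d₁ / Cq := hd1
        have h3 : 2 * e * (5 / 8 : ℝ) ^ n ≤ d₁ / Cq := by
          rw [le_div_iff₀ hCq, mul_comm]
          exact (hpow n hn).1
        have h4 : ‖cc q m (η (n : ℤ)) (X n w) - cc q m (η (n : ℤ)) (Y n)‖ ≤ d₁ / Cq := by
          rw [Prod.norm_def]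
          exact max_le h2 (h1.trans (max_le h2 h3))
        have h5 : ‖X n w - Y n‖ ≤ d₁ := by
          refine (hdist _ (hη.mem n) _ _).trans ?_
          have h6 := mul_le_mul_of_nonneg_left h4 hCq.le
          rwa [mul_div_cancel₀ _ hCq.ne'] at h6
        have h6 := huc₁ (X n w) (Y n)
          (hbox _ (hη.mem n) _ ((hnrm _ _ _).2 (hall n le_rfl)))
          (hbox _ (hη.mem n) _ (by have h7 := hTb n le_rfl; rwa [hTn] at h7)) h5
        have h7 := (abs_le.1 h6).1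
        have h8 := hY2 n
        have h9 : c / 2 * (f.eval v).re ≤ c / 2 * 1 :=
          mul_le_mul_of_nonneg_left (hf1 v hv1) (by positivity)
        linarith
    · -- g2
      intro n hn w hw hall hAρ
      change Q.P (X n w) - (((c / 2 : ℝ) : ℂ) * f.eval (A n w / (cc q m (η n) (Y n)).1)).re ≤ -g
      rw [Complex.re_ofReal_mul]
      have h1 := (thin_seq (w := fun i => cc q m (η (i : ℤ)) (X i w)) (n := n) (R := e)
        (fun j hj => hst j w ((hnrm _ _ _).2 (hall j hj.le)))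
        (fun j hj => (hnrm _ _ _).2 (hall j hj))).1
      have h2 : ‖B n w‖ ≤ ρ := h1.trans (max_le hAρ (hpow n hn).2)
      have h3 := (hnrm n w ρ).2 ⟨hAρ, h2⟩
      have h4 := hdist _ (hη.mem n) (X n w) (η n 0)
      rw [PSa_cen, sub_zero] at h4
      have h5 : ‖X n w - η n 0‖ ≤ d₂ :=
        h4.trans ((mul_le_mul_of_nonneg_left h3 hCq.le).trans hρ1)
      have h6 := huc₂ (X n w) (η n 0)
        (hbox _ (hη.mem n) _ ((hnrm _ _ _).2 (hall n le_rfl))) (hcenR _ (hη.mem n)) h5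
      have h7 : Q.P (η n 0) = 0 := Q.toSys.clSad_P (hZs (hW.cen _ (hη.mem n)))
      rw [h7, sub_zero] at h6
      have h8 := (abs_le.1 h6).2
      have h9 : p / 2 ≤ (f.eval (A n w / (cc q m (η n) (Y n)).1)).re := by
        refine hfr₀ _ ?_
        rw [norm_div, hYe, div_le_iff₀ he]
        exact hAρ.trans hρ2
      have h10 : c / 2 * (p / 2) ≤ c / 2 * (f.eval (A n w / (cc q m (η n) (Y n)).1)).re :=
        mul_le_mul_of_nonneg_left h9 (by positivity)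
      rw [hg]
      linarith
    · -- g3
      intro n hn w hw hall
      change -C ≤ Q.P (X n w) -
        (((c / 2 : ℝ) : ℂ) * f.eval (A n w / (cc q m (η n) (Y n)).1)).re
      rw [Complex.re_ofReal_mul]
      have h1 : (f.eval (A n w / (cc q m (η n) (Y n)).1)).re ≤ max C₁ 0 := by
        refine (hC₁ _ ?_).trans (le_max_left _ _)
        rw [norm_div, hYe, div_le_one he]
        exact (hall n le_rfl).1
      have h2 : c / 2 * (f.eval (A n w / (cc q m (η n) (Y n)).1)).re ≤ c / 2 * max C₁ 0 :=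
        mul_le_mul_of_nonneg_left h1 (by positivity)
      have h3 : c / 2 * max C₁ 0 ≤ C := le_max_right _ _
      linarith [Q.P0 (X n w)]
  obtain ⟨s, hs1, hs2, hs3, hs4⟩ := hbar
  refine ⟨s, hs1, hs2, fun w hw h => hs3 w hw fun h' => h ?_, fun w hw h => hs4 w hw ?_⟩
  · have h1 := (hnrm 1 w e).2 h'
    have h2 : X 1 w = (Q.F ^ (N : ℤ)) (ξ w) := by
      change (Q.F ^ (N * 1)) (ξ w) = _
      rw [mul_one, zpow_natCast]
    rw [h2, Nat.cast_one] at h1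
    exact h1
  · intro j hj
    refine (hnrm' j w e).1 ?_
    have h1 := h j hj
    have h2 : (Q.F ^ ((N : ℤ) * j)) (ξ w) = X j w := by
      change _ = (Q.F ^ (N * j)) (ξ w)
      rw [← Nat.cast_mul, zpow_natCast]
    rwa [h2] at h1

end Pool.Agent.HQ
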