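import Pool.Agent.HQD.Defs
import Pool.Agent.HQD.DefsP
import Pool.Agent.HQD.PBar
import Pool.Agent.HQD.PPol
import Pool.Agent.HQD.PCon
import Pool.Agent.HQD.PChn
import Pool.Agent.HQD.PSmv
import Pool.Agent.HQD.ZLin

/-!
# HQD module PSb: the backward barrier
-/

set_option autoImplicit false

open Filter Topology Set Metric

namespace Pool.Agent.HQ

/-- backward coordinates along a chain -/
noncomputable def PSb_x (Q : QS) (q : ℝ) (m N : ℕ) (η : ℤ → ℂ → E) (n : ℕ) (Y : E) : E :=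
  cc q m (η (-(n : ℤ))) ((Q.F ^ (-((N : ℤ) * n))) Y)

theorem PSb_cc_sub (q : ℝ) (m : ℕ) (ξ : ℂ → E) (Y Y' : E) :
    cc q m ξ Y - cc q m ξ Y' = chartInv q (iteratedDeriv m ξ 0) (Y - Y') := by
  unfold cc
  rw [← map_sub]
  congr 1
  abel

theorem PSb_cc_zero (q : ℝ) (m : ℕ) (ξ : ℂ → E) : cc q m ξ (ξ 0) = 0 := by
  unfold cc
  rw [sub_self, map_zero]

/-- bound of the charts -/
theorem PSb_chart {q : ℝ} (hq : 1 ≤ q) {c₁ c₂ : ℝ} (hc : 0 < c₁) : ∃ C : ℝ, 0 < C ∧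
    ∀ v : E, c₁ ≤ ‖v‖ → ‖v‖ ≤ c₂ → ∀ w : E, ‖w‖ ≤ C * ‖chartInv q v w‖ := by
  obtain ⟨C, hC⟩ := perp_bound (c₁ := c₁) (c₂ := c₂) hc
  refine ⟨|c₂| + |C| + 1, by positivity, ?_⟩
  intro v h1 h2 w
  have hv : v ≠ 0 := by
    rintro rfl
    rw [norm_zero] at h1
    linarith
  have hq0 : q ≠ 0 := by linarith
  have h3 := chart_right hq0 hv w
  set z := chartInv q v w with hz
  rw [chart_apply] at h3
  have h4 : ‖w‖ ≤ ‖z.1‖ * ‖v‖ + ‖z.2‖ * (‖(q : ℂ)⁻¹‖ * ‖perp v‖) := by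
    rw [← h3]
    refine (norm_add_le _ _).trans ?_
    rw [norm_smul, norm_smul, norm_smul]
  have h5 : ‖(q : ℂ)⁻¹‖ ≤ 1 := by
    rw [norm_inv, Complex.norm_real, Real.norm_of_nonneg (by linarith)]
    exact inv_le_one_of_one_le₀ hq
  have h6 := hC v h1 h2
  have h7 : ‖z.1‖ ≤ ‖z‖ := norm_fst_le z
  have h8 : ‖z.2‖ ≤ ‖z‖ := norm_snd_le z
  have h9 : ‖v‖ ≤ |c₂| := h2.trans (le_abs_self _)
  have h10 : ‖perp v‖ ≤ |C| := h6.trans (le_abs_self _)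
  have h11 : ‖(q : ℂ)⁻¹‖ * ‖perp v‖ ≤ |C| := by
    calc ‖(q : ℂ)⁻¹‖ * ‖perp v‖ ≤ 1 * |C| := by gcongr
      _ = |C| := one_mul _
  calc ‖w‖ ≤ ‖z.1‖ * ‖v‖ + ‖z.2‖ * (‖(q : ℂ)⁻¹‖ * ‖perp v‖) := h4
    _ ≤ ‖z‖ * |c₂| + ‖z‖ * |C| := by gcongr
    _ ≤ (|c₂| + |C| + 1) * ‖z‖ := by nlinarith [norm_nonneg z]

/-- the estimate along a chain -/
theorem PSb_step {Q : QS} {κ : ℝ} {W : Set (ℂ → E)} {q ε : ℝ} {m N : ℕ}
    (hE : Est Q W κ q ε m N) {η : ℤ → ℂ → E} (hη : Chn Q W κ N η) (j : ℤ) {Y Y' : E}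
    (hY : ‖cc q m (η j) Y‖ ≤ ε) (hY' : ‖cc q m (η j) Y'‖ ≤ ε) :
    ∃ l μ : ℂ, 2 ≤ ‖l‖ ∧ ‖μ‖ ≤ 1 / 2 ∧
      ‖cc q m (η (j + 1)) ((Q.F ^ N) Y) - cc q m (η (j + 1)) ((Q.F ^ N) Y') -
        dg l μ (cc q m (η j) Y - cc q m (η j) Y')‖ ≤
          ‖cc q m (η j) Y - cc q m (η j) Y'‖ / 8 := by
  obtain ⟨a, ha, hs⟩ := hη.step j
  obtain ⟨l, μ, hl, hμ, h1, -⟩ := hE (η j) (hη.mem j) (η (j + 1)) (hη.mem (j + 1)) a ha hs
  exact ⟨l, μ, hl, hμ, h1 Y Y' hY hY'⟩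

/-- the estimate against the centre -/
theorem PSb_step0 {Q : QS} {κ : ℝ} {W : Set (ℂ → E)} {q ε : ℝ} {m N : ℕ}
    (hE : Est Q W κ q ε m N) (hε : 0 < ε) {η : ℤ → ℂ → E} (hη : Chn Q W κ N η) (j : ℤ) {Y : E}
    (hY : ‖cc q m (η j) Y‖ ≤ ε) :
    ∃ l μ : ℂ, 2 ≤ ‖l‖ ∧ ‖μ‖ ≤ 1 / 2 ∧
      ‖cc q m (η (j + 1)) ((Q.F ^ N) Y) - dg l μ (cc q m (η j) Y)‖ ≤
          ‖cc q m (η j) Y‖ / 8 := by
  obtain ⟨a, ha, hs⟩ := hη.step j
  have h0 : (Q.F ^ N) (η j 0) = η (j + 1) 0 := by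
    rw [hs 0, mul_zero]
  obtain ⟨l, μ, hl, hμ, h1⟩ := PSb_step hE hη j (Y := Y) (Y' := η j 0) hY
    (by rw [PSb_cc_zero, norm_zero]; exact hε.le)
  rw [h0, PSb_cc_zero, PSb_cc_zero, sub_zero, sub_zero] at h1
  exact ⟨l, μ, hl, hμ, h1⟩

theorem PSb_F (Q : QS) (N n : ℕ) (Y : E) :
    (Q.F ^ N) ((Q.F ^ (-((N : ℤ) * ((n + 1 : ℕ) : ℤ)))) Y) = (Q.F ^ (-((N : ℤ) * n))) Y := by
  rw [← zpow_natCast, ← Equiv.Perm.mul_apply, ← zpow_add]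
  congr 2
  push_cast
  ring

/-- one backward step in the coordinates -/
theorem PSb_xstep {Q : QS} {κ : ℝ} {W : Set (ℂ → E)} {q ε : ℝ} {m N : ℕ}
    (hE : Est Q W κ q ε m N) (hε : 0 < ε) {η : ℤ → ℂ → E} (hη : Chn Q W κ N η) (n : ℕ) {Y : E}
    (hY : ‖PSb_x Q q m N η (n + 1) Y‖ ≤ ε) :
    ∃ l μ : ℂ, 2 ≤ ‖l‖ ∧ ‖μ‖ ≤ 1 / 2 ∧
      ‖PSb_x Q q m N η n Y - dg l μ (PSb_x Q q m N η (n + 1) Y)‖ ≤
          ‖PSb_x Q q m N η (n + 1) Y‖ / 8 := by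
  unfold PSb_x at hY ⊢
  obtain ⟨l, μ, hl, hμ, h1⟩ := PSb_step0 hE hε hη (-((n + 1 : ℕ) : ℤ)) hY
  rw [PSb_F, show -((n + 1 : ℕ) : ℤ) + 1 = -(n : ℤ) by push_cast; ring] at h1
  exact ⟨l, μ, hl, hμ, h1⟩

/-- vertical vectors stay vertical backwards -/
theorem PSb_vert {Q : QS} {κ : ℝ} {W : Set (ℂ → E)} {q ε : ℝ} {m N : ℕ}
    (hE : Est Q W κ q ε m N) (hε : 0 < ε) {η : ℤ → ℂ → E} (hη : Chn Q W κ N η) (n : ℕ) {Y : E}
    (hv : ‖(PSb_x Q q m N η n Y).1‖ ≤ ‖(PSb_x Q q m N η n Y).2‖) (k : ℕ)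
    (hb : ∀ j ≤ n + k, ‖PSb_x Q q m N η j Y‖ ≤ ε) :
    ‖(PSb_x Q q m N η (n + k) Y).1‖ ≤ ‖(PSb_x Q q m N η (n + k) Y).2‖ ∧
      (8 / 5) ^ k * ‖(PSb_x Q q m N η n Y).2‖ ≤ ‖(PSb_x Q q m N η (n + k) Y).2‖ := by
  induction k with
  | zero =>
    rw [add_zero, pow_zero, one_mul]
    exact ⟨hv, le_rfl⟩
  | succ k ih =>
    obtain ⟨h1, h2⟩ := ih (fun j hj => hb j (by omega))
    obtain ⟨l, μ, hl, hμ, h3⟩ := PSb_xstep hE hε hη (n + k) (Y := Y) (hb (n + k + 1) (by omega))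
    obtain ⟨-, h4, -, -⟩ := cone_vec hl hμ h3
    obtain ⟨h5, h6⟩ := h4 h1
    rw [← add_assoc]
    refine ⟨h5, ?_⟩
    rw [pow_succ]
    nlinarith

/-- horizontal vectors stay horizontal forwards -/
theorem PSb_horz {Q : QS} {κ : ℝ} {W : Set (ℂ → E)} {q ε : ℝ} {m N : ℕ}
    (hE : Est Q W κ q ε m N) (hε : 0 < ε) {η : ℤ → ℂ → E} (hη : Chn Q W κ N η) {Y : E} (k : ℕ) :
    ∀ n : ℕ, ‖(PSb_x Q q m N η (n + k) Y).2‖ ≤ ‖(PSb_x Q q m N η (n + k) Y).1‖ →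
    (∀ j ≤ n + k, ‖PSb_x Q q m N η j Y‖ ≤ ε) →
      (8 / 5) ^ k * ‖(PSb_x Q q m N η (n + k) Y).1‖ ≤ ‖(PSb_x Q q m N η n Y).1‖ := by
  induction k with
  | zero =>
    intro n _ _
    rw [add_zero, pow_zero, one_mul]
  | succ k ih =>
    intro n hv hb
    obtain ⟨l, μ, hl, hμ, h3⟩ := PSb_xstep hE hε hη (n + k) (Y := Y) (hb (n + k + 1) (by omega))
    obtain ⟨h4, -, -, -⟩ := cone_vec hl hμ h3
    rw [← add_assoc] at hv ⊢
    obtain ⟨h5, h6⟩ := h4 hv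
    have h7 := ih n h5 (fun j hj => hb j (by omega))
    rw [pow_succ]
    have h8 : (0 : ℝ) ≤ (8 / 5) ^ k := by positivity
    calc (8 / 5) ^ k * (8 / 5) * ‖(PSb_x Q q m N η (n + k + 1) Y).1‖
        = (8 / 5) ^ k * (8 / 5 * ‖(PSb_x Q q m N η (n + k + 1) Y).1‖) := by ring
      _ ≤ (8 / 5) ^ k * ‖(PSb_x Q q m N η (n + k) Y).1‖ := by gcongr
      _ ≤ _ := h7

theorem PSb_diff (Q : QS) (q : ℝ) (m N : ℕ) (η : ℤ → ℂ → E) (n : ℕ) {ξ : ℂ → E}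
    (hξ : Differentiable ℂ ξ) : Differentiable ℂ (fun w => PSb_x Q q m N η n (ξ w)) := by
  unfold PSb_x cc
  have h1 := Q.diff_zpow (-((N : ℤ) * n))
  exact (chartInv q (iteratedDeriv m (η (-(n : ℤ))) 0)).differentiable.comp
    ((h1.comp hξ).sub_const _)

/-- a point on a curve in `M = 0` is not near a good point -/
theorem PSb_far {Q : QS} {Z : Set E} {m : ℕ} {c₁ c₂ κ Λ : ℝ}
    {W : Set (ℂ → E)} (hW : WF Q Z m c₁ c₂ κ Λ W) {q ε : ℝ} {N : ℕ}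
    (hε : 0 < ε) (hE : Est Q W κ q ε m N) {e c Cc δ' R : ℝ} (he : 0 < e) (heε : e ≤ ε)
    (hCc : 0 < Cc) (hch : ∀ v : E, c₁ ≤ ‖v‖ → ‖v‖ ≤ c₂ → ∀ w : E, ‖w‖ ≤ Cc * ‖chartInv q v w‖)
    (hR : ∀ x ∈ Z, ‖x‖ ≤ R)
    (huc : ∀ Y Y' : E, ‖Y‖ ≤ R + Cc * e → ‖Y'‖ ≤ R + Cc * e → ‖Y - Y'‖ < δ' →
      |Q.M Y - Q.M Y'| < c)
    {η : ℤ → ℂ → E} (hη : Chn Q W κ N η) {n : ℕ} {Y V : E}
    (hb : ∀ j ≤ n, ‖PSb_x Q q m N η j Y‖ ≤ e) (hM : Q.M Y = 0) (hV : c ≤ Q.M V)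
    (hVb : ∀ i : ℕ, ‖cc q m (η (-(n : ℤ) + i)) ((Q.F ^ ((N : ℤ) * i)) V)‖ ≤ e)
    (hsm : Cc * (2 * e * (5 / 8) ^ n) < δ') :
    δ' ≤ Cc * ‖(PSb_x Q q m N η n Y).2 - (cc q m (η (-(n : ℤ))) V).2‖ := by
  by_contra hcon
  push Not at hcon
  set Yn : E := (Q.F ^ (-((N : ℤ) * n))) Y with hYn
  -- the sequence of differences
  set w : ℕ → E := fun j => cc q m (η (-(n : ℤ) + j)) ((Q.F ^ ((N : ℤ) * j)) Yn) -
    cc q m (η (-(n : ℤ) + j)) ((Q.F ^ ((N : ℤ) * j)) V) with hw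
  have hYb : ∀ j ≤ n, ‖cc q m (η (-(n : ℤ) + j)) ((Q.F ^ ((N : ℤ) * j)) Yn)‖ ≤ e := by
    intro j hj
    have h1 := hb (n - j) (Nat.sub_le _ _)
    unfold PSb_x at h1
    rw [show -((n - j : ℕ) : ℤ) = -(n : ℤ) + j by rw [Nat.cast_sub hj]; ring] at h1
    rw [hYn, ← Equiv.Perm.mul_apply, ← zpow_add,
      show (N : ℤ) * j + -((N : ℤ) * n) = -((N : ℤ) * ((n - j : ℕ) : ℤ)) by
        rw [Nat.cast_sub hj]; ring]
    exact h1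
  have hstep : ∀ j < n, ∃ l μ : ℂ, 2 ≤ ‖l‖ ∧ ‖μ‖ ≤ 1 / 2 ∧
      ‖w (j + 1) - dg l μ (w j)‖ ≤ ‖w j‖ / 8 := by
    intro j hj
    obtain ⟨l, μ, hl, hμ, h1⟩ := PSb_step hE hη (-(n : ℤ) + j)
      ((hYb j hj.le).trans heε) ((hVb j).trans heε)
    refine ⟨l, μ, hl, hμ, ?_⟩
    have h2 : ∀ X : E, (Q.F ^ ((N : ℤ) * ((j + 1 : ℕ) : ℤ))) X =
        (Q.F ^ N) ((Q.F ^ ((N : ℤ) * j)) X) := by
      intro X
      rw [← zpow_natCast Q.F N, ← Equiv.Perm.mul_apply, ← zpow_add]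
      congr 2
      push_cast
      ring
    simp only [hw]
    rw [h2, h2, show -(n : ℤ) + ((j + 1 : ℕ) : ℤ) = -(n : ℤ) + j + 1 by push_cast; ring]
    exact h1
  have hbd : ∀ j ≤ n, ‖w j‖ ≤ 2 * e := by
    intro j hj
    simp only [hw]
    refine (norm_sub_le _ _).trans ?_
    linarith [hYb j hj, hVb j]
  have hthin := (thin_seq hstep hbd).2
  have hw0 : w 0 = PSb_x Q q m N η n Y - cc q m (η (-(n : ℤ))) V := by
    simp only [hw]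
    rw [hYn]
    unfold PSb_x
    simp
  have hw0' : ‖w 0‖ * Cc < δ' := by
    rw [Prod.norm_def]
    have h2 : ‖(w 0).2‖ * Cc < δ' := by
      rw [hw0, Prod.snd_sub, mul_comm]
      exact hcon
    have h1 : ‖(w 0).1‖ * Cc < δ' := by
      refine lt_of_le_of_lt (mul_le_mul_of_nonneg_right hthin hCc.le) ?_
      rcases max_choice ‖(w 0).2‖ (2 * e * (5 / 8) ^ n) with h | h
      · rw [h]; exact h2
      · rw [h, mul_comm]; exact hsm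
    rcases max_choice ‖(w 0).1‖ ‖(w 0).2‖ with h | h
    · rw [h]; exact h1
    · rw [h]; exact h2
  have hmem := hη.mem (-(n : ℤ))
  have hdist : ‖Yn - V‖ < δ' := by
    have h1 := hch _ (hW.lo _ hmem) (hW.hi _ hmem) (Yn - V)
    rw [← PSb_cc_sub q m (η (-(n : ℤ))) Yn V] at h1
    have h2 : cc q m (η (-(n : ℤ))) Yn - cc q m (η (-(n : ℤ))) V = w 0 := by
      rw [hw0]
      rfl
    rw [h2] at h1
    linarith
  have hnorm : ∀ X : E, ‖cc q m (η (-(n : ℤ))) X‖ ≤ e → ‖X‖ ≤ R + Cc * e := by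
    intro X hX
    have h1 := hch _ (hW.lo _ hmem) (hW.hi _ hmem) (X - η (-(n : ℤ)) 0)
    have h2 : ‖X - η (-(n : ℤ)) 0‖ ≤ Cc * e := by
      refine h1.trans ?_
      exact mul_le_mul_of_nonneg_left hX hCc.le
    have h3 := hR _ (hW.cen _ hmem)
    calc ‖X‖ = ‖(X - η (-(n : ℤ)) 0) + η (-(n : ℤ)) 0‖ := by rw [sub_add_cancel]
      _ ≤ ‖X - η (-(n : ℤ)) 0‖ + ‖η (-(n : ℤ)) 0‖ := norm_add_le _ _
      _ ≤ R + Cc * e := by linarith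
  have hV0 := hVb 0
  rw [Nat.cast_zero, mul_zero, zpow_zero, add_zero, Equiv.Perm.one_apply] at hV0
  have hfin := huc Yn V (hnorm Yn (hb n le_rfl)) (hnorm V hV0) hdist
  have hMn : Q.M Yn = 0 := (Q.M_zero_iff _ _).2 hM
  rw [hMn, zero_sub, abs_neg, abs_of_nonneg (Q.M0 V)] at hfin
  linarith

theorem side_b (Q : QS) {Z : Set E} (hZs : Z ⊆ closure (Sad Q.F)) {m : ℕ} {c₁ c₂ κ Λ : ℝ}
    {W : Set (ℂ → E)} (hW : WF Q Z m c₁ c₂ κ Λ W) {q ε : ℝ} {N : ℕ} (hN : 1 ≤ N) (hq : 1 ≤ q)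
    (hε : 0 < ε) (hE : Est Q W κ q ε m N) {e c : ℝ} (he : 0 < e) (heε : e ≤ ε) (hc : 0 < c)
    (hgood : ∀ η : ℤ → ℂ → E, Chn Q W κ N η → ∀ j : ℤ,
      ∃ V : E, ‖(cc q m (η j) V).2‖ = e ∧ c ≤ Q.M V ∧
        ∀ i : ℕ, ‖cc q m (η (j + i)) ((Q.F ^ ((N : ℤ) * i)) V)‖ ≤ e) :
    ∃ (lam : ℝ) (n₀ : ℕ), 0 ≤ lam ∧ lam < 1 ∧ ∀ η : ℤ → ℂ → E, Chn Q W κ N η → ∀ ξ : ℂ → E,
      Differentiable ℂ ξ → (∀ w, Q.M (ξ w) = 0) → ∀ D : Set ℂ, IsOpen D →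
      (∀ w ∈ D, ‖cc q m (η 0) (ξ w)‖ < e) → ∀ K : ℕ,
      ∃ s : ℂ → ℝ, SMV D s ∧ (∀ w ∈ D, 0 ≤ s w ∧ s w ≤ 1) ∧
        (∀ w ∈ D, ¬ ‖cc q m (η (-1)) ((Q.F ^ (-(N : ℤ))) (ξ w))‖ ≤ e → s w = 1) ∧
        ∀ w ∈ D, (∀ j : ℕ, j ≤ (K + 1) * n₀ →
          ‖cc q m (η (-(j : ℤ))) ((Q.F ^ (-((N : ℤ) * j))) (ξ w))‖ < e) → s w ≤ lam ^ K := by
  -- constants
  obtain ⟨Cc, hCc, hch⟩ := PSb_chart hq (c₂ := c₂) hW.c0
  obtain ⟨R, hR⟩ := Q.K_bdd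
  have hRZ : ∀ x ∈ Z, ‖x‖ ≤ R := fun x hx =>
    hR x (Q.clSad_P (hZs hx)) (Q.clSad_M (hZs hx))
  have hcomp : IsCompact (closedBall (0 : E) (R + Cc * e)) := isCompact_closedBall _ _
  have huc := hcomp.uniformContinuousOn_of_continuous Q.cM.continuousOn
  rw [Metric.uniformContinuousOn_iff] at huc
  obtain ⟨δ', hδ', huc'⟩ := huc c hc
  have huc2 : ∀ Y Y' : E, ‖Y‖ ≤ R + Cc * e → ‖Y'‖ ≤ R + Cc * e → ‖Y - Y'‖ < δ' →
      |Q.M Y - Q.M Y'| < c := by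
    intro Y Y' h1 h2 h3
    have h4 := huc' Y (by rw [mem_closedBall, dist_zero_right]; exact h1) Y'
      (by rw [mem_closedBall, dist_zero_right]; exact h2) (by rw [dist_eq_norm]; exact h3)
    rwa [Real.dist_eq] at h4
  set δ : ℝ := δ' / (2 * (Cc * e)) with hδ
  have hδ0 : 0 < δ := by rw [hδ]; positivity
  obtain ⟨f, p, hp, hf1, hf2, hf3⟩ := poly_barrier hδ0
  have hfc : Continuous (fun v : ℂ => (f.eval v).re) := Complex.continuous_re.comp f.continuous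
  -- the radius `ρ`
  obtain ⟨r₀, hr₀, hfr⟩ : ∃ r₀ : ℝ, 0 < r₀ ∧ ∀ v : ℂ, ‖v‖ ≤ r₀ → p / 2 ≤ (f.eval v).re := by
    have h1 := Metric.continuousAt_iff.1 (hfc.continuousAt (x := 0)) (p / 2) (by linarith)
    obtain ⟨r, hr, hr'⟩ := h1
    refine ⟨r / 2, by linarith, fun v hv => ?_⟩
    have h2 := hr' (x := v) (by rw [dist_zero_right]; linarith)
    rw [Real.dist_eq, abs_lt] at h2
    linarith [h2.1]
  -- the bound of `f`
  obtain ⟨C₁, hC₁⟩ : ∃ C₁ : ℝ, ∀ v : ℂ, ‖v‖ ≤ 1 → (f.eval v).re ≤ C₁ := by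
    obtain ⟨C, hC⟩ := (isCompact_closedBall (0 : ℂ) 1).bddAbove_image hfc.continuousOn
    refine ⟨C, fun v hv => hC ⟨v, by rw [mem_closedBall, dist_zero_right]; exact hv, rfl⟩⟩
  set g : ℝ := p / 2 with hg
  set C : ℝ := max C₁ g with hC
  have hg0 : 0 < g := by rw [hg]; linarith
  have hgC : g ≤ C := le_max_right _ _
  have hC0 : 0 < C := lt_of_lt_of_le hg0 hgC
  -- the number `n₀`
  obtain ⟨n₀, hn₀, hn₀a, hn₀b⟩ : ∃ n₀ : ℕ, 1 ≤ n₀ ∧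
      (∀ n : ℕ, n₀ ≤ n → Cc * (2 * e * (5 / 8) ^ n) < δ') ∧
      (∀ n : ℕ, n₀ ≤ n → e * (5 / 8) ^ n ≤ e * r₀) := by
    have h0 : Tendsto (fun n : ℕ => (5 / 8 : ℝ) ^ n) atTop (𝓝 0) :=
      tendsto_pow_atTop_nhds_zero_of_lt_one (by norm_num) (by norm_num)
    have h1 : ∀ᶠ n : ℕ in atTop, (5 / 8 : ℝ) ^ n < min (δ' / (Cc * (2 * e))) r₀ :=
      h0.eventually_lt_const (lt_min (by positivity) hr₀)
    obtain ⟨n₁, hn₁⟩ := eventually_atTop.1 h1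
    refine ⟨max n₁ 1, le_max_right _ _, ?_, ?_⟩
    · intro n hn
      have h2 := lt_of_lt_of_le (hn₁ n ((le_max_left _ _).trans hn)) (min_le_left _ _)
      rw [lt_div_iff₀ (by positivity)] at h2
      linarith
    · intro n hn
      have h2 := lt_of_lt_of_le (hn₁ n ((le_max_left _ _).trans hn)) (min_le_right _ _)
      exact mul_le_mul_of_nonneg_left h2.le he.le
  refine ⟨1 - g / C, n₀, ?_, ?_, ?_⟩
  · rw [sub_nonneg, div_le_one hC0]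
    exact hgC
  · have : 0 < g / C := by positivity
    linarith
  intro η hη ξ hξ hM D hD hD0 K
  choose V hV1 hV2 hV3 using fun n : ℕ => hgood η hη (-(n : ℤ))
  have hdx := fun n : ℕ => PSb_diff Q q m N η n hξ
  have hβ : ∀ n : ℕ, (cc q m (η (-(n : ℤ))) (V n)).2 ≠ 0 := by
    intro n h
    have := hV1 n
    rw [h, norm_zero] at this
    linarith
  have hbox : ∀ (n : ℕ) (w : ℂ), ‖(PSb_x Q q m N η n (ξ w)).2‖ ≤ e →
      ‖(PSb_x Q q m N η n (ξ w)).1‖ ≤ e → ‖PSb_x Q q m N η n (ξ w)‖ ≤ e := by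
    intro n w h1 h2
    rw [Prod.norm_def]
    exact max_le h2 h1
  obtain ⟨s, hs1, hs2, hs3, hs4⟩ := barrier (D := D) hD
    (A := fun n w => (PSb_x Q q m N η n (ξ w)).2) (B := fun n w => (PSb_x Q q m N η n (ξ w)).1)
    (u := fun n w => (-(f.eval ((PSb_x Q q m N η n (ξ w)).2 /
      (cc q m (η (-(n : ℤ))) (V n)).2))).re)
    (e := e) (ρ := e * r₀) (g := g) (C := C) (n₀ := n₀) hn₀
    (fun n => ((hdx n).snd.continuous).continuousOn)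
    (fun n => ((hdx n).fst.continuous).continuousOn)
    (fun n => LMV_re hD (by
      have h1 : Differentiable ℂ (fun w : ℂ => -(f.eval ((PSb_x Q q m N η n (ξ w)).2 /
          (cc q m (η (-(n : ℤ))) (V n)).2))) :=
        (f.differentiable.comp ((hdx n).snd.div_const _)).neg
      exact h1.differentiableOn))
    hg0 hgC
    (by
      intro w hw
      have h1 := hD0 w hw
      have h2 : PSb_x Q q m N η 0 (ξ w) = cc q m (η 0) (ξ w) := by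
        unfold PSb_x
        simp
      rw [h2]
      exact ⟨lt_of_le_of_lt (norm_snd_le _) h1, lt_of_le_of_lt (norm_fst_le _) h1⟩)
    (by
      intro n w hw h1 h2 h3 h4
      have h5 := hbox (n + 1) w h3 h4
      obtain ⟨l, μ, hl, hμ, h6⟩ := PSb_xstep hE hε hη n (Y := ξ w) (h5.trans heε)
      obtain ⟨-, -, h7, h8⟩ := cone_vec hl hμ h6
      constructor
      · linarith
      · linarith)
    (by
      intro n hn w hw hb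
      have hb' : ∀ j ≤ n + n₀, ‖PSb_x Q q m N η j (ξ w)‖ ≤ e := fun j hj =>
        hbox j w (hb j hj).1 (hb j hj).2
      rcases le_total ‖(PSb_x Q q m N η n (ξ w)).1‖ ‖(PSb_x Q q m N η n (ξ w)).2‖ with h | h
      · have h1 := (PSb_vert hE hε hη n h n₀ (fun j hj => (hb' j hj).trans heε)).2
        have h2 := (hb (n + n₀) le_rfl).1
        have h3 : (8 / 5 : ℝ) ^ n₀ * ‖(PSb_x Q q m N η n (ξ w)).2‖ ≤ e := h1.trans h2
        refine le_trans ?_ (hn₀b n₀ le_rfl)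
        have h4 : (5 / 8 : ℝ) ^ n₀ * ((8 / 5 : ℝ) ^ n₀) = 1 := by
          rw [← mul_pow]; norm_num
        calc ‖(PSb_x Q q m N η n (ξ w)).2‖
            = (5 / 8 : ℝ) ^ n₀ * ((8 / 5 : ℝ) ^ n₀ * ‖(PSb_x Q q m N η n (ξ w)).2‖) := by
              rw [← mul_assoc, h4, one_mul]
          _ ≤ (5 / 8 : ℝ) ^ n₀ * e := by gcongr
          _ = e * (5 / 8) ^ n₀ := mul_comm _ _
      · have h0 := PSb_horz hE hε hη (Y := ξ w) n 0 (by rw [zero_add]; exact h)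
          (fun j hj => (hb' j (by omega)).trans heε)
        rw [zero_add] at h0
        have h2 := (hb 0 (by omega)).2
        have h3 : (8 / 5 : ℝ) ^ n * ‖(PSb_x Q q m N η n (ξ w)).1‖ ≤ e := h0.trans h2
        refine h.trans (le_trans ?_ (hn₀b n hn))
        have h4 : (5 / 8 : ℝ) ^ n * ((8 / 5 : ℝ) ^ n) = 1 := by
          rw [← mul_pow]; norm_num
        calc ‖(PSb_x Q q m N η n (ξ w)).1‖
            = (5 / 8 : ℝ) ^ n * ((8 / 5 : ℝ) ^ n * ‖(PSb_x Q q m N η n (ξ w)).1‖) := by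
              rw [← mul_assoc, h4, one_mul]
          _ ≤ (5 / 8 : ℝ) ^ n * e := by gcongr
          _ = e * (5 / 8) ^ n := mul_comm _ _)
    (by
      intro n hn w hw hb hAe
      have hfar := PSb_far hW hε hE he heε hCc hch hRZ huc2 hη (n := n) (Y := ξ w) (V := V n)
        (fun j hj => hbox j w (hb j hj).1 (hb j hj).2) (hM w) (hV2 n) (hV3 n) (hn₀a n hn)
      have hv1 : ‖(PSb_x Q q m N η n (ξ w)).2 / (cc q m (η (-(n : ℤ))) (V n)).2‖ = 1 := by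
        rw [norm_div, hV1 n]
        change ‖(PSb_x Q q m N η n (ξ w)).2‖ / e = 1
        rw [hAe, div_self he.ne']
      have hv2 : δ ≤ ‖(PSb_x Q q m N η n (ξ w)).2 / (cc q m (η (-(n : ℤ))) (V n)).2 - 1‖ := by
        have h1 : (PSb_x Q q m N η n (ξ w)).2 / (cc q m (η (-(n : ℤ))) (V n)).2 - 1 =
            ((PSb_x Q q m N η n (ξ w)).2 - (cc q m (η (-(n : ℤ))) (V n)).2) /
              (cc q m (η (-(n : ℤ))) (V n)).2 := by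
          rw [sub_div, div_self (hβ n)]
        rw [h1, norm_div, hV1 n, le_div_iff₀ he, hδ, div_mul_eq_mul_div, div_le_iff₀ (by positivity)]
        have h2 : 0 ≤ ‖(PSb_x Q q m N η n (ξ w)).2 - (cc q m (η (-(n : ℤ))) (V n)).2‖ :=
          norm_nonneg _
        nlinarith
      have h3 := hf2 _ hv1 hv2
      change 0 ≤ (-(f.eval ((PSb_x Q q m N η n (ξ w)).2 /
        (cc q m (η (-(n : ℤ))) (V n)).2))).re
      rw [Complex.neg_re]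
      linarith)
    (by
      intro n hn w hw hb hAρ
      have h1 : ‖(PSb_x Q q m N η n (ξ w)).2 / (cc q m (η (-(n : ℤ))) (V n)).2‖ ≤ r₀ := by
        rw [norm_div, hV1 n, div_le_iff₀ he, mul_comm]
        exact hAρ
      have h2 := hfr _ h1
      change (-(f.eval ((PSb_x Q q m N η n (ξ w)).2 /
        (cc q m (η (-(n : ℤ))) (V n)).2))).re ≤ -g
      rw [Complex.neg_re]
      linarith)
    (by
      intro n hn w hw hb
      have h1 : ‖(PSb_x Q q m N η n (ξ w)).2 / (cc q m (η (-(n : ℤ))) (V n)).2‖ ≤ 1 := by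
        rw [norm_div, hV1 n, div_le_one he]
        exact (hb n le_rfl).1
      have h2 := hC₁ _ h1
      have h3 : C₁ ≤ C := le_max_left _ _
      change -C ≤ (-(f.eval ((PSb_x Q q m N η n (ξ w)).2 /
        (cc q m (η (-(n : ℤ))) (V n)).2))).re
      rw [Complex.neg_re]
      linarith) K
  refine ⟨s, hs1, hs2, ?_, ?_⟩
  · intro w hw h
    apply hs3 w hw
    rintro ⟨h1, h2⟩
    apply h
    have h3 := hbox 1 w h1 h2
    unfold PSb_x at h3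
    rw [Nat.cast_one, mul_one] at h3
    exact h3
  · intro w hw h
    apply hs4 w hw
    intro j hj
    have h1 := h j hj
    exact ⟨lt_of_le_of_lt (norm_snd_le _) h1, lt_of_le_of_lt (norm_fst_le _) h1⟩

end Pool.Agent.HQ
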