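import Pool.Agent.HQD.Defs
import Pool.Agent.HQD.ZLin

/-!
# HQD module ZUch: uniform choice of the charts
-/

set_option autoImplicit false

open Filter Topology Set Metric

namespace Pool.Agent.HQ

/-- Cauchy estimate for the difference of two derivatives -/
theorem ZUch_diff_le {G : E → E} (hG : Differentiable ℂ G) {x x' : E} {η : ℝ} (hη : 0 ≤ η)
    (h : ∀ v : E, ‖v‖ ≤ 1 → ‖G (x + v) - G (x' + v)‖ ≤ η) :
    ‖fderiv ℂ G x - fderiv ℂ G x'‖ ≤ η := by
  have hunit : ∀ u : E, ‖u‖ = 1 → ‖(fderiv ℂ G x - fderiv ℂ G x') u‖ ≤ η := by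
    intro u hu
    have hl : ∀ y : E, HasDerivAt (fun ζ : ℂ => G (y + ζ • u)) (fderiv ℂ G y u) 0 := by
      intro y
      have h1 : HasDerivAt (fun ζ : ℂ => y + ζ • u) u 0 := by
        have h2 : HasDerivAt (fun ζ : ℂ => ζ • u) ((1 : ℂ) • u) 0 :=
          (hasDerivAt_id (0 : ℂ)).smul_const u
        rw [one_smul] at h2
        exact h2.const_add y
      have h3 : HasFDerivAt G (fderiv ℂ G y) (y + (0 : ℂ) • u) := by
        rw [zero_smul, add_zero]
        exact (hG y).hasFDerivAt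
      exact h3.comp_hasDerivAt (0 : ℂ) h1
    have hd := (hl x).sub (hl x')
    have hdiff : Differentiable ℂ (fun ζ : ℂ => G (x + ζ • u) - G (x' + ζ • u)) := by
      have h4 : ∀ y : E, Differentiable ℂ (fun ζ : ℂ => G (y + ζ • u)) := by
        intro y
        exact hG.comp ((differentiable_id.smul_const u).const_add y)
      exact (h4 x).sub (h4 x')
    have h5 := Complex.norm_deriv_le_of_forall_mem_sphere_norm_le (c := (0 : ℂ)) (R := 1)
      (f := fun ζ : ℂ => G (x + ζ • u) - G (x' + ζ • u)) (C := η) one_pos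
      hdiff.diffContOnCl (by
        intro ζ hζ
        rw [mem_sphere, dist_zero_right] at hζ
        apply h
        rw [norm_smul, hζ, hu, mul_one])
    have h6 : deriv (fun ζ : ℂ => G (x + ζ • u) - G (x' + ζ • u)) 0 =
        fderiv ℂ G x u - fderiv ℂ G x' u := hd.deriv
    rw [h6, div_one] at h5
    exact h5
  refine ContinuousLinearMap.opNorm_le_bound _ hη fun v => ?_
  rcases eq_or_ne v 0 with hv | hv
  · rw [hv, map_zero, norm_zero, mul_zero]
  · have hv' : ‖v‖ ≠ 0 := norm_ne_zero_iff.mpr hv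
    have h1 := hunit (((‖v‖ : ℂ)⁻¹) • v) (by
      rw [norm_smul, norm_inv, Complex.norm_real, norm_norm, inv_mul_cancel₀ hv'])
    rw [map_smul, norm_smul, norm_inv, Complex.norm_real, norm_norm] at h1
    rw [inv_mul_le_iff₀ (norm_pos_iff.mpr hv)] at h1
    linarith

theorem ZUch_bound {G : E → E} (hG : Differentiable ℂ G) (B : ℝ) :
    ∃ L : ℝ, 0 ≤ L ∧ ∀ x : E, ‖x‖ ≤ B → ‖fderiv ℂ G x‖ ≤ L := by
  -- compare with the derivative at 0
  have hc : IsCompact (closedBall (0 : E) (|B| + 1)) := isCompact_closedBall _ _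
  obtain ⟨C, hC⟩ := hc.exists_bound_of_continuousOn hG.continuous.continuousOn
  refine ⟨2 * |C| + ‖fderiv ℂ G 0‖, by positivity, fun x hx => ?_⟩
  have h1 : ‖fderiv ℂ G x - fderiv ℂ G 0‖ ≤ 2 * |C| := by
    apply ZUch_diff_le hG (by positivity)
    intro v hv
    have h2 : ‖G (x + v)‖ ≤ |C| := by
      refine (hC _ ?_).trans (le_abs_self C)
      rw [mem_closedBall, dist_zero_right]
      have := norm_add_le x v
      have := le_abs_self B
      linarith
    have h3 : ‖G (0 + v)‖ ≤ |C| := by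
      refine (hC _ ?_).trans (le_abs_self C)
      rw [mem_closedBall, dist_zero_right, zero_add]
      have := abs_nonneg B
      linarith
    have := norm_sub_le (G (x + v)) (G (0 + v))
    linarith
  have h2 : fderiv ℂ G x = (fderiv ℂ G x - fderiv ℂ G 0) + fderiv ℂ G 0 := by abel
  rw [h2]
  exact (norm_add_le _ _).trans (by linarith)

theorem ZUch_unif {G : E → E} (hG : Differentiable ℂ G) (B : ℝ) {η : ℝ} (hη : 0 < η) :
    ∃ δ : ℝ, 0 < δ ∧ ∀ x x' : E, ‖x‖ ≤ B → ‖x'‖ ≤ B → ‖x - x'‖ ≤ δ →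
      ‖fderiv ℂ G x - fderiv ℂ G x'‖ ≤ η := by
  have hc : IsCompact (closedBall (0 : E) (|B| + 1)) := isCompact_closedBall _ _
  have hu := hc.uniformContinuousOn_of_continuous hG.continuous.continuousOn
  rw [Metric.uniformContinuousOn_iff] at hu
  obtain ⟨δ, hδ, hu⟩ := hu η hη
  refine ⟨δ / 2, by positivity, fun x x' hx hx' hxx => ?_⟩
  apply ZUch_diff_le hG hη.le
  intro v hv
  have hmem : ∀ y : E, ‖y‖ ≤ B → y + v ∈ closedBall (0 : E) (|B| + 1) := by
    intro y hy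
    rw [mem_closedBall, dist_zero_right]
    have := norm_add_le y v
    have := le_abs_self B
    linarith
  have h1 := hu (x + v) (hmem x hx) (x' + v) (hmem x' hx') (by
    rw [dist_eq_norm, add_sub_add_right_eq_sub]
    linarith)
  rw [dist_eq_norm] at h1
  exact h1.le

theorem ZUch_det (S : Sys) (hdet : S.Det) (n : ℕ) :
    ∀ x, ‖(fderiv ℂ (⇑(S.F ^ n)) x).det‖ ≤ 1 := by
  induction n with
  | zero =>
    intro x
    have h1 : (⇑(S.F ^ 0) : E → E) = id := by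
      funext y
      simp
    rw [h1, fderiv_id]
    simp [ContinuousLinearMap.det]
  | succ n ih =>
    intro x
    have h1 : (⇑(S.F ^ (n + 1)) : E → E) = (⇑(S.F ^ n)) ∘ ⇑S.F := by
      funext y
      rw [pow_succ]
      rfl
    rw [h1, fderiv_comp x ((diff_pow S.dF n) _) (S.dF x)]
    have h2 : ((fderiv ℂ (⇑(S.F ^ n)) (S.F x)).comp (fderiv ℂ (⇑S.F) x)).det =
        (fderiv ℂ (⇑(S.F ^ n)) (S.F x)).det * (fderiv ℂ (⇑S.F) x).det := by
      unfold ContinuousLinearMap.det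
      rw [ContinuousLinearMap.toLinearMap_comp, LinearMap.det_comp]
    rw [h2, norm_mul]
    calc ‖(fderiv ℂ (⇑(S.F ^ n)) (S.F x)).det‖ * ‖(fderiv ℂ (⇑S.F) x).det‖ ≤ 1 * 1 :=
          mul_le_mul (ih _) (hdet x) (norm_nonneg _) zero_le_one
      _ = 1 := one_mul 1

theorem ZUch_perp_cont {c₁ c₂ : ℝ} (hc : 0 < c₁) :
    ContinuousOn perp {v : E | c₁ ≤ ‖v‖ ∧ ‖v‖ ≤ c₂} := by
  have hne : ∀ v ∈ {v : E | c₁ ≤ ‖v‖ ∧ ‖v‖ ≤ c₂}, ((‖v.1‖ ^ 2 + ‖v.2‖ ^ 2 : ℝ) : ℂ) ≠ 0 := by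
    intro v hv
    have hv0 : v ≠ 0 := by
      intro h
      have := hv.1
      rw [h, norm_zero] at this
      linarith
    have hpos : 0 < ‖v.1‖ ^ 2 + ‖v.2‖ ^ 2 := by
      by_contra hcon
      have h1 : ‖v.1‖ ^ 2 = 0 := by
        have := sq_nonneg ‖v.1‖
        have := sq_nonneg ‖v.2‖
        linarith
      have h2 : ‖v.2‖ ^ 2 = 0 := by
        have := sq_nonneg ‖v.1‖
        have := sq_nonneg ‖v.2‖
        linarith
      apply hv0
      refine Prod.ext ?_ ?_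
      · exact norm_eq_zero.mp (pow_eq_zero_iff (two_ne_zero)|>.mp h1)
      · exact norm_eq_zero.mp (pow_eq_zero_iff (two_ne_zero)|>.mp h2)
    exact_mod_cast hpos.ne'
  have hden : ContinuousOn (fun v : E => ((‖v.1‖ ^ 2 + ‖v.2‖ ^ 2 : ℝ) : ℂ))
      {v : E | c₁ ≤ ‖v‖ ∧ ‖v‖ ≤ c₂} := by
    apply Continuous.continuousOn
    exact Complex.continuous_ofReal.comp
      (((continuous_norm.comp continuous_fst).pow 2).add ((continuous_norm.comp continuous_snd).pow 2))
  have h1 : ContinuousOn (fun v : E => -(starRingEnd ℂ v.2)) {v : E | c₁ ≤ ‖v‖ ∧ ‖v‖ ≤ c₂} :=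
    ((Complex.continuous_conj.comp continuous_snd).neg).continuousOn
  have h2 : ContinuousOn (fun v : E => starRingEnd ℂ v.1) {v : E | c₁ ≤ ‖v‖ ∧ ‖v‖ ≤ c₂} :=
    (Complex.continuous_conj.comp continuous_fst).continuousOn
  exact (h1.div hden hne).prodMk (h2.div hden hne)

/-- the estimate for the unperturbed chart -/
theorem ZUch_base {Q Lb C : ℝ} (hQ : 0 < Q) (hLb : 0 ≤ Lb) (hC : 0 ≤ C) {L : E →L[ℂ] E}
    {v v' : E} (hv : v ≠ 0) (hv' : v' ≠ 0) {l : ℂ} (hl : l ≠ 0) (hL : L v = l • v')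
    (hLn : ‖L‖ ≤ Lb) (hp : ‖perp v‖ ≤ C) (hp' : ‖perp v'‖ ≤ C) :
    ‖(chartInv Q v').comp (L.comp (chart Q v)) - dg l (L.det / l)‖ ≤ Q⁻¹ * (2 * Lb * C * C) := by
  refine ContinuousLinearMap.opNorm_le_bound _ (by positivity) fun z => ?_
  have h1 := chart_diag hQ.ne' hv hv' hl hL z
  have h2 : ((chartInv Q v').comp (L.comp (chart Q v)) - dg l (L.det / l)) z =
      ((Q : ℂ)⁻¹ * ((L (perp v)).1 * (perp v').2 - (L (perp v)).2 * (perp v').1) * z.2, 0) := by
    rw [sub_apply, ContinuousLinearMap.comp_apply,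
      ContinuousLinearMap.comp_apply, h1, dg_apply]
    refine Prod.ext ?_ ?_
    · simp
    · simp
  rw [h2]
  have hLp : ‖L (perp v)‖ ≤ Lb * C := (L.le_opNorm _).trans (mul_le_mul hLn hp (norm_nonneg _) hLb)
  have a1 : ‖(L (perp v)).1‖ ≤ Lb * C := (norm_fst_le _).trans hLp
  have a2 : ‖(L (perp v)).2‖ ≤ Lb * C := (norm_snd_le _).trans hLp
  have a3 : ‖(perp v').1‖ ≤ C := (norm_fst_le _).trans hp'
  have a4 : ‖(perp v').2‖ ≤ C := (norm_snd_le _).trans hp'
  have a5 : ‖(L (perp v)).1 * (perp v').2 - (L (perp v)).2 * (perp v').1‖ ≤ 2 * Lb * C * C := by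
    refine (norm_sub_le _ _).trans ?_
    rw [norm_mul, norm_mul]
    have b1 := mul_le_mul a1 a4 (norm_nonneg _) (by positivity)
    have b2 := mul_le_mul a2 a3 (norm_nonneg _) (by positivity)
    linarith
  have h3 : ‖(((Q : ℂ)⁻¹ * ((L (perp v)).1 * (perp v').2 - (L (perp v)).2 * (perp v').1) * z.2,
      (0 : ℂ)) : E)‖ =
      ‖(Q : ℂ)⁻¹ * ((L (perp v)).1 * (perp v').2 - (L (perp v)).2 * (perp v').1) * z.2‖ := by
    rw [Prod.norm_mk, norm_zero, max_eq_left (norm_nonneg _)]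
  rw [h3, norm_mul, norm_mul, norm_inv, Complex.norm_real, Real.norm_of_nonneg hQ.le]
  have h4 : ‖z.2‖ ≤ ‖z‖ := norm_snd_le z
  exact mul_le_mul (mul_le_mul_of_nonneg_left a5 (by positivity)) h4 (norm_nonneg _) (by positivity)

theorem unifChart (S : Sys) (hdet : S.Det) {q : ℕ} {c₁ c₂ δ : ℝ} (hc : 0 < c₁) (hδ : 0 < δ) :
    ∃ Q ε θ : ℝ, 1 ≤ Q ∧ 0 < ε ∧ 0 < θ ∧
      (∀ v z : E, c₁ ≤ ‖v‖ → ‖v‖ ≤ c₂ → ‖z‖ ≤ ε → ‖chart Q v z‖ ≤ δ) ∧
      ∀ (x x' v v' v'' : E) (n : ℕ) (l : ℂ), S.P x = 0 → S.M x = 0 → 1 ≤ n → n ≤ q →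
        c₁ ≤ ‖v‖ → ‖v‖ ≤ c₂ → c₁ ≤ ‖v'‖ → ‖v'‖ ≤ c₂ → c₁ ≤ ‖v''‖ → ‖v''‖ ≤ c₂ →
        2 ≤ ‖l‖ → fderiv ℂ (⇑(S.F ^ n)) x v = l • v' → ‖v'' - v'‖ ≤ θ →
        ‖x' - (S.F ^ n) x‖ ≤ θ →
        ∃ μ : ℂ, ‖μ‖ ≤ 1 / 2 ∧
          (∀ z, ‖z‖ ≤ ε → ‖(chartInv Q v'').comp
            ((fderiv ℂ (⇑(S.F ^ n)) (x + chart Q v z)).comp (chart Q v)) - dg l μ‖ ≤ 1 / 8) ∧
          ‖chartInv Q v'' ((S.F ^ n) x - x')‖ ≤ ε / 8 := by
  obtain ⟨RK, hRK⟩ := S.K_bdd
  set V : Set E := {v : E | c₁ ≤ ‖v‖ ∧ ‖v‖ ≤ c₂} with hV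
  have hVc : IsCompact V := by
    apply Metric.isCompact_of_isClosed_isBounded
    · exact (isClosed_le continuous_const continuous_norm).inter
        (isClosed_le continuous_norm continuous_const)
    · refine (isBounded_iff_forall_norm_le).mpr ⟨c₂, fun v hv => hv.2⟩
  have hVne : ∀ v ∈ V, v ≠ 0 := by
    intro v hv h
    have := hv.1
    rw [h, norm_zero] at this
    linarith
  -- bounds
  have hLb : ∀ n : ℕ, ∃ L : ℝ, 0 ≤ L ∧ ∀ x : E, ‖x‖ ≤ RK + 1 → ‖fderiv ℂ (⇑(S.F ^ n)) x‖ ≤ L :=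
    fun n => ZUch_bound (diff_pow S.dF n) (RK + 1)
  choose Lf hLf0 hLf using hLb
  set Lb : ℝ := ∑ n ∈ Finset.range (q + 1), Lf n with hLbdef
  have hLb0 : 0 ≤ Lb := Finset.sum_nonneg fun n _ => hLf0 n
  have hLbn : ∀ n ≤ q, Lf n ≤ Lb := by
    intro n hn
    exact Finset.single_le_sum (fun n _ => hLf0 n) (Finset.mem_range.mpr (by omega))
  obtain ⟨C₀, hC₀⟩ := perp_bound (c₁ := c₁) (c₂ := c₂) hc
  set C : ℝ := |C₀| with hCdef
  have hC : ∀ v ∈ V, ‖perp v‖ ≤ C := fun v hv => (hC₀ v hv.1 hv.2).trans (le_abs_self _)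
  have hCn : 0 ≤ C := abs_nonneg _
  -- the parameter Q
  set Q : ℝ := 1 + 64 * Lb * C * C with hQdef
  have hQ1 : 1 ≤ Q := by
    have : 0 ≤ 64 * Lb * C * C := by positivity
    linarith
  have hQpos : 0 < Q := by linarith
  have hQ32 : Q⁻¹ * (2 * Lb * C * C) ≤ 1 / 32 := by
    rw [inv_mul_le_iff₀ hQpos, hQdef]
    have : 0 ≤ Lb * C * C := by positivity
    linarith
  -- continuity of the charts
  have hpc := ZUch_perp_cont (c₂ := c₂) hc
  have hp1 : ContinuousOn (fun v : E => (perp v).1) V := continuous_fst.comp_continuousOn hpc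
  have hp2 : ContinuousOn (fun v : E => (perp v).2) V := continuous_snd.comp_continuousOn hpc
  have hIc : ContinuousOn (fun v : E => chartInv Q v) V := by
    unfold chartInv
    have e1 : ContinuousOn (fun v : E => (perp v).2 • ContinuousLinearMap.fst ℂ ℂ ℂ -
        (perp v).1 • ContinuousLinearMap.snd ℂ ℂ ℂ) V :=
      (hp2.smul continuousOn_const).sub (hp1.smul continuousOn_const)
    have e2 : ContinuousOn (fun v : E => (Q : ℂ) • (v.1 • ContinuousLinearMap.snd ℂ ℂ ℂ -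
        v.2 • ContinuousLinearMap.fst ℂ ℂ ℂ)) V := by
      apply Continuous.continuousOn
      exact ((continuous_fst.smul continuous_const).sub
        (continuous_snd.smul continuous_const)).const_smul (Q : ℂ)
    have e3 : Continuous (fun p : (E →L[ℂ] ℂ) × (E →L[ℂ] ℂ) => p.1.prod p.2) :=
      (ContinuousLinearMap.prodₗᵢ (𝕜 := ℂ) (E := E) (F := ℂ) (G := ℂ) ℂ).continuous
    exact e3.comp_continuousOn (e1.prodMk e2)
  have hKc : ContinuousOn (fun v : E => chart Q v) V := by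
    unfold chart
    have e0 : Continuous (fun w : E => (ContinuousLinearMap.fst ℂ ℂ ℂ).smulRight w) := by
      exact ((ContinuousLinearMap.smulRightL ℂ E E) (ContinuousLinearMap.fst ℂ ℂ ℂ)).continuous
    have e1 : Continuous (fun w : E => (ContinuousLinearMap.snd ℂ ℂ ℂ).smulRight w) := by
      exact ((ContinuousLinearMap.smulRightL ℂ E E) (ContinuousLinearMap.snd ℂ ℂ ℂ)).continuous
    exact e0.continuousOn.add (e1.comp_continuousOn (hpc.const_smul ((Q : ℂ)⁻¹)))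
  obtain ⟨CI₀, hCI₀⟩ := hVc.exists_bound_of_continuousOn hIc
  obtain ⟨Ch₀, hCh₀⟩ := hVc.exists_bound_of_continuousOn hKc
  set CI : ℝ := |CI₀| + 1 with hCIdef
  set Ch : ℝ := |Ch₀| + 1 with hChdef
  have hCIpos : 0 < CI := by positivity
  have hChpos : 0 < Ch := by positivity
  have hCI : ∀ v ∈ V, ‖chartInv Q v‖ ≤ CI := fun v hv => by
    have := hCI₀ v hv
    have := le_abs_self CI₀
    linarith
  have hCh : ∀ v ∈ V, ‖chart Q v‖ ≤ Ch := fun v hv => by
    have := hCh₀ v hv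
    have := le_abs_self Ch₀
    linarith
  -- theta1
  have hUI := hVc.uniformContinuousOn_of_continuous hIc
  rw [Metric.uniformContinuousOn_iff] at hUI
  obtain ⟨θ₁, hθ₁, hUI⟩ := hUI (1 / (32 * (Lb + 1) * Ch)) (by positivity)
  -- eps
  have hun : ∀ n : ℕ, ∃ d : ℝ, 0 < d ∧ ∀ x x' : E, ‖x‖ ≤ RK + 1 → ‖x'‖ ≤ RK + 1 → ‖x - x'‖ ≤ d →
      ‖fderiv ℂ (⇑(S.F ^ n)) x - fderiv ℂ (⇑(S.F ^ n)) x'‖ ≤ 1 / (32 * CI * Ch) :=
    fun n => ZUch_unif (diff_pow S.dF n) (RK + 1) (by positivity)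
  choose df hdf0 hdf using hun
  obtain ⟨d₀, hd₀, hd₀n⟩ : ∃ d₀ : ℝ, 0 < d₀ ∧ ∀ n ≤ q, d₀ ≤ df n := by
    have hne : (Finset.range (q + 1)).Nonempty := ⟨0, Finset.mem_range.mpr (by omega)⟩
    refine ⟨(Finset.range (q + 1)).inf' hne df, ?_, ?_⟩
    · rw [Finset.lt_inf'_iff]
      exact fun n _ => hdf0 n
    · intro n hn
      exact Finset.inf'_le _ (Finset.mem_range.mpr (by omega))
  set m : ℝ := min 1 (min d₀ δ) with hm
  have hmpos : 0 < m := by
    rw [hm]
    exact lt_min one_pos (lt_min hd₀ hδ)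
  set ε : ℝ := m / Ch with hεdef
  have hεpos : 0 < ε := by positivity
  have hchart : ∀ v z : E, v ∈ V → ‖z‖ ≤ ε → ‖chart Q v z‖ ≤ m := by
    intro v z hv hz
    calc ‖chart Q v z‖ ≤ ‖chart Q v‖ * ‖z‖ := (chart Q v).le_opNorm z
      _ ≤ Ch * ε := mul_le_mul (hCh v hv) hz (norm_nonneg _) hChpos.le
      _ = m := by
        rw [hεdef]
        field_simp
  set θ : ℝ := min (θ₁ / 2) (ε / (8 * CI)) with hθdef
  have hθpos : 0 < θ := by
    rw [hθdef]
    exact lt_min (by positivity) (by positivity)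
  refine ⟨Q, ε, θ, hQ1, hεpos, hθpos, ?_, ?_⟩
  · intro v z h1 h2 hz
    exact (hchart v z ⟨h1, h2⟩ hz).trans ((min_le_right _ _).trans (min_le_right _ _))
  · intro x x' v v' v'' n l hPx hMx hn1 hnq hv1 hv2 hv1' hv2' hv1'' hv2'' hl hL hvv hxx
    have hv : v ∈ V := ⟨hv1, hv2⟩
    have hv' : v' ∈ V := ⟨hv1', hv2'⟩
    have hv'' : v'' ∈ V := ⟨hv1'', hv2''⟩
    have hl0 : l ≠ 0 := by
      intro h
      rw [h, norm_zero] at hl
      linarith
    set L := fderiv ℂ (⇑(S.F ^ n)) x with hLdef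
    have hxK : ‖x‖ ≤ RK := hRK x hPx hMx
    have hLn : ‖L‖ ≤ Lb := (hLf n x (by linarith)).trans (hLbn n hnq)
    refine ⟨L.det / l, ?_, ?_, ?_⟩
    · rw [norm_div, div_le_iff₀ (by linarith)]
      have := ZUch_det S hdet n x
      linarith
    · intro z hz
      have hmz := hchart v z hv hz
      have hm1 : m ≤ 1 := min_le_left _ _
      have hmd : m ≤ d₀ := (min_le_right _ _).trans (min_le_left _ _)
      have hD : ‖fderiv ℂ (⇑(S.F ^ n)) (x + chart Q v z) - L‖ ≤ 1 / (32 * CI * Ch) := by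
        apply hdf n
        · exact (norm_add_le _ _).trans (by linarith)
        · linarith
        · rw [add_sub_cancel_left]
          exact hmz.trans (hmd.trans (hd₀n n hnq))
      have hsplit : (chartInv Q v'').comp
            ((fderiv ℂ (⇑(S.F ^ n)) (x + chart Q v z)).comp (chart Q v)) - dg l (L.det / l) =
          (chartInv Q v'').comp ((fderiv ℂ (⇑(S.F ^ n)) (x + chart Q v z) - L).comp (chart Q v)) +
          (chartInv Q v'' - chartInv Q v').comp (L.comp (chart Q v)) +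
          ((chartInv Q v').comp (L.comp (chart Q v)) - dg l (L.det / l)) := by
        ext <;> simp
      rw [hsplit]
      have t1 : ‖(chartInv Q v'').comp
          ((fderiv ℂ (⇑(S.F ^ n)) (x + chart Q v z) - L).comp (chart Q v))‖ ≤ 1 / 32 := by
        refine (ContinuousLinearMap.opNorm_comp_le _ _).trans ?_
        have s1 : ‖(fderiv ℂ (⇑(S.F ^ n)) (x + chart Q v z) - L).comp (chart Q v)‖ ≤
            1 / (32 * CI * Ch) * Ch :=
          (ContinuousLinearMap.opNorm_comp_le _ _).trans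
            (mul_le_mul hD (hCh v hv) (norm_nonneg _) (by positivity))
        refine (mul_le_mul (hCI v'' hv'') s1 (norm_nonneg _) hCIpos.le).trans (le_of_eq ?_)
        field_simp
      have t2 : ‖(chartInv Q v'' - chartInv Q v').comp (L.comp (chart Q v))‖ ≤ 1 / 32 := by
        refine (ContinuousLinearMap.opNorm_comp_le _ _).trans ?_
        have s1 : ‖L.comp (chart Q v)‖ ≤ (Lb + 1) * Ch :=
          (ContinuousLinearMap.opNorm_comp_le _ _).trans
            (mul_le_mul (by linarith) (hCh v hv) (norm_nonneg _) (by positivity))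
        have s2 : ‖chartInv Q v'' - chartInv Q v'‖ ≤ 1 / (32 * (Lb + 1) * Ch) := by
          have := hUI v'' hv'' v' hv' (by
            rw [dist_eq_norm]
            have h1 : θ ≤ θ₁ / 2 := min_le_left _ _
            linarith)
          rw [dist_eq_norm] at this
          exact this.le
        refine (mul_le_mul s2 s1 (norm_nonneg _) (by positivity)).trans (le_of_eq ?_)
        field_simp
      have t3 := (ZUch_base hQpos hLb0 hCn (hVne v hv) (hVne v' hv') hl0 hL hLn (hC v hv)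
        (hC v' hv')).trans hQ32
      have := norm_add₃_le (a := (chartInv Q v'').comp
          ((fderiv ℂ (⇑(S.F ^ n)) (x + chart Q v z) - L).comp (chart Q v)))
        (b := (chartInv Q v'' - chartInv Q v').comp (L.comp (chart Q v)))
        (c := ((chartInv Q v').comp (L.comp (chart Q v)) - dg l (L.det / l)))
      linarith
    · have h1 : ‖(S.F ^ n) x - x'‖ ≤ ε / (8 * CI) := by
        rw [norm_sub_rev]
        exact hxx.trans (min_le_right _ _)
      calc ‖chartInv Q v'' ((S.F ^ n) x - x')‖ ≤ ‖chartInv Q v''‖ * ‖(S.F ^ n) x - x'‖ :=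
            (chartInv Q v'').le_opNorm _
        _ ≤ CI * (ε / (8 * CI)) := mul_le_mul (hCI v'' hv'') h1 (norm_nonneg _) hCIpos.le
        _ = ε / 8 := by field_simp

end Pool.Agent.HQ
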