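import Pool.Agent.HQD.Defs
import Pool.Agent.HQD.DefsP
import Pool.Agent.HQD.ZUch
import Pool.Agent.HQD.ZLead
import Pool.Agent.HQD.PChn
import Pool.Agent.HQ.UBas

/-!
# HQD module PStp: the hyperbolic estimates in the charts
-/

set_option autoImplicit false

open Filter Topology Set Metric

namespace Pool.Agent.HQ

/-- the leading coefficients of a curve and of its image -/
theorem PStp_lead {G : E → E} (hG : Differentiable ℂ G) {ξ η : ℂ → E}
    (hξ : Differentiable ℂ ξ) (hη : Differentiable ℂ η) {m : ℕ} (hm : 0 < m)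
    (oξ : ordGe m ξ) (oη : ordGe m η) {a : ℂ} (h : ∀ z, G (ξ z) = η (a * z)) :
    fderiv ℂ G (ξ 0) (iteratedDeriv m ξ 0) = a ^ m • iteratedDeriv m η 0 := by
  have h1 := (lead_map hG hξ 1 hm oξ).2
  have h2 := (lead_map (G := fun x : E => x) differentiable_id hη a hm oη).2
  have h3 : (fun z : ℂ => G (ξ (1 * z))) = fun z : ℂ => (fun x : E => x) (η (a * z)) := by
    funext z
    rw [one_mul]
    exact h z
  rw [h3, h2, one_pow, one_smul] at h1
  rw [← h1]
  have h4 : fderiv ℂ (fun x : E => x) (η 0) = ContinuousLinearMap.id ℂ E := fderiv_fun_id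
  rw [h4]
  rfl

/-- the mean value inequality in the charts -/
theorem PStp_mv {G : E → E} (hG : Differentiable ℂ G) {x : E} {q ε : ℝ} {v v' : E}
    {A : E →L[ℂ] E}
    (h : ∀ z : E, ‖z‖ ≤ ε → ‖(chartInv q v').comp
      ((fderiv ℂ G (x + chart q v z)).comp (chart q v)) - A‖ ≤ 1 / 8)
    {z z' : E} (hz : ‖z‖ ≤ ε) (hz' : ‖z'‖ ≤ ε) :
    ‖chartInv q v' (G (x + chart q v z)) - chartInv q v' (G (x + chart q v z')) -
      A (z - z')‖ ≤ ‖z - z'‖ / 8 := by
  have hf : ∀ y ∈ closedBall (0 : E) ε, HasFDerivWithinAt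
      (fun z : E => chartInv q v' (G (x + chart q v z)))
      ((chartInv q v').comp ((fderiv ℂ G (x + chart q v y)).comp (chart q v)))
      (closedBall (0 : E) ε) y := by
    intro y _
    apply HasFDerivAt.hasFDerivWithinAt
    have h1 : HasFDerivAt (fun z : E => x + chart q v z) (chart q v) y :=
      (chart q v).hasFDerivAt.const_add x
    have h2 : HasFDerivAt G (fderiv ℂ G (x + chart q v y)) (x + chart q v y) :=
      (hG _).hasFDerivAt
    have h3 : HasFDerivAt (fun z : E => G (x + chart q v z))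
        ((fderiv ℂ G (x + chart q v y)).comp (chart q v)) y :=
      HasFDerivAt.comp (g := G) (f := fun z : E => x + chart q v z) y h2 h1
    exact HasFDerivAt.comp (g := fun w : E => chartInv q v' w)
      (f := fun z : E => G (x + chart q v z)) y (chartInv q v').hasFDerivAt h3
  have hb : ∀ y ∈ closedBall (0 : E) ε, ‖(chartInv q v').comp
      ((fderiv ℂ G (x + chart q v y)).comp (chart q v)) - A‖ ≤ 1 / 8 := by
    intro y hy
    rw [mem_closedBall, dist_zero_right] at hy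
    exact h y hy
  have hmem : ∀ y : E, ‖y‖ ≤ ε → y ∈ closedBall (0 : E) ε := by
    intro y hy
    rw [mem_closedBall, dist_zero_right]
    exact hy
  have := Convex.norm_image_sub_le_of_norm_hasFDerivWithin_le' hf hb (convex_closedBall _ _)
    (hmem z' hz') (hmem z hz)
  rw [div_eq_inv_mul]
  rw [one_div] at this
  exact this

theorem step_est (Q : QS) (hdet : Q.Det) {Z : Set E} (hZs : Z ⊆ closure (Sad Q.F)) {m : ℕ}
    {c₁ c₂ κ Λ : ℝ} {W : Set (ℂ → E)} (hW : WF Q Z m c₁ c₂ κ Λ W) :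
    ∃ (N : ℕ) (q ε : ℝ), 1 ≤ N ∧ 1 ≤ q ∧ 0 < ε ∧ Est Q W κ q ε m N := by
  obtain ⟨N₀, hN₀⟩ := pow_unbounded_of_one_lt 2 hW.k1
  set N : ℕ := N₀ + 1 with hN
  have hN2 : (2 : ℝ) ≤ κ ^ N := by
    have h1 : κ ^ N₀ ≤ κ ^ N := pow_le_pow_right₀ hW.k1.le (Nat.le_succ _)
    linarith
  obtain ⟨q, ε, θ, hq, hε, hθ, -, hmain⟩ := unifChart Q.toSys hdet (q := N) (c₁ := c₁)
    (c₂ := c₂) (δ := 1) hW.c0 one_pos
  refine ⟨N, q, ε, Nat.le_add_left 1 N₀, hq, hε, ?_⟩
  intro ξ hξ η hη a ha hstep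
  have dξ := U_diff Q (hW.sub hξ)
  have dη := U_diff Q (hW.sub hη)
  have hG : Differentiable ℂ (⇑(Q.F ^ N)) := diff_pow Q.dF N
  have hlead := PStp_lead hG dξ dη hW.m0 (hW.ord ξ hξ) (hW.ord η hη) hstep
  have hcl : ξ 0 ∈ closure (Sad Q.F) := hZs (hW.cen ξ hξ)
  have h0 : (Q.F ^ N) (ξ 0) = η 0 := by
    rw [hstep 0, mul_zero]
  have hl2 : 2 ≤ ‖a ^ m‖ := by
    rw [norm_pow]
    have h1 : (1 : ℝ) ≤ ‖a‖ := by linarith
    have h2 : ‖a‖ ≤ ‖a‖ ^ m := le_self_pow₀ h1 hW.m0.ne'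
    linarith
  obtain ⟨μ, hμ, hest, -⟩ := hmain (ξ 0) (η 0) (iteratedDeriv m ξ 0) (iteratedDeriv m η 0)
    (iteratedDeriv m η 0) N (a ^ m) (Q.toSys.clSad_P hcl) (Q.toSys.clSad_M hcl)
    (Nat.le_add_left 1 N₀) le_rfl (hW.lo ξ hξ) (hW.hi ξ hξ) (hW.lo η hη) (hW.hi η hη)
    (hW.lo η hη) (hW.hi η hη) hl2 hlead (by rw [sub_self, norm_zero]; exact hθ.le)
    (by rw [h0, sub_self, norm_zero]; exact hθ.le)
  have hq0 : q ≠ 0 := by linarith
  have hv0 : iteratedDeriv m ξ 0 ≠ 0 := by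
    intro h
    have h1 := hW.lo ξ hξ
    rw [h, norm_zero] at h1
    exact absurd hW.c0 (not_lt.mpr h1)
  refine ⟨a ^ m, μ, hl2, hμ, ?_, ?_⟩
  · intro Y Y' hY hY'
    have h1 := PStp_mv hG hest hY hY'
    have h2 : ∀ Y : E, ξ 0 + chart q (iteratedDeriv m ξ 0) (cc q m ξ Y) = Y := by
      intro Y
      unfold cc
      rw [chart_right hq0 hv0]
      abel
    rw [h2, h2] at h1
    have h3 : cc q m η ((Q.F ^ N) Y) - cc q m η ((Q.F ^ N) Y') =
        chartInv q (iteratedDeriv m η 0) ((Q.F ^ N) Y) -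
          chartInv q (iteratedDeriv m η 0) ((Q.F ^ N) Y') := by
      unfold cc
      rw [map_sub, map_sub]
      abel
    rw [h3]
    exact h1
  · intro w
    have h1 := hest 0 (by rw [norm_zero]; exact hε.le)
    rw [map_zero, add_zero] at h1
    have h2 := ContinuousLinearMap.le_of_opNorm_le _ h1
      (chartInv q (iteratedDeriv m ξ 0) w)
    rw [sub_apply, ContinuousLinearMap.comp_apply, ContinuousLinearMap.comp_apply,
      chart_right hq0 hv0] at h2
    rw [div_eq_inv_mul]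
    rw [one_div] at h2
    exact h2

end Pool.Agent.HQ
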