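import Pool.Agent.HQD.Defs
import Pool.Agent.HQD.DefsP
import Pool.Agent.HQ.GrF
import Pool.Agent.HQD.ZLead

/-!
# HQD module PWf: the family of curves over a minimal set
-/

set_option autoImplicit false

open Filter Topology Set Metric

namespace Pool.Agent.HQ

/-- curves of `U` centred on `Z` of order at least `m` -/
def PWf_A (Q : QS) (Z : Set E) (m : ℕ) : Set (ℂ → E) :=
  {ξ | ξ ∈ Q.U ∧ ξ 0 ∈ Z ∧ ordGe m ξ}

theorem PWf_mono {h : ℂ → E} {m n : ℕ} (hmn : m ≤ n) (ho : ordGe n h) : ordGe m h :=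
  fun i hi him => ho i hi (lt_of_lt_of_le him hmn)

/-- the classes are closed for locally uniform limits -/
theorem PWf_cl (Q : QS) {Z : Set E} (hZc : IsClosed Z) {m : ℕ} {ξ : ℕ → ℂ → E} {η : ℂ → E}
    (h : ∀ n, ξ n ∈ PWf_A Q Z m) (hl : TendstoLocallyUniformly ξ η atTop) :
    η ∈ PWf_A Q Z m := by
  refine ⟨U_lim Q (fun n => (h n).1) hl, ?_, ?_⟩
  · exact hZc.mem_of_tendsto (UBas_pt hl 0) (Eventually.of_forall fun n => (h n).2.1)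
  · exact ordGe_lim (fun n => U_diff Q (h n).1) hl fun n => (h n).2.2

theorem PWf_fwd (Q : QS) {Z : Set E} (hZi : ∀ x, Q.F x ∈ Z ↔ x ∈ Z) {κ Λ : ℝ} (hκ : 1 < κ)
    (hb : ∀ p ∈ Sad Q.F, ∀ l : ℂ,
      (∀ z, Q.F (Q.Xu p z) = Q.Xu (Q.F p) (l * z)) → κ ≤ ‖l‖ ∧ ‖l‖ ≤ Λ) {m : ℕ} (hm : 0 < m)
    {ξ : ℂ → E} (hξ : ξ ∈ PWf_A Q Z m) : ∃ η ∈ PWf_A Q Z m, ∃ a : ℂ, κ ≤ ‖a‖ ∧ ‖a‖ ≤ Λ ∧
      ∀ z, Q.F (ξ z) = η (a * z) := by
  obtain ⟨η, hη, c, h1, h2, h3⟩ := Gro_fwd Q hb hξ.1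
  have hc : c ≠ 0 := by
    rintro rfl
    rw [norm_zero] at h1
    linarith
  refine ⟨η, ⟨hη, ?_, ?_⟩, c, h1, h2, h3⟩
  · have h4 := h3 0
    rw [mul_zero] at h4
    rw [← h4, hZi]
    exact hξ.2.1
  · have h5 := (lead_map Q.dF (U_diff Q hξ.1) c⁻¹ hm hξ.2.2).1
    have h6 : (fun z => Q.F (ξ (c⁻¹ * z))) = η := by
      funext z
      rw [h3, mul_inv_cancel_left₀ hc]
    rw [h6] at h5
    exact h5

theorem PWf_bwd (Q : QS) {Z : Set E} (hZi : ∀ x, Q.F x ∈ Z ↔ x ∈ Z) {κ Λ : ℝ}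
    (hb : ∀ p ∈ Sad Q.F, ∀ l : ℂ,
      (∀ z, Q.F (Q.Xu p z) = Q.Xu (Q.F p) (l * z)) → κ ≤ ‖l‖ ∧ ‖l‖ ≤ Λ) {m : ℕ} (hm : 0 < m)
    {ξ : ℂ → E} (hξ : ξ ∈ PWf_A Q Z m) : ∃ η ∈ PWf_A Q Z m, ∃ a : ℂ, κ ≤ ‖a‖ ∧ ‖a‖ ≤ Λ ∧
      ∀ z, Q.F (η z) = ξ (a * z) := by
  obtain ⟨η, hη, c, h1, h2, h3⟩ := Gro_bwd Q hb hξ.1
  refine ⟨η, ⟨hη, ?_, ?_⟩, c, h1, h2, h3⟩
  · have h4 := h3 0
    rw [mul_zero] at h4
    rw [← hZi, h4]
    exact hξ.2.1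
  · have h5 := (lead_map Q.dG (U_diff Q hξ.1) c hm hξ.2.2).1
    have h6 : (fun z => Q.F⁻¹ (ξ (c * z))) = η := by
      funext z
      rw [← h3]
      exact Q.F.symm_apply_apply (η z)
    rw [h6] at h5
    exact h5

/-- some class is empty -/
theorem PWf_empty (Q : QS) (Z : Set E) : ∃ m, PWf_A Q Z m = ∅ := by
  by_contra hcon
  push Not at hcon
  choose ξ hξ using hcon
  obtain ⟨φ, hφ, η, hη, hlim⟩ := U_seq Q fun n => (hξ n).1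
  have h1 : ∀ m, ordGe m η := by
    intro m
    have h2 : TendstoLocallyUniformly (fun n => ξ (φ (n + m))) η atTop :=
      Gro_sub hlim (tendsto_add_atTop_nat m)
    refine ordGe_lim (fun n => U_diff Q (hξ (φ (n + m))).1) h2 fun n => ?_
    refine PWf_mono ?_ (hξ (φ (n + m))).2.2
    exact (Nat.le_add_left m n).trans (hφ.id_le _)
  obtain ⟨z, w, hzw⟩ := U_ne Q hη
  exact hzw ((ordGe_all (U_diff Q hη) h1 z).trans (ordGe_all (U_diff Q hη) h1 w).symm)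

theorem PWf_lo (Q : QS) {Z : Set E} (hZc : IsClosed Z) {m : ℕ}
    (he : PWf_A Q Z (m + 1) = ∅) :
    ∃ c₁ : ℝ, 0 < c₁ ∧ ∀ ξ ∈ PWf_A Q Z m, c₁ ≤ ‖iteratedDeriv m ξ 0‖ := by
  by_contra hcon
  push Not at hcon
  have h0 : ∀ n : ℕ, (0 : ℝ) < 1 / ((n : ℝ) + 1) := fun n => by positivity
  choose ξ hξ hsm using fun n : ℕ => hcon (1 / ((n : ℝ) + 1)) (h0 n)
  obtain ⟨φ, hφ, η, hη, hlim⟩ := U_seq Q fun n => (hξ n).1
  have h1 : η ∈ PWf_A Q Z m := PWf_cl Q hZc (fun n => hξ (φ n)) hlim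
  have h2 := FixA_lim m _ η (fun n => U_diff Q (hξ (φ n)).1) hlim
  have h3 : Tendsto (fun n : ℕ => 1 / (((φ n : ℕ) : ℝ) + 1)) atTop (𝓝 0) :=
    tendsto_one_div_add_atTop_nhds_zero_nat.comp hφ.tendsto_atTop
  have h4 : iteratedDeriv m η 0 = 0 := by
    refine tendsto_nhds_unique h2 ?_
    exact squeeze_zero_norm (fun n => (hsm (φ n)).le) h3
  have h5 : η ∈ PWf_A Q Z (m + 1) := by
    refine ⟨h1.1, h1.2.1, fun i hi him => ?_⟩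
    rcases Nat.lt_or_ge i m with h | h
    · exact h1.2.2 i hi h
    · have : i = m := by omega
      rw [this]
      exact h4
  rw [he] at h5
  exact h5

theorem PWf_hi (Q : QS) (Z : Set E) (m : ℕ) :
    ∃ c₂ : ℝ, ∀ ξ ∈ PWf_A Q Z m, ‖iteratedDeriv m ξ 0‖ ≤ c₂ := by
  by_contra hcon
  push Not at hcon
  choose ξ hξ hbig using fun n : ℕ => hcon (n : ℝ)
  obtain ⟨φ, hφ, η, hη, hlim⟩ := U_seq Q fun n => (hξ n).1
  have h2 := (FixA_lim m _ η (fun n => U_diff Q (hξ (φ n)).1) hlim).norm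
  have h3 : Tendsto (fun n => ((φ n : ℕ) : ℝ)) atTop atTop :=
    tendsto_natCast_atTop_atTop.comp hφ.tendsto_atTop
  have h4 := tendsto_atTop_mono (fun n => (hbig (φ n)).le) h3
  exact not_tendsto_nhds_of_tendsto_atTop h4 _ h2

theorem exists_WF (Q : QS) {Z : Set E} (hZc : IsClosed Z) (hZs : Z ⊆ closure (Sad Q.F))
    (hZi : ∀ x, Q.F x ∈ Z ↔ x ∈ Z) (hZm : ∀ Y ⊆ Z, IsClosed Y → Y.Nonempty →
      (∀ x, Q.F x ∈ Y ↔ x ∈ Y) → Y = Z) (hne : Z.Nonempty) :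
    ∃ (m : ℕ) (c₁ c₂ κ Λ : ℝ) (W : Set (ℂ → E)), WF Q Z m c₁ c₂ κ Λ W := by
  classical
  obtain ⟨κ, Λ, hκ, hκΛ, hb⟩ := mult_bound Q
  have hA1 : (PWf_A Q Z 1).Nonempty := by
    obtain ⟨x, hx⟩ := hne
    obtain ⟨_, _, ξ, hξ, h0, _⟩ := U_center Q (hZs hx)
    refine ⟨ξ, hξ, ?_, fun i hi h1 => absurd hi (by omega)⟩
    rw [h0]
    exact hx
  have hM := Nat.find_spec (PWf_empty Q Z)
  set M := Nat.find (PWf_empty Q Z) with hMdef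
  have hM2 : 2 ≤ M := by
    by_contra hlt
    obtain ⟨ξ, hξ⟩ := hA1
    have : ξ ∈ PWf_A Q Z M := ⟨hξ.1, hξ.2.1, PWf_mono (by omega) hξ.2.2⟩
    rw [hM] at this
    exact this
  obtain ⟨m, hm⟩ : ∃ m, M = m + 1 := ⟨M - 1, by omega⟩
  have hm0 : 0 < m := by omega
  have hWne : (PWf_A Q Z m).Nonempty := by
    rw [nonempty_iff_ne_empty]
    exact Nat.find_min (PWf_empty Q Z) (m := m) (by omega)
  rw [hm] at hM
  obtain ⟨c₁, hc₁, hlo⟩ := PWf_lo Q hZc hM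
  obtain ⟨c₂, hhi⟩ := PWf_hi Q Z m
  have hex : {x : E | ∃ ξ ∈ PWf_A Q Z m, ξ 0 = x} = Z := by
    refine hZm _ ?_ ?_ ?_ ?_
    · rintro x ⟨ξ, hξ, rfl⟩
      exact hξ.2.1
    · refine IsSeqClosed.isClosed ?_
      intro x y hx hy
      choose ξ hξ h0 using hx
      obtain ⟨φ, hφ, η, hη, hlim⟩ := U_seq Q fun n => (hξ n).1
      refine ⟨η, PWf_cl Q hZc (fun n => hξ (φ n)) hlim, ?_⟩
      refine tendsto_nhds_unique (UBas_pt hlim 0) ?_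
      have h2 : (fun n => ξ (φ n) 0) = x ∘ φ := by
        funext n
        exact h0 (φ n)
      rw [h2]
      exact hy.comp hφ.tendsto_atTop
    · obtain ⟨ξ, hξ⟩ := hWne
      exact ⟨ξ 0, ξ, hξ, rfl⟩
    · intro x
      constructor
      · rintro ⟨ξ, hξ, h0⟩
        obtain ⟨η, hη, a, -, -, h3⟩ := PWf_bwd Q hZi hb hm0 hξ
        refine ⟨η, hη, Q.F.injective ?_⟩
        rw [h3, mul_zero, h0]
      · rintro ⟨ξ, hξ, h0⟩
        obtain ⟨η, hη, a, -, -, h3⟩ := PWf_fwd Q hZi hκ hb hm0 hξ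
        refine ⟨η, hη, ?_⟩
        have h4 := h3 0
        rw [mul_zero, h0] at h4
        exact h4.symm
  refine ⟨m, c₁, c₂, κ, Λ, PWf_A Q Z m, ?_⟩
  exact
    { sub := fun ξ hξ => hξ.1
      cen := fun ξ hξ => hξ.2.1
      ex := fun x hx => by
        rw [← hex] at hx
        exact hx
      cl := fun ξ η h hl => PWf_cl Q hZc h hl
      m0 := hm0
      ord := fun ξ hξ => hξ.2.2
      c0 := hc₁
      lo := hlo
      hi := hhi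
      k1 := hκ
      fwd := fun ξ hξ => PWf_fwd Q hZi hκ hb hm0 hξ
      bwd := fun ξ hξ => PWf_bwd Q hZi hb hm0 hξ }

end Pool.Agent.HQ
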