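import Pool.Agent.HQD.Defs
import Pool.Agent.HQD.F1u
import Pool.Agent.HQD.F2u
import Pool.Agent.HQ.Fr23

/-!
# HQD module SAll: all saddles are in one class, boundary points of unstable manifolds
-/

set_option autoImplicit false

open Filter Topology Set Metric

namespace Pool.Agent.HQ

/-- The statement of Lemma P: nonconstant entire curves in `M = 0` cannot accumulate at a point of
a minimal set in the closure of the saddles without points of the boundary of `P = 0` on the curve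
near this point. -/
def LemP (Q : QS) : Prop :=
  ∀ Z : Set E, IsClosed Z → Z ⊆ closure (Sad Q.F) → (∀ x, Q.F x ∈ Z ↔ x ∈ Z) →
    (∀ W ⊆ Z, IsClosed W → W.Nonempty → (∀ x, Q.F x ∈ W ↔ x ∈ W) → W = Z) →
    ∀ x₀ ∈ Z, ∀ r > 0, ∀ (ξ : ℕ → ℂ → E) (z : ℕ → ℂ), (∀ i, Differentiable ℂ (ξ i)) →
      (∀ i w, Q.M (ξ i w) = 0) → (∀ i, ∃ w w', ξ i w ≠ ξ i w') →
      Tendsto (fun i => ξ i (z i)) atTop (𝓝 x₀) →
      ¬ ∀ i, ∀ w ∈ connectedComponentIn ((ξ i) ⁻¹' ball x₀ r) (z i), Q.P (ξ i w) = 0 →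
        ∀ᶠ u in 𝓝 w, Q.P (ξ i u) = 0

theorem SAll_orbit (Q : QS) {p : E} (hp : p ∈ Sad Q.F) :
    (range fun j : ℤ => (Q.F ^ j) p).Finite := by
  obtain ⟨k, hk, hkp, -⟩ := hp
  have hkp' : (Q.F ^ (k : ℤ)) p = p := by rw [zpow_natCast]; exact hkp
  have hper : ∀ m : ℤ, (Q.F ^ ((k : ℤ) * m)) p = p := by
    intro m
    rw [zpow_mul]
    exact Function.IsFixedPt.perm_zpow hkp' m
  have hk0 : (0 : ℤ) < k := by exact_mod_cast hk
  refine ((Set.finite_Ico (0 : ℤ) k).image fun j : ℤ => (Q.F ^ j) p).subset ?_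
  rintro _ ⟨j, rfl⟩
  refine ⟨j % k, ⟨Int.emod_nonneg _ hk0.ne', Int.emod_lt_of_pos _ hk0⟩, ?_⟩
  have h1 : j = j % k + k * (j / k) := (Int.emod_add_mul_ediv j k).symm
  show (Q.F ^ (j % k)) p = (Q.F ^ j) p
  conv_rhs => rw [h1, zpow_add, Equiv.Perm.mul_apply, hper]

theorem F2u_all (Q : QS) (hdet : Q.Det) (hH : Hen Q.toSys) (hP : LemP Q) :
    ∀ p ∈ Sad Q.F, ∀ z, Q.P (Q.Xu p z) = 0 → (∃ᶠ s in 𝓝 z, 0 < Q.P (Q.Xu p s)) →
      Q.Xu p z ∈ closure (Sad Q.F) := by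
  obtain ⟨t, htS, ⟨q, hq⟩, htF, htc, ht⟩ := F2u Q hdet
  have hall : Sad Q.F ⊆ t := by
    intro p hp
    by_contra hpt
    have hpc : p ∉ closure t := fun h => hpt (htc p hp h)
    obtain ⟨r, hr, hrt⟩ := Metric.isOpen_iff.1 isClosed_closure.isOpen_compl p hpc
    have hpcl : p ∈ closure (Sad Q.F) := subset_closure hp
    have hfr : p ∈ frontier Q.Km :=
      ⟨subset_closure (Q.Sad_M hp), clSad_not_int_m Q hpcl⟩
    have h1 := F1u Q hH (htS hq) hfr
    obtain ⟨y, hy, hyl⟩ := mem_closure_iff_seq_limit.1 h1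
    have hy2 : ∀ i, ∃ j : ℕ, ∃ w : ℂ, Q.Xu ((Q.F ^ j) q) w = y i := by
      intro i
      obtain ⟨j, hj⟩ := mem_iUnion.1 (hy i)
      have h2 : (Q.F ^ j) q ∈ Sad Q.F := by
        have := (Q.mem_Sad (j : ℤ) q).2 (htS hq)
        simpa using this
      rw [← (Q.hu _ h2).range] at hj
      obtain ⟨w, hw⟩ := hj
      exact ⟨j, w, hw⟩
    choose j w hw using hy2
    have htq : ∀ m : ℕ, (Q.F ^ m) q ∈ t := by
      intro m
      induction m with
      | zero => simpa using hq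
      | succ m ih =>
        rw [pow_succ', Equiv.Perm.mul_apply]
        exact (htF _).2 ih
    have hUi : ∀ i, Q.Xu ((Q.F ^ j i) q) ∈ Q.U := fun i => Xu_mem_U Q (htS (htq _))
    refine hP (range fun j : ℤ => (Q.F ^ j) p) (SAll_orbit Q hp).isClosed ?_ ?_ ?_ p ⟨0, rfl⟩ r hr
      (fun i => Q.Xu ((Q.F ^ j i) q)) w (fun i => U_diff Q (hUi i)) (fun i w => U_M0 Q (hUi i) w)
      (fun i => ?_) ?_ ?_
    · rintro _ ⟨m, rfl⟩
      exact subset_closure ((Q.mem_Sad m p).2 hp)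
    · intro x
      constructor
      · rintro ⟨m, hm⟩
        refine ⟨m - 1, ?_⟩
        apply Q.F.injective
        rw [← hm]
        show Q.F ((Q.F ^ (m - 1)) p) = (Q.F ^ m) p
        rw [← Equiv.Perm.mul_apply, ← zpow_one_add]
        congr 2
        ring
      · rintro ⟨m, rfl⟩
        refine ⟨1 + m, ?_⟩
        show (Q.F ^ (1 + m)) p = Q.F ((Q.F ^ m) p)
        rw [zpow_one_add, Equiv.Perm.mul_apply]
    · intro W hWZ _ hWne hWF
      obtain ⟨x, hx⟩ := hWne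
      obtain ⟨m, hm⟩ := hWZ hx
      refine Subset.antisymm hWZ ?_
      rintro _ ⟨n, rfl⟩
      have h3 := (Q.zpow_mem_iff hWF (n - m) x).2 hx
      rw [← hm] at h3
      have h4 : (Q.F ^ (n - m)) ((Q.F ^ m) p) = (Q.F ^ n) p := by
        rw [← Equiv.Perm.mul_apply, ← zpow_add]
        congr 2
        ring
      rw [h4] at h3
      exact h3
    · exact U_ne Q (hUi i)
    · simp only [hw]
      exact hyl
    · intro i u hu hu0
      by_contra hcon
      rw [not_eventually] at hcon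
      have h5 : ∃ᶠ s in 𝓝 u, 0 < Q.P (Q.Xu ((Q.F ^ j i) q) s) :=
        hcon.mono fun s hs => lt_of_le_of_ne (Q.P0 _) (Ne.symm hs)
      have h6 := ht _ (htq (j i)) u hu0 h5
      have h7 : u ∈ (Q.Xu ((Q.F ^ j i) q)) ⁻¹' ball p r := connectedComponentIn_subset _ _ hu
      exact hrt h7 h6
  intro p hp z hz hz'
  exact closure_mono htS (ht p (hall hp) z hz hz')

end Pool.Agent.HQ
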