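import Pool.Agent.HQD.Defs
import Pool.Agent.HQD.SAll
import Pool.Agent.HQD.DefsP
import Pool.Agent.HQD.PMin
import Pool.Agent.HQD.PWf
import Pool.Agent.HQD.PChn
import Pool.Agent.HQD.PStp
import Pool.Agent.HQD.PGu
import Pool.Agent.HQD.PGs
import Pool.Agent.HQD.PSa
import Pool.Agent.HQD.PSb

/-!
# HQD module PEnd: Lemma P
-/

set_option autoImplicit false

open Filter Topology Set Metric

namespace Pool.Agent.HQ

theorem PEnd_cont (q : ℝ) (m : ℕ) (ξ : ℂ → E) : Continuous (cc q m ξ) := by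
  have h : cc q m ξ = fun Y => chartInv q (iteratedDeriv m ξ 0) (Y - ξ 0) := rfl
  rw [h]
  exact (chartInv q (iteratedDeriv m ξ 0)).continuous.comp (continuous_id.sub continuous_const)

theorem PEnd_center (q : ℝ) (m : ℕ) (ξ : ℂ → E) : cc q m ξ (ξ 0) = 0 := by
  unfold cc
  rw [sub_self, map_zero]

theorem PEnd_step {Q : QS} {W : Set (ℂ → E)} {κ q ε : ℝ} {m N : ℕ} (hE : Est Q W κ q ε m N)
    (hε : 0 < ε) {η : ℤ → ℂ → E} (hη : Chn Q W κ N η) (j : ℤ) {Y : E}
    (hY : ‖cc q m (η j) Y‖ ≤ ε) : ∃ l μ : ℂ, 2 ≤ ‖l‖ ∧ ‖μ‖ ≤ 1 / 2 ∧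
      ‖cc q m (η (j + 1)) ((Q.F ^ N) Y) - dg l μ (cc q m (η j) Y)‖ ≤
        ‖cc q m (η j) Y‖ / 8 := by
  obtain ⟨a, ha, hstep⟩ := hη.step j
  obtain ⟨l, μ, hl, hμ, h1, -⟩ := hE (η j) (hη.mem j) (η (j + 1)) (hη.mem _) a ha hstep
  refine ⟨l, μ, hl, hμ, ?_⟩
  have h2 := h1 Y (η j 0) hY (by rw [PEnd_center, norm_zero]; exact hε.le)
  have h3 : (Q.F ^ N) (η j 0) = η (j + 1) 0 := by
    have := hstep 0
    rwa [mul_zero] at this
  rw [h3, PEnd_center, PEnd_center, sub_zero, sub_zero] at h2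
  exact h2

/-- the local mean value property of `P` along a curve without isolated boundary points -/
theorem PEnd_lmv (Q : QS) (hMV : Q.MV) {g : ℂ → E} (hg : Differentiable ℂ g) {D : Set ℂ}
    (hD : IsOpen D) (h : ∀ w ∈ D, Q.P (g w) = 0 → ∀ᶠ u in 𝓝 w, Q.P (g u) = 0) :
    LMV D (fun w => Q.P (g w)) := by
  have hc : Continuous fun w => Q.P (g w) := Q.cP.comp hg.continuous
  refine ⟨hc.continuousOn, fun w hw => ?_⟩
  rcases (Q.P0 (g w)).lt_or_eq with hpos | hzero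
  · have hopen : IsOpen (D ∩ {u | 0 < Q.P (g u)}) := hD.inter (isOpen_lt continuous_const hc)
    obtain ⟨R, hR, hb⟩ := Metric.isOpen_iff.1 hopen w ⟨hw, hpos⟩
    refine ⟨R / 2, half_pos hR, (closedBall_subset_ball (half_lt_self hR)).trans
      (hb.trans inter_subset_left), fun s hs hsR => ?_⟩
    exact hMV g w R hR hg.differentiableOn (fun u hu => (hb hu).2) s hs (by linarith)
  · obtain ⟨R, hR, hb⟩ := Metric.eventually_nhds_iff_ball.1
      ((h w hw hzero.symm).and (hD.mem_nhds hw))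
    refine ⟨R / 2, half_pos hR, fun u hu => (hb u ?_).2, fun s hs hsR => ?_⟩
    · exact closedBall_subset_ball (half_lt_self hR) hu
    · have h1 : Real.circleAverage (fun w => Q.P (g w)) w s =
          Real.circleAverage (fun _ => (0 : ℝ)) w s := by
        refine Real.circleAverage_congr_sphere ?_
        intro u hu
        rw [abs_of_pos hs] at hu
        refine (hb u ?_).1
        rw [mem_ball, mem_sphere.1 hu]
        linarith
      rw [h1, Real.circleAverage_const]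
      exact hzero

theorem lemP (Q : QS) (hdet : Q.Det) (hMV : Q.MV) (hMV' : Q.dual.MV) : LemP Q := by
  intro Z hZc hZs hZi hZm x₀ hx₀ r hr ξ z hξ hM hnc hlim hfr
  obtain ⟨m, c₁, c₂, κ, Λ, W, hW⟩ := exists_WF Q hZc hZs hZi hZm ⟨x₀, hx₀⟩
  have hZs' : Z ⊆ closure (Sad Q.dual.F) := by
    rw [Q.dual_Sad]
    exact hZs
  have hZi' : ∀ x, Q.dual.F x ∈ Z ↔ x ∈ Z := by
    intro x
    have h1 := hZi (Q.F⁻¹ x)
    have h2 : Q.F (Q.F⁻¹ x) = x := Q.F.apply_symm_apply x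
    rw [h2] at h1
    exact h1.symm
  have hZm' : ∀ Y ⊆ Z, IsClosed Y → Y.Nonempty → (∀ x, Q.dual.F x ∈ Y ↔ x ∈ Y) → Y = Z := by
    intro Y hY hYc hYn hYi
    refine hZm Y hY hYc hYn fun x => ?_
    have h1 := hYi (Q.F x)
    have h2 : Q.dual.F (Q.F x) = x := Q.F.symm_apply_apply x
    rw [h2] at h1
    exact h1.symm
  obtain ⟨m', c₁', c₂', κ', Λ', W', hW'⟩ := exists_WF Q.dual hZc hZs' hZi' hZm' ⟨x₀, hx₀⟩
  obtain ⟨N, q, ε, hN, hq, hε, hE⟩ := step_est Q hdet hZs hW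
  obtain ⟨e₀, he₀, hgu⟩ := good_u Q hMV hW hN hq hε hE
  obtain ⟨e₀', he₀', hgs⟩ := good_s Q hMV' hW hW' hN hq hε hE
  obtain ⟨ξ₀, hξ₀, hξ₀x⟩ := hW.ex x₀ hx₀
  obtain ⟨η, hη, hη0⟩ := exists_chn hW N hξ₀
  have hq0 : q ≠ 0 := by
    intro h
    rw [h] at hq
    linarith
  have hv : iteratedDeriv m ξ₀ 0 ≠ 0 := norm_pos_iff.1 (hW.c0.trans_le (hW.lo ξ₀ hξ₀))
  set C : ℝ := ‖chart q (iteratedDeriv m ξ₀ 0)‖ + 1 with hC
  have hC0 : 0 < C := by positivity
  have hbox : ∀ Y : E, ‖Y - x₀‖ ≤ C * ‖cc q m (η 0) Y‖ := by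
    intro Y
    have h1 : Y - x₀ = chart q (iteratedDeriv m ξ₀ 0) (cc q m (η 0) Y) := by
      unfold cc
      rw [hη0, chart_right hq0 hv, hξ₀x]
    rw [h1]
    refine (ContinuousLinearMap.le_opNorm _ _).trans ?_
    exact mul_le_mul_of_nonneg_right (by rw [hC]; linarith) (norm_nonneg _)
  set e : ℝ := min (min ε (r / C)) (min e₀ e₀') with he'
  have he : 0 < e := lt_min (lt_min hε (div_pos hr hC0)) (lt_min he₀ he₀')
  have heε : e ≤ ε := (min_le_left _ _).trans (min_le_left _ _)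
  have her : e ≤ r / C := (min_le_left _ _).trans (min_le_right _ _)
  obtain ⟨c, hc, hgood⟩ := hgu e he ((min_le_right _ _).trans (min_le_left _ _))
  obtain ⟨c', hc', hgood'⟩ := hgs e he ((min_le_right _ _).trans (min_le_right _ _))
  obtain ⟨lam, n₀, hl0, hl1, hA⟩ := side_a Q hZs hW hN hq hε hE he heε hc hgood
  obtain ⟨lam', n₀', hl0', hl1', hB⟩ := side_b Q hZs hW hN hq hε hE he heε hc' hgood'
  obtain ⟨K, hK, hK'⟩ : ∃ K : ℕ, lam ^ K < 1 / 2 ∧ lam' ^ K < 1 / 2 := by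
    have h1 := (tendsto_pow_atTop_nhds_zero_of_lt_one hl0 hl1).eventually_lt_const
      (show (0 : ℝ) < 1 / 2 by norm_num)
    have h2 := (tendsto_pow_atTop_nhds_zero_of_lt_one hl0' hl1').eventually_lt_const
      (show (0 : ℝ) < 1 / 2 by norm_num)
    exact (h1.and h2).exists
  have key : ∀ k : ℤ, ∀ᶠ i in atTop,
      ‖cc q m (η k) ((Q.F ^ ((N : ℤ) * k)) (ξ i (z i)))‖ < e := by
    intro k
    have h1 : Continuous fun x : E => ‖cc q m (η k) ((Q.F ^ ((N : ℤ) * k)) x)‖ :=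
      ((PEnd_cont q m (η k)).comp (Q.diff_zpow _).continuous).norm
    have h2 := (h1.tendsto x₀).comp hlim
    have h3 : (Q.F ^ ((N : ℤ) * k)) x₀ = η k 0 := by
      have h4 := hη.center 0 k
      rwa [hη0, hξ₀x, zero_add] at h4
    rw [h3, PEnd_center, norm_zero] at h2
    exact h2.eventually_lt_const he
  have hev1 : ∀ᶠ i in atTop, ∀ j ∈ Iic ((K + 1) * n₀),
      ‖cc q m (η (j : ℕ)) ((Q.F ^ ((N : ℤ) * (j : ℕ))) (ξ i (z i)))‖ < e :=
    (eventually_all_finite (finite_Iic _)).2 fun j _ => key j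
  have hev2 : ∀ᶠ i in atTop, ∀ j ∈ Iic ((K + 1) * n₀'),
      ‖cc q m (η (-((j : ℕ) : ℤ))) ((Q.F ^ (-((N : ℤ) * (j : ℕ)))) (ξ i (z i)))‖ < e := by
    refine (eventually_all_finite (finite_Iic _)).2 fun j _ => ?_
    have h1 := key (-(j : ℤ))
    rwa [mul_neg] at h1
  obtain ⟨i, hi0, hi1, hi2⟩ := ((key 0).and (hev1.and hev2)).exists
  set g : ℂ → E := ξ i with hg
  set zi : ℂ := z i with hzi
  rw [mul_zero, zpow_zero, Equiv.Perm.coe_one, id_eq] at hi0
  have hgc : Continuous g := (hξ i).continuous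
  have hf0 : Continuous fun w => cc q m (η 0) (g w) := (PEnd_cont q m (η 0)).comp hgc
  set O : Set ℂ := {w | ‖cc q m (η 0) (g w)‖ < e} with hOdef
  have hO : IsOpen O := isOpen_lt hf0.norm continuous_const
  set D : Set ℂ := connectedComponentIn O zi with hDdef
  have hD : IsOpen D := hO.connectedComponentIn
  have hziO : zi ∈ O := hi0
  have hziD : zi ∈ D := mem_connectedComponentIn hziO
  have hDO : D ⊆ O := connectedComponentIn_subset _ _
  have hOr : O ⊆ g ⁻¹' ball x₀ r := by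
    intro w hw
    rw [mem_preimage, mem_ball, dist_eq_norm]
    have h1 : ‖cc q m (η 0) (g w)‖ < e := hw
    calc ‖g w - x₀‖ ≤ C * ‖cc q m (η 0) (g w)‖ := hbox _
      _ < C * e := mul_lt_mul_of_pos_left h1 hC0
      _ ≤ C * (r / C) := mul_le_mul_of_nonneg_left her hC0.le
      _ = r := mul_div_cancel₀ r hC0.ne'
  have hDr : D ⊆ connectedComponentIn (g ⁻¹' ball x₀ r) zi := connectedComponentIn_mono zi hOr
  have hLMV : LMV D (fun w => Q.P (g w)) :=
    PEnd_lmv Q hMV (hξ i) hD fun w hw => hfr i w (hDr hw)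
  obtain ⟨sa, hsa, hsa01, hsa1, hsaK⟩ := hA η hη g (hξ i) (hM i) D hD (fun w hw => hDO hw)
    hLMV K
  obtain ⟨sb, hsb, hsb01, hsb1, hsbK⟩ := hB η hη g (hξ i) (hM i) D hD (fun w hw => hDO hw) K
  -- the frontier
  have hfront : ∀ w₀ ∈ frontier D, ∀ᶠ w in 𝓝[D] w₀, 1 ≤ sa w + sb w := by
    intro w₀ hw₀
    rw [hD.frontier_eq] at hw₀
    obtain ⟨hcl, hnD⟩ := hw₀
    have hle : ‖cc q m (η 0) (g w₀)‖ ≤ e := by
      have h1 : closure D ⊆ {w | ‖cc q m (η 0) (g w)‖ ≤ e} :=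
        closure_minimal (fun w hw => (show ‖cc q m (η 0) (g w)‖ < e from hDO hw).le)
          (isClosed_le hf0.norm continuous_const)
      exact h1 hcl
    have hge : ¬ ‖cc q m (η 0) (g w₀)‖ < e := by
      intro hlt
      apply hnD
      have h1 : IsPreconnected (insert w₀ D) :=
        (isPreconnected_connectedComponentIn (x := zi) (F := O)).subset_closure
          (subset_insert _ _) (insert_subset hcl subset_closure)
      have h2 : insert w₀ D ⊆ O := insert_subset hlt hDO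
      exact h1.subset_connectedComponentIn (mem_insert_of_mem _ hziD) h2 (mem_insert _ _)
    have heq : ‖cc q m (η 0) (g w₀)‖ = e := le_antisymm hle (not_lt.1 hge)
    rcases le_total ‖(cc q m (η 0) (g w₀)).2‖ ‖(cc q m (η 0) (g w₀)).1‖ with h12 | h12
    · -- the first coordinate is large
      have h1 : ‖(cc q m (η 0) (g w₀)).1‖ = e := by
        rw [← heq, Prod.norm_def, max_eq_left h12]
      obtain ⟨l, μ, hl, hμ, hst⟩ := PEnd_step hE hε hη 0 (Y := g w₀) (hle.trans heε)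
      have h2 := ((cone_vec hl hμ hst).1 h12).2
      rw [h1, zero_add] at h2
      have hf1 : Continuous fun w => cc q m (η 1) ((Q.F ^ (N : ℤ)) (g w)) :=
        (PEnd_cont q m (η 1)).comp ((Q.diff_zpow _).continuous.comp hgc)
      have h3 : e < ‖cc q m (η 1) ((Q.F ^ (N : ℤ)) (g w₀))‖ := by
        rw [zpow_natCast]
        have h4 := norm_fst_le (cc q m (η 1) ((Q.F ^ N) (g w₀)))
        linarith
      have h5 : ∀ᶠ w in 𝓝 w₀, e < ‖cc q m (η 1) ((Q.F ^ (N : ℤ)) (g w))‖ :=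
        (hf1.norm.tendsto w₀).eventually_const_lt h3
      filter_upwards [mem_nhdsWithin_of_mem_nhds h5, self_mem_nhdsWithin] with w hw hwD
      have h6 := hsa1 w hwD (not_le.2 hw)
      have h7 := (hsb01 w hwD).1
      linarith
    · -- the second coordinate is large
      have h1 : ‖(cc q m (η 0) (g w₀)).2‖ = e := by
        rw [← heq, Prod.norm_def, max_eq_right h12]
      have hfm : Continuous fun w => cc q m (η (-1)) ((Q.F ^ (-(N : ℤ))) (g w)) :=
        (PEnd_cont q m (η (-1))).comp ((Q.diff_zpow _).continuous.comp hgc)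
      have h3 : e < ‖cc q m (η (-1)) ((Q.F ^ (-(N : ℤ))) (g w₀))‖ := by
        by_contra hcon
        rw [not_lt] at hcon
        obtain ⟨l, μ, hl, hμ, hst⟩ := PEnd_step hE hε hη (-1)
          (Y := (Q.F ^ (-(N : ℤ))) (g w₀)) (hcon.trans heε)
        have h4 := (cone_vec hl hμ hst).2.2.1
        have h5 : (Q.F ^ N) ((Q.F ^ (-(N : ℤ))) (g w₀)) = g w₀ := by
          rw [← zpow_natCast, ← Equiv.Perm.mul_apply, ← zpow_add, add_neg_cancel, zpow_zero]
          rfl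
        have h6 : (-1 : ℤ) + 1 = 0 := by norm_num
        rw [h5, h6, h1] at h4
        linarith
      have h5 : ∀ᶠ w in 𝓝 w₀, e < ‖cc q m (η (-1)) ((Q.F ^ (-(N : ℤ))) (g w))‖ :=
        (hfm.norm.tendsto w₀).eventually_const_lt h3
      filter_upwards [mem_nhdsWithin_of_mem_nhds h5, self_mem_nhdsWithin] with w hw hwD
      have h6 := hsb1 w hwD (not_le.2 hw)
      have h7 := (hsa01 w hwD).1
      linarith
  -- a disc outside
  obtain ⟨u₀, hu₀⟩ : ∃ u₀, e < ‖cc q m (η 0) (g u₀)‖ := by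
    by_contra hcon
    push Not at hcon
    obtain ⟨w, w', hww⟩ := hnc i
    apply hww
    refine (hξ i).apply_eq_apply_of_bounded ?_ w w'
    refine (isBounded_closedBall (x := x₀) (r := C * e)).subset ?_
    rintro _ ⟨u, rfl⟩
    rw [mem_closedBall, dist_eq_norm]
    exact (hbox _).trans (mul_le_mul_of_nonneg_left (hcon u) hC0.le)
  obtain ⟨ρ, hρ, hρs⟩ := Metric.isOpen_iff.1
    (isOpen_lt continuous_const hf0.norm : IsOpen {u | e < ‖cc q m (η 0) (g u)‖}) u₀ hu₀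
  have hdis : Disjoint (ball u₀ ρ) D := by
    rw [Set.disjoint_left]
    intro u hu huD
    have h1 : e < ‖cc q m (η 0) (g u)‖ := hρs hu
    have h2 : ‖cc q m (η 0) (g u)‖ < e := hDO huD
    linarith
  have h1 := barrier_contra hD (hsa.add hsb)
    (fun w hw => add_nonneg (hsa01 w hw).1 (hsb01 w hw).1) hfront hρ hdis zi hziD
  have h2 := hsaK zi hziD fun j hj => hi1 j hj
  have h3 := hsbK zi hziD fun j hj => hi2 j hj
  linarith

end Pool.Agent.HQ
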