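import Pool.Agent.HQD.Defs
import Pool.Agent.HQD.DefsP
import Pool.Agent.HQ.HC
import Pool.Agent.HQ.HH

/-!
# HQD module PMvH: mean value property for Henon maps
-/

set_option autoImplicit false

open Filter Topology Set Metric

namespace Pool.Agent.HQ

/-- uniform convergence on compact images of discs -/
theorem PMvH_unif {g : E → ℝ} (h : ℕ → E → ℂ) (c : ℕ → ℝ)
    (hl : ∀ x, 0 < g x → ∃ r > 0, (∀ᶠ n in atTop, ∀ y ∈ ball x r, 1 < ‖h n y‖) ∧
      TendstoUniformlyOn (fun n y => c n * Real.log ‖h n y‖) g atTop (ball x r))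
    {K : Set E} (hK : IsCompact K) (hpos : ∀ x ∈ K, 0 < g x) {ε : ℝ} (hε : 0 < ε) :
    ∀ᶠ n in atTop, ∀ y ∈ K, 1 < ‖h n y‖ ∧ |g y - c n * Real.log ‖h n y‖| < ε := by
  choose! ρ hρ using hl
  obtain ⟨t, ht, hcov⟩ := hK.elim_nhds_subcover (fun x => ball x (ρ x))
    (fun x hx => ball_mem_nhds x (hρ x (hpos x hx)).1)
  have hall : ∀ᶠ n in atTop, ∀ x ∈ t, ∀ y ∈ ball x (ρ x),
      1 < ‖h n y‖ ∧ |g y - c n * Real.log ‖h n y‖| < ε := by
    rw [Filter.eventually_all_finset]
    intro x hx
    obtain ⟨-, h1, h2⟩ := hρ x (hpos x (ht x hx))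
    rw [Metric.tendstoUniformlyOn_iff] at h2
    filter_upwards [h1, h2 ε hε] with n hn1 hn2 y hy
    refine ⟨hn1 y hy, ?_⟩
    have := hn2 y hy
    rwa [Real.dist_eq] at this
  filter_upwards [hall] with n hn y hy
  obtain ⟨x, hx, hyx⟩ := mem_iUnion₂.1 (hcov hy)
  exact hn x hx y hyx

theorem PMvH_mv {g : E → ℝ} (hg : Continuous g) (h : LogLim g) (γ : ℂ → E) (a : ℂ) (R : ℝ)
    (hγ : DifferentiableOn ℂ γ (ball a R)) (hpos : ∀ z ∈ ball a R, 0 < g (γ z)) (r : ℝ)
    (hr : 0 < r) (hrR : r < R) : Real.circleAverage (fun z => g (γ z)) a r = g (γ a) := by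
  obtain ⟨h, c, hd, -, hl⟩ := h
  have hsub : closedBall a r ⊆ ball a R := closedBall_subset_ball hrR
  have hγc : ContinuousOn γ (closedBall a r) := hγ.continuousOn.mono hsub
  have hK : IsCompact (γ '' closedBall a r) := (isCompact_closedBall a r).image_of_continuousOn hγc
  have habs : |r| = r := abs_of_pos hr
  have hsph : sphere a |r| ⊆ closedBall a r := by
    rw [habs]
    exact sphere_subset_closedBall
  have hP : CircleIntegrable (fun z => g (γ z)) a r :=
    ContinuousOn.circleIntegrable' (hg.comp_continuousOn (hγc.mono hsph))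
  refine eq_of_abs_sub_le_all ?_
  intro ε hε
  obtain ⟨n, hn⟩ := (PMvH_unif h c hl hK (by
    rintro x ⟨z, hz, rfl⟩
    exact hpos z (hsub hz)) (half_pos hε)).exists
  have hn' : ∀ z ∈ closedBall a r, 1 < ‖h n (γ z)‖ ∧
      |g (γ z) - c n * Real.log ‖h n (γ z)‖| < ε / 2 := fun z hz => hn _ ⟨z, hz, rfl⟩
  -- the mean value property of the logarithm
  have hφ : DifferentiableOn ℂ (fun w => h n (γ w)) (ball a R) := (hd n).comp_differentiableOn hγ
  have han : AnalyticOnNhd ℂ (fun w => h n (γ w)) (closedBall a |r|) := by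
    rw [habs]
    exact (hφ.analyticOnNhd isOpen_ball).mono hsub
  have hmv := han.circleAverage_log_norm_of_ne_zero (by
    intro u hu
    rw [habs] at hu
    have := (hn' u hu).1
    rw [← norm_ne_zero_iff]
    linarith)
  have hLc : ContinuousOn (fun z => Real.log ‖h n (γ z)‖) (sphere a |r|) := by
    have h1 : ContinuousOn (fun z => ‖h n (γ z)‖) (sphere a |r|) :=
      ((hφ.continuousOn.mono hsub).mono hsph).norm
    refine h1.log ?_
    intro z hz
    have := (hn' z (hsph hz)).1
    linarith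
  have hL : CircleIntegrable (fun z => c n * Real.log ‖h n (γ z)‖) a r :=
    ContinuousOn.circleIntegrable' (continuousOn_const.mul hLc)
  have hA : Real.circleAverage (fun z => c n * Real.log ‖h n (γ z)‖) a r =
      c n * Real.log ‖h n (γ a)‖ := by
    have h1 := Real.circleAverage_fun_smul (a := c n) (f := fun z => Real.log ‖h n (γ z)‖)
      (c := a) (R := r)
    simp only [smul_eq_mul] at h1
    rw [h1, hmv]
  have hsubt := Real.circleAverage_fun_sub hP hL
  have hdiff : |Real.circleAverage (fun z => g (γ z) - c n * Real.log ‖h n (γ z)‖) a r| ≤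
      ε / 2 := by
    refine Real.abs_circleAverage_le_circleAverage_abs.trans ?_
    refine Real.circleAverage_mono_on_of_le_circle ?_ ?_
    · exact (hP.sub hL).abs
    · intro z hz
      exact (hn' z (hsph hz)).2.le
  rw [hsubt, hA] at hdiff
  have ha := (hn' a (mem_closedBall_self hr.le)).2
  rw [abs_le] at hdiff
  rw [abs_lt] at ha
  rw [abs_le]
  constructor <;> linarith

theorem MV_of_logLim (S : Sys) (h : LogLim S.P) : S.MV := by
  intro γ a R _ hγ hpos r hr hrR
  exact PMvH_mv S.cP h γ a R hγ hpos r hr hrR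

theorem hsys_MV (L : List (ℂˣ × Polynomial ℂ)) (hL : Adm L) : (hsys L hL).MV :=
  MV_of_logLim _ (green_logLim hL)

theorem hsys_MV_dual (L : List (ℂˣ × Polynomial ℂ)) (hL : Adm L) : (hsys L hL).dual.MV := by
  intro γ a R _ hγ hpos r hr hrR
  have hM : (hsys L hL).dual.P = fun z : E => Green (henon (rev L)) (hdeg (rev L)) z.swap :=
    HH_green L
  rw [hM] at hpos ⊢
  exact PMvH_mv (green_cont (rev_adm hL)) (green_logLim (rev_adm hL)) (fun t => (γ t).swap) a R
    (HH_swap_diff hγ) hpos r hr hrR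

end Pool.Agent.HQ
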