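import Pool.Agent.HQD.Defs

/-!
# HQD module ZBan: closing lemma (Banach fixed point)
-/

set_option autoImplicit false

open Filter Topology Set Metric

namespace Pool.Agent.HQ

/-- the nonlinear part -/
noncomputable def ZBan_R (G : E → E) (l μ : ℂ) (z : E) : E := G z - dg l μ z

theorem ZBan_lip (G : E → E) {ε : ℝ} (l μ : ℂ) (hd : Differentiable ℂ G)
    (hD : ∀ z, ‖z‖ ≤ ε → ‖fderiv ℂ G z - dg l μ‖ ≤ 1 / 8) (z w : E) (hz : ‖z‖ ≤ ε)
    (hw : ‖w‖ ≤ ε) : ‖ZBan_R G l μ z - ZBan_R G l μ w‖ ≤ 1 / 8 * ‖z - w‖ := by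
  have h1 : Differentiable ℂ (ZBan_R G l μ) := hd.sub (dg l μ).differentiable
  have h2 : ∀ x ∈ closedBall (0 : E) ε, ‖fderiv ℂ (ZBan_R G l μ) x‖ ≤ 1 / 8 := by
    intro x hx
    have e : fderiv ℂ (ZBan_R G l μ) x = fderiv ℂ G x - dg l μ := by
      have h3 : HasFDerivAt (ZBan_R G l μ) (fderiv ℂ G x - dg l μ) x :=
        (hd x).hasFDerivAt.sub (dg l μ).hasFDerivAt
      exact h3.fderiv
    rw [e]
    exact hD x (mem_closedBall_zero_iff.mp hx)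
  exact (convex_closedBall (0 : E) ε).norm_image_sub_le_of_norm_fderiv_le (𝕜 := ℂ)
    (fun x _ => h1 x) h2 (mem_closedBall_zero_iff.mpr hw) (mem_closedBall_zero_iff.mpr hz)

theorem ZBan_bd (G : E → E) {ε : ℝ} (hε : 0 < ε) (l μ : ℂ) (hd : Differentiable ℂ G)
    (hD : ∀ z, ‖z‖ ≤ ε → ‖fderiv ℂ G z - dg l μ‖ ≤ 1 / 8) (h0 : ‖G 0‖ ≤ ε / 8) (z : E)
    (hz : ‖z‖ ≤ ε) : ‖ZBan_R G l μ z‖ ≤ ε / 4 := by
  have h1 := ZBan_lip G l μ hd hD z 0 hz (by rw [norm_zero]; exact hε.le)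
  have h2 : ZBan_R G l μ 0 = G 0 := by
    rw [ZBan_R, map_zero, sub_zero]
  have h3 : ‖ZBan_R G l μ z‖ ≤ ‖ZBan_R G l μ z - ZBan_R G l μ 0‖ + ‖ZBan_R G l μ 0‖ := by
    have := norm_add_le (ZBan_R G l μ z - ZBan_R G l μ 0) (ZBan_R G l μ 0)
    rwa [sub_add_cancel] at this
  rw [h2] at h3 h1
  rw [sub_zero] at h1
  linarith

/-- the fixed point operator -/
noncomputable def ZBan_T {L : ℕ} (G : ZMod L → E → E) (l μ : ZMod L → ℂ) (z : ZMod L → E) :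
    ZMod L → E := fun k =>
  (((z (k + 1)).1 - (ZBan_R (G k) (l k) (μ k) (z k)).1) / l k,
    μ (k - 1) * (z (k - 1)).2 + (ZBan_R (G (k - 1)) (l (k - 1)) (μ (k - 1)) (z (k - 1))).2)

theorem ZBan_fst {x y : E} : ‖x.1 - y.1‖ ≤ ‖x - y‖ := norm_fst_le (x - y)

theorem ZBan_snd {x y : E} : ‖x.2 - y.2‖ ≤ ‖x - y‖ := norm_snd_le (x - y)

theorem ZBan_div {a l : ℂ} {A : ℝ} (hl : 2 ≤ ‖l‖) (ha : ‖a‖ ≤ A) : ‖a / l‖ ≤ A / 2 := by
  rw [norm_div, div_le_div_iff₀ (by linarith) (by norm_num)]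
  have hA : 0 ≤ A := (norm_nonneg a).trans ha
  nlinarith [norm_nonneg a]

theorem ZBan_mul {a m : ℂ} {A : ℝ} (hm : ‖m‖ ≤ 1 / 2) (ha : ‖a‖ ≤ A) : ‖m * a‖ ≤ A / 2 := by
  rw [norm_mul]
  have hA : 0 ≤ A := (norm_nonneg a).trans ha
  nlinarith [norm_nonneg a, norm_nonneg m]

theorem closing {L : ℕ} [NeZero L] (G : ZMod L → E → E) {ε : ℝ} (hε : 0 < ε)
    (l μ : ZMod L → ℂ) (hl : ∀ k, 2 ≤ ‖l k‖) (hμ : ∀ k, ‖μ k‖ ≤ 1 / 2)
    (hd : ∀ k, Differentiable ℂ (G k))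
    (hD : ∀ k z, ‖z‖ ≤ ε → ‖fderiv ℂ (G k) z - dg (l k) (μ k)‖ ≤ 1 / 8)
    (h0 : ∀ k, ‖G k 0‖ ≤ ε / 8) :
    ∃ z : ZMod L → E, (∀ k, ‖z k‖ ≤ ε) ∧ ∀ k, G k (z k) = z (k + 1) := by
  have hlip := fun k => ZBan_lip (G k) (l k) (μ k) (hd k) (hD k)
  have hbd := fun k => ZBan_bd (G k) hε (l k) (μ k) (hd k) (hD k) (h0 k)
  have hmem : ∀ z : ZMod L → E, z ∈ closedBall (0 : ZMod L → E) ε ↔ ∀ k, ‖z k‖ ≤ ε := by
    intro z
    rw [mem_closedBall_zero_iff, pi_norm_le_iff_of_nonneg hε.le]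
  have hmaps : MapsTo (ZBan_T G l μ) (closedBall (0 : ZMod L → E) ε)
      (closedBall (0 : ZMod L → E) ε) := by
    intro z hz
    rw [hmem] at hz ⊢
    intro k
    rw [Prod.norm_def]
    refine max_le ?_ ?_
    · have h1 : ‖(z (k + 1)).1 - (ZBan_R (G k) (l k) (μ k) (z k)).1‖ ≤ ε + ε / 4 :=
        (norm_sub_le _ _).trans (add_le_add ((norm_fst_le _).trans (hz (k + 1)))
          ((norm_fst_le _).trans (hbd k _ (hz k))))
      have h2 := ZBan_div (hl k) h1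
      show ‖((z (k + 1)).1 - (ZBan_R (G k) (l k) (μ k) (z k)).1) / l k‖ ≤ ε
      linarith
    · have h1 := ZBan_mul (hμ (k - 1)) ((norm_snd_le _).trans (hz (k - 1)))
      have h2 := (norm_snd_le _).trans (hbd (k - 1) _ (hz (k - 1)))
      show ‖μ (k - 1) * (z (k - 1)).2 +
        (ZBan_R (G (k - 1)) (l (k - 1)) (μ (k - 1)) (z (k - 1))).2‖ ≤ ε
      refine (norm_add_le _ _).trans ?_
      linarith
  have hcon : ContractingWith (3 / 4) (hmaps.restrict (ZBan_T G l μ)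
      (closedBall (0 : ZMod L → E) ε) (closedBall (0 : ZMod L → E) ε)) := by
    refine ⟨by
      rw [← NNReal.coe_lt_coe]
      norm_num, ?_⟩
    refine LipschitzWith.of_dist_le_mul ?_
    rintro ⟨z, hz⟩ ⟨w, hw⟩
    rw [Subtype.dist_eq, Subtype.dist_eq]
    show dist (ZBan_T G l μ z) (ZBan_T G l μ w) ≤ ((3 / 4 : NNReal) : ℝ) * dist z w
    rw [hmem] at hz hw
    have h34 : ((3 / 4 : NNReal) : ℝ) = 3 / 4 := by norm_num
    rw [h34, dist_pi_le_iff (by positivity)]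
    intro k
    have hdk : ∀ j, ‖z j - w j‖ ≤ dist z w := by
      intro j
      rw [← dist_eq_norm]
      exact dist_le_pi_dist z w j
    have hR : ∀ j, ‖ZBan_R (G j) (l j) (μ j) (z j) - ZBan_R (G j) (l j) (μ j) (w j)‖ ≤
        1 / 8 * dist z w := by
      intro j
      refine (hlip j _ _ (hz j) (hw j)).trans ?_
      exact mul_le_mul_of_nonneg_left (hdk j) (by norm_num)
    rw [dist_eq_norm, Prod.norm_def]
    have hn : 0 ≤ dist z w := dist_nonneg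
    refine max_le ?_ ?_
    · have e1 : (ZBan_T G l μ z k - ZBan_T G l μ w k).1 =
          (((z (k + 1)).1 - (w (k + 1)).1) - ((ZBan_R (G k) (l k) (μ k) (z k)).1 -
            (ZBan_R (G k) (l k) (μ k) (w k)).1)) / l k := by
        show ((z (k + 1)).1 - (ZBan_R (G k) (l k) (μ k) (z k)).1) / l k -
          ((w (k + 1)).1 - (ZBan_R (G k) (l k) (μ k) (w k)).1) / l k = _
        ring
      rw [e1]
      have h1 : ‖((z (k + 1)).1 - (w (k + 1)).1) - ((ZBan_R (G k) (l k) (μ k) (z k)).1 -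
            (ZBan_R (G k) (l k) (μ k) (w k)).1)‖ ≤ dist z w + 1 / 8 * dist z w :=
        (norm_sub_le _ _).trans (add_le_add (ZBan_fst.trans (hdk (k + 1)))
          (ZBan_fst.trans (hR k)))
      have h2 := ZBan_div (hl k) h1
      linarith
    · have e1 : (ZBan_T G l μ z k - ZBan_T G l μ w k).2 =
          μ (k - 1) * ((z (k - 1)).2 - (w (k - 1)).2) +
            ((ZBan_R (G (k - 1)) (l (k - 1)) (μ (k - 1)) (z (k - 1))).2 -
            (ZBan_R (G (k - 1)) (l (k - 1)) (μ (k - 1)) (w (k - 1))).2) := by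
        show (μ (k - 1) * (z (k - 1)).2 +
            (ZBan_R (G (k - 1)) (l (k - 1)) (μ (k - 1)) (z (k - 1))).2) -
          (μ (k - 1) * (w (k - 1)).2 +
            (ZBan_R (G (k - 1)) (l (k - 1)) (μ (k - 1)) (w (k - 1))).2) = _
        ring
      rw [e1]
      have h1 := ZBan_mul (hμ (k - 1)) (ZBan_snd.trans (hdk (k - 1)))
      have h2 := ZBan_snd.trans (hR (k - 1))
      refine (norm_add_le _ _).trans ?_
      linarith
  obtain ⟨z, hz, hfix, -⟩ := ContractingWith.exists_fixedPoint'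
    (isClosed_closedBall.isComplete) hmaps hcon
    (mem_closedBall_self hε.le) (edist_ne_top _ _)
  rw [hmem] at hz
  refine ⟨z, hz, fun k => ?_⟩
  have e1 := congrFun hfix.eq k
  have e2 := congrFun hfix.eq (k + 1)
  have e3 : ((z (k + 1)).1 - (ZBan_R (G k) (l k) (μ k) (z k)).1) / l k = (z k).1 :=
    congrArg Prod.fst e1
  have e4 : μ (k + 1 - 1) * (z (k + 1 - 1)).2 +
      (ZBan_R (G (k + 1 - 1)) (l (k + 1 - 1)) (μ (k + 1 - 1)) (z (k + 1 - 1))).2 =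
      (z (k + 1)).2 := congrArg Prod.snd e2
  rw [add_sub_cancel_right] at e4
  have hl0 : l k ≠ 0 := by
    intro h
    have := hl k
    rw [h, norm_zero] at this
    linarith
  rw [div_eq_iff hl0] at e3
  have r1 : (ZBan_R (G k) (l k) (μ k) (z k)).1 = (G k (z k)).1 - l k * (z k).1 := rfl
  have r2 : (ZBan_R (G k) (l k) (μ k) (z k)).2 = (G k (z k)).2 - μ k * (z k).2 := rfl
  rw [r1] at e3
  rw [r2] at e4
  refine Prod.ext ?_ ?_
  · linear_combination -e3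
  · linear_combination e4

end Pool.Agent.HQ
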