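import Pool.Agent.HQD.Defs
import Pool.Agent.HQ.MatG

/-!
# HQD module ZCone: cones
-/

set_option autoImplicit false

open Filter Topology Set Metric

namespace Pool.Agent.HQ

theorem HypL_comp {A B : E →L[ℂ] E} {κ κ' : ℝ} (h0 : 0 ≤ κ) (h0' : 0 ≤ κ') (hA : HypL A κ)
    (hB : HypL B κ') : HypL (B.comp A) (κ * κ') := by
  constructor
  · intro z hz
    obtain ⟨h1, h2⟩ := hA.u z hz
    obtain ⟨h3, h4⟩ := hB.u (A z) h1
    refine ⟨h3, ?_⟩
    calc κ * κ' * ‖z.1‖ = κ' * (κ * ‖z.1‖) := by ring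
      _ ≤ κ' * ‖(A z).1‖ := mul_le_mul_of_nonneg_left h2 h0'
      _ ≤ _ := h4
  · intro z hz
    obtain ⟨h1, h2⟩ := hB.s (A z) hz
    obtain ⟨h3, h4⟩ := hA.s z h1
    refine ⟨h3, ?_⟩
    calc κ * κ' * ‖(B (A z)).2‖ = κ * (κ' * ‖(B (A z)).2‖) := by ring
      _ ≤ κ * ‖(A z).2‖ := mul_le_mul_of_nonneg_left h2 h0
      _ ≤ _ := h4

theorem HypL_near {l μ : ℂ} (hl : 2 ≤ ‖l‖) (hμ : ‖μ‖ ≤ 1 / 2) {A : E →L[ℂ] E}
    (h : ‖A - dg l μ‖ ≤ 1 / 8) : HypL A (8 / 5) := by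
  have key : ∀ z : E, ‖(A z).1 - l * z.1‖ ≤ 1 / 8 * ‖z‖ ∧ ‖(A z).2 - μ * z.2‖ ≤ 1 / 8 * ‖z‖ := by
    intro z
    have h1 : ‖(A - dg l μ) z‖ ≤ 1 / 8 * ‖z‖ :=
      ((A - dg l μ).le_opNorm z).trans (mul_le_mul_of_nonneg_right h (norm_nonneg z))
    have h2 : (A - dg l μ) z = ((A z).1 - l * z.1, (A z).2 - μ * z.2) := rfl
    rw [h2] at h1
    exact ⟨(norm_fst_le _).trans h1, (norm_snd_le _).trans h1⟩
  have low : ∀ z : E, 2 * ‖z.1‖ - 1 / 8 * ‖z‖ ≤ ‖(A z).1‖ := by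
    intro z
    have h1 := (key z).1
    have h2 : ‖l * z.1‖ - ‖(A z).1 - l * z.1‖ ≤ ‖(A z).1‖ := by
      have h3 := norm_sub_norm_le (l * z.1) (l * z.1 - (A z).1)
      rw [sub_sub_cancel, norm_sub_rev (l * z.1)] at h3
      exact h3
    rw [norm_mul] at h2
    have h3 : 2 * ‖z.1‖ ≤ ‖l‖ * ‖z.1‖ := mul_le_mul_of_nonneg_right hl (norm_nonneg _)
    linarith
  have upp : ∀ z : E, ‖(A z).2‖ ≤ 1 / 2 * ‖z.2‖ + 1 / 8 * ‖z‖ := by
    intro z
    have h1 := (key z).2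
    have h2 : ‖(A z).2‖ ≤ ‖μ * z.2‖ + ‖(A z).2 - μ * z.2‖ := by
      have h3 := norm_add_le (μ * z.2) ((A z).2 - μ * z.2)
      rwa [add_sub_cancel] at h3
    rw [norm_mul] at h2
    have h3 : ‖μ‖ * ‖z.2‖ ≤ 1 / 2 * ‖z.2‖ := mul_le_mul_of_nonneg_right hμ (norm_nonneg _)
    linarith
  have hmax : ∀ z : E, ‖z‖ = max ‖z.1‖ ‖z.2‖ := fun z => rfl
  constructor
  · intro z hz
    have h1 := low z
    have h2 := upp z
    rw [hmax, max_eq_left hz] at h1 h2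
    have h3 := norm_nonneg z.1
    constructor
    · linarith
    · linarith
  · intro z hz
    have h1 := low z
    have h2 := upp z
    have h3 := norm_nonneg z.1
    rcases le_total ‖z.1‖ ‖z.2‖ with h4 | h4
    · refine ⟨h4, ?_⟩
      rw [hmax, max_eq_right h4] at h2
      linarith
    · rw [hmax, max_eq_left h4] at h1 h2
      have h5 : ‖z.1‖ ≤ 0 := by linarith
      have h6 : ‖z.1‖ = 0 := le_antisymm h5 h3
      have h7 : ‖z.2‖ = 0 := le_antisymm (h4.trans h5) (norm_nonneg _)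
      rw [h6, h7] at h2 ⊢
      refine ⟨le_rfl, ?_⟩
      have h8 := norm_nonneg (A z).2
      linarith

theorem HypL_eig {A B : E →L[ℂ] E} {κ : ℝ} (hκ : 1 < κ) (hA : HypL A κ)
    (hBA : ∀ z, B (A z) = z) (hAB : ∀ z, A (B z) = z) :
    (∃ l : ℂ, 1 < ‖l‖ ∧ Module.End.HasEigenvalue A.toLinearMap l) ∧
      ∃ l : ℂ, 1 < ‖l‖ ∧ Module.End.HasEigenvalue B.toLinearMap l := by
  have hκ0 : 0 ≤ κ := by linarith
  constructor
  · apply eig_of_growth A one_pos hκ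
    intro n
    have h1 : ‖((A ^ n) ((1, 0) : E)).2‖ ≤ ‖((A ^ n) ((1, 0) : E)).1‖ ∧
        κ ^ n ≤ ‖((A ^ n) ((1, 0) : E)).1‖ := by
      induction n with
      | zero =>
        simp
      | succ n ih =>
        have e1 : (A ^ (n + 1)) ((1, 0) : E) = A ((A ^ n) ((1, 0) : E)) := by
          rw [pow_succ']
          rfl
        rw [e1]
        obtain ⟨h1, h2⟩ := hA.u _ ih.1
        refine ⟨h1, ?_⟩
        calc κ ^ (n + 1) = κ * κ ^ n := by ring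
          _ ≤ κ * ‖((A ^ n) ((1, 0) : E)).1‖ := mul_le_mul_of_nonneg_left ih.2 hκ0
          _ ≤ _ := h2
    rw [one_mul]
    have h2 : ‖(A ^ n) ((1, 0) : E)‖ ≤ ‖A ^ n‖ * ‖((1, 0) : E)‖ := (A ^ n).le_opNorm _
    have h3 : ‖((1, 0) : E)‖ = 1 := by
      rw [Prod.norm_def]
      simp
    rw [h3, mul_one] at h2
    exact h1.2.trans ((norm_fst_le _).trans h2)
  · apply eig_of_growth B one_pos hκ
    intro n
    have h1 : ‖((B ^ n) ((0, 1) : E)).1‖ ≤ ‖((B ^ n) ((0, 1) : E)).2‖ ∧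
        κ ^ n ≤ ‖((B ^ n) ((0, 1) : E)).2‖ := by
      induction n with
      | zero =>
        simp
      | succ n ih =>
        have e1 : (B ^ (n + 1)) ((0, 1) : E) = B ((B ^ n) ((0, 1) : E)) := by
          rw [pow_succ']
          rfl
        have e2 : A ((B ^ (n + 1)) ((0, 1) : E)) = (B ^ n) ((0, 1) : E) := by
          rw [e1, hAB]
        obtain ⟨h1, h2⟩ := hA.s ((B ^ (n + 1)) ((0, 1) : E)) (by rw [e2]; exact ih.1)
        refine ⟨h1, ?_⟩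
        rw [e2] at h2
        calc κ ^ (n + 1) = κ * κ ^ n := by ring
          _ ≤ κ * ‖((B ^ n) ((0, 1) : E)).2‖ := mul_le_mul_of_nonneg_left ih.2 hκ0
          _ ≤ _ := h2
    rw [one_mul]
    have h2 : ‖(B ^ n) ((0, 1) : E)‖ ≤ ‖B ^ n‖ * ‖((0, 1) : E)‖ := (B ^ n).le_opNorm _
    have h3 : ‖((0, 1) : E)‖ = 1 := by
      rw [Prod.norm_def]
      simp
    rw [h3, mul_one] at h2
    exact h1.2.trans ((norm_snd_le _).trans h2)

end Pool.Agent.HQ
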