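import Pool.Agent.HQD.Defs
import Pool.Agent.HQD.ZCone

/-!
# HQD module ZSad: a hyperbolic fixed point of an iterate is a saddle point
-/

set_option autoImplicit false

open Filter Topology Set Metric

namespace Pool.Agent.HQ

theorem ZSad_conj {A B D : E →L[ℂ] E} (hBA : ∀ z, B (A z) = z) (hAB : ∀ z, A (B z) = z) {l : ℂ}
    (h : Module.End.HasEigenvalue (B.comp (D.comp A)).toLinearMap l) :
    ∃ v : E, v ≠ 0 ∧ D v = l • v := by
  obtain ⟨v, hv⟩ := h.exists_hasEigenvector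
  have hv1 : B (D (A v)) = l • v := hv.apply_eq_smul
  refine ⟨A v, ?_, ?_⟩
  · intro h0
    have h1 := hBA v
    rw [h0, map_zero] at h1
    exact hv.2 h1.symm
  · rw [← hAB (D (A v)), hv1, map_smul]

theorem ZSad_eig {D : E →L[ℂ] E} {l : ℂ} {v : E} (hv : v ≠ 0) (h : D v = l • v) :
    Module.End.HasEigenvalue D.toLinearMap l := by
  apply Module.End.hasEigenvalue_of_hasEigenvector (x := v)
  rw [Module.End.hasEigenvector_iff, Module.End.mem_eigenspace_iff]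
  exact ⟨h, hv⟩

theorem sad_of_hyp (S : Sys) {p : E} {N : ℕ} (hN : 0 < N) (hp : (S.F ^ N) p = p)
    {A B : E →L[ℂ] E} (hBA : ∀ z, B (A z) = z) (hAB : ∀ z, A (B z) = z) {κ : ℝ} (hκ : 1 < κ)
    (h : HypL (B.comp ((fderiv ℂ (⇑(S.F ^ N)) p).comp A)) κ) : p ∈ Sad S.F := by
  have hA := diff_pow S.dF N
  have hB := diff_pow S.dG N
  have e1 : ∀ x, (S.F⁻¹ ^ N) ((S.F ^ N) x) = x := by
    intro x
    rw [inv_pow]
    exact (S.F ^ N).symm_apply_apply x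
  have e2 : ∀ x, (S.F ^ N) ((S.F⁻¹ ^ N) x) = x := by
    intro x
    rw [inv_pow]
    exact (S.F ^ N).apply_symm_apply x
  have hp' : (S.F⁻¹ ^ N) p = p := by
    have := e1 p
    rwa [hp] at this
  have k1 : ∀ v : E, fderiv ℂ (⇑(S.F⁻¹ ^ N)) p (fderiv ℂ (⇑(S.F ^ N)) p v) = v := by
    intro v
    have := fderiv_inv_comp (p := p) hA hB e1 v
    rwa [hp] at this
  have k2 : ∀ v : E, fderiv ℂ (⇑(S.F ^ N)) p (fderiv ℂ (⇑(S.F⁻¹ ^ N)) p v) = v := by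
    intro v
    have := fderiv_inv_comp (p := p) hB hA e2 v
    rwa [hp'] at this
  obtain ⟨⟨l, hl, hle⟩, m, hm, hme⟩ := HypL_eig
    (B := B.comp ((fderiv ℂ (⇑(S.F⁻¹ ^ N)) p).comp A)) hκ h (by
      intro z
      change B (fderiv ℂ (⇑(S.F⁻¹ ^ N)) p (A (B (fderiv ℂ (⇑(S.F ^ N)) p (A z))))) = z
      rw [hAB, k1, hBA]) (by
      intro z
      change B (fderiv ℂ (⇑(S.F ^ N)) p (A (B (fderiv ℂ (⇑(S.F⁻¹ ^ N)) p (A z))))) = z
      rw [hAB, k2, hBA])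
  obtain ⟨v, hv, hv1⟩ := ZSad_conj hBA hAB hle
  obtain ⟨w, hw, hw1⟩ := ZSad_conj hBA hAB hme
  have hm0 : m ≠ 0 := by
    intro h0
    rw [h0, norm_zero] at hm
    linarith
  refine ⟨N, hN, hp, l, m⁻¹, hl, ?_, ZSad_eig hv hv1, ZSad_eig hw ?_⟩
  · rw [norm_inv]
    exact inv_lt_one_of_one_lt₀ hm
  · have h3 := k2 w
    rw [hw1, map_smul] at h3
    rw [← h3, smul_smul, inv_mul_cancel₀ hm0, one_smul, h3]

end Pool.Agent.HQ
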