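import Pool.Agent.HQD.Defs
import Pool.Agent.HQD.ZUch
import Pool.Agent.HQD.ZBan
import Pool.Agent.HQD.ZCone
import Pool.Agent.HQD.ZSad

/-!
# HQD module ZClose: saddle points near the cocycle
-/

set_option autoImplicit false

open Filter Topology Set Metric

namespace Pool.Agent.HQ

/-- two close terms of a bounded sequence -/
theorem ZClose_pair {u : ℕ → E × E} {R : ℝ} (hu : ∀ i, ‖u i‖ ≤ R) {θ : ℝ} (hθ : 0 < θ) :
    ∃ i j : ℕ, i < j ∧ ‖u i - u j‖ ≤ θ := by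
  have hc : IsCompact (closedBall (0 : E × E) R) := isCompact_closedBall _ _
  obtain ⟨a, -, φ, hφ, ha⟩ := hc.tendsto_subseq (x := u) (fun i => by
    rw [mem_closedBall, dist_zero_right]
    exact hu i)
  have hcau := ha.cauchySeq
  rw [Metric.cauchySeq_iff] at hcau
  obtain ⟨N, hN⟩ := hcau θ hθ
  refine ⟨φ N, φ (N + 1), hφ (Nat.lt_succ_self N), ?_⟩
  have h1 := hN N le_rfl (N + 1) (Nat.le_succ N)
  rw [dist_eq_norm] at h1
  exact h1.le

theorem ZClose_hyp_one {Q : ℝ} (hQ : Q ≠ 0) {v : E} (hv : v ≠ 0) :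
    HypL ((chartInv Q v).comp ((ContinuousLinearMap.id ℂ E).comp (chart Q v))) 1 := by
  have h1 : ∀ z, ((chartInv Q v).comp ((ContinuousLinearMap.id ℂ E).comp (chart Q v))) z = z := by
    intro z
    exact chart_left hQ hv z
  constructor
  · intro z hz
    rw [h1, one_mul]
    exact ⟨hz, le_rfl⟩
  · intro z hz
    rw [h1] at hz ⊢
    rw [one_mul]
    exact ⟨hz, le_rfl⟩

/-- the closing argument for a cyclic pseudo orbit -/
theorem ZClose_cyc (S : Sys) {L : ℕ} [NeZero L] {Q ε : ℝ} (hQ : Q ≠ 0) (hε : 0 < ε)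
    (X V : ZMod L → E) (hV : ∀ k, V k ≠ 0) (N : ZMod L → ℕ) (hN : ∀ k, 1 ≤ N k)
    (l μ : ZMod L → ℂ) (hl : ∀ k, 2 ≤ ‖l k‖) (hμ : ∀ k, ‖μ k‖ ≤ 1 / 2)
    (hD : ∀ k z, ‖z‖ ≤ ε → ‖(chartInv Q (V (k + 1))).comp
            ((fderiv ℂ (⇑(S.F ^ N k)) (X k + chart Q (V k) z)).comp (chart Q (V k))) -
            dg (l k) (μ k)‖ ≤ 1 / 8)
    (h0 : ∀ k, ‖chartInv Q (V (k + 1)) ((S.F ^ N k) (X k) - X (k + 1))‖ ≤ ε / 8) :
    ∃ z : E, ‖z‖ ≤ ε ∧ X 0 + chart Q (V 0) z ∈ Sad S.F := by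
  -- the maps in the charts
  have hdiff : ∀ k, Differentiable ℂ (fun z : E =>
      (S.F ^ N k) (X k + chart Q (V k) z) - X (k + 1)) := by
    intro k
    exact ((diff_pow S.dF (N k)).comp ((chart Q (V k)).differentiable.const_add (X k))).sub_const _
  have hfd : ∀ k z, HasFDerivAt (fun z : E =>
      chartInv Q (V (k + 1)) ((S.F ^ N k) (X k + chart Q (V k) z) - X (k + 1)))
      ((chartInv Q (V (k + 1))).comp
        ((fderiv ℂ (⇑(S.F ^ N k)) (X k + chart Q (V k) z)).comp (chart Q (V k)))) z := by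
    intro k z
    have h1 : HasFDerivAt (fun z : E => X k + chart Q (V k) z) (chart Q (V k)) z :=
      (chart Q (V k)).hasFDerivAt.const_add (X k)
    have h2 : HasFDerivAt (⇑(S.F ^ N k)) (fderiv ℂ (⇑(S.F ^ N k)) (X k + chart Q (V k) z))
        (X k + chart Q (V k) z) := (diff_pow S.dF (N k) _).hasFDerivAt
    have h3 := (h2.comp z h1).sub_const (X (k + 1))
    exact (chartInv Q (V (k + 1))).hasFDerivAt.comp z h3
  obtain ⟨z, hz, hGz⟩ := closing (fun k z =>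
      chartInv Q (V (k + 1)) ((S.F ^ N k) (X k + chart Q (V k) z) - X (k + 1))) hε l μ hl hμ
      (fun k => (chartInv Q (V (k + 1))).differentiable.comp (hdiff k))
      (fun k z hz => by
        rw [(hfd k z).fderiv]
        exact hD k z hz)
      (fun k => by
        show ‖chartInv Q (V (k + 1)) ((S.F ^ N k) (X k + chart Q (V k) 0) - X (k + 1))‖ ≤ ε / 8
        rw [map_zero, add_zero]
        exact h0 k)
  -- the orbit
  obtain ⟨p, hp⟩ : ∃ p : ZMod L → E, ∀ k, p k = X k + chart Q (V k) (z k) := ⟨_, fun _ => rfl⟩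
  have hstep : ∀ k, (S.F ^ N k) (p k) = p (k + 1) := by
    intro k
    have h1 := congrArg (chart Q (V (k + 1))) (hGz k)
    rw [chart_right hQ (hV (k + 1))] at h1
    rw [hp (k + 1), ← h1, hp k]
    abel
  obtain ⟨T, hT0, hTs⟩ : ∃ T : ℕ → ℕ, T 0 = 0 ∧ ∀ m, T (m + 1) = N (m : ZMod L) + T m :=
    ⟨fun m => Nat.rec 0 (fun m r => N (m : ZMod L) + r) m, rfl, fun _ => rfl⟩
  have horb : ∀ m : ℕ, (S.F ^ T m) (p 0) = p (m : ZMod L) := by
    intro m
    induction m with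
    | zero => rw [hT0, pow_zero, Nat.cast_zero]; rfl
    | succ m ih =>
      rw [hTs, pow_add, Equiv.Perm.mul_apply, ih, hstep, Nat.cast_succ]
  have hhyp : ∀ m : ℕ, HypL ((chartInv Q (V (m : ZMod L))).comp
      ((fderiv ℂ (⇑(S.F ^ T m)) (p 0)).comp (chart Q (V 0)))) ((8 / 5) ^ m) := by
    intro m
    induction m with
    | zero =>
      have h1 : (⇑(S.F ^ T 0) : E → E) = id := by
        funext y
        rw [hT0, pow_zero]
        rfl
      rw [h1, fderiv_id, pow_zero, Nat.cast_zero]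
      exact ZClose_hyp_one hQ (hV 0)
    | succ m ih =>
      have h1 : (⇑(S.F ^ T (m + 1)) : E → E) = ⇑(S.F ^ N (m : ZMod L)) ∘ ⇑(S.F ^ T m) := by
        funext y
        rw [hTs, pow_add]
        rfl
      have h2 : fderiv ℂ (⇑(S.F ^ T (m + 1))) (p 0) =
          (fderiv ℂ (⇑(S.F ^ N (m : ZMod L))) (p (m : ZMod L))).comp
            (fderiv ℂ (⇑(S.F ^ T m)) (p 0)) := by
        rw [h1, fderiv_comp _ (diff_pow S.dF _ _) (diff_pow S.dF _ _), horb]
      have h3 := hD (m : ZMod L) (z (m : ZMod L)) (hz _)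
      rw [← hp] at h3
      have h4 := HypL_near (hl _) (hμ _) h3
      have h5 := HypL_comp (by positivity) (by norm_num) ih h4
      have h6 : (chartInv Q (V ((m + 1 : ℕ) : ZMod L))).comp
          ((fderiv ℂ (⇑(S.F ^ T (m + 1))) (p 0)).comp (chart Q (V 0))) =
          ((chartInv Q (V ((m : ZMod L) + 1))).comp
            ((fderiv ℂ (⇑(S.F ^ N (m : ZMod L))) (p (m : ZMod L))).comp
              (chart Q (V (m : ZMod L))))).comp
          ((chartInv Q (V (m : ZMod L))).comp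
            ((fderiv ℂ (⇑(S.F ^ T m)) (p 0)).comp (chart Q (V 0)))) := by
        rw [h2, Nat.cast_succ]
        apply ContinuousLinearMap.ext
        intro w
        simp only [ContinuousLinearMap.comp_apply, chart_right hQ (hV (m : ZMod L))]
      rw [h6, pow_succ]
      exact h5
  have hL : 0 < L := Nat.pos_of_ne_zero (NeZero.ne L)
  refine ⟨z 0, hz 0, ?_⟩
  rw [← hp]
  have hTpos : 0 < T L := by
    obtain ⟨m, rfl⟩ : ∃ m, L = m + 1 := ⟨L - 1, by omega⟩
    rw [hTs]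
    have := hN (m : ZMod (m + 1))
    omega
  have e1 : ((L : ℕ) : ZMod L) = 0 := ZMod.natCast_self L
  have h1 := hhyp L
  have h2 := horb L
  rw [e1] at h1 h2
  refine sad_of_hyp S hTpos h2 (chart_left hQ (hV 0)) (chart_right hQ (hV 0)) ?_ h1
  exact one_lt_pow₀ (by norm_num) hL.ne'

theorem saddle_near (S : Sys) (hdet : S.Det) {q : ℕ} {c₁ c₂ : ℝ} (hc : 0 < c₁)
    {x v : ℕ → E} {n : ℕ → ℕ} {l : ℕ → ℂ} (hP : ∀ i, S.P (x i) = 0) (hM : ∀ i, S.M (x i) = 0)
    (hv : ∀ i, c₁ ≤ ‖v i‖ ∧ ‖v i‖ ≤ c₂) (hn : ∀ i, 1 ≤ n i ∧ n i ≤ q) (hl : ∀ i, 2 ≤ ‖l i‖)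
    (hx : ∀ i, x (i + 1) = (S.F ^ n i) (x i))
    (hD : ∀ i, fderiv ℂ (⇑(S.F ^ n i)) (x i) (v i) = l i • v (i + 1)) {δ : ℝ} (hδ : 0 < δ) :
    ∃ i, ∃ p ∈ Sad S.F, ‖p - x i‖ < δ := by
  obtain ⟨Q, ε, θ, hQ1, hε, hθ, hch, hmain⟩ :=
    unifChart S hdet (q := q) (c₂ := c₂) hc (half_pos hδ)
  obtain ⟨R, hR⟩ := S.K_bdd
  obtain ⟨i, j, hij, huv⟩ := ZClose_pair (u := fun i => (x i, v i)) (R := max R c₂)
    (fun i => by
      rw [Prod.norm_mk]
      exact max_le_max (hR _ (hP i) (hM i)) (hv i).2) hθ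
  have hxx : ‖x i - x j‖ ≤ θ := (norm_fst_le ((x i, v i) - (x j, v j))).trans huv
  have hvv : ‖v i - v j‖ ≤ θ := (norm_snd_le ((x i, v i) - (x j, v j))).trans huv
  have hL : 0 < j - i := by omega
  have : NeZero (j - i) := ⟨hL.ne'⟩
  have hQ : Q ≠ 0 := by linarith
  have hv0 : ∀ m, v m ≠ 0 := by
    intro m h
    have := (hv m).1
    rw [h, norm_zero] at this
    linarith
  -- the cyclic sequences
  have hval : ∀ k : ZMod (j - i), (x (i + (k + 1).val) = x (i + k.val + 1) ∧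
      v (i + (k + 1).val) = v (i + k.val + 1)) ∨
      (x (i + (k + 1).val) = x i ∧ v (i + (k + 1).val) = v i ∧ i + k.val + 1 = j) := by
    intro k
    have hk := ZMod.val_lt k
    have h1 : (k + 1).val = (k.val + 1) % (j - i) := by
      rw [ZMod.val_add, ZMod.val_one_eq_one_mod, Nat.add_mod_mod]
    by_cases h2 : k.val + 1 < j - i
    · left
      rw [h1, Nat.mod_eq_of_lt h2]
      exact ⟨rfl, rfl⟩
    · right
      have h3 : k.val + 1 = j - i := by omega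
      rw [h1, h3, Nat.mod_self]
      exact ⟨rfl, rfl, by omega⟩
  have hx' : ∀ k : ZMod (j - i), ‖x (i + (k + 1).val) - (S.F ^ n (i + k.val)) (x (i + k.val))‖ ≤ θ := by
    intro k
    rw [← hx]
    rcases hval k with ⟨h1, -⟩ | ⟨h1, -, h2⟩
    · rw [h1, sub_self, norm_zero]
      exact hθ.le
    · rw [h1, h2]
      exact hxx
  have hv' : ∀ k : ZMod (j - i), ‖v (i + (k + 1).val) - v (i + k.val + 1)‖ ≤ θ := by
    intro k
    rcases hval k with ⟨-, h1⟩ | ⟨-, h1, h2⟩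
    · rw [h1, sub_self, norm_zero]
      exact hθ.le
    · rw [h1, h2]
      exact hvv
  have key : ∀ k : ZMod (j - i), _ := fun k => hmain (x (i + k.val)) (x (i + (k + 1).val))
    (v (i + k.val)) (v (i + k.val + 1)) (v (i + (k + 1).val)) (n (i + k.val)) (l (i + k.val))
    (hP _) (hM _) (hn _).1 (hn _).2 (hv _).1 (hv _).2 (hv _).1 (hv _).2 (hv _).1 (hv _).2 (hl _)
    (hD _) (hv' k) (hx' k)
  choose μ hμ hDk h0 using key
  obtain ⟨z, hz, hp⟩ := ZClose_cyc S (L := j - i) hQ hε (fun k => x (i + k.val))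
    (fun k => v (i + k.val)) (fun k => hv0 _) (fun k => n (i + k.val)) (fun k => (hn _).1)
    (fun k => l (i + k.val)) μ (fun k => hl _) hμ hDk h0
  have e0 : i + (0 : ZMod (j - i)).val = i := by
    rw [ZMod.val_zero, add_zero]
  rw [e0] at hp
  refine ⟨i, _, hp, ?_⟩
  rw [add_sub_cancel_left]
  have := hch (v i) z (hv i).1 (hv i).2 hz
  linarith

end Pool.Agent.HQ
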