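import Pool.Agent.HQD.Defs
import Pool.Agent.HQ.Mont
import Pool.Agent.HQ.UBas
import Pool.Agent.HQD.ZClo

/-!
# HQD module ZCpt: compactness of the classes
-/

set_option autoImplicit false

open Filter Topology Set Metric

namespace Pool.Agent.HQ

theorem entire_cpt (S : Sys) {B : ℝ → ℝ} (hB : Monotone B) {g : ℕ → ℂ → E}
    (hd : ∀ n, Differentiable ℂ (g n)) (hP : ∀ n z, S.P (g n z) ≤ B ‖z‖)
    (hM : ∀ n z, S.M (g n z) ≤ B ‖z‖) :
    ∃ φ : ℕ → ℕ, StrictMono φ ∧ ∃ h : ℂ → E, Differentiable ℂ h ∧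
      TendstoLocallyUniformly (fun n => g (φ n)) h atTop := by
  obtain ⟨φ, hφ, h, hh, hl⟩ := montel isOpen_univ g (fun n => (hd n).differentiableOn) (by
    intro z _
    obtain ⟨R, hR⟩ := S.sub_bdd (B (‖z‖ + 1))
    refine ⟨1, one_pos, R, fun n w hw _ => ?_⟩
    have hw' : ‖w‖ ≤ ‖z‖ + 1 := by
      have h1 : w = z + (w - z) := by ring
      rw [h1]
      refine (norm_add_le _ _).trans ?_
      rw [mem_ball, dist_eq_norm] at hw
      linarith
    exact hR _ ((hP n w).trans (hB hw')) ((hM n w).trans (hB hw')))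
  refine ⟨φ, hφ, h, differentiableOn_univ.1 hh, ?_⟩
  exact tendstoLocallyUniformlyOn_univ.1 hl

theorem ZCpt_diff {g : ℕ → ℂ → E} (hg : ∀ n, Differentiable ℂ (g n)) {h : ℂ → E}
    (hl : TendstoLocallyUniformly g h atTop) : Differentiable ℂ h := by
  have h1 := (tendstoLocallyUniformlyOn_univ.2 hl).differentiableOn
    (Eventually.of_forall fun n => (hg n).differentiableOn) isOpen_univ
  exact differentiableOn_univ.1 h1

theorem ZCpt_pt {g : ℕ → ℂ → E} {h : ℂ → E} (hl : TendstoLocallyUniformly g h atTop) (z : ℂ) :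
    Tendsto (fun n => g n z) atTop (𝓝 (h z)) :=
  (tendstoLocallyUniformlyOn_univ.2 hl).tendsto_at (mem_univ z)

/-- values of `P` at points of a compact disc -/
theorem ZCpt_att (S : Sys) {g : ℕ → ℂ → E} {h : ℂ → E} (hh : Continuous h)
    (hl : TendstoLocallyUniformly g h atTop) {R : ℝ} (hR : ∀ n, ∃ z, ‖z‖ ≤ R ∧ S.P (g n z) = 1) :
    ∃ z, ‖z‖ ≤ R ∧ S.P (h z) = 1 := by
  choose z hz hz1 using hR
  obtain ⟨w, hw, φ, hφ, hlim⟩ := (isCompact_closedBall (0 : ℂ) R).tendsto_subseq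
    (x := z) (fun n => mem_closedBall_zero_iff.2 (hz n))
  refine ⟨w, mem_closedBall_zero_iff.1 hw, ?_⟩
  have h1 : TendstoLocallyUniformly (fun n => g (φ n)) h atTop := by
    intro u hu x
    obtain ⟨t, ht, h2⟩ := hl u hu x
    exact ⟨t, ht, hφ.tendsto_atTop.eventually h2⟩
  have h2 : Tendsto (fun n => g (φ n) (z (φ n))) atTop (𝓝 (h w)) :=
    h1.tendsto_comp hh.continuousAt hlim
  have h3 : Tendsto (fun n => S.P (g (φ n) (z (φ n)))) atTop (𝓝 (S.P (h w))) :=
    (S.cP.tendsto _).comp h2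
  have h4 : (fun n => S.P (g (φ n) (z (φ n)))) = fun _ => (1 : ℝ) := by
    funext n
    exact hz1 (φ n)
  rw [h4] at h3
  exact tendsto_nhds_unique h3 tendsto_const_nhds

theorem CC_lim (S : Sys) {g : ℕ → ℂ → E} (hg : ∀ n, S.CC (g n)) {h : ℂ → E}
    (hl : TendstoLocallyUniformly g h atTop) : S.CC h := by
  have hd : Differentiable ℂ h := ZCpt_diff (fun n => (hg n).diff) hl
  have hP : ∀ z, Tendsto (fun n => S.P (g n z)) atTop (𝓝 (S.P (h z))) := fun z =>
    (S.cP.tendsto _).comp (ZCpt_pt hl z)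
  have hM : ∀ z, Tendsto (fun n => S.M (g n z)) atTop (𝓝 (S.M (h z))) := fun z =>
    (S.cM.tendsto _).comp (ZCpt_pt hl z)
  refine ⟨hd, fun z => ?_, ?_, fun z hz => ?_, ?_, fun z hz => ?_⟩
  · have h1 : (fun n => S.M (g n z)) = fun _ => (0 : ℝ) := by
      funext n
      exact (hg n).M0 z
    have h2 := hM z
    rw [h1] at h2
    exact tendsto_nhds_unique h2 tendsto_const_nhds
  · have h1 : (fun n => S.P (g n 0)) = fun _ => (0 : ℝ) := by
      funext n
      exact (hg n).P0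
    have h2 := hP 0
    rw [h1] at h2
    exact tendsto_nhds_unique h2 tendsto_const_nhds
  · exact le_of_tendsto (hP z) (Eventually.of_forall fun n => (hg n).le1 z hz)
  · exact ZCpt_att S hd.continuous hl fun n => (hg n).eq1
  · exact le_of_tendsto (hP z) (Eventually.of_forall fun n => (hg n).gr z hz)

/-- the growth bound of the class `CC` -/
theorem ZCpt_CCP (S : Sys) {g : ℂ → E} (hg : S.CC g) (z : ℂ) :
    S.P (g z) ≤ S.d * (max 1 ‖z‖) ^ 2 := by
  rcases le_total ‖z‖ 1 with h | h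
  · rw [max_eq_left h]
    have h1 := hg.le1 z h
    have h2 := S.hd
    linarith
  · rw [max_eq_right h]
    exact hg.gr z h

theorem ZCpt_mono1 (S : Sys) : Monotone fun x : ℝ => S.d * (max 1 x) ^ 2 := by
  intro x y hxy
  have h1 : (max 1 x) ^ 2 ≤ (max 1 y) ^ 2 :=
    pow_le_pow_left₀ (by positivity) (max_le_max le_rfl hxy) 2
  exact mul_le_mul_of_nonneg_left h1 S.d_pos.le

theorem CC_cpt (S : Sys) {g : ℕ → ℂ → E} (hg : ∀ n, S.CC (g n)) :
    ∃ φ : ℕ → ℕ, StrictMono φ ∧ ∃ h : ℂ → E, S.CC h ∧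
      TendstoLocallyUniformly (fun n => g (φ n)) h atTop := by
  obtain ⟨φ, hφ, h, -, hl⟩ := entire_cpt S (ZCpt_mono1 S) (g := g) (fun n => (hg n).diff)
    (fun n z => ZCpt_CCP S (hg n) z) (fun n z => by
      rw [(hg n).M0 z]
      have := S.d_pos
      positivity)
  exact ⟨φ, hφ, h, CC_lim S (fun n => hg (φ n)) hl, hl⟩

theorem HC_lim (S : Sys) {R : ℝ} (hR : 0 ≤ R) {g : ℕ → ℂ → E} (hg : ∀ n, S.HC R (g n))
    {h : ℂ → E} (hl : TendstoLocallyUniformly g h atTop) : S.HC R h := by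
  have _ := hR
  have hd : Differentiable ℂ h := ZCpt_diff (fun n => (hg n).diff) hl
  have hP : ∀ z, Tendsto (fun n => S.P (g n z)) atTop (𝓝 (S.P (h z))) := fun z =>
    (S.cP.tendsto _).comp (ZCpt_pt hl z)
  have hM : ∀ z, Tendsto (fun n => S.M (g n z)) atTop (𝓝 (S.M (h z))) := fun z =>
    (S.cM.tendsto _).comp (ZCpt_pt hl z)
  refine ⟨hd, fun z => ?_, ?_, ?_, fun z => ?_⟩
  · have h1 : (fun n => S.M (g n z)) = fun _ => (0 : ℝ) := by
      funext n
      exact (hg n).M0 z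
    have h2 := hM z
    rw [h1] at h2
    exact tendsto_nhds_unique h2 tendsto_const_nhds
  · have h1 : (fun n => S.P (g n 0)) = fun _ => (0 : ℝ) := by
      funext n
      exact (hg n).P0
    have h2 := hP 0
    rw [h1] at h2
    exact tendsto_nhds_unique h2 tendsto_const_nhds
  · exact ZCpt_att S hd.continuous hl fun n => (hg n).big
  · exact le_of_tendsto (hP z) (Eventually.of_forall fun n => (hg n).gr z)

theorem HC_cpt (S : Sys) {R : ℝ} (hR : 0 ≤ R) {g : ℕ → ℂ → E} (hg : ∀ n, S.HC R (g n)) :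
    ∃ φ : ℕ → ℕ, StrictMono φ ∧ ∃ h : ℂ → E, S.HC R h ∧
      TendstoLocallyUniformly (fun n => g (φ n)) h atTop := by
  have hmono : Monotone fun x : ℝ => S.d * (max 0 x + R + 1) ^ 2 := by
    intro x y hxy
    have h0 : 0 ≤ max 0 x := le_max_left _ _
    have h1 : (max 0 x + R + 1) ^ 2 ≤ (max 0 y + R + 1) ^ 2 := by
      refine pow_le_pow_left₀ (by positivity) ?_ 2
      have := max_le_max (le_refl (0 : ℝ)) hxy
      linarith
    exact mul_le_mul_of_nonneg_left h1 S.d_pos.le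
  obtain ⟨φ, hφ, h, -, hl⟩ := entire_cpt S hmono (g := g) (fun n => (hg n).diff)
    (fun n z => by
      have h1 := (hg n).gr z
      rw [max_eq_right (norm_nonneg z)]
      exact h1) (fun n z => by
      rw [(hg n).M0 z]
      have := S.d_pos
      positivity)
  exact ⟨φ, hφ, h, HC_lim S hR (fun n => hg (φ n)) hl, hl⟩

theorem CC_bdd (S : Sys) (R : ℝ) : ∃ C : ℝ, ∀ g, S.CC g → ∀ z : ℂ, ‖z‖ ≤ R → ‖g z‖ ≤ C := by
  obtain ⟨C, hC⟩ := S.sub_bdd (S.d * (max 1 R) ^ 2)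
  refine ⟨C, fun g hg z hz => hC _ ((ZCpt_CCP S hg z).trans (ZCpt_mono1 S hz)) ?_⟩
  rw [hg.M0 z]
  have := S.d_pos
  positivity

end Pool.Agent.HQ
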