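import Pool.Agent.HQD.Defs
import Pool.Agent.HQD.ZClo
import Pool.Agent.HQD.ZCpt

/-!
# HQD module ZExt: closures of extendable sets
-/

set_option autoImplicit false

open Filter Topology Set Metric

namespace Pool.Agent.HQ

theorem Clo_HC (S : Sys) {R : ℝ} (hR : 0 ≤ R) {A : Set (ℂ → E)} (hA : ∀ h ∈ A, S.HC R h) :
    ∀ h ∈ Clo A, S.HC R h := by
  intro h hh
  obtain ⟨g, hg, hl⟩ := mem_Clo_iff.1 hh
  exact HC_lim S hR (fun n => hA _ (hg n)) hl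

/-- subsequences of a locally uniformly convergent sequence -/
theorem ZExt_sub {g : ℕ → ℂ → E} {h : ℂ → E} (hl : TendstoLocallyUniformly g h atTop)
    {ψ : ℕ → ℕ} (hψ : Tendsto ψ atTop atTop) :
    TendstoLocallyUniformly (fun k => g (ψ k)) h atTop := by
  intro u hu x
  obtain ⟨t, ht, h1⟩ := hl u hu x
  exact ⟨t, ht, hψ.eventually h1⟩

theorem ext_Clo (S : Sys) {R σ : ℝ} {q : ℕ} (hR : 0 ≤ R) (hσ : 0 < σ) {A : Set (ℂ → E)}
    (hA : ∀ h ∈ A, S.HC R h) (hE : S.Ext q σ A) : S.Ext q σ (Clo A) := by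
  intro h hh
  have hHC := Clo_HC S hR hA h hh
  obtain ⟨g, hg, hl⟩ := mem_Clo_iff.1 hh
  choose n s hn1 hnq hsσ hs2 hmem using fun k => hE (g k) (hg k)
  have hc : IsCompact (Icc 1 q ×ˢ Icc σ (1 / 2 : ℝ) : Set (ℕ × ℝ)) :=
    isCompact_Icc.prod isCompact_Icc
  have hx : ∀ k, (n k, s k) ∈ (Icc 1 q ×ˢ Icc σ (1 / 2 : ℝ) : Set (ℕ × ℝ)) :=
    fun k => ⟨⟨hn1 k, hnq k⟩, hsσ k, hs2 k⟩
  obtain ⟨⟨n', s'⟩, hp, φ, hφ, hlim⟩ := hc.tendsto_subseq hx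
  have h1 : Tendsto (fun k => n (φ k)) atTop (𝓝 n') :=
    (continuous_fst.tendsto (n', s')).comp hlim
  have h2 : Tendsto (fun k => s (φ k)) atTop (𝓝 s') :=
    (continuous_snd.tendsto (n', s')).comp hlim
  rw [nhds_discrete, tendsto_pure] at h1
  obtain ⟨N, hN⟩ := eventually_atTop.1 h1
  have hψ : Tendsto (fun k : ℕ => k + N) atTop atTop := tendsto_add_atTop_nat N
  have hψ2 : Tendsto (fun k : ℕ => φ (k + N)) atTop atTop := hφ.tendsto_atTop.comp hψ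
  have h3 : Tendsto (fun k => ((s (φ (k + N)) : ℝ) : ℂ)) atTop (𝓝 (s' : ℂ)) :=
    (Complex.continuous_ofReal.tendsto s').comp (h2.comp hψ)
  have h4 := tlu_zoom S hHC.diff.continuous (ZExt_sub hl hψ2) n'
    (b := fun _ => 0) (b' := 0) tendsto_const_nhds h3
  refine ⟨n', s', hp.1.1, hp.1.2, hp.2.1, hp.2.2, ?_⟩
  rw [mem_Clo_iff]
  refine ⟨fun k z => (S.F ^ n') (g (φ (k + N)) (s (φ (k + N)) * z)), fun k => ?_, ?_⟩
  · have h5 := hmem (φ (k + N))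
    rwa [hN (k + N) (by omega)] at h5
  · simpa only [zero_add] using h4

theorem Clo_pass (S : Sys) {A : Set (ℂ → E)} {O : Set E} (hO : IsClosed O) {nm : ℕ}
    (hA : ∀ h ∈ A, ∃ m ≤ nm, (S.F ^ m) (h 0) ∈ O) :
    ∀ h ∈ Clo A, ∃ m ≤ nm, (S.F ^ m) (h 0) ∈ O := by
  intro h hh
  obtain ⟨g, hg, hl⟩ := mem_Clo_iff.1 hh
  by_contra hcon
  push Not at hcon
  have h0 : Tendsto (fun k => g k 0) atTop (𝓝 (h 0)) := (tendstoLocallyUniformlyOn_univ.2 hl).tendsto_at (mem_univ 0)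
  have h1 : ∀ m ∈ Finset.range (nm + 1), ∀ᶠ k in atTop, (S.F ^ m) (g k 0) ∉ O := by
    intro m hm
    have h2 : Tendsto (fun k => (S.F ^ m) (g k 0)) atTop (𝓝 ((S.F ^ m) (h 0))) :=
      ((S.diff_pow m).continuous.tendsto _).comp h0
    exact h2.eventually (hO.isOpen_compl.mem_nhds (hcon m (by
      have := Finset.mem_range.1 hm
      omega)))
  have h2 := (Finset.eventually_all _).2 h1
  obtain ⟨k, hk⟩ := h2.exists
  obtain ⟨m, hm, hmO⟩ := hA (g k) (hg k)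
  exact hk m (Finset.mem_range.2 (by omega)) hmO

theorem ext_P_pos (S : Sys) {R σ : ℝ} {q : ℕ} {A : Set (ℂ → E)} (hσ : 0 < σ)
    (hA : ∀ h ∈ A, S.HC R h) (hE : S.Ext q σ A) {h : ℂ → E} (hh : h ∈ A) {r : ℝ} (hr : 0 < r) :
    ∃ z ∈ ball (0 : ℂ) r, 0 < S.P (h z) := by
  by_contra hcon
  push Not at hcon
  have hz : ∀ z ∈ ball (0 : ℂ) r, S.P (h z) = 0 := fun z hz => le_antisymm (hcon z hz) (S.P0 _)
  have hind : ∀ i : ℕ, ∃ k ∈ A, ∀ z ∈ ball (0 : ℂ) (2 ^ i * r), S.P (k z) = 0 := by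
    intro i
    induction i with
    | zero => exact ⟨h, hh, by simpa only [pow_zero, one_mul] using hz⟩
    | succ i ih =>
      obtain ⟨k, hk, hk0⟩ := ih
      obtain ⟨n, s, -, -, hσs, hs2, hmem⟩ := hE k hk
      refine ⟨_, hmem, fun z hz' => ?_⟩
      rw [S.P_pow, hk0 (s * z) ?_, mul_zero]
      rw [mem_ball_zero_iff] at hz' ⊢
      rw [norm_mul, Complex.norm_real, Real.norm_of_nonneg (hσ.le.trans hσs)]
      have h1 : s * ‖z‖ ≤ 1 / 2 * ‖z‖ := mul_le_mul_of_nonneg_right hs2 (norm_nonneg z)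
      rw [pow_succ] at hz'
      linarith
  obtain ⟨i, hi⟩ := pow_unbounded_of_one_lt ((R + 1) / r) (one_lt_two : (1 : ℝ) < 2)
  rw [div_lt_iff₀ hr] at hi
  obtain ⟨k, hk, hk0⟩ := hind i
  obtain ⟨z, hzR, hz1⟩ := (hA k hk).big
  have h1 := hk0 z (mem_ball_zero_iff.2 (by linarith))
  rw [h1] at hz1
  exact zero_ne_one hz1

end Pool.Agent.HQ
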