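import Pool.Agent.HQD.Defs
import Pool.Agent.HQD.ZExt
import Pool.Agent.HQD.ZLead

/-!
# HQD module ZCoc: the cocycle
-/

set_option autoImplicit false

open Filter Topology Set Metric

namespace Pool.Agent.HQ

theorem cocyc (S : Sys) {R σ c₁ c₂ : ℝ} {q m : ℕ} (hm : 0 < m) (hσ : 0 < σ)
    {A : Set (ℂ → E)} (hA : ∀ h ∈ A, S.HC R h) (hE : S.Ext q σ A)
    (ho : ∀ h ∈ A, ordGe m h ∧ c₁ ≤ ‖iteratedDeriv m h 0‖ ∧ ‖iteratedDeriv m h 0‖ ≤ c₂)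
    (hne : A.Nonempty) :
    ∃ (h : ℕ → ℂ → E) (v : ℕ → E) (n : ℕ → ℕ) (l : ℕ → ℂ), ∀ i, h i ∈ A ∧ c₁ ≤ ‖v i‖ ∧
      ‖v i‖ ≤ c₂ ∧ 1 ≤ n i ∧ n i ≤ q ∧ 2 ≤ ‖l i‖ ∧ h (i + 1) 0 = (S.F ^ n i) (h i 0) ∧
      fderiv ℂ (⇑(S.F ^ n i)) (h i 0) (v i) = l i • v (i + 1) := by
  obtain ⟨h0, hh0⟩ := hne
  unfold Sys.Ext at hE
  choose! nn ss H using hE
  let h : ℕ → ℂ → E := fun i => Nat.rec h0
    (fun _ g => fun z : ℂ => (S.F ^ nn g) (g (ss g * z))) i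
  have hs : ∀ i, h (i + 1) = fun z : ℂ => (S.F ^ nn (h i)) (h i (ss (h i) * z)) := fun i => rfl
  have hmem : ∀ i, h i ∈ A := by
    intro i
    induction i with
    | zero => exact hh0
    | succ i ih =>
      rw [hs]
      exact (H (h i) ih).2.2.2.2
  refine ⟨h, fun i => iteratedDeriv m (h i) 0, fun i => nn (h i),
    fun i => (((ss (h i) : ℝ) : ℂ) ^ m)⁻¹, fun i => ?_⟩
  obtain ⟨H1, H2, H3, H4, -⟩ := H (h i) (hmem i)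
  have hpos : 0 < ss (h i) := hσ.trans_le H3
  have hle : ss (h i) ^ m ≤ 1 / 2 := by
    have h1 : ss (h i) ^ m ≤ ss (h i) ^ 1 :=
      pow_le_pow_of_le_one hpos.le (by linarith) hm
    rw [pow_one] at h1
    exact h1.trans H4
  have hpm : 0 < ss (h i) ^ m := pow_pos hpos m
  have hlead := lead_map (S.diff_pow (nn (h i))) (hA _ (hmem i)).diff ((ss (h i) : ℝ) : ℂ) hm
    (ho _ (hmem i)).1
  refine ⟨hmem i, (ho _ (hmem i)).2.1, (ho _ (hmem i)).2.2, H1, H2, ?_, ?_, ?_⟩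
  · show 2 ≤ ‖(((ss (h i) : ℝ) : ℂ) ^ m)⁻¹‖
    rw [norm_inv, norm_pow, Complex.norm_real, Real.norm_of_nonneg hpos.le,
      le_inv_comm₀ (by norm_num) hpm]
    linarith
  · rw [hs]
    show (S.F ^ nn (h i)) (h i (ss (h i) * 0)) = (S.F ^ nn (h i)) (h i 0)
    rw [mul_zero]
  · show fderiv ℂ (⇑(S.F ^ nn (h i))) (h i 0) (iteratedDeriv m (h i) 0) =
      (((ss (h i) : ℝ) : ℂ) ^ m)⁻¹ • iteratedDeriv m (h (i + 1)) 0
    rw [hs, hlead.2, smul_smul, inv_mul_cancel₀, one_smul]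
    rw [← Complex.ofReal_pow]
    exact_mod_cast hpm.ne'

end Pool.Agent.HQ
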