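import Pool.Agent.HQD.Defs
import Pool.Agent.HQD.ZClo
import Pool.Agent.HQD.ZCpt
import Pool.Agent.HQD.ZExt
import Pool.Agent.HQD.ZLead

/-!
# HQD module ZOrd: an extendable set of constant order
-/

set_option autoImplicit false

open Filter Topology Set Metric

namespace Pool.Agent.HQ

/-- every sequence of a closed set of recentred curves has a convergent subsequence in the set -/
theorem ZOrd_cpt (S : Sys) {R : ℝ} (hR : 0 ≤ R) {A : Set (ℂ → E)}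
    (hA : ∀ h ∈ A, S.HC R h) (hcl : Clo A ⊆ A) (g : ℕ → ℂ → E) (hg : ∀ n, g n ∈ A) :
    ∃ φ : ℕ → ℕ, StrictMono φ ∧ ∃ h ∈ A, ∀ i : ℕ,
      Tendsto (fun n => iteratedDeriv i (g (φ n)) 0) atTop (𝓝 (iteratedDeriv i h 0)) := by
  obtain ⟨φ, hφ, h, _, hl⟩ := HC_cpt S hR (fun n => hA _ (hg n))
  refine ⟨φ, hφ, h, hcl (mem_Clo_iff.2 ⟨fun n => g (φ n), fun n => hg _, hl⟩), fun i => ?_⟩
  exact FixA_lim i (fun n => g (φ n)) h (fun n => (hA _ (hg _)).diff) hl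

/-- the orders of the curves of a closed set are bounded -/
theorem ZOrd_bdd (S : Sys) {R : ℝ} (hR : 0 ≤ R) {A : Set (ℂ → E)}
    (hA : ∀ h ∈ A, S.HC R h) (hcl : Clo A ⊆ A) : ∃ m : ℕ, ¬ ∃ h ∈ A, ordGe m h := by
  by_contra hcon
  push Not at hcon
  choose g hg ho using hcon
  obtain ⟨φ, hφ, h, hh, hl⟩ := ZOrd_cpt S hR hA hcl g hg
  have h1 : ∀ m, ordGe m h := by
    intro m i hi _
    refine tendsto_nhds_unique (hl i) ?_
    refine tendsto_const_nhds.congr' ?_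
    filter_upwards [eventually_gt_atTop i] with n hn
    exact (ho (φ n) i hi (lt_of_lt_of_le hn (hφ.id_le n))).symm
  obtain ⟨z, _, hz⟩ := (hA h hh).big
  rw [ordGe_all (hA h hh).diff h1 z, (hA h hh).P0] at hz
  exact zero_ne_one hz

theorem ext_ord (S : Sys) {R σ : ℝ} {q : ℕ} (hR : 0 ≤ R) (hσ : 0 < σ) {A : Set (ℂ → E)}
    (hne : A.Nonempty) (hA : ∀ h ∈ A, S.HC R h) (hcl : Clo A ⊆ A) (hE : S.Ext q σ A) :
    ∃ (m : ℕ) (A' : Set (ℂ → E)) (c₁ c₂ : ℝ), 0 < m ∧ A' ⊆ A ∧ A'.Nonempty ∧ Clo A' ⊆ A' ∧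
      S.Ext q σ A' ∧ 0 < c₁ ∧
      ∀ h ∈ A', ordGe m h ∧ c₁ ≤ ‖iteratedDeriv m h 0‖ ∧ ‖iteratedDeriv m h 0‖ ≤ c₂ := by
  classical
  have hex := ZOrd_bdd S hR hA hcl
  obtain ⟨h₀, hh₀⟩ := hne
  obtain ⟨m, hm0, hQm, hQm1⟩ : ∃ m : ℕ, 0 < m ∧ (∃ h ∈ A, ordGe m h) ∧
      ¬ ∃ h ∈ A, ordGe (m + 1) h := by
    have h1 := Nat.find_spec hex
    have h2 : 2 ≤ Nat.find hex := by
      by_contra hlt
      apply h1
      refine ⟨h₀, hh₀, fun i hi hi' => ?_⟩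
      omega
    refine ⟨Nat.find hex - 1, by omega, ?_, ?_⟩
    · exact not_not.1 (Nat.find_min hex (by omega))
    · have h3 : Nat.find hex - 1 + 1 = Nat.find hex := by omega
      rw [h3]
      exact h1
  have hsub : {h | h ∈ A ∧ ordGe m h} ⊆ A := fun h hh => hh.1
  have hA' : ∀ h ∈ {h | h ∈ A ∧ ordGe m h}, S.HC R h := fun h hh => hA h hh.1
  have hcl' : Clo {h | h ∈ A ∧ ordGe m h} ⊆ {h | h ∈ A ∧ ordGe m h} := by
    intro h hh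
    refine ⟨hcl (Clo_mono hsub hh), ?_⟩
    obtain ⟨g, hg, hl⟩ := mem_Clo_iff.1 hh
    exact ordGe_lim (fun n => (hA' _ (hg n)).diff) hl fun n => (hg n).2
  obtain ⟨c₁, hc₁, hlow⟩ : ∃ c₁ > 0, ∀ h ∈ {h | h ∈ A ∧ ordGe m h},
      c₁ ≤ ‖iteratedDeriv m h 0‖ := by
    by_contra hcon
    push Not at hcon
    have h1 : ∀ n : ℕ, ∃ h ∈ {h | h ∈ A ∧ ordGe m h},
        ‖iteratedDeriv m h 0‖ < 1 / ((n : ℝ) + 1) := fun n =>
      hcon _ (by positivity)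
    choose g hg hn using h1
    obtain ⟨φ, hφ, h, hh, hl⟩ := ZOrd_cpt S hR hA' hcl' g hg
    apply hQm1
    refine ⟨h, hh.1, fun i hi hi' => ?_⟩
    rcases Nat.lt_succ_iff_lt_or_eq.1 hi' with h2 | h2
    · exact hh.2 i hi h2
    · subst h2
      refine tendsto_nhds_unique (hl i) ?_
      refine squeeze_zero_norm (fun n => (hn (φ n)).le) ?_
      exact tendsto_one_div_add_atTop_nhds_zero_nat.comp hφ.tendsto_atTop
  obtain ⟨c₂, hup⟩ : ∃ c₂ : ℝ, ∀ h ∈ {h | h ∈ A ∧ ordGe m h},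
      ‖iteratedDeriv m h 0‖ ≤ c₂ := by
    by_contra hcon
    push Not at hcon
    have h1 : ∀ n : ℕ, ∃ h ∈ {h | h ∈ A ∧ ordGe m h},
        (n : ℝ) < ‖iteratedDeriv m h 0‖ := fun n => hcon _
    choose g hg hn using h1
    obtain ⟨φ, hφ, h, hh, hl⟩ := ZOrd_cpt S hR hA' hcl' g hg
    refine not_tendsto_atTop_of_tendsto_nhds (hl m).norm ?_
    refine tendsto_atTop_mono (fun n => (hn (φ n)).le) ?_
    exact tendsto_natCast_atTop_atTop.comp hφ.tendsto_atTop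
  refine ⟨m, {h | h ∈ A ∧ ordGe m h}, c₁, c₂, hm0, hsub, hQm, hcl', ?_, hc₁,
    fun h hh => ⟨hh.2, hlow h hh, hup h hh⟩⟩
  intro h hh
  obtain ⟨n, s, hn, hnq, hs, hs', hmem⟩ := hE h hh.1
  exact ⟨n, s, hn, hnq, hs, hs', hmem,
    (lead_map (diff_pow S.dF n) (hA h hh.1).diff (s : ℂ) hm0 hh.2).1⟩

end Pool.Agent.HQ
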