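import Pool.Agent.HQD.Defs

/-!
# HQD module ZMx: maximum over a disc
-/

set_option autoImplicit false

open Filter Topology Set Metric

namespace Pool.Agent.HQ

theorem mx_cont {u : ℂ → ℝ} (hu : Continuous u) (b : ℂ) : Continuous (mx u b) := by
  unfold mx
  refine IsCompact.continuous_sSup (isCompact_closedBall (0 : ℂ) 1) ?_
  change Continuous fun p : ℝ × ℂ => u (b + p.1 * p.2)
  fun_prop

theorem ZMx_bdd {u : ℂ → ℝ} (hu : Continuous u) (b : ℂ) (s : ℝ) :
    BddAbove ((fun w : ℂ => u (b + s * w)) '' closedBall 0 1) :=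
  ((isCompact_closedBall (0 : ℂ) 1).image (by fun_prop)).bddAbove

theorem le_mx {u : ℂ → ℝ} (hu : Continuous u) {b t : ℂ} {s : ℝ} (h : ‖t - b‖ ≤ s) :
    u t ≤ mx u b s := by
  have hs : 0 ≤ s := (norm_nonneg _).trans h
  rcases hs.eq_or_lt with h0 | h0
  · have ht : t = b := by
      rw [← h0] at h
      exact sub_eq_zero.1 (norm_le_zero_iff.1 h)
    refine le_csSup (ZMx_bdd hu b s) ⟨0, mem_closedBall_self zero_le_one, ?_⟩
    rw [ht]
    simp
  · refine le_csSup (ZMx_bdd hu b s) ⟨(t - b) / s, ?_, ?_⟩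
    · rw [mem_closedBall_zero_iff, norm_div, Complex.norm_real, Real.norm_of_nonneg hs,
        div_le_one h0]
      exact h
    · have hc : (s : ℂ) ≠ 0 := by exact_mod_cast h0.ne'
      have : b + (s : ℂ) * ((t - b) / s) = t := by
        field_simp
        ring
      simp only [this]

theorem mx_att {u : ℂ → ℝ} (hu : Continuous u) (b : ℂ) {s : ℝ} (hs : 0 ≤ s) :
    ∃ t, ‖t - b‖ ≤ s ∧ u t = mx u b s := by
  obtain ⟨w, hw, hmax⟩ := (isCompact_closedBall (0 : ℂ) 1).exists_isMaxOn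
    ⟨0, mem_closedBall_self zero_le_one⟩
    (f := fun w : ℂ => u (b + s * w)) (by fun_prop)
  refine ⟨b + s * w, ?_, ?_⟩
  · rw [add_sub_cancel_left, norm_mul, Complex.norm_real, Real.norm_of_nonneg hs]
    have := mem_closedBall_zero_iff.1 hw
    nlinarith
  · refine le_antisymm (le_csSup (ZMx_bdd hu b s) ⟨w, hw, rfl⟩) ?_
    refine csSup_le ⟨_, ⟨w, hw, rfl⟩⟩ ?_
    rintro y ⟨v, hv, rfl⟩
    exact hmax hv

theorem mx_zero (u : ℂ → ℝ) (b : ℂ) : mx u b 0 = u b := by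
  unfold mx
  have h : (fun w : ℂ => u (b + ((0 : ℝ) : ℂ) * w)) = fun _ => u b := by
    funext w
    simp
  rw [h, Set.Nonempty.image_const ⟨0, mem_closedBall_self zero_le_one⟩]
  exact csSup_singleton _

theorem mx_mono {u : ℂ → ℝ} (hu : Continuous u) (b : ℂ) {s s' : ℝ} (h0 : 0 ≤ s) (h : s ≤ s') :
    mx u b s ≤ mx u b s' := by
  obtain ⟨t, ht, he⟩ := mx_att hu b h0
  rw [← he]
  exact le_mx hu (ht.trans h)

end Pool.Agent.HQ
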