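import Pool.Agent.HQD.Defs
import Pool.Agent.HQD.ZMx

/-!
# HQD module ZLow: lower bound at a nearest zero (Harnack)
-/

set_option autoImplicit false

open Filter Topology Set Metric

namespace Pool.Agent.HQ

theorem near_low (S : Sys) {g : ℂ → E} (hg : Differentiable ℂ g) {a b : ℂ} (hab : a ≠ b)
    (hpos : ∀ t ∈ ball a (dist a b), 0 < S.P (g t)) {s : ℝ} (hs : 0 < s) (hs' : s ≤ dist a b) :
    s / (2 * dist a b) * S.P (g a) ≤ mx (fun t => S.P (g t)) b s := by
  have hcont : Continuous fun t => S.P (g t) := S.cP.comp hg.continuous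
  set R := dist a b with hR
  have hR0 : 0 < R := dist_pos.2 hab
  set t : ℝ := s / R with ht
  have ht0 : 0 < t := by positivity
  have ht1 : t ≤ 1 := (div_le_one hR0).2 hs'
  set w : ℂ := b + (t : ℂ) * (a - b) with hw
  have hwb : ‖w - b‖ = s := by
    rw [hw, add_sub_cancel_left, norm_mul, Complex.norm_real, Real.norm_of_nonneg ht0.le,
      ← dist_eq_norm, ← hR, ht]
    field_simp
  have hwa : dist w a = (1 - t) * R := by
    have h1 : w - a = -(((1 - t : ℝ) : ℂ) * (a - b)) := by
      rw [hw]
      push_cast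
      ring
    rw [dist_eq_norm, h1, norm_neg, norm_mul, Complex.norm_real,
      Real.norm_of_nonneg (by linarith), ← dist_eq_norm, ← hR]
  have hin : w ∈ ball a R := by
    rw [mem_ball, hwa]
    nlinarith
  have h1 := (S.hP g a R hR0 hg.differentiableOn hpos w hin).1
  rw [hwa] at h1
  have h2 : s / (2 * R) = t / 2 := by
    rw [ht]
    field_simp
  have h3 : t / 2 ≤ (R - (1 - t) * R) / (R + (1 - t) * R) := by
    have h4 : 0 < R + (1 - t) * R := by nlinarith
    rw [le_div_iff₀ h4]
    nlinarith [mul_nonneg (mul_nonneg ht0.le ht0.le) hR0.le]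
  have h5 := le_mx hcont (b := b) (t := w) (s := s) hwb.le
  rw [h2]
  exact (mul_le_mul_of_nonneg_right h3 (S.P0 _)).trans (h1.trans h5)

end Pool.Agent.HQ
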