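import Pool.Agent.HQD.Defs
import Pool.Agent.HQD.ZCpt

/-!
# HQD module ZMod: uniform modulus of continuity at the zeros
-/

set_option autoImplicit false

open Filter Topology Set Metric

namespace Pool.Agent.HQ

theorem ZMod_cont {G : ℕ → ℂ → E} {η : ℂ → E} (hc : Continuous η)
    (h : TendstoLocallyUniformly G η atTop) {z : ℕ → ℂ} {w : ℂ}
    (hz : Tendsto z atTop (𝓝 w)) : Tendsto (fun n => G n (z n)) atTop (𝓝 (η w)) :=
  tendsto_comp_of_locally_uniform_limit hc.continuousAt hz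
    (fun u hu => by
      obtain ⟨t, ht, h2⟩ := h u hu w
      exact ⟨t, ht, h2⟩)

theorem CC_mod (S : Sys) (R : ℝ) {η : ℝ} (hη : 0 < η) :
    ∃ δ > 0, ∀ g, S.CC g → ∀ b t : ℂ, ‖b‖ ≤ R → S.P (g b) = 0 → ‖t - b‖ ≤ δ →
      S.P (g t) ≤ η := by
  by_contra hcon
  push Not at hcon
  have h1 : ∀ n : ℕ, ∃ g, S.CC g ∧ ∃ b t : ℂ, ‖b‖ ≤ R ∧ S.P (g b) = 0 ∧
      ‖t - b‖ ≤ 1 / ((n : ℝ) + 1) ∧ η < S.P (g t) := by
    intro n
    obtain ⟨g, hg, b, t, hb, h0, ht, hlt⟩ := hcon (1 / ((n : ℝ) + 1)) (by positivity)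
    exact ⟨g, hg, b, t, hb, h0, ht, hlt⟩
  choose g hg b t hb h0 ht hlt using h1
  obtain ⟨φ, hφ, h, hh, hl⟩ := CC_cpt S hg
  have hbk : ∀ n, b (φ n) ∈ closedBall (0 : ℂ) R := fun n => by
    rw [mem_closedBall, dist_zero_right]; exact hb _
  obtain ⟨β, -, ψ, hψ, hβ⟩ := (isCompact_closedBall (0 : ℂ) R).tendsto_subseq hbk
  have hφψ : StrictMono (φ ∘ ψ) := hφ.comp hψ
  have hl2 : TendstoLocallyUniformly (fun n => g (φ (ψ n))) h atTop := by
    intro u hu x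
    obtain ⟨s, hs, h2⟩ := hl u hu x
    exact ⟨s, hs, hψ.tendsto_atTop.eventually h2⟩
  have hb2 : Tendsto (fun n => b (φ (ψ n))) atTop (𝓝 β) := hβ
  have hd : Tendsto (fun n => t (φ (ψ n)) - b (φ (ψ n))) atTop (𝓝 0) := by
    apply squeeze_zero_norm (a := fun n => 1 / (((φ (ψ n) : ℕ) : ℝ) + 1))
    · intro n
      exact ht _
    · exact (tendsto_one_div_add_atTop_nhds_zero_nat (𝕜 := ℝ)).comp hφψ.tendsto_atTop
  have ht2 : Tendsto (fun n => t (φ (ψ n))) atTop (𝓝 β) := by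
    have h3 := hd.add hb2
    simpa using h3
  have hc : Continuous h := hh.diff.continuous
  have e1 : Tendsto (fun n => S.P (g (φ (ψ n)) (b (φ (ψ n))))) atTop (𝓝 (S.P (h β))) :=
    (S.cP.tendsto _).comp (ZMod_cont hc hl2 hb2)
  have e2 : Tendsto (fun n => S.P (g (φ (ψ n)) (t (φ (ψ n))))) atTop (𝓝 (S.P (h β))) :=
    (S.cP.tendsto _).comp (ZMod_cont hc hl2 ht2)
  have e3 : S.P (h β) = 0 := by
    have h4 : (fun n => S.P (g (φ (ψ n)) (b (φ (ψ n))))) = fun _ => (0 : ℝ) :=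
      funext fun n => h0 _
    rw [h4] at e1
    exact tendsto_nhds_unique e1 tendsto_const_nhds
  have e4 : η ≤ S.P (h β) := ge_of_tendsto e2 (Eventually.of_forall fun n => (hlt _).le)
  linarith

end Pool.Agent.HQ
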