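import Pool.Agent.HQD.Defs

/-!
# HQD module ZPick: choice of the renormalisation time and scale
-/

set_option autoImplicit false

open Filter Topology Set Metric

namespace Pool.Agent.HQ

theorem pick {d : ℝ} (hd : 1 < d) {N : ℝ → ℝ} (hN : Continuous N)
    (hm : ∀ s t, 0 ≤ s → s ≤ t → N s ≤ N t) (h0 : N 0 = 0) {t : ℝ} (ht : 0 < t)
    (h1 : 0 < N t) (h2 : N t < 1) :
    ∃ (n : ℕ) (s : ℝ), 1 ≤ n ∧ 0 < s ∧ s ≤ t ∧ N s = (d ^ n)⁻¹ ∧ (d ^ n)⁻¹ ≤ N t ∧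
      N t < d * (d ^ n)⁻¹ ∧ (∀ q : ℕ, (d ^ q)⁻¹ ≤ N t → n ≤ q) ∧
      ∀ R : ℝ, 1 ≤ R → (s * R ≤ t ∨ N (s * R) ≤ N t * (s * R / t) ^ 2) →
        d ^ n * N (s * R) ≤ d * R ^ 2 := by
  have hd0 : 0 < d := by linarith
  have hex : ∃ n : ℕ, (d ^ n)⁻¹ ≤ N t := by
    have hl : Tendsto (fun n : ℕ => (d ^ n)⁻¹) atTop (𝓝 0) :=
      (tendsto_pow_atTop_atTop_of_one_lt hd).inv_tendsto_atTop
    obtain ⟨n, hn⟩ := (hl.eventually_lt_const h1).exists
    exact ⟨n, hn.le⟩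
  classical
  set n := Nat.find hex with hn
  have hn1 : (d ^ n)⁻¹ ≤ N t := Nat.find_spec hex
  have hn0 : 1 ≤ n := by
    rcases Nat.eq_zero_or_pos n with h | h
    · rw [h, pow_zero, inv_one] at hn1
      linarith
    · exact h
  have hn2 : N t < d * (d ^ n)⁻¹ := by
    have h3 : ¬ (d ^ (n - 1))⁻¹ ≤ N t := Nat.find_min hex (by omega)
    push Not at h3
    have h4 : (d ^ (n - 1))⁻¹ = d * (d ^ n)⁻¹ := by
      have h5 : d ^ n = d ^ (n - 1) * d := by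
        rw [← pow_succ]
        congr 1
        omega
      rw [h5]
      field_simp
    rw [← h4]
    exact h3
  obtain ⟨s, hs, hsN⟩ : ∃ s ∈ Icc (0 : ℝ) t, N s = (d ^ n)⁻¹ := by
    have := intermediate_value_Icc ht.le hN.continuousOn
    have hmem : (d ^ n)⁻¹ ∈ Icc (N 0) (N t) := ⟨by rw [h0]; positivity, hn1⟩
    exact this hmem
  have hs0 : 0 < s := by
    rcases hs.1.eq_or_lt with h | h
    · exfalso
      rw [← h, h0] at hsN
      have : 0 < (d ^ n)⁻¹ := by positivity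
      linarith
    · exact h
  refine ⟨n, s, hn0, hs0, hs.2, hsN, hn1, hn2, fun q hq => Nat.find_min' hex hq, ?_⟩
  intro R hR hcase
  have hdn : 0 < d ^ n := by positivity
  have key : d ^ n * N t < d := by
    have h3 := mul_lt_mul_of_pos_left hn2 hdn
    have h4 : d ^ n * (d * (d ^ n)⁻¹) = d := by field_simp
    rwa [h4] at h3
  have hR2 : 1 ≤ R ^ 2 := one_le_pow₀ hR
  rcases hcase with h | h
  · have h3 := hm (s * R) t (by positivity) h
    have h4 : d ^ n * N (s * R) ≤ d ^ n * N t := mul_le_mul_of_nonneg_left h3 hdn.le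
    nlinarith
  · have h3 : s * R / t ≤ R := by
      rw [div_le_iff₀ ht]
      nlinarith [hs.2]
    have h4 : (s * R / t) ^ 2 ≤ R ^ 2 := pow_le_pow_left₀ (by positivity) h3 2
    have h5 : N (s * R) ≤ N t * R ^ 2 := h.trans (mul_le_mul_of_nonneg_left h4 h1.le)
    have h6 : d ^ n * N (s * R) ≤ d ^ n * (N t * R ^ 2) := mul_le_mul_of_nonneg_left h5 hdn.le
    nlinarith

theorem record {N : ℝ → ℝ} (hN : Continuous N) {s₁ s₀ : ℝ} (h1 : 0 < s₁) (h2 : s₁ ≤ s₀) :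
    ∃ t ∈ Icc s₁ s₀, ∀ s ∈ Icc s₁ s₀, N s ≤ N t * (s / t) ^ 2 := by
  have hc : ContinuousOn (fun s : ℝ => N s / s ^ 2) (Icc s₁ s₀) := by
    refine hN.continuousOn.div (by fun_prop) ?_
    intro s hs
    have : 0 < s := lt_of_lt_of_le h1 hs.1
    positivity
  obtain ⟨t, ht, hmax⟩ := isCompact_Icc.exists_isMaxOn (nonempty_Icc.2 h2) hc
  refine ⟨t, ht, fun s hs => ?_⟩
  have hs0 : 0 < s := lt_of_lt_of_le h1 hs.1
  have ht0 : 0 < t := lt_of_lt_of_le h1 ht.1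
  have h3 : N s / s ^ 2 ≤ N t / t ^ 2 := hmax hs
  rw [div_le_iff₀ (by positivity)] at h3
  have h4 : N t / t ^ 2 * s ^ 2 = N t * (s / t) ^ 2 := by
    field_simp
  rwa [h4] at h3

theorem record2 {N : ℝ → ℝ} (hN : Continuous N) (hm : ∀ s t, 0 ≤ s → s ≤ t → N s ≤ N t)
    {A c s₁ s₂ : ℝ} (hc : 0 < c) (h1 : 0 < s₁) (h12 : s₁ < s₂) (h2 : s₂ ≤ 1)
    (hlow : ∀ s, 0 < s → s ≤ 1 → c * s ≤ N s) (hup : ∀ s, 1 ≤ s → N s ≤ A * s ^ 2)
    (hA : A / s₂ ^ 2 < c / s₁) :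
    ∃ t, s₁ ≤ t ∧ t < s₂ ∧ ∀ s, t ≤ s → N s ≤ N t * (s / t) ^ 2 := by
  have hs2 : 0 < s₂ := by linarith
  obtain ⟨t, ht, hrec⟩ := record hN h1 (by linarith : s₁ ≤ 1)
  have ht0 : 0 < t := lt_of_lt_of_le h1 ht.1
  have hA0 : 0 ≤ A := by
    have h3 := hup 1 le_rfl
    have h4 := hlow 1 one_pos le_rfl
    nlinarith
  -- the ratio at `t`
  have hrat : c / s₁ ≤ N t / t ^ 2 := by
    have h3 := hrec s₁ ⟨le_rfl, by linarith⟩
    have h4 := hlow s₁ h1 (by linarith)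
    have h5 : c * s₁ ≤ N t * (s₁ / t) ^ 2 := h4.trans h3
    have h6 : N t * (s₁ / t) ^ 2 = N t / t ^ 2 * s₁ ^ 2 := by field_simp
    rw [h6] at h5
    rw [div_le_iff₀ h1]
    have h7 : c * s₁ ≤ (N t / t ^ 2 * s₁) * s₁ := by
      have : N t / t ^ 2 * s₁ ^ 2 = (N t / t ^ 2 * s₁) * s₁ := by ring
      linarith
    exact le_of_mul_le_mul_right h7 h1
  have hN1 : N 1 ≤ A := by
    have := hup 1 le_rfl
    simpa using this
  refine ⟨t, ht.1, ?_, ?_⟩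
  · by_contra hcon
    push Not at hcon
    have h3 : N t ≤ A := (hm t 1 ht0.le ht.2).trans hN1
    have h4 : N t / t ^ 2 ≤ A / s₂ ^ 2 := by
      rw [div_le_div_iff₀ (by positivity) (by positivity)]
      have h5 : s₂ ^ 2 ≤ t ^ 2 := pow_le_pow_left₀ hs2.le hcon 2
      have h6 : 0 ≤ s₂ ^ 2 := by positivity
      calc N t * s₂ ^ 2 ≤ A * s₂ ^ 2 := mul_le_mul_of_nonneg_right h3 h6
        _ ≤ A * t ^ 2 := mul_le_mul_of_nonneg_left h5 hA0
    linarith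
  · intro s hs
    by_cases hs1 : s ≤ 1
    · exact hrec s ⟨ht.1.trans hs, hs1⟩
    · push Not at hs1
      have h3 := hup s hs1.le
      have h4 : A ≤ N t / t ^ 2 := by
        have h5 : A ≤ A / s₂ ^ 2 := by
          rw [le_div_iff₀ (by positivity)]
          have : s₂ ^ 2 ≤ 1 := pow_le_one₀ hs2.le h2
          nlinarith
        linarith
      have h6 : A * s ^ 2 ≤ N t / t ^ 2 * s ^ 2 := mul_le_mul_of_nonneg_right h4 (by positivity)
      have h7 : N t / t ^ 2 * s ^ 2 = N t * (s / t) ^ 2 := by field_simp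
      linarith

end Pool.Agent.HQ
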