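import Pool.Agent.HQD.Defs
import Pool.Agent.HQD.ZMod
import Pool.Agent.HQD.ZMx
import Pool.Agent.HQD.ZLow
import Pool.Agent.HQD.ZPick
import Pool.Agent.HQ.Acc60

/-!
# HQD module ZStep: the renormalisation step
-/

set_option autoImplicit false

open Filter Topology Set Metric

namespace Pool.Agent.HQ

/-- growth at a zero -/
theorem ZStep_up (S : Sys) {g : ℂ → E} (hg : S.CC g) {R₁ : ℝ} (hR : 1 ≤ R₁) {b : ℂ}
    (hb : ‖b‖ ≤ R₁) {s : ℝ} (hs : 1 ≤ s) :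
    mx (fun t => S.P (g t)) b s ≤ S.d * (R₁ + 1) ^ 2 * s ^ 2 := by
  have hu : Continuous (fun t => S.P (g t)) := S.cP.comp hg.diff.continuous
  obtain ⟨t, ht, hte⟩ := mx_att hu b (le_trans zero_le_one hs)
  rw [← hte]
  change S.P (g t) ≤ _
  have hd := S.hd
  have hbig : 1 ≤ (R₁ + 1) * s := by nlinarith
  rcases le_total ‖t‖ 1 with h1 | h1
  · have h2 := hg.le1 t h1
    have h3 : (1 : ℝ) ≤ ((R₁ + 1) * s) ^ 2 := by nlinarith
    nlinarith
  · have h2 := hg.gr t h1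
    have h3 : ‖t‖ ≤ (R₁ + 1) * s := by
      have h4 : ‖t‖ ≤ ‖t - b‖ + ‖b‖ := by
        have h5 := norm_add_le (t - b) b
        rwa [sub_add_cancel] at h5
      nlinarith
    have h4 : ‖t‖ ^ 2 ≤ ((R₁ + 1) * s) ^ 2 := pow_le_pow_left₀ (norm_nonneg _) h3 2
    have h5 : S.d * ‖t‖ ^ 2 ≤ S.d * ((R₁ + 1) * s) ^ 2 :=
      mul_le_mul_of_nonneg_left h4 (by linarith)
    rw [mul_pow, ← mul_assoc] at h5
    exact h2.trans h5

/-- the zoomed curve is normalised -/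
theorem ZStep_CC (S : Sys) {g : ℂ → E} (hg : S.CC g) {b : ℂ} (hb : S.P (g b) = 0) {n : ℕ}
    {s : ℝ} (hs : 0 < s) (hN : mx (fun t => S.P (g t)) b s = (S.d ^ n)⁻¹)
    (hgr : ∀ R : ℝ, 1 ≤ R → S.d ^ n * mx (fun t => S.P (g t)) b (s * R) ≤ S.d * R ^ 2) :
    S.CC (fun z : ℂ => (S.F ^ n) (g (b + s * z))) := by
  have hu : Continuous (fun t => S.P (g t)) := S.cP.comp hg.diff.continuous
  have hdn : 0 < S.d ^ n := pow_pos S.d_pos n
  have hdiff : Differentiable ℂ (fun z : ℂ => g (b + s * z)) :=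
    hg.diff.comp ((differentiable_const b).add ((differentiable_const (s : ℂ)).mul
      differentiable_id))
  have hkey : ∀ z : ℂ, S.P ((S.F ^ n) (g (b + s * z))) ≤
      S.d ^ n * mx (fun t => S.P (g t)) b (s * ‖z‖) := by
    intro z
    rw [S.P_pow]
    refine mul_le_mul_of_nonneg_left ?_ hdn.le
    refine le_mx hu (t := b + s * z) ?_
    rw [add_sub_cancel_left, norm_mul, Complex.norm_real, Real.norm_of_nonneg hs.le]
  refine ⟨(S.diff_pow n).comp hdiff, fun z => ?_, ?_, fun z hz => ?_, ?_, fun z hz => ?_⟩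
  · rw [S.M_pow, hg.M0, mul_zero]
  · rw [S.P_pow, mul_zero, add_zero, hb, mul_zero]
  · refine (hkey z).trans ?_
    have h1 : mx (fun t => S.P (g t)) b (s * ‖z‖) ≤ mx (fun t => S.P (g t)) b s := by
      refine mx_mono hu b (mul_nonneg hs.le (norm_nonneg z)) ?_
      nlinarith [norm_nonneg z]
    rw [hN] at h1
    have h2 := mul_le_mul_of_nonneg_left h1 hdn.le
    rwa [mul_inv_cancel₀ hdn.ne'] at h2
  · obtain ⟨t, ht, hte⟩ := mx_att hu b hs.le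
    have hs0 : (s : ℂ) ≠ 0 := Complex.ofReal_ne_zero.2 hs.ne'
    refine ⟨(t - b) / s, ?_, ?_⟩
    · rw [norm_div, Complex.norm_real, Real.norm_of_nonneg hs.le]
      exact (div_le_one hs).2 ht
    · rw [mul_div_cancel₀ _ hs0, add_sub_cancel, S.P_pow]
      rw [hte, hN, mul_inv_cancel₀ hdn.ne']
  · exact (hkey z).trans (hgr _ hz)

theorem CC_stepO (S : Sys) {C : Set (ℂ → E)} (hC : S.ZC C) {O : Set E} {R₀ c ρ : ℝ} {nm : ℕ}
    (hR : 1 ≤ R₀) (hc : 0 < c) (hρ : 0 < ρ)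
    (hu : ∀ g ∈ C, ∃ (a : ℂ) (r : ℝ) (n : ℕ), ‖a‖ ≤ R₀ ∧ ρ ≤ r ∧ r ≤ R₀ ∧ n ≤ nm ∧
      c ≤ S.P (g a) ∧ (∃ b ∈ ball a r, S.P (g b) = 0) ∧
      ∀ z ∈ closedBall a (2 * r), (S.F ^ n) (g z) ∈ O) :
    ∃ (R₁ σ : ℝ) (q : ℕ), 1 ≤ R₁ ∧ 0 < σ ∧ σ ≤ 1 / 2 ∧ ∀ g ∈ C,
      ∃ (b : ℂ) (s : ℝ) (n m : ℕ), ‖b‖ ≤ R₁ ∧ σ ≤ s ∧ s ≤ 1 / 2 ∧ 1 ≤ n ∧ n ≤ q ∧ m ≤ nm ∧
        (fun z : ℂ => (S.F ^ n) (g (b + s * z))) ∈ C ∧
        ∀ z : ℂ, ‖z‖ ≤ 2 * R₁ → (S.F ^ m) (g (b + s * z)) ∈ O := by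
  have hd := S.hd
  have hd0 := S.d_pos
  set R₁ : ℝ := 2 * R₀ + 1 with hR₁
  have hR₁1 : 1 ≤ R₁ := by linarith
  have hR₁0 : 0 < R₁ := by linarith
  obtain ⟨δ₁, hδ₁, hmod₁⟩ := CC_mod S R₁ (η := 1 / S.d) (by positivity)
  -- constants
  set c' : ℝ := c / (2 * R₁) with hc'
  have hc'0 : 0 < c' := by positivity
  set A : ℝ := S.d * (R₁ + 1) ^ 2 with hA
  have hA0 : 0 < A := by positivity
  set s₂ : ℝ := min δ₁ (min (1 / 2) (ρ / (2 * R₁))) with hs₂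
  have hs₂0 : 0 < s₂ := lt_min hδ₁ (lt_min (by norm_num) (by positivity))
  have hs₂δ : s₂ ≤ δ₁ := min_le_left _ _
  have hs₂h : s₂ ≤ 1 / 2 := (min_le_right _ _).trans (min_le_left _ _)
  have hs₂ρ : s₂ * (2 * R₁) ≤ ρ := by
    have h1 : s₂ ≤ ρ / (2 * R₁) := (min_le_right _ _).trans (min_le_right _ _)
    rwa [le_div_iff₀ (by positivity)] at h1
  set s₁ : ℝ := min (s₂ / 2) (c' * s₂ ^ 2 / (2 * A)) with hs₁
  have hs₁0 : 0 < s₁ := lt_min (by positivity) (by positivity)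
  have hs₁₂ : s₁ < s₂ := (min_le_left _ _).trans_lt (by linarith)
  have hAs : A / s₂ ^ 2 < c' / s₁ := by
    have h1 : s₁ ≤ c' * s₂ ^ 2 / (2 * A) := min_le_right _ _
    rw [le_div_iff₀ (by positivity)] at h1
    rw [div_lt_div_iff₀ (by positivity) hs₁0]
    nlinarith [mul_pos hA0 hs₁0]
  obtain ⟨q, hq⟩ : ∃ q : ℕ, (S.d ^ q)⁻¹ ≤ c' * s₁ := by
    obtain ⟨q, hq⟩ := exists_pow_lt_of_lt_one (mul_pos hc'0 hs₁0) (inv_lt_one_of_one_lt₀ hd)
    exact ⟨q, by rw [← inv_pow]; exact hq.le⟩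
  obtain ⟨δ₂, hδ₂, hmod₂⟩ := CC_mod S R₁ (η := (S.d ^ q)⁻¹ / 2) (by positivity)
  refine ⟨R₁, min δ₂ (1 / 2), q, hR₁1, lt_min hδ₂ (by norm_num), min_le_right _ _, ?_⟩
  intro g hgC
  have hg : S.CC g := hC.sub g hgC
  obtain ⟨a, r, m, haR, hρr, hrR, hm, hca, ⟨b₁, hb₁, hb₁0⟩, hO⟩ := hu g hgC
  have huc : Continuous (fun t => S.P (g t)) := S.cP.comp hg.diff.continuous
  obtain ⟨b, hb0, hbd, hbpos⟩ := Acc60_near huc (fun t => S.P0 _) a hb₁0
  change S.P (g b) = 0 at hb0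
  have hdab : dist a b < r := by
    refine hbd.trans_lt ?_
    rw [dist_comm]
    exact mem_ball.1 hb₁
  have hab : a ≠ b := by
    rintro rfl
    linarith
  have hdab0 : 0 < dist a b := dist_pos.2 hab
  have hbR : ‖b‖ ≤ R₁ := by
    have h1 : ‖b‖ ≤ ‖a‖ + dist a b := by
      rw [dist_comm, dist_eq_norm]
      have h2 := norm_add_le a (b - a)
      rwa [add_sub_cancel] at h2
    linarith
  -- lower bound
  have hlow : ∀ s, 0 < s → s ≤ 1 → c' * s ≤ mx (fun t => S.P (g t)) b s := by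
    intro s hs0 hs1
    rcases le_total s (dist a b) with h | h
    · have h1 := near_low S hg.diff hab hbpos hs0 h
      refine le_trans ?_ h1
      have h2 : s / (2 * dist a b) * c ≤ s / (2 * dist a b) * S.P (g a) :=
        mul_le_mul_of_nonneg_left hca (by positivity)
      refine le_trans ?_ h2
      have h3 : c' * s = s / (2 * R₁) * c := by
        rw [hc']
        ring
      rw [h3]
      refine mul_le_mul_of_nonneg_right ?_ hc.le
      refine div_le_div_of_nonneg_left hs0.le (by positivity) ?_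
      linarith
    · have h1 : (fun t => S.P (g t)) a ≤ mx (fun t => S.P (g t)) b s := by
        refine le_mx huc ?_
        rwa [← dist_eq_norm]
      refine le_trans ?_ (hca.trans h1)
      have h2 : c' * s ≤ c' * 1 := mul_le_mul_of_nonneg_left hs1 hc'0.le
      have h3 : c' * 1 ≤ c := by
        rw [mul_one, hc']
        refine div_le_self hc.le ?_
        linarith
      exact h2.trans h3
  have hup : ∀ s, 1 ≤ s → mx (fun t => S.P (g t)) b s ≤ A * s ^ 2 :=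
    fun s hs => ZStep_up S hg hR₁1 hbR hs
  have hcont := mx_cont huc b
  have hmono : ∀ s t, 0 ≤ s → s ≤ t → mx (fun t => S.P (g t)) b s ≤ mx (fun t => S.P (g t)) b t :=
    fun s t h0 h => mx_mono huc b h0 h
  obtain ⟨t, ht1, ht2, htr⟩ := record2 hcont hmono hc'0 hs₁0 hs₁₂ (by linarith) hlow hup hAs
  have ht0 : 0 < t := hs₁0.trans_le ht1
  have hNt : c' * s₁ ≤ mx (fun t => S.P (g t)) b t :=
    (mul_le_mul_of_nonneg_left ht1 hc'0.le).trans (hlow t ht0 (by linarith))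
  have hNt0 : 0 < mx (fun t => S.P (g t)) b t := (mul_pos hc'0 hs₁0).trans_le hNt
  have hNt1 : mx (fun t => S.P (g t)) b t < 1 := by
    obtain ⟨t', ht', hte⟩ := mx_att huc b ht0.le
    rw [← hte]
    refine (hmod₁ g hg b t' hbR hb0 (by linarith)).trans_lt ?_
    rw [div_lt_one hd0]
    exact hd
  have hz0 : mx (fun t => S.P (g t)) b 0 = 0 := by
    rw [mx_zero]
    exact hb0
  obtain ⟨n, s, hn1, hs0, hst, hNs, hnt, hnt', hqn, hgr⟩ :=
    pick hd hcont hmono hz0 ht0 hNt0 hNt1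
  have hsσ : min δ₂ (1 / 2) ≤ s := by
    by_contra hcon
    rw [not_le] at hcon
    have h1 : mx (fun t => S.P (g t)) b s ≤ (S.d ^ q)⁻¹ / 2 := by
      obtain ⟨t', ht', hte⟩ := mx_att huc b hs0.le
      rw [← hte]
      exact hmod₂ g hg b t' hbR hb0 (ht'.trans (hcon.le.trans (min_le_left _ _)))
    rw [hNs] at h1
    have h2 : n ≤ q := hqn q (hq.trans hNt)
    have h3 : (S.d ^ q)⁻¹ ≤ (S.d ^ n)⁻¹ :=
      inv_anti₀ (pow_pos hd0 n) (pow_le_pow_right₀ hd.le h2)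
    have h4 : 0 < (S.d ^ q)⁻¹ := inv_pos.2 (pow_pos hd0 q)
    linarith
  have hCC : S.CC (fun z : ℂ => (S.F ^ n) (g (b + s * z))) := by
    refine ZStep_CC S hg hb0 hs0 hNs fun R hR => ?_
    refine hgr R hR ?_
    rcases le_total (s * R) t with h | h
    · exact Or.inl h
    · exact Or.inr (htr _ h)
  refine ⟨b, s, n, m, hbR, hsσ, by linarith, hn1, hqn q (hq.trans hNt), hm,
    hC.zoom g hgC n b s hs0 hCC, fun z hz => hO _ ?_⟩
  rw [mem_closedBall]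
  have h1 : dist (b + s * z) a ≤ dist (b + s * z) b + dist b a := dist_triangle _ _ _
  have h2 : dist (b + s * z) b = s * ‖z‖ := by
    rw [dist_eq_norm, add_sub_cancel_left, norm_mul, Complex.norm_real,
      Real.norm_of_nonneg hs0.le]
  have h3 : s * ‖z‖ ≤ s₂ * (2 * R₁) :=
    mul_le_mul (by linarith) hz (norm_nonneg _) hs₂0.le
  rw [dist_comm b a] at h1
  linarith

end Pool.Agent.HQ
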