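import Pool.Agent.HQD.Defs

/-!
# HQD module ZTrk: tracks
-/

set_option autoImplicit false

open Filter Topology Set Metric

namespace Pool.Agent.HQ

theorem ZTrk_zeta (b : ℕ → ℂ) (s : ℕ → ℝ) {R : ℝ} (hb : ∀ i, ‖b i‖ ≤ R)
    (hs0 : ∀ i, 0 ≤ s i) (hs1 : ∀ i, s i ≤ 1 / 2) :
    ∃ ζ : ℕ → ℂ, (∀ i, ‖ζ i‖ ≤ 2 * R) ∧ ∀ i, ζ i = b i + s i * ζ (i + 1) := by
  have hR : 0 ≤ R := le_trans (norm_nonneg _) (hb 0)
  let c : ℕ → ℕ → ℂ := fun i j => (∏ k ∈ Finset.range j, (s (i + k) : ℂ)) * b (i + j)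
  have hprod : ∀ i j, ‖∏ k ∈ Finset.range j, (s (i + k) : ℂ)‖ ≤ (1 / 2 : ℝ) ^ j := by
    intro i j
    rw [norm_prod]
    have h := Finset.prod_le_prod (s := Finset.range j) (f := fun k => ‖(s (i + k) : ℂ)‖)
      (g := fun _ => (1 / 2 : ℝ)) (fun k _ => norm_nonneg _) (fun k _ => by
        change ‖(s (i + k) : ℂ)‖ ≤ 1 / 2
        rw [Complex.norm_real, Real.norm_of_nonneg (hs0 _)]
        exact hs1 _)
    rwa [Finset.prod_const, Finset.card_range] at h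
  have hc : ∀ i j, ‖c i j‖ ≤ R * (1 / 2 : ℝ) ^ j := by
    intro i j
    change ‖(∏ k ∈ Finset.range j, (s (i + k) : ℂ)) * b (i + j)‖ ≤ _
    rw [norm_mul, mul_comm]
    exact mul_le_mul (hb _) (hprod i j) (norm_nonneg _) hR
  have hgs : HasSum (fun j : ℕ => R * (1 / 2 : ℝ) ^ j) (2 * R) := by
    have h := (hasSum_geometric_of_lt_one (r := (1 / 2 : ℝ)) (by norm_num) (by norm_num)).mul_left R
    have h2 : R * (1 - 1 / 2 : ℝ)⁻¹ = 2 * R := by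
      rw [show (1 - 1 / 2 : ℝ)⁻¹ = 2 by norm_num]
      ring
    rwa [h2] at h
  have hsum : ∀ i, Summable (c i) := fun i =>
    Summable.of_norm_bounded hgs.summable (hc i)
  refine ⟨fun i => ∑' j, c i j, fun i => ?_, fun i => ?_⟩
  · exact tsum_of_norm_bounded hgs (hc i)
  · change ∑' j, c i j = b i + s i * ∑' j, c (i + 1) j
    rw [(hsum i).tsum_eq_zero_add, ← tsum_mul_left]
    have h0 : c i 0 = b i := by
      change (∏ k ∈ Finset.range 0, (s (i + k) : ℂ)) * b (i + 0) = b i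
      rw [Finset.prod_range_zero, one_mul, add_zero]
    have h1 : ∀ j, c i (j + 1) = s i * c (i + 1) j := by
      intro j
      change (∏ k ∈ Finset.range (j + 1), (s (i + k) : ℂ)) * b (i + (j + 1)) =
        s i * ((∏ k ∈ Finset.range j, (s (i + 1 + k) : ℂ)) * b (i + 1 + j))
      rw [Finset.prod_range_succ', add_zero, show i + (j + 1) = i + 1 + j by ring,
        Finset.prod_congr rfl (fun k _ => by
          rw [show i + (k + 1) = i + 1 + k by ring])]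
      ring
    rw [h0, tsum_congr h1]

theorem ZTrk_P_le (S : Sys) {g : ℂ → E} (hg : S.CC g) {R : ℝ} {ζ : ℂ} (hζ : ‖ζ‖ ≤ R) (z : ℂ) :
    S.P (g (ζ + z)) ≤ S.d * (‖z‖ + R + 1) ^ 2 := by
  have hd : 1 < S.d := S.hd
  have hn : ‖ζ + z‖ ≤ ‖z‖ + R := by
    have := norm_add_le ζ z
    linarith
  have hz : 0 ≤ ‖z‖ := norm_nonneg z
  have hR : 0 ≤ R := le_trans (norm_nonneg _) hζ
  rcases le_total 1 ‖ζ + z‖ with h | h
  · refine le_trans (hg.gr _ h) ?_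
    refine mul_le_mul_of_nonneg_left ?_ (by linarith)
    exact pow_le_pow_left₀ (norm_nonneg _) (by linarith) 2
  · refine le_trans (hg.le1 _ h) ?_
    have h1 : (1 : ℝ) ≤ (‖z‖ + R + 1) ^ 2 := one_le_pow₀ (by linarith)
    nlinarith

theorem tracks (S : Sys) {C : Set (ℂ → E)} (hC : S.ZC C) (hne : C.Nonempty) {O : Set E}
    {R₁ σ : ℝ} {q nm : ℕ} (h1 : 1 ≤ R₁) (hσ : 0 < σ)
    (hst : ∀ g ∈ C, ∃ (b : ℂ) (s : ℝ) (n m : ℕ), ‖b‖ ≤ R₁ ∧ σ ≤ s ∧ s ≤ 1 / 2 ∧ 1 ≤ n ∧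
      n ≤ q ∧ m ≤ nm ∧ (fun z : ℂ => (S.F ^ n) (g (b + s * z))) ∈ C ∧
      ∀ z : ℂ, ‖z‖ ≤ 2 * R₁ → (S.F ^ m) (g (b + s * z)) ∈ O) :
    ∃ h : ℕ → ℂ → E, (∀ i, S.HC (2 * R₁) (h i)) ∧
      (∀ i, ∃ g ∈ C, ∃ ζ : ℂ, ‖ζ‖ ≤ 2 * R₁ ∧ h i = fun z => g (ζ + z)) ∧
      (∀ i, ∃ m ≤ nm, (S.F ^ m) (h i 0) ∈ O) ∧
      ∀ i, ∃ (n : ℕ) (s : ℝ), 1 ≤ n ∧ n ≤ q ∧ σ ≤ s ∧ s ≤ 1 / 2 ∧
        h (i + 1) = fun z : ℂ => (S.F ^ n) (h i (s * z)) := by
  choose! b s n m hb hs0 hs1 hn1 hnq hm hmem hO using hst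
  obtain ⟨g0, hg0⟩ := hne
  let g : ℕ → ℂ → E := fun i => Nat.rec g0
    (fun _ f => fun z : ℂ => (S.F ^ (n f)) (f (b f + s f * z))) i
  have hg1 : ∀ i, g (i + 1) = fun z : ℂ => (S.F ^ (n (g i))) (g i (b (g i) + s (g i) * z)) :=
    fun i => rfl
  have hgC : ∀ i, g i ∈ C := by
    intro i
    induction i with
    | zero => exact hg0
    | succ i ih => rw [hg1]; exact hmem _ ih
  have hs0' : ∀ i, 0 ≤ s (g i) := fun i => le_trans hσ.le (hs0 _ (hgC i))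
  obtain ⟨ζ, hζ, hζ1⟩ := ZTrk_zeta (fun i => b (g i)) (fun i => s (g i))
    (fun i => hb _ (hgC i)) hs0' (fun i => hs1 _ (hgC i))
  have hCC : ∀ i, S.CC (g i) := fun i => hC.sub _ (hgC i)
  -- the recursion
  have hrec : ∀ i z, g (i + 1) (ζ (i + 1) + z) =
      (S.F ^ (n (g i))) (g i (ζ i + s (g i) * z)) := by
    intro i z
    rw [hg1]
    change (S.F ^ (n (g i))) (g i (b (g i) + s (g i) * (ζ (i + 1) + z))) = _
    rw [hζ1 i, show b (g i) + s (g i) * (ζ (i + 1) + z) =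
      b (g i) + s (g i) * ζ (i + 1) + s (g i) * z by ring]
  have hP0 : ∀ i, S.P (g i (ζ i)) = 0 := by
    intro i
    have hstep : ∀ j, S.d * S.P (g j (ζ j)) ≤ S.P (g (j + 1) (ζ (j + 1))) := by
      intro j
      have h := hrec j 0
      rw [add_zero, mul_zero, add_zero] at h
      rw [h, S.P_pow]
      refine mul_le_mul_of_nonneg_right ?_ (S.P0 _)
      calc S.d = S.d ^ 1 := (pow_one _).symm
        _ ≤ S.d ^ (n (g j)) := pow_le_pow_right₀ S.hd.le (hn1 _ (hgC j))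
    have hpow : ∀ j, S.d ^ j * S.P (g i (ζ i)) ≤ S.P (g (i + j) (ζ (i + j))) := by
      intro j
      induction j with
      | zero => simp
      | succ j ih =>
        refine le_trans ?_ (hstep (i + j))
        rw [pow_succ, mul_comm (S.d ^ j), mul_assoc]
        exact mul_le_mul_of_nonneg_left ih S.d_pos.le
    have hbd : ∀ j, S.P (g j (ζ j)) ≤ S.d * (2 * R₁ + 1) ^ 2 := by
      intro j
      have h := ZTrk_P_le S (hCC j) (hζ j) 0
      rwa [add_zero, norm_zero, zero_add] at h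
    by_contra hne0
    have hpos : 0 < S.P (g i (ζ i)) := lt_of_le_of_ne (S.P0 _) (Ne.symm hne0)
    have ht := (tendsto_pow_atTop_atTop_of_one_lt S.hd).atTop_mul_const hpos
    obtain ⟨j, hj⟩ := (ht.eventually_gt_atTop (S.d * (2 * R₁ + 1) ^ 2)).exists
    exact absurd (le_trans (hpow j) (hbd _)) (not_le.mpr hj)
  refine ⟨fun i z => g i (ζ i + z), fun i => ?_, fun i => ⟨g i, hgC i, ζ i, hζ i, rfl⟩,
    fun i => ⟨m (g i), hm _ (hgC i), ?_⟩,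
    fun i => ⟨n (g i), s (g i), hn1 _ (hgC i), hnq _ (hgC i), hs0 _ (hgC i), hs1 _ (hgC i), ?_⟩⟩
  · refine ⟨?_, fun z => (hCC i).M0 _, ?_, ?_, fun z => ZTrk_P_le S (hCC i) (hζ i) z⟩
    · exact (hCC i).diff.comp ((differentiable_const _).add differentiable_id)
    · change S.P (g i (ζ i + 0)) = 0
      rw [add_zero]
      exact hP0 i
    · obtain ⟨w, hw, hw1⟩ := (hCC i).eq1
      refine ⟨w - ζ i, ?_, ?_⟩
      · have h2 := norm_sub_le w (ζ i)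
        have h3 := hζ i
        linarith
      · change S.P (g i (ζ i + (w - ζ i))) = 1
        rw [add_sub_cancel]
        exact hw1
  · change (S.F ^ (m (g i))) (g i (ζ i + 0)) ∈ O
    rw [add_zero, hζ1 i]
    exact hO _ (hgC i) _ (hζ (i + 1))
  · funext z
    exact hrec i z

end Pool.Agent.HQ
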