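import Pool.Agent.HQD.Defs

/-!
# HQD module ZZero: persistence of zeros of P (Harnack)
-/

set_option autoImplicit false

open Filter Topology Set Metric

namespace Pool.Agent.HQ

theorem zero_near (S : Sys) {D : Set ℂ} (hD : IsOpen D) {g : ℂ → E} {gs : ℕ → ℂ → E}
    (hd : ∀ n, DifferentiableOn ℂ (gs n) D) (hg : ContinuousOn g D)
    (hl : TendstoLocallyUniformlyOn gs g atTop D) {a : ℂ} {r : ℝ} (hr : ball a r ⊆ D)
    (ha : 0 < S.P (g a)) (hz : ∃ b ∈ ball a r, S.P (g b) = 0) :
    ∀ᶠ n in atTop, ∃ b ∈ ball a r, S.P (gs n b) = 0 := by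
  have _ := hD
  obtain ⟨b0, hb0, hPb0⟩ := hz
  -- the nearest zero
  set r' := dist b0 a with hr'
  have hr'r : r' < r := hb0
  have hsub' : closedBall a r' ⊆ D := (closedBall_subset_ball hr'r).trans hr
  have hcont : ContinuousOn (fun z => S.P (g z)) (closedBall a r') :=
    S.cP.comp_continuousOn (hg.mono hsub')
  have hclosed : IsCompact (closedBall a r' ∩ {z | S.P (g z) = 0}) := by
    have h1 : IsClosed (closedBall a r' ∩ (fun z => S.P (g z)) ⁻¹' {0}) :=
      hcont.preimage_isClosed_of_isClosed isClosed_closedBall isClosed_singleton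
    exact (isCompact_closedBall a r').of_isClosed_subset h1 inter_subset_left
  obtain ⟨b, ⟨hb1, hb2⟩, hbmin⟩ := hclosed.exists_isMinOn (f := fun z => dist z a)
    ⟨b0, mem_closedBall.2 le_rfl, hPb0⟩ (by fun_prop)
  have hPb : S.P (g b) = 0 := hb2
  have hba : dist b a ≤ r' := hb1
  have hab : 0 < dist b a := by
    rw [dist_pos]
    rintro rfl
    rw [hPb] at ha
    exact lt_irrefl _ ha
  -- `P > 0` inside
  have hpos : ∀ z, dist z a < dist b a → 0 < S.P (g z) := by
    intro z hz
    rcases (S.P0 (g z)).eq_or_lt with h | h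
    · exfalso
      have h1 : dist b a ≤ dist z a := hbmin ⟨mem_closedBall.2 (hz.le.trans hba), h.symm⟩
      linarith
    · exact h
  set ρ := r - dist b a with hρ
  have hρ0 : 0 < ρ := by linarith
  have hsubb : ball b ρ ⊆ ball a r := ball_subset_ball' (by rw [hρ]; linarith)
  by_contra hcon
  rw [not_eventually] at hcon
  -- Harnack along the frequent set
  have hfreq : ∃ᶠ n in atTop, ∀ z ∈ ball b (ρ / 2), S.P (gs n z) ≤ 3 * S.P (gs n b) := by
    refine hcon.mono fun n hn z hz => ?_
    push Not at hn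
    have h1 : ∀ w ∈ ball b ρ, 0 < S.P (gs n w) := fun w hw =>
      lt_of_le_of_ne (S.P0 _) (Ne.symm (hn w (hsubb hw)))
    have h2 := (S.hP (gs n) b ρ hρ0 ((hd n).mono (hsubb.trans hr)) h1 z
      (ball_subset_ball (by linarith) hz)).2
    refine h2.trans (mul_le_mul_of_nonneg_right ?_ (S.P0 _))
    have hz' : dist z b < ρ / 2 := hz
    have hz0 : 0 ≤ dist z b := dist_nonneg
    rw [div_le_iff₀ (by linarith)]
    linarith
  -- a point with `P > 0` near `b`
  obtain ⟨z, hz1, hz2⟩ : ∃ z, dist z b < ρ / 2 ∧ dist z a < dist b a := by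
    set t : ℝ := min (1 / 2) (ρ / (4 * dist b a)) with ht
    have ht0 : 0 < t := by positivity
    have ht1 : t ≤ 1 / 2 := min_le_left _ _
    have ht2 : t ≤ ρ / (4 * dist b a) := min_le_right _ _
    refine ⟨b + (t : ℂ) * (a - b), ?_, ?_⟩
    · have h1 : b + (t : ℂ) * (a - b) - b = (t : ℂ) * (a - b) := by ring
      rw [dist_eq_norm, h1, norm_mul, Complex.norm_real, Real.norm_of_nonneg ht0.le,
        ← dist_eq_norm, dist_comm a b]
      have h2 := mul_le_mul_of_nonneg_right ht2 hab.le
      have h3 : ρ / (4 * dist b a) * dist b a = ρ / 4 := by field_simp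
      linarith
    · have h1 : b + (t : ℂ) * (a - b) - a = ((1 - t : ℝ) : ℂ) * (b - a) := by
        push_cast
        ring
      rw [dist_eq_norm, h1, norm_mul, Complex.norm_real, Real.norm_of_nonneg (by linarith),
        ← dist_eq_norm]
      nlinarith
  have hzball : z ∈ ball b (ρ / 2) := hz1
  have hbD : b ∈ D := hr (hsubb (mem_ball_self hρ0))
  have hzD : z ∈ D := hr (hsubb (ball_subset_ball (by linarith) hzball))
  have hlb : Tendsto (fun n => S.P (gs n b)) atTop (𝓝 (S.P (g b))) :=
    (S.cP.tendsto _).comp (hl.tendsto_at hbD)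
  have hlz : Tendsto (fun n => S.P (gs n z)) atTop (𝓝 (S.P (g z))) :=
    (S.cP.tendsto _).comp (hl.tendsto_at hzD)
  have hle : S.P (g z) ≤ 3 * S.P (g b) := by
    by_contra hlt
    push Not at hlt
    have h1 : ∀ᶠ n in atTop, 3 * S.P (gs n b) < S.P (gs n z) := by
      have h2 := (hlb.const_mul 3)
      exact h2.eventually_lt hlz hlt
    obtain ⟨n, hn1, hn2⟩ := (hfreq.and_eventually h1).exists
    have := hn1 z hzball
    linarith
  have h1 := hpos z hz2
  rw [hPb] at hle
  linarith

end Pool.Agent.HQ
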