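import Pool.Agent.HQD.Defs
import Pool.Agent.HQD.ZClo
import Pool.Agent.HQD.ZCpt
import Pool.Agent.HQD.ZZero

/-!
# HQD module ZUni: the passing property is uniform
-/

set_option autoImplicit false

open Filter Topology Set Metric

namespace Pool.Agent.HQ

/-- iterates of a locally uniformly convergent sequence stay in an open set on a compact set -/
theorem ZUni_open (S : Sys) {g : ℕ → ℂ → E} {h : ℂ → E} (hc : Continuous h)
    (hg : TendstoLocallyUniformly g h atTop) (n : ℕ) {K : Set ℂ} (hK : IsCompact K) {O : Set E}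
    (hO : ∀ z ∈ K, (S.F ^ n) (h z) ∈ interior O) :
    ∀ᶠ k in atTop, ∀ z ∈ K, (S.F ^ n) (g k z) ∈ O := by
  have h1 := tlu_zoom S hc hg n (b := fun _ => 0) (s := fun _ => 1) (b' := 0) (s' := 1)
    tendsto_const_nhds tendsto_const_nhds
  simp only [zero_add, one_mul] at h1
  have hcont : Continuous fun z => (S.F ^ n) (h z) := (S.diff_pow n).continuous.comp hc
  have hKc : IsCompact ((fun z => (S.F ^ n) (h z)) '' K) := hK.image hcont
  obtain ⟨ε, hε, hsub⟩ := hKc.exists_thickening_subset_open isOpen_interior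
    (by rintro _ ⟨z, hz, rfl⟩; exact hO z hz)
  have h2 : TendstoUniformlyOn (fun k z => (S.F ^ n) (g k z)) (fun z => (S.F ^ n) (h z)) atTop K :=
    (tendstoLocallyUniformlyOn_iff_tendstoUniformlyOn_of_compact hK).1
      h1.tendstoLocallyUniformlyOn
  rw [Metric.tendstoUniformlyOn_iff] at h2
  filter_upwards [h2 ε hε] with k hk z hz
  refine interior_subset (hsub ?_)
  rw [Metric.mem_thickening_iff]
  exact ⟨_, ⟨z, hz, rfl⟩, by rw [dist_comm]; exact hk z hz⟩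

theorem unifPP (S : Sys) {C : Set (ℂ → E)} (hC : S.ZC C) {O : Set E} (hO : S.PP C O) :
    ∃ (R₀ c ρ : ℝ) (nm : ℕ), 1 ≤ R₀ ∧ 0 < c ∧ 0 < ρ ∧ ∀ g ∈ C,
      ∃ (a : ℂ) (r : ℝ) (n : ℕ), ‖a‖ ≤ R₀ ∧ ρ ≤ r ∧ r ≤ R₀ ∧ n ≤ nm ∧ c ≤ S.P (g a) ∧
        (∃ b ∈ ball a r, S.P (g b) = 0) ∧
        ∀ z ∈ closedBall a (2 * r), (S.F ^ n) (g z) ∈ O := by
  by_contra hcon
  push Not at hcon
  have h1 : ∀ k : ℕ, ∃ g ∈ C, ∀ (a : ℂ) (r : ℝ) (n : ℕ), ‖a‖ ≤ (k : ℝ) + 1 →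
      1 / ((k : ℝ) + 1) ≤ r → r ≤ (k : ℝ) + 1 → n ≤ k → 1 / ((k : ℝ) + 1) ≤ S.P (g a) →
      (∃ b ∈ ball a r, S.P (g b) = 0) → ∃ z ∈ closedBall a (2 * r), (S.F ^ n) (g z) ∉ O :=
    fun k => hcon ((k : ℝ) + 1) (1 / ((k : ℝ) + 1)) (1 / ((k : ℝ) + 1)) k
      (by have : (0 : ℝ) ≤ k := Nat.cast_nonneg k
          linarith) (by positivity) (by positivity)
  choose g hgC hg using h1
  obtain ⟨φ, hφ, h, hh, hl⟩ := CC_cpt S fun n => hC.sub _ (hgC n)
  have hmem : h ∈ C := hC.cl h (mem_Clo_iff.2 ⟨fun n => g (φ n), fun n => hgC (φ n), hl⟩) hh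
  obtain ⟨a, r, n, hr, ha, hz, hpass⟩ := hO h hmem
  have e1 : ∀ᶠ k in atTop, S.P (h a) / 2 < S.P (g (φ k) a) := by
    have h2 : Tendsto (fun k => S.P (g (φ k) a)) atTop (𝓝 (S.P (h a))) :=
      (S.cP.tendsto (h a)).comp
        ((tendstoLocallyUniformlyOn_univ.2 hl).tendsto_at (mem_univ a))
    exact h2.eventually (lt_mem_nhds (by linarith))
  have e2 : ∀ᶠ k in atTop, ∃ b ∈ ball a r, S.P (g (φ k) b) = 0 :=
    zero_near S isOpen_univ (fun k => (hC.sub _ (hgC (φ k))).diff.differentiableOn)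
      hh.diff.continuous.continuousOn (tendstoLocallyUniformlyOn_univ.2 hl)
      (subset_univ _) ha hz
  have e3 : ∀ᶠ k in atTop, ∀ z ∈ closedBall a (2 * r), (S.F ^ n) (g (φ k) z) ∈ O :=
    ZUni_open S hh.diff.continuous hl n (isCompact_closedBall a (2 * r)) hpass
  have e4 : ∀ᶠ k : ℕ in atTop, 1 / ((k : ℝ) + 1) < min r (S.P (h a) / 2) :=
    (tendsto_one_div_add_atTop_nhds_zero_nat (𝕜 := ℝ)).eventually
      (gt_mem_nhds (lt_min hr (by linarith)))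
  have e5 : ∀ᶠ k : ℕ in atTop, max ‖a‖ r ≤ (k : ℝ) :=
    tendsto_natCast_atTop_atTop.eventually (eventually_ge_atTop _)
  obtain ⟨k, hk1, hk2, hk3, hk4, hk5, hk6⟩ :=
    (e1.and (e2.and (e3.and (e4.and (e5.and (eventually_ge_atTop n)))))).exists
  have hkφ : k ≤ φ k := hφ.id_le k
  have hkφ' : (k : ℝ) ≤ (φ k : ℝ) := by exact_mod_cast hkφ
  have hk0 : (0 : ℝ) ≤ k := Nat.cast_nonneg k
  have h3 : 1 / ((φ k : ℝ) + 1) ≤ 1 / ((k : ℝ) + 1) :=
    one_div_le_one_div_of_le (by linarith) (by linarith)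
  obtain ⟨z, hz1, hz2⟩ := hg (φ k) a r n ((le_max_left _ _).trans hk5 |>.trans (by linarith))
    (h3.trans (hk4.le.trans (min_le_left _ _)))
    ((le_max_right _ _).trans hk5 |>.trans (by linarith)) (hk6.trans hkφ)
    (h3.trans (hk4.le.trans ((min_le_right _ _).trans hk1.le))) hk2
  exact hz2 (hk3 z hz1)

end Pool.Agent.HQ
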