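import Pool.Agent.HQD.Defs
import Pool.Agent.HQD.ZCpt
import Pool.Agent.HQD.ZMx
import Pool.Agent.HQD.ZLow
import Pool.Agent.HQD.ZPick
import Pool.Agent.HQ.Acc60

/-!
# HQD module ZZoom: zooming an entire curve; the class is not empty
-/

set_option autoImplicit false

open Filter Topology Set Metric

namespace Pool.Agent.HQ

theorem ZZoom_pt {G : ℕ → ℂ → E} {η : ℂ → E} (h : TendstoLocallyUniformly G η atTop) (z : ℂ) :
    Tendsto (fun n => G n z) atTop (𝓝 (η z)) :=
  (tendstoLocallyUniformlyOn_univ.2 h).tendsto_at (mem_univ z)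

theorem ZZoom_cont {G : ℕ → ℂ → E} {η : ℂ → E} (hc : Continuous η)
    (h : TendstoLocallyUniformly G η atTop) {z : ℕ → ℂ} {w : ℂ}
    (hz : Tendsto z atTop (𝓝 w)) : Tendsto (fun n => G n (z n)) atTop (𝓝 (η w)) := by
  exact tendsto_comp_of_locally_uniform_limit hc.continuousAt hz
    (fun u hu => by
      obtain ⟨t, ht, h2⟩ := h u hu w
      exact ⟨t, ht, h2⟩)

/-- bounds along the record points -/
theorem ZZoom_seq {d : ℝ} (hd : 1 < d) {N : ℝ → ℝ} (hN : Continuous N)
    (hm : ∀ s t, 0 ≤ s → s ≤ t → N s ≤ N t) (h0 : N 0 = 0) {c r : ℝ} (hc : 0 < c) (hr : 0 < r)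
    (hlow : ∀ s, 0 < s → s ≤ r → c * s ≤ N s) :
    ∃ (n : ℕ → ℕ) (s : ℕ → ℝ), (∀ k, 0 < s k) ∧ Tendsto s atTop (𝓝 0) ∧ Tendsto n atTop atTop ∧
      (∀ k, N (s k) = (d ^ n k)⁻¹) ∧
      ∀ k, ∀ R : ℝ, 1 ≤ R → s k * R ≤ r → d ^ n k * N (s k * R) ≤ d * R ^ 2 := by
  have hd0 : 0 < d := by linarith
  have hs1 : ∀ k : ℕ, 0 < r / ((k : ℝ) + 1) := fun k => by positivity
  have hs2 : ∀ k : ℕ, r / ((k : ℝ) + 1) ≤ r := fun k => by
    apply div_le_self hr.le
    have : (0 : ℝ) ≤ k := Nat.cast_nonneg k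
    linarith
  choose t htm htr using fun k : ℕ => record hN (hs1 k) (hs2 k)
  have htp : ∀ k, 0 < t k := fun k => lt_of_lt_of_le (hs1 k) (htm k).1
  have hNr : 0 < N r := lt_of_lt_of_le (by positivity) (hlow r hr le_rfl)
  have hNt : ∀ k, 0 < N (t k) := fun k =>
    lt_of_lt_of_le (mul_pos hc (htp k)) (hlow (t k) (htp k) (htm k).2)
  have htsq : ∀ k, t k ^ 2 ≤ N r / c * (r / ((k : ℝ) + 1)) := by
    intro k
    have h1 := htr k (r / ((k : ℝ) + 1)) ⟨le_rfl, hs2 k⟩
    have h2 := hlow _ (hs1 k) (hs2 k)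
    have h3 : N (t k) ≤ N r := hm _ _ (htp k).le (htm k).2
    set e := r / ((k : ℝ) + 1) with he
    have he0 : 0 < e := hs1 k
    have h4 : c * e ≤ N r * (e / t k) ^ 2 := by
      refine h2.trans (h1.trans ?_)
      exact mul_le_mul_of_nonneg_right h3 (sq_nonneg _)
    have ht2 : 0 < t k ^ 2 := pow_pos (htp k) 2
    have h5 : c * e * t k ^ 2 ≤ N r * e ^ 2 := by
      have h6 : N r * (e / t k) ^ 2 * t k ^ 2 = N r * e ^ 2 := by
        rw [div_pow, mul_div_assoc', div_mul_cancel₀ _ ht2.ne']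
      rw [← h6]
      exact mul_le_mul_of_nonneg_right h4 ht2.le
    have h7 : c * t k ^ 2 ≤ N r * e := by
      have : e * (c * t k ^ 2) ≤ e * (N r * e) := by nlinarith
      exact le_of_mul_le_mul_left this he0
    rw [div_mul_eq_mul_div, le_div_iff₀ hc]
    linarith
  have hlim0 : Tendsto (fun k : ℕ => N r / c * (r / ((k : ℝ) + 1))) atTop (𝓝 0) := by
    have h1 : Tendsto (fun k : ℕ => r / ((k : ℝ) + 1)) atTop (𝓝 0) := by
      have h2 := tendsto_one_div_add_atTop_nhds_zero_nat (𝕜 := ℝ)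
      have h3 := h2.const_mul r
      rw [mul_zero] at h3
      refine h3.congr fun k => ?_
      rw [mul_one_div]
    simpa using h1.const_mul (N r / c)
  have htsq0 : Tendsto (fun k => t k ^ 2) atTop (𝓝 0) :=
    squeeze_zero (fun k => sq_nonneg _) htsq hlim0
  have ht0 : Tendsto t atTop (𝓝 0) := by
    have h1 := (Real.continuous_sqrt.tendsto 0).comp htsq0
    rw [Real.sqrt_zero] at h1
    refine h1.congr fun k => ?_
    exact Real.sqrt_sq (htp k).le
  have hNt0 : Tendsto (fun k => N (t k)) atTop (𝓝 0) := by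
    have := (hN.tendsto 0).comp ht0
    rwa [h0] at this
  obtain ⟨K, hK⟩ := eventually_atTop.1 (hNt0.eventually_lt_const one_pos)
  have hpick := fun k : ℕ => pick hd hN hm h0 (htp (k + K)) (hNt (k + K)) (hK (k + K) (by omega))
  choose n s hn hsp hst hNs hnt hnt2 hnmin hgr using hpick
  have htK : Tendsto (fun k => t (k + K)) atTop (𝓝 0) := (tendsto_add_atTop_iff_nat K).2 ht0
  have hNK : Tendsto (fun k => N (t (k + K))) atTop (𝓝 0) :=
    (tendsto_add_atTop_iff_nat (f := fun k => N (t k)) K).2 hNt0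
  refine ⟨n, s, hsp, squeeze_zero (fun k => (hsp k).le) hst htK, ?_, hNs, ?_⟩
  · rw [Filter.tendsto_atTop]
    intro m
    have hpos : 0 < (d ^ m)⁻¹ := by positivity
    filter_upwards [hNK.eventually_lt_const hpos] with k hk
    have h1 : (d ^ n k)⁻¹ < (d ^ m)⁻¹ := lt_of_le_of_lt (hnt k) hk
    have h2 : d ^ m < d ^ n k := (inv_lt_inv₀ (by positivity) (by positivity)).1 h1
    exact ((pow_lt_pow_iff_right₀ hd).1 h2).le
  · intro k R hR hsR
    refine hgr k R hR ?_
    rcases le_or_gt (s k * R) (t (k + K)) with h | h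
    · exact Or.inl h
    · right
      refine htr (k + K) (s k * R) ⟨?_, hsR⟩
      exact (htm (k + K)).1.trans h.le

theorem zoomEx (S : Sys) {T : ℂ → E} (hT : Differentiable ℂ T) (h0 : ∃ t, S.P (T t) = 0)
    (h1 : ∃ t, 0 < S.P (T t)) :
    ∃ (b : ℂ) (n : ℕ → ℕ) (s : ℕ → ℝ) (g : ℂ → E), (∀ k, 0 < s k) ∧ Tendsto s atTop (𝓝 0) ∧
      Tendsto n atTop atTop ∧ S.CC g ∧
      TendstoLocallyUniformly (fun k z => (S.F ^ n k) (T (b + s k * z))) g atTop := by
  obtain ⟨b₁, hb₁⟩ := h0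
  obtain ⟨a, ha⟩ := h1
  have hu : Continuous (fun t => S.P (T t)) := S.cP.comp hT.continuous
  obtain ⟨b, hb, -, hpos⟩ := Acc60_near hu (fun t => S.P0 _) a hb₁
  have hab : a ≠ b := by
    rintro rfl
    have : S.P (T a) = 0 := hb
    linarith
  have hr : 0 < dist a b := dist_pos.2 hab
  have hd0 : 0 < S.d := S.d_pos
  set N : ℝ → ℝ := mx (fun t => S.P (T t)) b with hNdef
  have hN : Continuous N := mx_cont hu b
  have hm : ∀ s t, 0 ≤ s → s ≤ t → N s ≤ N t := fun s t h h' => mx_mono hu b h h'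
  have hN0 : N 0 = 0 := by rw [hNdef, mx_zero]; exact hb
  have hc : 0 < S.P (T a) / (2 * dist a b) := by positivity
  obtain ⟨n, s, hs, hs0, hn, hNs, hgr⟩ := ZZoom_seq S.hd hN hm hN0 hc hr (fun s hs hs' => by
    have := near_low S hT hab hpos hs hs'
    calc S.P (T a) / (2 * dist a b) * s = s / (2 * dist a b) * S.P (T a) := by ring
      _ ≤ N s := this)
  set G : ℕ → ℂ → E := fun k z => (S.F ^ n k) (T (b + s k * z)) with hG
  have hGd : ∀ k, Differentiable ℂ (G k) := by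
    intro k
    have h1 : Differentiable ℂ (fun z : ℂ => b + (s k : ℂ) * z) :=
      (differentiable_const _).add ((differentiable_const _).mul differentiable_id)
    exact (S.diff_pow (n k)).comp (hT.comp h1)
  have hGP : ∀ k z, S.P (G k z) = S.d ^ n k * S.P (T (b + s k * z)) := fun k z => S.P_pow _ _
  have hnorm : ∀ k (z : ℂ), ‖(b + (s k : ℂ) * z) - b‖ = s k * ‖z‖ := by
    intro k z
    rw [add_sub_cancel_left, norm_mul, Complex.norm_real, Real.norm_of_nonneg (hs k).le]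
  have hGN : ∀ k z, S.P (G k z) ≤ S.d ^ n k * N (s k * ‖z‖) := by
    intro k z
    rw [hGP]
    refine mul_le_mul_of_nonneg_left ?_ (pow_nonneg hd0.le _)
    exact le_mx hu (hnorm k z).le
  have hG1 : ∀ k z, ‖z‖ ≤ 1 → S.P (G k z) ≤ 1 := by
    intro k z hz
    refine (hGN k z).trans ?_
    have h2 : N (s k * ‖z‖) ≤ N (s k) := by
      refine hm _ _ (mul_nonneg (hs k).le (norm_nonneg _)) ?_
      have := mul_le_mul_of_nonneg_left hz (hs k).le
      linarith
    rw [hNs] at h2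
    calc S.d ^ n k * N (s k * ‖z‖) ≤ S.d ^ n k * (S.d ^ n k)⁻¹ :=
          mul_le_mul_of_nonneg_left h2 (pow_nonneg hd0.le _)
      _ = 1 := mul_inv_cancel₀ (pow_pos hd0 _).ne'
  have hG2 : ∀ k (z : ℂ), 1 ≤ ‖z‖ → s k * ‖z‖ ≤ dist a b → S.P (G k z) ≤ S.d * ‖z‖ ^ 2 :=
    fun k z hz hz2 => (hGN k z).trans (hgr k _ hz hz2)
  have hev : ∀ R : ℝ, ∀ᶠ k in atTop, s k * R ≤ dist a b := by
    intro R
    have h2 : Tendsto (fun k => s k * R) atTop (𝓝 0) := by
      simpa using hs0.mul_const R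
    exact (h2.eventually_lt_const hr).mono fun k hk => hk.le
  -- bound for M
  have hMT : Continuous (fun t => S.M (T t)) := S.cM.comp hT.continuous
  have hMb : ∀ R : ℝ, ∃ C : ℝ, ∀ t ∈ closedBall b R, S.M (T t) ≤ C := by
    intro R
    obtain ⟨C, hC⟩ := (isCompact_closedBall b R).exists_bound_of_continuousOn hMT.continuousOn
    refine ⟨C, fun t ht => ?_⟩
    have := hC t ht
    rw [Real.norm_eq_abs] at this
    exact (le_abs_self _).trans this
  have hs1 : ∀ᶠ k in atTop, s k ≤ 1 := (hs0.eventually_lt_const one_pos).mono fun k hk => hk.le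
  have hmem : ∀ (k : ℕ) (z : ℂ) (R : ℝ), s k ≤ 1 → ‖z‖ ≤ R → b + (s k : ℂ) * z ∈ closedBall b R := by
    intro k z R hk hz
    rw [mem_closedBall, dist_eq_norm, hnorm]
    have h3 : s k * ‖z‖ ≤ 1 * ‖z‖ := mul_le_mul_of_nonneg_right hk (norm_nonneg _)
    linarith
  have hGM : ∀ k z, S.M (G k z) ≤ S.M (T (b + s k * z)) := by
    intro k z
    change S.M ((S.F ^ n k) (T (b + s k * z))) ≤ _
    rw [S.M_pow]
    have h3 : (S.d ^ n k)⁻¹ ≤ 1 := inv_le_one_of_one_le₀ (one_le_pow₀ S.hd.le)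
    have h4 := mul_le_mul_of_nonneg_right h3 (S.M0 (T (b + s k * z)))
    rwa [one_mul] at h4
  obtain ⟨φ, hφ, h, hhd, hlim⟩ := montel isOpen_univ G (fun k => (hGd k).differentiableOn) (by
    intro z _
    refine ⟨1, one_pos, ?_⟩
    obtain ⟨C, hC⟩ := hMb (‖z‖ + 1)
    obtain ⟨K, hK⟩ := eventually_atTop.1 ((hev (‖z‖ + 1)).and hs1)
    obtain ⟨R1, hR1⟩ := S.sub_bdd (max (S.d * (‖z‖ + 1) ^ 2) C)
    have hcp : ∀ k, ∃ Rk : ℝ, ∀ w ∈ closedBall (0 : ℂ) (‖z‖ + 1), ‖G k w‖ ≤ Rk := fun k =>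
      (isCompact_closedBall _ _).exists_bound_of_continuousOn (hGd k).continuous.continuousOn
    choose Rk hRk using hcp
    refine ⟨|R1| + ∑ k ∈ Finset.range K, |Rk k|, fun k w hw _ => ?_⟩
    have hwn : ‖w‖ ≤ ‖z‖ + 1 := by
      rw [mem_ball, dist_eq_norm] at hw
      have : ‖w‖ ≤ ‖w - z‖ + ‖z‖ := by
        have := norm_add_le (w - z) z
        rwa [sub_add_cancel] at this
      linarith
    have hsum : 0 ≤ ∑ k ∈ Finset.range K, |Rk k| := Finset.sum_nonneg fun _ _ => abs_nonneg _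
    rcases lt_or_ge k K with hk | hk
    · have h5 := hRk k w (by rw [mem_closedBall, dist_zero_right]; exact hwn)
      have h6 : |Rk k| ≤ ∑ k ∈ Finset.range K, |Rk k| :=
        Finset.single_le_sum (f := fun k => |Rk k|) (fun _ _ => abs_nonneg _)
          (Finset.mem_range.2 hk)
      have h7 := le_abs_self (Rk k)
      have h8 := abs_nonneg R1
      linarith
    · obtain ⟨hk1, hk2⟩ := hK k hk
      have hP : S.P (G k w) ≤ S.d * (‖z‖ + 1) ^ 2 := by
        rcases le_or_gt 1 ‖w‖ with h9 | h9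
        · refine (hG2 k w h9 ?_).trans ?_
          · exact (mul_le_mul_of_nonneg_left hwn (hs k).le).trans hk1
          · refine mul_le_mul_of_nonneg_left ?_ hd0.le
            exact pow_le_pow_left₀ (norm_nonneg _) hwn 2
        · refine (hG1 k w h9.le).trans ?_
          have h10 : 1 ≤ (‖z‖ + 1) ^ 2 := by
            have := norm_nonneg z
            nlinarith
          have := S.hd
          nlinarith
      have hM : S.M (G k w) ≤ C := (hGM k w).trans (hC _ (hmem k w _ hk2 hwn))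
      have h11 := hR1 (G k w) (hP.trans (le_max_left _ _)) (hM.trans (le_max_right _ _))
      have h12 := le_abs_self R1
      linarith)
  have hlim' : TendstoLocallyUniformly (fun k => G (φ k)) h atTop :=
    tendstoLocallyUniformlyOn_univ.1 hlim
  have hhd' : Differentiable ℂ h := differentiableOn_univ.1 hhd
  have hφt := hφ.tendsto_atTop
  refine ⟨b, fun k => n (φ k), fun k => s (φ k), h, fun k => hs _, hs0.comp hφt, hn.comp hφt,
    ⟨hhd', ?_, ?_, ?_, ?_, ?_⟩, hlim'⟩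
  · intro z
    obtain ⟨C, hC⟩ := hMb ‖z‖
    obtain ⟨K, hK⟩ := eventually_atTop.1 hs1
    have hpt := (ZZoom_pt hlim' z).comp (tendsto_add_atTop_nat K)
    refine S.M_lim (x := fun i => T (b + s (φ (i + K)) * z)) (n := fun i => n (φ (i + K)))
      (c := C) ((hn.comp hφt).comp (tendsto_add_atTop_nat K)) (fun i => ?_) hpt
    refine hC _ (hmem _ _ _ ?_ le_rfl)
    refine hK _ ?_
    have := hφ.id_le (i + K)
    change i + K ≤ φ (i + K) at this
    omega
  · have hpt := (S.cP.tendsto _).comp (ZZoom_pt hlim' 0)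
    refine tendsto_nhds_unique hpt ?_
    have h3 : (S.P ∘ fun k => G (φ k) 0) = fun _ => 0 := by
      funext k
      change S.P (G (φ k) 0) = 0
      rw [hGP, mul_zero, add_zero]
      have : S.P (T b) = 0 := hb
      rw [this, mul_zero]
    rw [h3]
    exact tendsto_const_nhds
  · intro z hz
    exact le_of_tendsto' ((S.cP.tendsto _).comp (ZZoom_pt hlim' z)) fun k => hG1 _ z hz
  · have hex : ∀ k, ∃ w : ℂ, ‖w‖ ≤ 1 ∧ S.P (G k w) = 1 := by
      intro k
      obtain ⟨t, ht1, ht2⟩ := mx_att hu b (hs k).le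
      have hsc : (s k : ℂ) ≠ 0 := Complex.ofReal_ne_zero.2 (hs k).ne'
      refine ⟨(t - b) / s k, ?_, ?_⟩
      · rw [norm_div, Complex.norm_real, Real.norm_of_nonneg (hs k).le]
        exact div_le_one_of_le₀ ht1 (hs k).le
      · rw [hGP]
        have h4 : b + (s k : ℂ) * ((t - b) / s k) = t := by
          rw [mul_div_cancel₀ _ hsc]
          ring
        rw [h4]
        have h5 : S.P (T t) = N (s k) := ht2
        rw [h5, hNs]
        exact mul_inv_cancel₀ (pow_pos hd0 _).ne'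
    choose w hw1 hw2 using hex
    obtain ⟨w0, hw0, ψ, hψ, hwlim⟩ := (isCompact_closedBall (0 : ℂ) 1).tendsto_subseq
      (x := fun k => w (φ k)) (fun k => by rw [mem_closedBall, dist_zero_right]; exact hw1 _)
    rw [mem_closedBall, dist_zero_right] at hw0
    refine ⟨w0, hw0, ?_⟩
    have h6 : TendstoLocallyUniformly (fun k => G (φ (ψ k))) h atTop := by
      intro u hu' x
      obtain ⟨t, ht, h7⟩ := hlim' u hu' x
      exact ⟨t, ht, hψ.tendsto_atTop.eventually h7⟩
    have h8 := (S.cP.tendsto _).comp (ZZoom_cont hhd'.continuous h6 hwlim)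
    refine tendsto_nhds_unique h8 ?_
    have h9 : (S.P ∘ fun k => G (φ (ψ k)) (((fun k => w (φ k)) ∘ ψ) k)) = fun _ => 1 := by
      funext k
      exact hw2 _
    rw [h9]
    exact tendsto_const_nhds
  · intro z hz
    refine le_of_tendsto ((S.cP.tendsto _).comp (ZZoom_pt hlim' z)) ?_
    filter_upwards [hφt.eventually (hev ‖z‖)] with k hk
    exact hG2 _ z hz hk

theorem exZero (S : Sys) : ∃ x, S.P x = 0 := by
  by_contra hcon
  push Not at hcon
  have hpos : ∀ x, 0 < S.P x := fun x => lt_of_le_of_ne (S.P0 x) (hcon x).symm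
  have hd1 : 0 < S.d - 1 := by linarith [S.hd]
  set x : E := 0
  set r : ℝ := 1 + 4 / (S.d - 1) with hr
  have hr1 : 1 < r := by
    have : 0 < 4 / (S.d - 1) := by positivity
    linarith
  have hγ : Differentiable ℂ (fun t : ℂ => x + t • (S.F x - x)) :=
    (differentiable_const _).add (differentiable_id.smul_const _)
  have h1 := (S.hP (fun t : ℂ => x + t • (S.F x - x)) 0 r (by linarith) hγ.differentiableOn
    (fun z _ => hpos _) 1 (by rw [mem_ball, dist_zero_right, norm_one]; exact hr1)).2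
  have h2 : x + (1 : ℂ) • (S.F x - x) = S.F x := by rw [one_smul, add_sub_cancel]
  have h3 : x + (0 : ℂ) • (S.F x - x) = x := by rw [zero_smul, add_zero]
  simp only [h2, h3] at h1
  rw [dist_zero_right, norm_one, S.PF] at h1
  have h4 : S.d ≤ (r + 1) / (r - 1) := le_of_mul_le_mul_right h1 (hpos x)
  have h5 : (r + 1) / (r - 1) = 1 + (S.d - 1) / 2 := by
    rw [hr]
    field_simp
    ring
  rw [h5] at h4
  linarith

theorem CC_ne (S : Sys) : ∃ g, S.CC g := by
  obtain ⟨x0, hx0⟩ := exZero S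
  obtain ⟨x1, hx1⟩ := S.neP
  have hT : Differentiable ℂ (fun t : ℂ => x0 + t • (x1 - x0)) :=
    (differentiable_const _).add (differentiable_id.smul_const _)
  obtain ⟨-, -, -, g, -, -, -, hg, -⟩ := zoomEx S hT
    ⟨0, by rw [zero_smul, add_zero]; exact hx0⟩
    ⟨1, by rw [one_smul, add_sub_cancel]; exact hx1⟩
  exact ⟨g, hg⟩

end Pool.Agent.HQ
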