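import Pool.Agent.HQD.Defs
import Pool.Agent.HQD.ZUni
import Pool.Agent.HQD.ZStep
import Pool.Agent.HQD.ZZoom
import Pool.Agent.HQD.ZTrk
import Pool.Agent.HQD.ZExt
import Pool.Agent.HQD.ZOrd
import Pool.Agent.HQD.ZCoc
import Pool.Agent.HQD.ZClose

/-!
# HQD module ZD0: Theorem D0
-/

set_option autoImplicit false

open Filter Topology Set Metric

namespace Pool.Agent.HQ

theorem zoomD0 (S : Sys) (hdet : S.Det) {C : Set (ℂ → E)} (hC : S.ZC C) (hne : C.Nonempty)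
    {O : Set E} (hO : IsClosed O) (hPP : S.PP C O) :
    ∃ (R : ℝ) (h : ℂ → E), h ∈ Clo {k | ∃ g ∈ C, ∃ ζ : ℂ, ‖ζ‖ ≤ R ∧ k = fun z => g (ζ + z)} ∧
      Differentiable ℂ h ∧ (∀ z, S.M (h z) = 0) ∧ h 0 ∈ closure (Sad S.F) ∧
      (∃ᶠ t in 𝓝 (0 : ℂ), 0 < S.P (h t)) ∧ ∃ m : ℕ, (S.F ^ m) (h 0) ∈ O := by
  obtain ⟨R₀, c, ρ, nm, hR₀, hc, hρ, hu⟩ := unifPP S hC hPP
  obtain ⟨R₁, σ, q, hR₁, hσ, hσ2, hst⟩ := CC_stepO S hC hR₀ hc hρ hu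
  obtain ⟨h, hHC, hCz, hpass, hext⟩ := tracks S hC hne hR₁ hσ hst
  have hR : (0 : ℝ) ≤ 2 * R₁ := by linarith
  set A0 : Set (ℂ → E) := range h with hA0
  have hA0HC : ∀ k ∈ A0, S.HC (2 * R₁) k := by
    rintro _ ⟨i, rfl⟩
    exact hHC i
  have hA0E : S.Ext q σ A0 := by
    rintro _ ⟨i, rfl⟩
    obtain ⟨n, s, hn1, hnq, hs1, hs2, he⟩ := hext i
    exact ⟨n, s, hn1, hnq, hs1, hs2, ⟨i + 1, he⟩⟩
  have hA0p : ∀ k ∈ A0, ∃ m ≤ nm, (S.F ^ m) (k 0) ∈ O := by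
    rintro _ ⟨i, rfl⟩
    exact hpass i
  set A1 : Set (ℂ → E) := Clo A0 with hA1
  have hA1HC : ∀ k ∈ A1, S.HC (2 * R₁) k := Clo_HC S hR hA0HC
  have hA1E : S.Ext q σ A1 := ext_Clo S hR hσ hA0HC hA0E
  have hA1p : ∀ k ∈ A1, ∃ m ≤ nm, (S.F ^ m) (k 0) ∈ O := Clo_pass S hO hA0p
  have hA1c : Clo A1 ⊆ A1 := by rw [hA1, Clo_Clo]
  have hA1ne : A1.Nonempty := ⟨h 0, subset_Clo _ ⟨0, rfl⟩⟩
  have hA1s : A1 ⊆ Clo {k | ∃ g ∈ C, ∃ ζ : ℂ, ‖ζ‖ ≤ 2 * R₁ ∧ k = fun z => g (ζ + z)} := by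
    refine Clo_mono ?_
    rintro _ ⟨i, rfl⟩
    exact hCz i
  obtain ⟨m, A2, c₁, c₂, hm, hA2s, hA2ne, hA2c, hA2E, hc₁, hA2o⟩ :=
    ext_ord S hR hσ hA1ne hA1HC hA1c hA1E
  have hA2HC : ∀ k ∈ A2, S.HC (2 * R₁) k := fun k hk => hA1HC k (hA2s hk)
  obtain ⟨g, v, n, l, hg⟩ := cocyc S hm hσ hA2HC hA2E hA2o hA2ne
  have key : ∀ δ : ℝ, 0 < δ → ∃ k ∈ A2, ∃ p ∈ Sad S.F, ‖p - k 0‖ < δ := by
    intro δ hδ
    obtain ⟨i, p, hp, hpi⟩ := saddle_near S hdet (q := q) hc₁ (x := fun i => g i 0) (v := v)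
      (n := n) (l := l) (fun i => (hA2HC _ (hg i).1).P0) (fun i => (hA2HC _ (hg i).1).M0 0)
      (fun i => ⟨(hg i).2.1, (hg i).2.2.1⟩) (fun i => ⟨(hg i).2.2.2.1, (hg i).2.2.2.2.1⟩)
      (fun i => (hg i).2.2.2.2.2.1) (fun i => (hg i).2.2.2.2.2.2.1)
      (fun i => (hg i).2.2.2.2.2.2.2) hδ
    exact ⟨g i, (hg i).1, p, hp, hpi⟩
  have key2 : ∀ j : ℕ, ∃ k ∈ A2, ∃ p ∈ Sad S.F, ‖p - k 0‖ < 1 / ((j : ℝ) + 1) :=
    fun j => key _ (by positivity)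
  choose k hkA p hpS hpk using key2
  obtain ⟨φ, hφ, h', hh', hlim⟩ := HC_cpt S hR (fun j => hA2HC _ (hkA j))
  have hh'A : h' ∈ A2 := hA2c (mem_Clo_iff.2 ⟨fun j => k (φ j), fun j => hkA _, hlim⟩)
  refine ⟨2 * R₁, h', hA1s (hA2s hh'A), hh'.diff, hh'.M0, ?_, ?_, ?_⟩
  · have h1 : Tendsto (fun j => k (φ j) 0) atTop (𝓝 (h' 0)) :=
      (tendstoLocallyUniformlyOn_univ.2 hlim).tendsto_at (mem_univ 0)
    have h2 : Tendsto (fun j => p (φ j) - k (φ j) 0) atTop (𝓝 0) := by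
      refine squeeze_zero_norm (fun j => (hpk (φ j)).le) ?_
      exact tendsto_one_div_add_atTop_nhds_zero_nat.comp hφ.tendsto_atTop
    have h3 : Tendsto (fun j => p (φ j)) atTop (𝓝 (h' 0)) := by
      have := h2.add h1
      simpa using this
    exact mem_closure_of_tendsto h3 (Eventually.of_forall fun j => hpS _)
  · rw [Metric.nhds_basis_ball.frequently_iff]
    intro r hr
    obtain ⟨z, hz, hz2⟩ := ext_P_pos S hσ hA2HC hA2E hh'A hr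
    exact ⟨z, hz, hz2⟩
  · obtain ⟨m', -, hm'⟩ := hA1p h' (hA2s hh'A)
    exact ⟨m', hm'⟩

theorem sad_ne (S : Sys) (hdet : S.Det) : (Sad S.F).Nonempty := by
  have hZ : S.ZC {g | S.CC g} := ⟨fun g hg => hg, fun g _ hg => hg, fun g _ n b s _ hg => hg⟩
  obtain ⟨g, hg⟩ := CC_ne S
  have hPP : S.PP {g | S.CC g} univ := by
    intro g hg
    obtain ⟨a, ha1, ha2⟩ := (show S.CC g from hg).eq1
    refine ⟨a, 2, 0, two_pos, by rw [ha2]; exact one_pos, ⟨0, ?_, (show S.CC g from hg).P0⟩, ?_⟩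
    · rw [mem_ball, dist_comm, dist_zero_right]
      linarith
    · intro z _
      rw [interior_univ]
      exact mem_univ _
  obtain ⟨R, h, -, -, -, h0, -⟩ := zoomD0 S hdet hZ ⟨g, hg⟩ isClosed_univ hPP
  rw [closure_nonempty_iff.symm]
  exact ⟨h 0, h0⟩

end Pool.Agent.HQ
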