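import Pool.Agent.HQD.HDet
import Pool.Agent.HQD.PMvH
import Pool.Agent.HQD.PEnd
import Pool.Agent.HQD.SAll
import Pool.Agent.HQD.F1u
import Pool.Agent.HQD.ZD0
import Pool.Agent.HQL.Fin
import Pool.Agent.HQ.Result0
import Pool.Agent.HQ.Lk5

/-!
# HQD module Full: the theorem for quasi-hyperbolic generalized Henon maps
-/

set_option autoImplicit false

open Filter Topology Set Metric

namespace Pool.Agent.HQ

/-- the points of `K` outside the interior of `K⁺` are limits of saddle points, for systems of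
Henon type that do not expand the volume -/
theorem H5_of_det (Q : QS) (hdet : Q.Det) (hH : Hen Q.toSys) (hMV : Q.MV) (hMV' : Q.dual.MV)
    (hV : interior Q.Km ⊆ interior Q.Kp) : Q.H5 := by
  have hS : (Sad Q.F).Nonempty := sad_ne Q.toSys hdet
  have hP : LemP Q := lemP Q hdet hMV hMV'
  refine julia_sub Q hP (F1u_all Q hH hS) ?_ (F2u_all Q hdet hH hP) hV
  exact F1u_all Q.dual hH.dual (by rw [QS.dual_Sad]; exact hS)

/-- the modulus of the Jacobian determinant of the inverse -/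
theorem henon_inv_det (L : List (ℂˣ × Polynomial ℂ)) (x : E) :
    ‖(fderiv ℂ (⇑(henon L)⁻¹) x).det‖ = ((L.map fun q => ‖((q.1 : ℂˣ) : ℂ)‖).prod)⁻¹ := by
  have h1 : (⇑(henon L)) ∘ (⇑(henon L)⁻¹) = id := by
    funext y
    exact (henon L).apply_symm_apply y
  have h2 : fderiv ℂ ((⇑(henon L)) ∘ (⇑(henon L)⁻¹)) x =
      (fderiv ℂ (⇑(henon L)) ((henon L)⁻¹ x)).comp (fderiv ℂ (⇑(henon L)⁻¹) x) :=
    fderiv_comp x ((henon_diff L) _) ((henon_inv_diff L) x)
  rw [h1, fderiv_id] at h2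
  have h3 : ((fderiv ℂ (⇑(henon L)) ((henon L)⁻¹ x)).comp (fderiv ℂ (⇑(henon L)⁻¹) x)).det =
      (fderiv ℂ (⇑(henon L)) ((henon L)⁻¹ x)).det * (fderiv ℂ (⇑(henon L)⁻¹) x).det := by
    unfold ContinuousLinearMap.det
    rw [ContinuousLinearMap.toLinearMap_comp, LinearMap.det_comp]
  rw [← h2] at h3
  have h4 : (ContinuousLinearMap.id ℂ E).det = 1 := by simp [ContinuousLinearMap.det]
  rw [h4] at h3
  have h5 := congrArg norm h3
  rw [norm_one, norm_mul, henon_det] at h5
  exact eq_inv_of_mul_eq_one_right h5.symm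

theorem full {L : List (ℂˣ × Polynomial ℂ)} (hL : Adm L) (hq : QHyp L) :
    (Snk (henon L)).Finite ∧
      interior (Kplus (henon L)) = ⋃ p ∈ Snk (henon L), Basin (henon L) p ∧
      frontier (Kplus (henon L)) ∩ frontier (Kplus (henon L)⁻¹) = closure (Sad (henon L)) := by
  obtain ⟨⟨Xu, hXu, nXu⟩, ⟨Xs, hXs, nXs⟩⟩ := hq
  have hinv : Sad (henon L)⁻¹ = Sad (henon L) := Sad_inv (henon_diff L) (henon_inv_diff L)
  rw [hinv] at hXs nXs
  set Q : QS := QS.mk (hsys L hL) Xu Xs hXu hXs nXu nXs with hQ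
  have hKp : Kplus (henon L) = Q.Kp := (hsys_Kp L hL).symm
  have hKm : Kplus (henon L)⁻¹ = Q.Km := (hsys_Km L hL).symm
  have hH : Hen Q.toSys := hsys_hen L hL
  have hMV : Q.MV := hsys_MV L hL
  have hMV' : Q.dual.MV := hsys_MV_dual L hL
  have hb : ∀ a ∈ L.map fun q => ‖((q.1 : ℂˣ) : ℂ)‖, 0 < a := by
    intro a ha
    obtain ⟨q, -, rfl⟩ := List.mem_map.1 ha
    exact norm_pos_iff.2 q.1.ne_zero
  set b : ℝ := (L.map fun q => ‖((q.1 : ℂˣ) : ℂ)‖).prod with hbdef
  have hb0 : 0 < b := List.prod_pos hb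
  have hvol : ∀ A : Set E, MeasurableSet A →
      MeasureTheory.volume (Q.F '' A) = ENNReal.ofReal (b ^ 2) * MeasureTheory.volume A := by
    intro A hA
    rw [hbdef, ← prod_sq]
    exact vol_henon L hA
  have hvol' := HV2_vol_inv Q.toSys (pow_pos hb0 2) hvol
  -- the closure of the saddles is contained in the Julia set
  have hsub : closure (Sad Q.F) ⊆ frontier Q.Kp ∩ frontier Q.Km := by
    intro x hx
    exact ⟨⟨subset_closure (Q.toSys.clSad_P hx), clSad_not_int_p Q hx⟩,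
      ⟨subset_closure (Q.toSys.clSad_M hx), clSad_not_int_m Q hx⟩⟩
  have hclp : ∀ x ∈ frontier Q.Kp, Q.P x = 0 := by
    intro x hx
    have := hx.1
    rwa [Q.isClosed_Kp.closure_eq] at this
  have hclm : ∀ x ∈ frontier Q.Km, Q.M x = 0 := by
    intro x hx
    have := hx.1
    rwa [Q.isClosed_Km.closure_eq] at this
  rw [hKp, hKm]
  rcases le_or_gt b 1 with hb1 | hb1
  · have hdet : Q.Det := by
      intro x
      show ‖(fderiv ℂ (⇑(henon L)) x).det‖ ≤ 1
      rw [henon_det]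
      exact hb1
    have hVV : interior Q.Km = ∅ ∨ interior Q.Kp = interior Q.Km := by
      rcases lt_or_eq_of_le hb1 with h | h
      · left
        exact HV2_lt Q.toSys (pow_lt_one₀ hb0.le h two_ne_zero) hvol
      · right
        refine Subset.antisymm (HV2_sub Q.toSys fun A hA => ?_)
          (HV2_sub Q.toSys.dual fun A hA => ?_)
        · rw [hvol A hA, h, one_pow, ENNReal.ofReal_one, one_mul]
        · rw [hvol' A hA, h, one_pow, inv_one, ENNReal.ofReal_one, one_mul]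
    have h5 : Q.H5 := H5_of_det Q hdet hH hMV hMV' (by
      rcases hVV with h | h
      · rw [h]; exact empty_subset _
      · rw [h])
    have hJ : frontier Q.Kp ∩ frontier Q.Km = closure (Sad Q.F) :=
      Subset.antisymm (fun x hx => h5 x (hclp x hx.1) (hclm x hx.2) hx.1.2) hsub
    rcases hVV with h | h
    · obtain ⟨h1, h2⟩ := abs_V1 Q h5 h
      exact ⟨h1, h2, hJ⟩
    · obtain ⟨h1, h2⟩ := abs_empty Q.toSys (V2_empty Q h5 h)
      exact ⟨h1, h2, hJ⟩
  · have hdet : Q.dual.Det := by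
      intro x
      show ‖(fderiv ℂ (⇑(henon L)⁻¹) x).det‖ ≤ 1
      rw [henon_inv_det]
      exact inv_le_one_of_one_le₀ hb1.le
    have hE : interior Q.Kp = ∅ :=
      HV2_lt Q.toSys.dual (inv_lt_one_of_one_lt₀ (one_lt_pow₀ hb1 two_ne_zero)) hvol'
    have h5 : Q.dual.H5 := H5_of_det Q.dual hdet hH.dual hMV' hMV
      (by show interior Q.Kp ⊆ _; rw [hE]; exact empty_subset _)
    have hJ : frontier Q.Kp ∩ frontier Q.Km = closure (Sad Q.F) := by
      refine Subset.antisymm (fun x hx => ?_) hsub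
      have := h5 x (hclm x hx.2) (hclp x hx.1) hx.2.2
      rwa [QS.dual_Sad] at this
    obtain ⟨h1, h2⟩ := abs_empty Q.toSys hE
    exact ⟨h1, h2, hJ⟩

end Pool.Agent.HQ
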