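import Pool.Agent.HQD.AlD
import Pool.Agent.HQ.IP
import Pool.Agent.HQ.Germ
import Pool.Agent.HQ.StayA
import Pool.Agent.HQ.UBas

/-!
# HQD [GmD]: germs of discs in `K⁻` at points of unstable curves
-/

set_option autoImplicit false

open Filter Topology Set Metric

namespace Pool.Agent.HQ

/-- a function holomorphic on an open set that is not locally constant at `v` is open at `v` -/
theorem GmD_open {D : Set ℂ} (hD : IsOpen D) {τ : ℂ → ℂ} (hτ : DifferentiableOn ℂ τ D) {v : ℂ}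
    (hv : v ∈ D) (hnc : NC τ v) {ε : ℝ} (hε : 0 < ε) :
    ∃ r > 0, ball (τ v) r ⊆ τ '' (ball v ε ∩ D) := by
  have ha : AnalyticAt ℂ τ v := hτ.analyticAt (hD.mem_nhds hv)
  rcases ha.eventually_constant_or_nhds_le_map_nhds with h | h
  · exact absurd (h.mono fun z hz => not_not.2 hz) hnc
  · have h1 : τ '' (ball v ε ∩ D) ∈ 𝓝 (τ v) :=
      h (image_mem_map (Filter.inter_mem (ball_mem_nhds v hε) (hD.mem_nhds hv)))
    exact Metric.mem_nhds_iff.1 h1

/-- the case of a common unstable manifold -/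
theorem GmD_same (Q : QS) {D : Set ℂ} (hD : IsOpen D) (hc : IsPreconnected D) {σ : ℂ → E}
    (hσ : DifferentiableOn ℂ σ D) {v : ℂ} (hv : v ∈ D) (hnc : NC σ v) {ξ : ℂ → E} {z : ℂ}
    (h : ξ z = σ v) {p : E} (hp : p ∈ Sad Q.F) (h₁ : ∀ z, ξ z = Q.Xu p z)
    (hW : ∀ z ∈ D, σ z ∈ Wu Q.F p) : Gm ξ z σ v := by
  obtain ⟨τ, hτ, hτ1⟩ := alD Q hp hD hc hσ hW
  have h3 : τ v = z := by
    apply (Q.hu p hp).inj
    rw [← hτ1 v hv, ← h₁, h]
  have hnc' : NC τ v := by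
    intro hcon
    refine hnc ?_
    filter_upwards [hcon, hD.mem_nhds hv] with s hs hsD
    intro hne
    refine hs fun h4 => hne ?_
    rw [hτ1 s hsD, hτ1 v hv, h4]
  intro ε hε
  obtain ⟨r, hr, h4⟩ := GmD_open hD hτ hv hnc' hε
  rw [h3] at h4
  refine ⟨r, hr, fun z hz => ?_⟩
  obtain ⟨s, ⟨hs, hsD⟩, h5⟩ := h4 hz
  exact ⟨s, hs, by rw [hτ1 s hsD, h5, h₁]⟩

/-- a disc in `K⁻` through a point of an unstable curve has the same germ as this curve -/
theorem germD (Q : QS) {D : Set ℂ} (hD : IsOpen D) (hc : IsPreconnected D) {σ : ℂ → E}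
    (hσ : DifferentiableOn ℂ σ D) (hM : ∀ z ∈ D, Q.M (σ z) = 0) {v : ℂ} (hv : v ∈ D)
    (hnc : NC σ v) {ξ : ℂ → E} (hξ : ξ ∈ Q.U) {z : ℂ} (h : ξ z = σ v) :
    Gm ξ z σ v ∧ Gm σ v ξ z := by
  have hd : Differentiable ℂ ξ := U_diff Q hξ
  have hncξ : NC ξ z := nc_of_entire hd (U_ne Q hξ) z
  have key : Gm ξ z σ v := by
    obtain ⟨p, hp, hlim⟩ := id hξ
    rcases ip (Γ := σ) (g := ξ) (gs := fun n => Q.Xu (p n)) (s₀ := v) (z₀ := z)
      hD hv hσ hnc isOpen_univ (mem_univ _)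
      (fun n => (Q.hu (p n) (hp n)).diff.differentiableOn)
      (tendstoLocallyUniformlyOn_univ.2 hlim) h with h3 | h3
    · exact h3
    · obtain ⟨η, hη, hηD⟩ := Metric.isOpen_iff.1 hD v hv
      have h4 : ∀ᶠ i in atTop, ∀ s ∈ D, σ s ∈ Wu Q.F (p i) := by
        filter_upwards [h3 η hη] with i hi
        obtain ⟨z', -, s, hs, h5⟩ := hi
        have h6 : σ s ∈ Wu Q.F (p i) := by
          rw [← h5, ← (Q.hu (p i) (hp i)).range]
          exact mem_range_self z'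
        exact stay_u Q.toSys hD hc hσ hM (hp i) (hηD hs) h6
      obtain ⟨N, hN⟩ := eventually_atTop.1 h4
      have h5 : ∀ i, N ≤ i → p i = p N := fun i hi =>
        Q.toSys.Wu_disj (hp i) (hp N) (hN i hi v hv) (hN N le_rfl v hv)
      refine GmD_same Q hD hc hσ hv hnc h (hp N) (fun w => ?_) (hN N le_rfl)
      refine tendsto_nhds_unique (UBas_pt hlim w) ?_
      refine tendsto_const_nhds.congr' ?_
      filter_upwards [eventually_ge_atTop N] with i hi
      rw [h5 i hi]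
  exact ⟨key, germ_symm hD hv hσ hnc isOpen_univ (mem_univ z) hd.differentiableOn hncξ h key⟩

/-- a disc with `P = 0` through a point of a stable curve has the same germ as this curve -/
theorem iso (Q : QS) {D : Set ℂ} (hD : IsOpen D) {g : ℂ → E} (hg : DifferentiableOn ℂ g D)
    {z : ℂ} (hz : z ∈ D) (hP : ∀ᶠ t in 𝓝 z, Q.P (g t) = 0) (hnc : NC g z) {σ : ℂ → E}
    (hσ : σ ∈ Q.Us) {w : ℂ} (h : g z = σ w) : Gm g z σ w ∧ Gm σ w g z := by
  rw [← Q.dual_U] at hσ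
  obtain ⟨r, hr, hr1⟩ := Metric.eventually_nhds_iff_ball.1 (hP.and (hD.mem_nhds hz))
  have h1 := germD Q.dual (D := ball z r) isOpen_ball (convex_ball z r).isPreconnected
    (hg.mono fun t ht => (hr1 t ht).2) (fun t ht => (hr1 t ht).1) (mem_ball_self hr) hnc hσ h.symm
  exact ⟨h1.2, h1.1⟩

end Pool.Agent.HQ
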