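import Pool.Agent.HQD.Defs
import Pool.Agent.HQD.ZLin
import Pool.Agent.HQ.HDefs
import Pool.Agent.HQ.HH
import Pool.Agent.HQ.HV1
import Pool.Agent.HQ.HV2

/-!
# HQD module HDet: the Jacobian determinant of generalized Henon maps
-/

set_option autoImplicit false

open Filter Topology Set Metric

namespace Pool.Agent.HQ

theorem hen_fderiv (a : ℂˣ) (P : Polynomial ℂ) (x : E) :
    HasFDerivAt (⇑(hen a P)) (((a : ℂ) • ContinuousLinearMap.snd ℂ ℂ ℂ +
      (P.derivative.eval x.1) • ContinuousLinearMap.fst ℂ ℂ ℂ).prod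
        (ContinuousLinearMap.fst ℂ ℂ ℂ)) x := by
  have h1 : HasFDerivAt (fun z : E => (a : ℂ) * z.2)
      ((a : ℂ) • ContinuousLinearMap.snd ℂ ℂ ℂ) x :=
    (hasFDerivAt_snd (𝕜 := ℂ) (p := x)).const_mul (a : ℂ)
  have h2 : HasFDerivAt (fun z : E => P.eval z.1)
      ((P.derivative.eval x.1) • ContinuousLinearMap.fst ℂ ℂ ℂ) x :=
    HasDerivAt.comp_hasFDerivAt x (P.hasDerivAt x.1) (hasFDerivAt_fst (𝕜 := ℂ) (p := x))
  exact (h1.add h2).prodMk (hasFDerivAt_fst (𝕜 := ℂ) (p := x))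

theorem hen_det (a : ℂˣ) (P : Polynomial ℂ) (x : E) :
    ‖(fderiv ℂ (⇑(hen a P)) x).det‖ = ‖(a : ℂ)‖ := by
  rw [(hen_fderiv a P x).fderiv, ZLin_det]
  simp

theorem henon_det (L : List (ℂˣ × Polynomial ℂ)) (x : E) :
    ‖(fderiv ℂ (⇑(henon L)) x).det‖ = (L.map fun q => ‖((q.1 : ℂˣ) : ℂ)‖).prod := by
  induction L generalizing x with
  | nil =>
    have h1 : (⇑(henon []) : E → E) = id := rfl
    rw [h1, fderiv_id]
    simp [ContinuousLinearMap.det]
  | cons q L ih =>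
    have h1 : (⇑(henon (q :: L)) : E → E) = (⇑(hen q.1 q.2)) ∘ ⇑(henon L) := by
      funext y
      unfold henon
      rw [List.map_cons, List.prod_cons]
      rfl
    rw [h1, fderiv_comp x ((hen_fderiv q.1 q.2 _).differentiableAt) ((henon_diff L) x)]
    have h2 : ((fderiv ℂ (⇑(hen q.1 q.2)) (henon L x)).comp (fderiv ℂ (⇑(henon L)) x)).det =
        (fderiv ℂ (⇑(hen q.1 q.2)) (henon L x)).det * (fderiv ℂ (⇑(henon L)) x).det := by
      unfold ContinuousLinearMap.det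
      rw [ContinuousLinearMap.toLinearMap_comp, LinearMap.det_comp]
    rw [h2, norm_mul, hen_det, ih, List.map_cons, List.prod_cons]

theorem prod_sq (L : List (ℂˣ × Polynomial ℂ)) :
    (L.map fun q => ‖((q.1 : ℂˣ) : ℂ)‖ ^ 2).prod =
      (L.map fun q => ‖((q.1 : ℂˣ) : ℂ)‖).prod ^ 2 := by
  induction L with
  | nil => simp
  | cons q L ih => rw [List.map_cons, List.prod_cons, ih, List.map_cons, List.prod_cons, mul_pow]

/-- either the Jacobian determinant has modulus at most one or the interior of `K⁺` is empty -/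
theorem hsys_det_or (L : List (ℂˣ × Polynomial ℂ)) (hL : Adm L) :
    (hsys L hL).Det ∨ interior (hsys L hL).Kp = ∅ := by
  set c : ℝ := (L.map fun q => ‖((q.1 : ℂˣ) : ℂ)‖ ^ 2).prod with hcdef
  have hc : 0 < c := by
    refine List.prod_pos ?_
    intro a ha
    obtain ⟨q, -, rfl⟩ := List.mem_map.1 ha
    exact pow_pos (norm_pos_iff.2 q.1.ne_zero) 2
  have hc0 : 0 < (L.map fun q => ‖((q.1 : ℂˣ) : ℂ)‖).prod := by
    refine List.prod_pos ?_
    intro a ha
    obtain ⟨q, -, rfl⟩ := List.mem_map.1 ha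
    exact norm_pos_iff.2 q.1.ne_zero
  rcases le_or_gt c 1 with h | h
  · left
    intro x
    show ‖(fderiv ℂ (⇑(henon L)) x).det‖ ≤ 1
    rw [henon_det]
    rw [hcdef, prod_sq] at h
    exact (sq_le_one_iff₀ hc0.le).1 h
  · right
    have h1 := HV2_lt (hsys L hL).dual (inv_lt_one_of_one_lt₀ h)
      (HV2_vol_inv (hsys L hL) hc (fun A hA => vol_henon L hA))
    exact h1

end Pool.Agent.HQ
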