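import Pool.Agent.HQD.AlD
import Pool.Agent.HQ.Lines
import Pool.Agent.HQ.DHb

/-!
# HQD [HypH]: an expanding local function vanishing on the stable curve of a saddle
-/

set_option autoImplicit false

open Filter Topology Set Metric Asymptotics

namespace Pool.Agent.HQ

/-- complex differentiable maps are strictly differentiable -/
theorem HypH_strict {g : E → E} (hg : Differentiable ℂ g) (x : E) :
    HasStrictFDerivAt g (fderiv ℂ g x) x := by
  rw [hasStrictFDerivAt_iff_isLittleO, isLittleO_iff]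
  intro c hc
  have h1 := (hg x).hasFDerivAt.isLittleO
  rw [isLittleO_iff] at h1
  have h2 := h1 (c := c / 8) (by positivity)
  obtain ⟨ρ, hρ, hball⟩ := Metric.eventually_nhds_iff_ball.1 h2
  set R : E → E := fun z => g z - g x - fderiv ℂ g x (z - x) with hR
  have hRd : Differentiable ℂ R := by
    have h3 : Differentiable ℂ fun z => fderiv ℂ g x (z - x) :=
      (fderiv ℂ g x).differentiable.comp (differentiable_id.sub_const x)
    exact (hg.sub_const _).sub h3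
  have hRb : ∀ y ∈ ball x ρ, ‖R y‖ ≤ c / 8 * ρ := by
    intro y hy
    refine (hball y hy).trans ?_
    rw [mem_ball, dist_eq_norm] at hy
    exact mul_le_mul_of_nonneg_left hy.le (by positivity)
  have h3 := lip_of_bdd hρ (dh_of_diff hRd (ball x ρ)) hRb
  have h4 : 8 * (c / 8 * ρ) / ρ = c := by field_simp
  rw [h4] at h3
  have h5 : ∀ᶠ q : E × E in 𝓝 (x, x), q ∈ ball x (ρ / 2) ×ˢ ball x (ρ / 2) :=
    (isOpen_ball.prod isOpen_ball).mem_nhds
      ⟨mem_ball_self (by positivity), mem_ball_self (by positivity)⟩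
  filter_upwards [h5] with q hq
  have h6 := h3 q.1 hq.1 q.2 hq.2
  have h7 : g q.1 - g q.2 - fderiv ℂ g x (q.1 - q.2) = R q.1 - R q.2 := by
    simp only [hR]
    have : q.1 - q.2 = (q.1 - x) - (q.2 - x) := by abel
    rw [this, map_sub]
    abel
  rw [h7]
  exact h6

/-- local inverse of an analytic function of one variable -/
theorem HypH_inv {a : ℂ → ℂ} (ha : AnalyticAt ℂ a 0) (h0 : a 0 = 0) (h1 : deriv a 0 ≠ 0) :
    ∃ ψ : ℂ → ℂ, ContDiffAt ℂ 1 ψ 0 ∧ ψ 0 = 0 ∧ (∀ᶠ s in 𝓝 (0 : ℂ), ψ (a s) = s) ∧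
      ∀ᶠ x in 𝓝 (0 : ℂ), a (ψ x) = x := by
  have hc : ContDiffAt ℂ 1 a 0 := ha.contDiffAt
  have hf' : HasFDerivAt a
      ((ContinuousLinearEquiv.unitsEquivAut ℂ (Units.mk0 (deriv a 0) h1) : ℂ ≃L[ℂ] ℂ) :
        ℂ →L[ℂ] ℂ) 0 := by
    have h2 := ha.differentiableAt.hasDerivAt.hasFDerivAt
    refine h2.congr_fderiv ?_
    ext
    simp
  refine ⟨hc.localInverse hf' one_ne_zero, ?_, ?_, ?_, ?_⟩
  · have := hc.to_localInverse hf' one_ne_zero
    rwa [h0] at this
  · have := hc.localInverse_apply_image hf' one_ne_zero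
    rwa [h0] at this
  · exact (hc.hasStrictFDerivAt' hf' one_ne_zero).eventually_left_inverse
  · have := (hc.hasStrictFDerivAt' hf' one_ne_zero).eventually_right_inverse
    rwa [h0] at this

/-- coordinates with respect to two independent vectors -/
theorem HypH_coord {v e : E} (hdet : v.1 * e.2 - v.2 * e.1 ≠ 0) :
    ∃ l1 l2 : E →L[ℂ] ℂ, l1 v = 1 ∧ l1 e = 0 ∧ l2 v = 0 ∧ l2 e = 1 ∧
      ∀ z, z = l1 z • v + l2 z • e := by
  set Δ := v.1 * e.2 - v.2 * e.1 with hΔ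
  refine ⟨Δ⁻¹ • (e.2 • ContinuousLinearMap.fst ℂ ℂ ℂ - e.1 • ContinuousLinearMap.snd ℂ ℂ ℂ),
    Δ⁻¹ • (v.1 • ContinuousLinearMap.snd ℂ ℂ ℂ - v.2 • ContinuousLinearMap.fst ℂ ℂ ℂ),
    ?_, ?_, ?_, ?_, ?_⟩
  · change Δ⁻¹ * (e.2 * v.1 - e.1 * v.2) = 1
    rw [inv_mul_eq_one₀ hdet]
    rw [hΔ]
    ring
  · change Δ⁻¹ * (e.2 * e.1 - e.1 * e.2) = 0
    ring
  · change Δ⁻¹ * (v.1 * v.2 - v.2 * v.1) = 0
    ring
  · change Δ⁻¹ * (v.1 * e.2 - v.2 * e.1) = 1
    rw [inv_mul_eq_one₀ hdet]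
  · intro z
    refine Prod.ext ?_ ?_
    · change z.1 = Δ⁻¹ * (e.2 * z.1 - e.1 * z.2) * v.1 + Δ⁻¹ * (v.1 * z.2 - v.2 * z.1) * e.1
      field_simp
      rw [hΔ]
      ring
    · change z.2 = Δ⁻¹ * (e.2 * z.1 - e.1 * z.2) * v.2 + Δ⁻¹ * (v.1 * z.2 - v.2 * z.1) * e.2
      field_simp
      rw [hΔ]
      ring

/-- eigenvectors of different eigenvalues are independent -/
theorem HypH_det {A : E →L[ℂ] E} {v e : E} {μ l : ℂ} (hv : A v = μ • v) (he : A e = l • e)
    (hv0 : v ≠ 0) (he0 : e ≠ 0) (hml : μ ≠ l) : v.1 * e.2 - v.2 * e.1 ≠ 0 := by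
  intro hdet
  -- `e` is a multiple of `v`
  obtain ⟨c, hc⟩ : ∃ c : ℂ, e = c • v := by
    by_cases h1 : v.1 = 0
    · have h2 : v.2 ≠ 0 := fun h2 => hv0 (Prod.ext h1 h2)
      have h3 : e.1 = 0 := by
        rw [h1, zero_mul, zero_sub, neg_eq_zero, mul_eq_zero] at hdet
        exact hdet.resolve_left h2
      refine ⟨e.2 / v.2, Prod.ext ?_ ?_⟩
      · change e.1 = e.2 / v.2 * v.1
        rw [h1, h3, mul_zero]
      · change e.2 = e.2 / v.2 * v.2
        field_simp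
    · refine ⟨e.1 / v.1, Prod.ext ?_ ?_⟩
      · change e.1 = e.1 / v.1 * v.1
        field_simp
      · change e.2 = e.1 / v.1 * v.2
        field_simp
        linear_combination hdet
  rw [hc, map_smul, hv, smul_smul, smul_smul] at he
  have hc0 : c ≠ 0 := by
    rintro rfl
    rw [zero_smul] at hc
    exact he0 hc
  have h3 : (c * μ - l * c) • v = 0 := by rw [sub_smul, he, sub_self]
  rcases smul_eq_zero.1 h3 with h4 | h4
  · apply hml
    have h5 : c * (μ - l) = 0 := by linear_combination h4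
    rcases mul_eq_zero.1 h5 with h6 | h6
    · exact absurd h6 hc0
    · exact sub_eq_zero.1 h6
  · exact hv0 h4

/-- the expanding local function -/
theorem expH (Q : QS) {p : E} (hp : p ∈ Sad Q.F) : ∃ (k : ℕ) (H : E → ℂ) (δ ρ : ℝ), 0 < k ∧
    (Q.F ^ k) p = p ∧ 0 < δ ∧ 1 < ρ ∧ (∀ z ∈ ball p δ, DifferentiableAt ℂ H z) ∧
    (∀ z ∈ ball p δ, ‖H z‖ ≤ 1) ∧ (∀ z ∈ ball p δ, H z = 0 → Q.P z = 0) ∧
    ∀ z ∈ ball p δ, ρ * ‖H z‖ ≤ ‖H ((Q.F ^ k) z)‖ := by
  obtain ⟨k, hk, hkp, l, m, hl, hm, hle, hme⟩ := id hp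
  have hpd : p ∈ Sad Q.dual.F := by rw [Q.dual_Sad]; exact hp
  have hkp' : (Q.F⁻¹ ^ k) p = p := by
    conv_lhs => rw [← hkp]
    rw [inv_pow]
    exact (Q.F ^ k).symm_apply_apply p
  obtain ⟨lam, hlam, hlamz⟩ := mult_pow Q.dual hpd hk hkp'
  have hlam0 : lam ≠ 0 := by
    rintro rfl
    rw [norm_zero] at hlam
    linarith
  set Γ : ℂ → E := Q.Xs p with hΓ
  have hΓu : UPar Q.F⁻¹ Q.M p Γ := Q.hs p hp
  set μ : ℂ := lam⁻¹ with hμ
  have hμ1 : ‖μ‖ < 1 := by
    rw [hμ, norm_inv]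
    exact inv_lt_one_of_one_lt₀ hlam
  set G : E → E := fun z => (Q.F ^ k) z with hG
  have hGΓ : ∀ s, G (Γ s) = Γ (μ * s) := by
    intro s
    have h1 := hlamz (μ * s)
    have h2 : lam * (μ * s) = s := by rw [hμ, ← mul_assoc, mul_inv_cancel₀ hlam0, one_mul]
    rw [h2] at h1
    have h3 : Γ s = (Q.F⁻¹ ^ k) (Γ (μ * s)) := h1.symm
    rw [h3, hG, inv_pow]
    exact (Q.F ^ k).apply_symm_apply _
  have hGd : Differentiable ℂ G := Q.diff_pow k
  set A : E →L[ℂ] E := fderiv ℂ G p with hA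
  set v : E := deriv Γ 0 with hv
  have hv0 : v ≠ 0 := hΓu.imm 0
  have hΓ0 : Γ 0 = p := hΓu.zero
  have hΓd : HasDerivAt Γ v 0 := (hΓu.diff 0).hasDerivAt
  have hAv : A v = μ • v := by
    have h1 : HasDerivAt (fun s => G (Γ s)) (A v) 0 := by
      have h2 : HasFDerivAt G A (Γ 0) := by
        rw [hΓ0]
        exact (hGd p).hasFDerivAt
      exact h2.comp_hasDerivAt 0 hΓd
    have h3 : HasDerivAt (fun s => Γ (μ * s)) (μ • v) 0 := by
      have h4 : HasDerivAt (fun s : ℂ => μ * s) μ 0 := by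
        simpa using (hasDerivAt_id (0 : ℂ)).const_mul μ
      have h5 : HasDerivAt Γ v (μ * 0) := by
        rw [mul_zero]
        exact hΓd
      exact h5.scomp 0 h4
    have h6 : (fun s => G (Γ s)) = fun s => Γ (μ * s) := funext hGΓ
    rw [h6] at h1
    exact h1.unique h3
  obtain ⟨e, hee⟩ := hle.exists_hasEigenvector
  have hAe : A e = l • e := hee.apply_eq_smul
  have hml : μ ≠ l := by
    rintro rfl
    linarith
  have hdet := HypH_det hAv hAe hv0 hee.2 hml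
  obtain ⟨l1, l2, h1v, h1e, h2v, h2e, hz⟩ := HypH_coord hdet
  -- the local inverse
  set a : ℂ → ℂ := fun s => l1 (Γ s - p) with ha
  have ha0 : a 0 = 0 := by rw [ha]; simp [hΓ0]
  have had : Differentiable ℂ a := l1.differentiable.comp (hΓu.diff.sub_const p)
  have hader : HasDerivAt a (l1 v) 0 :=
    l1.hasFDerivAt.comp_hasDerivAt (0 : ℂ) (hΓd.sub_const p)
  have hda : deriv a 0 ≠ 0 := by
    rw [hader.deriv, h1v]
    exact one_ne_zero
  obtain ⟨ψ, hψc, hψ0, hψl, hψr⟩ := HypH_inv (had.analyticAt 0) ha0 hda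
  set b : ℂ → ℂ := fun x => l2 (Γ (ψ x) - p) with hb
  have hb0 : b 0 = 0 := by rw [hb]; simp [hψ0, hΓ0]
  have hbc : ContDiffAt ℂ 1 b 0 := by
    have h1 : ContDiffAt ℂ 1 Γ (ψ 0) := (hΓu.diff.analyticAt (ψ 0)).contDiffAt
    have h2 : ContDiffAt ℂ 1 (fun x => Γ (ψ x)) 0 := h1.comp (0 : ℂ) hψc
    exact l2.contDiff.contDiffAt.comp (0 : ℂ) (h2.sub contDiffAt_const)
  have hbder : HasStrictDerivAt b 0 0 := by
    have h1 := hbc.hasStrictDerivAt one_ne_zero
    have h2 : HasDerivAt b (l2 (deriv ψ 0 • v)) 0 := by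
      have h3 : HasDerivAt ψ (deriv ψ 0) 0 :=
        (hψc.differentiableAt one_ne_zero).hasDerivAt
      have h4 : HasDerivAt Γ v (ψ 0) := by
        rw [hψ0]
        exact hΓd
      have h5 : HasDerivAt (fun x => Γ (ψ x)) (deriv ψ 0 • v) 0 := h4.scomp 0 h3
      exact l2.hasFDerivAt.comp_hasDerivAt (0 : ℂ) (h5.sub_const p)
    rw [map_smul, h2v, smul_zero] at h2
    rwa [h2.deriv] at h1
  set H : E → ℂ := fun z => l2 (z - p) - b (l1 (z - p)) with hH
  have hH0 : H p = 0 := by rw [hH]; simp [hb0]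
  have hHs : HasStrictFDerivAt H l2 p := by
    have h1 : HasStrictFDerivAt (fun z : E => l1 (z - p)) l1 p :=
      l1.hasStrictFDerivAt.comp p ((hasStrictFDerivAt_id p).sub_const p)
    have h2 : HasStrictFDerivAt (fun z : E => l2 (z - p)) l2 p :=
      l2.hasStrictFDerivAt.comp p ((hasStrictFDerivAt_id p).sub_const p)
    have h3 : HasStrictDerivAt b 0 (l1 (p - p)) := by
      rw [sub_self, map_zero]
      exact hbder
    have h4 : HasStrictFDerivAt (b ∘ fun z : E => l1 (z - p)) ((0 : ℂ) • l1) p :=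
      h3.comp_hasStrictFDerivAt p h1
    have h5 := h2.sub h4
    refine h5.congr_fderiv (ContinuousLinearMap.ext fun z => ?_)
    change l2 z - 0 * l1 z = l2 z
    ring
  -- the projection to the curve
  set pr : E → E := fun z => Γ (ψ (l1 (z - p))) with hpr
  have hl1t : Tendsto (fun z : E => l1 (z - p)) (𝓝 p) (𝓝 0) := by
    have : Tendsto (fun z : E => l1 (z - p)) (𝓝 p) (𝓝 (l1 (p - p))) :=
      Continuous.tendsto (by fun_prop) p
    rwa [sub_self, map_zero] at this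
  have hψt : Tendsto (fun z : E => ψ (l1 (z - p))) (𝓝 p) (𝓝 0) := by
    have h1 : Tendsto ψ (𝓝 0) (𝓝 (ψ 0)) := hψc.continuousAt
    rw [hψ0] at h1
    exact h1.comp hl1t
  have hprt : Tendsto pr (𝓝 p) (𝓝 p) := by
    have h1 : Tendsto Γ (𝓝 0) (𝓝 (Γ 0)) := hΓu.diff.continuous.tendsto 0
    rw [hΓ0] at h1
    exact h1.comp hψt
  have hprH : ∀ᶠ z in 𝓝 p, z - pr z = H z • e := by
    filter_upwards [hl1t.eventually hψr] with z hzr
    have h1 : l1 (pr z - p) = l1 (z - p) := hzr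
    have h2 : l2 (z - pr z) = H z := by
      have h3 : z - pr z = (z - p) - (pr z - p) := by abel
      rw [h3, map_sub]
    have h4 : l1 (z - pr z) = 0 := by
      have h3 : z - pr z = (z - p) - (pr z - p) := by abel
      rw [h3, map_sub, h1, sub_self]
    conv_lhs => rw [hz (z - pr z), h4, h2, zero_smul, zero_add]
  have hHpr : ∀ᶠ z in 𝓝 p, H (G (pr z)) = 0 := by
    have ht : Tendsto (fun z : E => μ * ψ (l1 (z - p))) (𝓝 p) (𝓝 0) := by
      have := hψt.const_mul μ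
      rwa [mul_zero] at this
    filter_upwards [ht.eventually hψl] with z hzl
    have h1 : G (pr z) = Γ (μ * ψ (l1 (z - p))) := hGΓ _
    rw [h1]
    change l2 (Γ (μ * ψ (l1 (z - p))) - p) - l2 (Γ (ψ (a (μ * ψ (l1 (z - p))))) - p) = 0
    rw [hzl, sub_self]
  -- expansion
  have hHG : HasStrictFDerivAt (fun z => H (G z)) (l • l2) p := by
    have h1 : HasStrictFDerivAt G A p := HypH_strict hGd p
    have h2 : HasStrictFDerivAt H l2 (G p) := by
      have : G p = p := hkp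
      rw [this]
      exact hHs
    have h3 := h2.comp p h1
    have h4 : l2.comp A = l • l2 := by
      refine ContinuousLinearMap.ext fun z => ?_
      change l2 (A z) = l * l2 z
      conv_lhs => rw [hz z]
      rw [map_add, map_smul, map_smul, hAv, hAe, map_add, map_smul, map_smul, map_smul, map_smul,
        h2v, h2e]
      simp only [smul_eq_mul, mul_zero, zero_add, mul_one]
      ring
    rw [h4] at h3
    exact h3
  set ρ : ℝ := (1 + ‖l‖) / 2 with hρ
  have hρ1 : 1 < ρ := by rw [hρ]; linarith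
  have hexp : ∀ᶠ z in 𝓝 p, ρ * ‖H z‖ ≤ ‖H (G z)‖ := by
    have h1 := hasStrictFDerivAt_iff_isLittleO.1 hHG
    rw [isLittleO_iff] at h1
    have hc : 0 < (‖l‖ - ρ) / (‖e‖ + 1) := by
      have : 0 < ‖l‖ - ρ := by rw [hρ]; linarith
      positivity
    have h2 := h1 hc
    have h3 : Tendsto (fun z : E => (z, pr z)) (𝓝 p) (𝓝 (p, p)) :=
      tendsto_id.prodMk_nhds hprt
    filter_upwards [h3.eventually h2, hprH, hHpr] with z e1 e2 e3
    rw [e3, sub_zero, e2] at e1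
    have e0 : (l • l2) (H z • e) = l * H z := by
      change l * l2 (H z • e) = l * H z
      rw [map_smul, h2e, smul_eq_mul, mul_one]
    rw [e0] at e1
    have e4 : ‖H z • e‖ = ‖H z‖ * ‖e‖ := norm_smul _ _
    rw [e4] at e1
    have e5 : (‖l‖ - ρ) / (‖e‖ + 1) * (‖H z‖ * ‖e‖) ≤ (‖l‖ - ρ) * ‖H z‖ := by
      have e6 : ‖e‖ / (‖e‖ + 1) ≤ 1 := by
        rw [div_le_one (by positivity)]
        linarith
      have e7 : (‖l‖ - ρ) / (‖e‖ + 1) * (‖H z‖ * ‖e‖) =
          ((‖l‖ - ρ) * ‖H z‖) * (‖e‖ / (‖e‖ + 1)) := by ring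
      rw [e7]
      have e8 : 0 ≤ (‖l‖ - ρ) * ‖H z‖ := by
        have : 0 < ‖l‖ - ρ := by rw [hρ]; linarith
        positivity
      nlinarith
    have e9 := norm_sub_norm_le (l * H z) (H (G z))
    rw [norm_mul] at e9
    have e10 : ‖l * H z - H (G z)‖ = ‖H (G z) - l * H z‖ := norm_sub_rev _ _
    linarith
  -- differentiability near `p`
  have hdiff : ∀ᶠ z in 𝓝 p, DifferentiableAt ℂ H z := by
    have h1 : ∀ᶠ x in 𝓝 (0 : ℂ), ContDiffAt ℂ 1 b x := hbc.eventually (by simp)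
    filter_upwards [hl1t.eventually h1] with z hz1
    have h2 : DifferentiableAt ℂ (b ∘ fun z : E => l1 (z - p)) z :=
      DifferentiableAt.comp (g := b) z (hz1.differentiableAt one_ne_zero) (by fun_prop)
    have h3 : DifferentiableAt ℂ (fun z : E => l2 (z - p)) z := by fun_prop
    exact h3.sub h2
  have hbd : ∀ᶠ z in 𝓝 p, ‖H z‖ ≤ 1 := by
    have h1 : ContinuousAt H p := hHs.hasFDerivAt.continuousAt
    have h2 : Tendsto (fun z => ‖H z‖) (𝓝 p) (𝓝 ‖H p‖) := h1.norm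
    rw [hH0, norm_zero] at h2
    exact (h2.eventually_lt_const one_pos).mono fun z hz => hz.le
  have hzero : ∀ᶠ z in 𝓝 p, H z = 0 → Q.P z = 0 := by
    filter_upwards [hprH] with z h1 h2
    rw [h2, zero_smul, sub_eq_zero] at h1
    rw [h1]
    have h3 : Γ (ψ (l1 (z - p))) ∈ Wu Q.F⁻¹ p := by
      rw [← hΓu.range]
      exact mem_range_self _
    exact Q.dual.toSys.Wu_M hpd h3
  obtain ⟨δ, hδ, hball⟩ := Metric.eventually_nhds_iff_ball.1
    (hdiff.and (hbd.and (hzero.and hexp)))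
  exact ⟨k, H, δ, ρ, hk, hkp, hδ, hρ1, fun z hz => (hball z hz).1, fun z hz => (hball z hz).2.1,
    fun z hz => (hball z hz).2.2.1, fun z hz => (hball z hz).2.2.2⟩

end Pool.Agent.HQ
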