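import Pool.Agent.HQD.LS
import Pool.Agent.HQD.Cr
import Pool.Agent.HQD.ZZero

/-!
# HQD [Inc]: inclination by zooming (C4)
-/

set_option autoImplicit false

open Filter Topology Set Metric

namespace Pool.Agent.HQ

/-- composition of locally uniform convergence with a continuous map -/
theorem Inc_comp {G : E → E} (hG : Continuous G) {gs : ℕ → ℂ → E} {g : ℂ → E} {D : Set ℂ}
    (hg : ContinuousOn g D) (h : TendstoLocallyUniformlyOn gs g atTop D) :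
    TendstoLocallyUniformlyOn (fun j z => G (gs j z)) (fun z => G (g z)) atTop D := by
  rw [tendstoLocallyUniformlyOn_iff_filter] at h ⊢
  intro x hx
  have h1 : Tendsto (fun q : ℕ × ℂ => (g q.2, gs q.1 q.2)) (atTop ×ˢ 𝓝[D] x) (uniformity E) :=
    h x hx
  have h2 : Tendsto (fun q : ℕ × ℂ => g q.2) (atTop ×ˢ 𝓝[D] x) (𝓝 (g x)) :=
    (hg x hx).tendsto.comp tendsto_snd
  have h3 : Tendsto (fun q : ℕ × ℂ => gs q.1 q.2) (atTop ×ˢ 𝓝[D] x) (𝓝 (g x)) := by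
    rw [tendsto_iff_dist_tendsto_zero]
    have h4 : Tendsto (fun q : ℕ × ℂ => dist (g q.2) (gs q.1 q.2)) (atTop ×ˢ 𝓝[D] x) (𝓝 0) :=
      tendsto_uniformity_iff_dist_tendsto_zero.1 h1
    have h5 : Tendsto (fun q : ℕ × ℂ => dist (g q.2) (g x)) (atTop ×ˢ 𝓝[D] x) (𝓝 0) :=
      tendsto_iff_dist_tendsto_zero.1 h2
    have h6 := h4.add h5
    rw [add_zero] at h6
    refine squeeze_zero (fun q => dist_nonneg) (fun q => ?_) h6
    exact dist_triangle_left _ _ _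
  have h4 : Tendsto (fun q : ℕ × ℂ => G (g q.2)) (atTop ×ˢ 𝓝[D] x) (𝓝 (G (g x))) :=
    (hG.tendsto _).comp h2
  have h5 : Tendsto (fun q : ℕ × ℂ => G (gs q.1 q.2)) (atTop ×ˢ 𝓝[D] x) (𝓝 (G (g x))) :=
    (hG.tendsto _).comp h3
  change Tendsto (fun q : ℕ × ℂ => (G (g q.2), G (gs q.1 q.2))) (atTop ×ˢ 𝓝[D] x) (uniformity E)
  rw [tendsto_uniformity_iff_dist_tendsto_zero]
  have h6 := h4.dist h5
  rwa [dist_self] at h6

/-- the iterated functional equation -/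
theorem Inc_iter (Q : QS) {p : E} (hp : p ∈ Sad Q.F) {k : ℕ} {l : ℂ}
    (h : ∀ z, (Q.F ^ k) (Q.Xu p z) = Q.Xu p (l * z)) (m : ℕ) :
    ∀ z, (Q.F ^ (k * m)) (Q.Xu p z) = Q.Xu p (l ^ m * z) := by
  have _ := hp
  induction m with
  | zero => intro z; simp
  | succ m ih =>
    intro z
    rw [Nat.mul_succ, add_comm, pow_add, Equiv.Perm.mul_apply, ih, h, pow_succ']
    ring_nf

/-- the functional equation for a power -/
theorem Inc_pow (Q : QS) (m : ℕ) : ∀ p ∈ Sad Q.F, ∃ l : ℂ, l ≠ 0 ∧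
    ∀ z, (Q.F ^ m) (Q.Xu p z) = Q.Xu ((Q.F ^ m) p) (l * z) := by
  induction m with
  | zero => exact fun p _ => ⟨1, one_ne_zero, fun z => by simp⟩
  | succ m ih =>
    intro p hp
    obtain ⟨l, hl, h⟩ := ih p hp
    have hp' : (Q.F ^ m) p ∈ Sad Q.F := by
      have h1 := (Q.toSys.mem_Sad (m : ℤ) p).2 hp
      rwa [zpow_natCast] at h1
    obtain ⟨l', hl', h'⟩ := func_eq Q hp'
    refine ⟨l' * l, mul_ne_zero hl' hl, fun z => ?_⟩
    rw [pow_succ', Equiv.Perm.mul_apply, Equiv.Perm.mul_apply, h, h', mul_assoc]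

/-- going forward to the saddle -/
theorem Inc_back (Q : QS) {p : E} (hp : p ∈ Sad Q.F) (i : ℤ) :
    ∃ m : ℕ, (Q.F ^ m) ((Q.F ^ i) p) = p := by
  obtain ⟨k, hk, hkp, -⟩ := hp
  obtain ⟨a, rfl | rfl⟩ := i.eq_nat_or_neg
  · refine ⟨k * a - a, ?_⟩
    rw [zpow_natCast, ← Equiv.Perm.mul_apply, ← pow_add,
      Nat.sub_add_cancel (Nat.le_mul_of_pos_left a hk)]
    exact Q.toSys.per_mul hkp a
  · refine ⟨a, ?_⟩
    rw [zpow_neg, zpow_natCast]
    exact (Q.F ^ a).apply_symm_apply p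

/-- (C4) the zooms at a crossing with `W^s(p)` converge to a curve through any given point
`Ξ_p z'`, near which `P` is not zero -/
theorem inc (Q : QS) {p : E} (hp : p ∈ Sad Q.F) {D : Set ℂ} (hD : IsOpen D) {g : ℂ → E}
    (hg : DifferentiableOn ℂ g D) (hM : ∀ z ∈ D, Q.M (g z) = 0) {z₁ : ℂ} (hz : z₁ ∈ D)
    (hW : g z₁ ∈ Ws Q.F p) (hX : ∃ᶠ t in 𝓝 z₁, 0 < Q.P (g t)) {z' : ℂ}
    (hz' : ∃ᶠ t in 𝓝 z', 0 < Q.P (Q.Xu p t)) :
    ∃ (r : ℕ → ℝ) (n : ℕ → ℕ) (g' : ℂ → E) (ζ : ℂ), (∀ j, 0 < r j) ∧ Tendsto r atTop (𝓝 0) ∧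
      (∀ j, (Q.F ^ n j) p = p) ∧ (∀ j, ball z₁ (r j) ⊆ D) ∧ ζ ∈ ball (0 : ℂ) 1 ∧
      g' ζ = Q.Xu p z' ∧ (∃ᶠ t in 𝓝 ζ, 0 < Q.P (g' t)) ∧ DifferentiableOn ℂ g' (ball 0 1) ∧
      TendstoLocallyUniformlyOn (fun j (z : ℂ) => (Q.F ^ n j) (g (z₁ + (r j : ℂ) * z)))
        g' atTop (ball 0 1) := by
  obtain ⟨r, n, τ, hr0, hr, -, hnp, hrD, hτd, hτ0, hτn, hlim⟩ := LS Q hp hD hg hM hz hW hX
  obtain ⟨k, hk, hkp, -⟩ := id hp
  obtain ⟨l, hl, hkl⟩ := mult_pow Q hp hk hkp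
  have hl0 : l ≠ 0 := by
    rintro rfl
    rw [norm_zero] at hl
    linarith
  have hb : IsOpen (ball (0 : ℂ) 1) := isOpen_ball
  have h0b : (0 : ℂ) ∈ ball (0 : ℂ) 1 := mem_ball_self one_pos
  -- the map `τ` is open at `0`
  have hτa : AnalyticOnNhd ℂ τ (ball 0 1) := hτd.analyticOnNhd hb
  have hopen : 𝓝 (τ 0) ≤ map τ (𝓝 0) := by
    rcases (hτa 0 h0b).eventually_constant_or_nhds_le_map_nhds with h | h
    · exact absurd h (not_eventually.2 hτn)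
    · exact h
  rw [hτ0] at hopen
  have himg : τ '' ball 0 1 ∈ 𝓝 (0 : ℂ) := hopen (image_mem_map (hb.mem_nhds h0b))
  obtain ⟨m, hm⟩ : ∃ m : ℕ, (l ^ m)⁻¹ * z' ∈ τ '' ball 0 1 := by
    have h1 : Tendsto (fun m : ℕ => (l ^ m)⁻¹ * z') atTop (𝓝 (0 * z')) := by
      refine Tendsto.mul_const z' ?_
      have h2 : Tendsto (fun m : ℕ => l⁻¹ ^ m) atTop (𝓝 0) := by
        refine tendsto_pow_atTop_nhds_zero_of_norm_lt_one ?_
        rw [norm_inv]
        exact inv_lt_one_of_one_lt₀ hl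
      simpa only [inv_pow] using h2
    rw [zero_mul] at h1
    exact (h1.eventually himg).exists
  obtain ⟨ζ, hζ, hτζ⟩ := hm
  have hlm : l ^ m ≠ 0 := pow_ne_zero m hl0
  have hτζ' : l ^ m * τ ζ = z' := by
    rw [hτζ, mul_inv_cancel_left₀ hlm]
  have hXd := (Q.hu p hp).diff
  refine ⟨r, fun j => k * m + n j, fun z => Q.Xu p (l ^ m * τ z), ζ, hr0, hr, fun j => ?_, hrD,
    hζ, ?_, ?_, ?_, ?_⟩
  · rw [pow_add, Equiv.Perm.mul_apply, hnp]
    exact Q.toSys.per_mul hkp m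
  · change Q.Xu p (l ^ m * τ ζ) = Q.Xu p z'
    rw [hτζ']
  · -- `τ` is not constant near `ζ`
    have hhd : DifferentiableOn ℂ (fun z => l ^ m * τ z) (ball 0 1) := hτd.const_mul _
    have hha : AnalyticAt ℂ (fun z => l ^ m * τ z) ζ := hhd.analyticAt (hb.mem_nhds hζ)
    have hle : 𝓝 z' ≤ map (fun z => l ^ m * τ z) (𝓝 ζ) := by
      rcases hha.eventually_constant_or_nhds_le_map_nhds with h | h
      · exfalso
        have h1 : τ =ᶠ[𝓝 ζ] fun _ => τ ζ := by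
          filter_upwards [h] with z hz1
          exact mul_left_cancel₀ hlm hz1
        have h2 := hτa.eqOn_of_preconnected_of_eventuallyEq
          (analyticOnNhd_const (v := τ ζ)) (convex_ball (0 : ℂ) 1).isPreconnected hζ h1
        refine hτn ?_
        filter_upwards [hb.mem_nhds h0b] with z hz1
        intro hne
        exact hne ((h2 hz1).trans (h2 h0b).symm)
      · change 𝓝 (l ^ m * τ ζ) ≤ _ at h
        rwa [hτζ'] at h
    exact frequently_map.1 (hz'.filter_mono hle)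
  · exact hXd.comp_differentiableOn (hτd.const_mul _)
  · have hc : ContinuousOn (fun z => Q.Xu p (τ z)) (ball 0 1) :=
      hXd.continuous.comp_continuousOn hτd.continuousOn
    have h1 := Inc_comp (Q.toSys.diff_pow (k * m)).continuous hc hlim
    have h2 : (fun z => (Q.F ^ (k * m)) (Q.Xu p (τ z))) =
        fun z => Q.Xu p (l ^ m * τ z) := by
      funext z
      exact Inc_iter Q hp hkl m (τ z)
    rw [h2] at h1
    have h3 : (fun (j : ℕ) (z : ℂ) => (Q.F ^ (k * m + n j)) (g (z₁ + (r j : ℂ) * z))) =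
        fun (j : ℕ) (z : ℂ) => (Q.F ^ (k * m)) ((Q.F ^ n j) (g (z₁ + (r j : ℂ) * z))) := by
      funext j z
      rw [pow_add, Equiv.Perm.mul_apply]
    rw [h3]
    exact h1

/-- (C4a) transitivity of crossings -/
theorem CrAt_trans (Q : QS) {p q : E} (hp : p ∈ Sad Q.F) (hq : q ∈ Sad Q.F) {D : Set ℂ}
    (hD : IsOpen D) {g : ℂ → E} (hg : DifferentiableOn ℂ g D) (hM : ∀ z ∈ D, Q.M (g z) = 0)
    (h1 : ∃ z ∈ D, CrAt Q g z p) (h2 : Rto Q p q) : ∃ z ∈ D, CrAt Q g z q := by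
  obtain ⟨z₁, hz₁, ⟨i, hi⟩, hX⟩ := h1
  obtain ⟨z, hz⟩ := h2
  have hp1 : (Q.F ^ i) p ∈ Sad Q.F := (Q.toSys.mem_Sad i p).2 hp
  -- the point of the unstable manifold of `F ^ i p`
  have h3 : (Q.F ^ i) (Q.Xu p z) ∈ Wu Q.F ((Q.F ^ i) p) := by
    rw [Q.toSys.mem_Wu]
    rw [← (Q.hu p hp).range]
    exact ⟨z, rfl⟩
  rw [← (Q.hu _ hp1).range] at h3
  obtain ⟨z', hz'⟩ := h3
  have h4 : Q.Xu ((Q.F ^ i) p) z' ∈ WsO Q.F q := by
    rw [hz']
    exact (WsO_zpow Q.toSys i).2 hz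
  have h5 := CrAt_U Q (Xu_mem_U Q hp1) hq h4
  obtain ⟨r, n, g', ζ, hr0, -, -, hrD, hζ, hg'ζ, hfr, hg'd, hlim⟩ :=
    inc Q hp1 hD hg hM hz₁ hi hX h5.2
  have h6 : CrAt Q g' ζ q := ⟨by rw [hg'ζ]; exact h4, hfr⟩
  have hmap : ∀ j, MapsTo (fun z : ℂ => z₁ + (r j : ℂ) * z) (ball 0 1) (ball z₁ (r j)) := by
    intro j z hz1
    rw [mem_ball_zero_iff] at hz1
    change z₁ + (r j : ℂ) * z ∈ ball z₁ (r j)
    rw [mem_ball_iff_norm, add_sub_cancel_left, norm_mul, Complex.norm_real,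
      Real.norm_of_nonneg (hr0 j).le]
    nlinarith [hr0 j]
  have hgs : ∀ j, DifferentiableOn ℂ (fun z : ℂ => (Q.F ^ n j) (g (z₁ + (r j : ℂ) * z)))
      (ball 0 1) := by
    intro j
    refine (Q.toSys.diff_pow (n j)).comp_differentiableOn ?_
    refine (hg.mono (hrD j)).comp ?_ (hmap j)
    exact ((differentiable_const z₁).add
      ((differentiable_const ((r j : ℂ))).mul differentiable_id)).differentiableOn
  obtain ⟨j, z, -, hz1, hc⟩ := (CrAt_lim Q isOpen_ball hgs hlim hζ hq h6 1 one_pos).exists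
  have h7 : CrAt Q (fun t => (Q.F ^ (n j : ℤ)) (g ((r j : ℂ) * t + z₁))) z q := by
    have h8 : (fun t : ℂ => (Q.F ^ (n j : ℤ)) (g ((r j : ℂ) * t + z₁))) =
        fun t => (Q.F ^ n j) (g (z₁ + (r j : ℂ) * t)) := by
      funext t
      rw [zpow_natCast, add_comm]
    rw [h8]
    exact hc
  refine ⟨(r j : ℂ) * z + z₁, ?_, CrAt_affine Q (Complex.ofReal_ne_zero.2 (hr0 j).ne') h7⟩
  rw [add_comm]
  exact hrD j (hmap j hz1)

/-- (C4b) a curve crossing `W^s(p)` has discs whose images under an iterate are near a given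
boundary point of `W^u(p)` -/
theorem pass_near (Q : QS) {p : E} (hp : p ∈ Sad Q.F) {g : ℂ → E} (hg : Differentiable ℂ g)
    (hM : ∀ z, Q.M (g z) = 0) (h1 : ∃ z, CrAt Q g z p) {z' : ℂ} (h0 : Q.P (Q.Xu p z') = 0)
    (hz' : ∃ᶠ t in 𝓝 z', 0 < Q.P (Q.Xu p t)) {e : ℝ} (he : 0 < e) :
    ∃ (a : ℂ) (r : ℝ) (n : ℕ), 0 < r ∧ 0 < Q.P (g a) ∧ (∃ b ∈ ball a r, Q.P (g b) = 0) ∧
      ∀ z ∈ closedBall a (2 * r), (Q.F ^ n) (g z) ∈ ball (Q.Xu p z') e := by
  obtain ⟨z₁, ⟨i, hi⟩, hX⟩ := h1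
  obtain ⟨m, hm⟩ := Inc_back Q hp i
  have hp1 : (Q.F ^ i) p ∈ Sad Q.F := (Q.toSys.mem_Sad i p).2 hp
  obtain ⟨L, hL, hFL⟩ := Inc_pow Q m _ hp1
  rw [hm] at hFL
  have hdm : 0 < Q.d ^ m := pow_pos Q.toSys.d_pos m
  -- the frequency at `z' / L`
  have hfr : ∃ᶠ t in 𝓝 (z' / L), 0 < Q.P (Q.Xu ((Q.F ^ i) p) t) := by
    have hcon : Tendsto (fun s : ℂ => s / L) (𝓝 z') (𝓝 (z' / L)) :=
      (continuous_id.div_const L).tendsto z'
    refine hcon.frequently (hz'.mono fun t ht => ?_)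
    have h2 := Q.toSys.P_pow m (Q.Xu ((Q.F ^ i) p) (t / L))
    rw [hFL, mul_div_cancel₀ t hL] at h2
    rw [h2] at ht
    exact (pos_iff_pos_of_mul_pos ht).1 hdm
  obtain ⟨r, n, g', ζ, hr0, -, -, -, hζ, hg'ζ, hfr', hg'd, hlim⟩ :=
    inc Q hp1 isOpen_univ hg.differentiableOn (fun z _ => hM z) (mem_univ z₁) hi hX hfr
  -- the limit after `m` more iterates
  set h : ℂ → E := fun z => (Q.F ^ m) (g' z) with hh
  have hFm := (Q.toSys.diff_pow m).continuous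
  have hhc : ContinuousOn h (ball 0 1) := hFm.comp_continuousOn hg'd.continuousOn
  have hlim2 : TendstoLocallyUniformlyOn
      (fun (j : ℕ) (z : ℂ) => (Q.F ^ m) ((Q.F ^ n j) (g (z₁ + (r j : ℂ) * z)))) h atTop
      (ball 0 1) := Inc_comp hFm hg'd.continuousOn hlim
  have hhζ : h ζ = Q.Xu p z' := by
    rw [hh]
    change (Q.F ^ m) (g' ζ) = _
    rw [hg'ζ, hFL, mul_div_cancel₀ z' hL]
  obtain ⟨η, hη, hηb⟩ : ∃ η > 0, closedBall ζ η ⊆ ball (0 : ℂ) 1 ∩ h ⁻¹' ball (Q.Xu p z') e := by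
    have h2 : ball (0 : ℂ) 1 ∩ h ⁻¹' ball (Q.Xu p z') e ∈ 𝓝 ζ := by
      refine inter_mem (isOpen_ball.mem_nhds hζ) ?_
      refine (hhc.continuousAt (isOpen_ball.mem_nhds hζ)).preimage_mem_nhds ?_
      rw [hhζ]
      exact ball_mem_nhds _ he
    obtain ⟨η, hη, h3⟩ := Metric.nhds_basis_closedBall.mem_iff.1 h2
    exact ⟨η, hη, h3⟩
  obtain ⟨α, hα, hαP⟩ : ∃ α ∈ ball ζ (η / 4), 0 < Q.P (g' α) := by
    obtain ⟨α, h2, h3⟩ := (hfr'.and_eventually (ball_mem_nhds ζ (by positivity : 0 < η / 4))).exists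
    exact ⟨α, h3, h2⟩
  rw [mem_ball] at hα
  have hhα : 0 < Q.P (h α) := by
    rw [hh]
    change 0 < Q.P ((Q.F ^ m) (g' α))
    rw [Q.toSys.P_pow]
    exact mul_pos hdm hαP
  have hsub1 : closedBall α (2 * (η / 3)) ⊆ closedBall ζ η :=
    closedBall_subset_closedBall' (by linarith)
  have hsub2 : ball α (η / 3) ⊆ ball (0 : ℂ) 1 := by
    refine (ball_subset_closedBall.trans ?_).trans (hηb.trans inter_subset_left)
    exact closedBall_subset_closedBall' (by linarith)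
  have hgsd : ∀ j, DifferentiableOn ℂ
      (fun z : ℂ => (Q.F ^ m) ((Q.F ^ n j) (g (z₁ + (r j : ℂ) * z)))) (ball 0 1) := by
    intro j
    refine Differentiable.differentiableOn ?_
    refine (Q.toSys.diff_pow m).comp ((Q.toSys.diff_pow (n j)).comp (hg.comp ?_))
    exact (differentiable_const z₁).add ((differentiable_const ((r j : ℂ))).mul differentiable_id)
  have hev1 := zero_near Q.toSys isOpen_ball hgsd hhc hlim2 hsub2 hhα
    ⟨ζ, by rw [mem_ball, dist_comm]; linarith, by rw [hhζ]; exact h0⟩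
  have hαb : α ∈ ball (0 : ℂ) 1 := hsub2 (mem_ball_self (by positivity))
  have hev2 : ∀ᶠ j in atTop, 0 < Q.P ((Q.F ^ m) ((Q.F ^ n j) (g (z₁ + (r j : ℂ) * α)))) := by
    have h2 := (Q.cP.tendsto _).comp (hlim2.tendsto_at hαb)
    exact h2.eventually (lt_mem_nhds hhα)
  have hev3 : ∀ᶠ j in atTop, ∀ z ∈ closedBall ζ η,
      (Q.F ^ m) ((Q.F ^ n j) (g (z₁ + (r j : ℂ) * z))) ∈ ball (Q.Xu p z') e := by
    have hK : IsCompact (closedBall ζ η) := isCompact_closedBall ζ η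
    have hKs : closedBall ζ η ⊆ ball (0 : ℂ) 1 := hηb.trans inter_subset_left
    have h2 := (tendstoLocallyUniformlyOn_iff_forall_isCompact isOpen_ball).1 hlim2 _ hKs hK
    -- a margin
    obtain ⟨w, hw, hmax⟩ := hK.exists_isMaxOn (f := fun z => dist (h z) (Q.Xu p z'))
      ⟨ζ, mem_closedBall_self hη.le⟩ 
        ((continuous_id.dist continuous_const).comp_continuousOn (hhc.mono hKs))
    have hwe : dist (h w) (Q.Xu p z') < e := (hηb hw).2
    rw [Metric.tendstoUniformlyOn_iff] at h2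
    filter_upwards [h2 (e - dist (h w) (Q.Xu p z')) (by linarith)] with j hj z hz1
    have h3 := hj z hz1
    have h4 : dist (h z) (Q.Xu p z') ≤ dist (h w) (Q.Xu p z') := hmax hz1
    rw [mem_ball]
    refine (dist_triangle_left _ _ (h z)).trans_lt ?_
    linarith
  obtain ⟨j, ⟨b, hb, hb0⟩, hj2, hj3⟩ := (hev1.and (hev2.and hev3)).exists
  have hrj : (r j : ℂ) ≠ 0 := Complex.ofReal_ne_zero.2 (hr0 j).ne'
  refine ⟨z₁ + (r j : ℂ) * α, r j * (η / 3), m + n j, mul_pos (hr0 j) (by positivity), ?_,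
    ⟨z₁ + (r j : ℂ) * b, ?_, ?_⟩, fun z hz1 => ?_⟩
  · rw [Q.toSys.P_pow, Q.toSys.P_pow] at hj2
    exact (pos_iff_pos_of_mul_pos ((pos_iff_pos_of_mul_pos hj2).1 hdm)).1
      (pow_pos Q.toSys.d_pos _)
  · rw [mem_ball, dist_eq_norm] at hb ⊢
    rw [add_sub_add_left_eq_sub, ← mul_sub, norm_mul, Complex.norm_real,
      Real.norm_of_nonneg (hr0 j).le]
    exact mul_lt_mul_of_pos_left hb (hr0 j)
  · change Q.P ((Q.F ^ m) ((Q.F ^ n j) (g (z₁ + (r j : ℂ) * b)))) = 0 at hb0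
    rw [Q.toSys.P_pow, Q.toSys.P_pow] at hb0
    rcases mul_eq_zero.1 hb0 with h2 | h2
    · exact absurd h2 hdm.ne'
    · rcases mul_eq_zero.1 h2 with h3 | h3
      · exact absurd h3 (pow_pos Q.toSys.d_pos _).ne'
      · exact h3
  · have h2 := hj3 ((z - z₁) / r j) (hsub1 ?_)
    · rw [mul_div_cancel₀ _ hrj, add_sub_cancel] at h2
      rw [pow_add, Equiv.Perm.mul_apply]
      exact h2
    · rw [mem_closedBall, dist_eq_norm] at hz1 ⊢
      have h3 : (z - z₁) / (r j : ℂ) - α = (z - (z₁ + (r j : ℂ) * α)) / (r j : ℂ) := by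
        field_simp
        ring
      rw [h3, norm_div, Complex.norm_real, Real.norm_of_nonneg (hr0 j).le, div_le_iff₀ (hr0 j)]
      linarith

end Pool.Agent.HQ
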