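import Pool.Agent.HQD.Low
import Pool.Agent.HQD.AlD
import Pool.Agent.HQ.Mont
import Pool.Agent.HQ.Surj

/-!
# HQD [LS]: zooming at a crossing gives the unstable manifold (C3)
-/

set_option autoImplicit false

open Filter Topology Set Metric

namespace Pool.Agent.HQ

/-- record scales exist -/
theorem LS_rec {N : ℕ → ℝ} {c : ℝ} {K j₁ : ℕ} (hc : 0 < c)
    (hN : ∀ j ≥ j₁, c * ((1 / 2 : ℝ) ^ j) ^ K ≤ N j) (j₀ : ℕ) :
    ∃ j ≥ j₀, (1 / 2 : ℝ) ^ (K + 1) * N j ≤ N (j + 1) := by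
  by_contra hcon
  push Not at hcon
  set J := max j₀ j₁ with hJ
  have h1 : ∀ i, N (J + i) ≤ ((1 / 2 : ℝ) ^ (K + 1)) ^ i * N J := by
    intro i
    induction i with
    | zero => simp
    | succ i ih =>
      have h2 := hcon (J + i) (le_trans (le_max_left _ _) (Nat.le_add_right _ _))
      calc N (J + (i + 1)) ≤ (1 / 2 : ℝ) ^ (K + 1) * N (J + i) := h2.le
        _ ≤ (1 / 2 : ℝ) ^ (K + 1) * (((1 / 2 : ℝ) ^ (K + 1)) ^ i * N J) :=
            mul_le_mul_of_nonneg_left ih (by positivity)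
        _ = ((1 / 2 : ℝ) ^ (K + 1)) ^ (i + 1) * N J := by
            rw [pow_succ ((1 / 2 : ℝ) ^ (K + 1)) i]
            ring
  have h2 : ∀ i : ℕ, c * ((1 / 2 : ℝ) ^ J) ^ K ≤ (1 / 2 : ℝ) ^ i * N J := by
    intro i
    have h3 := (hN (J + i) (le_trans (le_max_right _ _) (Nat.le_add_right _ _))).trans (h1 i)
    have h4 : ((1 / 2 : ℝ) ^ (J + i)) ^ K = ((1 / 2 : ℝ) ^ J) ^ K * ((1 / 2 : ℝ) ^ i) ^ K := by
      rw [pow_add, mul_pow]
    have h5 : ((1 / 2 : ℝ) ^ (K + 1)) ^ i = ((1 / 2 : ℝ) ^ i) ^ K * (1 / 2 : ℝ) ^ i := by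
      rw [← pow_mul, ← pow_mul, ← pow_add]
      congr 1
      ring
    rw [h4, h5] at h3
    have h6 : 0 < ((1 / 2 : ℝ) ^ i) ^ K := by positivity
    have h7 : ((1 / 2 : ℝ) ^ i) ^ K * (c * ((1 / 2 : ℝ) ^ J) ^ K) ≤
        ((1 / 2 : ℝ) ^ i) ^ K * ((1 / 2 : ℝ) ^ i * N J) := by
      calc ((1 / 2 : ℝ) ^ i) ^ K * (c * ((1 / 2 : ℝ) ^ J) ^ K) =
          c * (((1 / 2 : ℝ) ^ J) ^ K * ((1 / 2 : ℝ) ^ i) ^ K) := by ring
        _ ≤ ((1 / 2 : ℝ) ^ i) ^ K * (1 / 2 : ℝ) ^ i * N J := h3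
        _ = _ := by ring
    exact le_of_mul_le_mul_left h7 h6
  have h3 : Tendsto (fun i : ℕ => (1 / 2 : ℝ) ^ i * N J) atTop (𝓝 (0 * N J)) :=
    (tendsto_pow_atTop_nhds_zero_of_lt_one (by norm_num) (by norm_num)).mul_const _
  rw [zero_mul] at h3
  have h4 := ge_of_tendsto' h3 h2
  have h5 : 0 < c * ((1 / 2 : ℝ) ^ J) ^ K := by positivity
  linarith

/-- the time attached to a value -/
theorem LS_time {a x : ℝ} (ha : 1 < a) (hx : 0 < x) (hx1 : x ≤ 1) :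
    ∃ n : ℕ, (a ^ (n + 1))⁻¹ < x ∧ x ≤ (a ^ n)⁻¹ := by
  have hex : ∃ n : ℕ, (a ^ (n + 1))⁻¹ < x := by
    have h1 : Tendsto (fun n : ℕ => (a ^ n)⁻¹) atTop (𝓝 0) :=
      (tendsto_pow_atTop_atTop_of_one_lt ha).inv_tendsto_atTop
    have h2 := (tendsto_add_atTop_iff_nat 1).2 h1
    exact (h2.eventually_lt_const hx).exists
  classical
  refine ⟨Nat.find hex, Nat.find_spec hex, ?_⟩
  rcases Nat.eq_zero_or_pos (Nat.find hex) with h | h
  · rw [h]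
    simpa using hx1
  · have h1 : ¬ (a ^ (Nat.find hex - 1 + 1))⁻¹ < x := Nat.find_min hex (by omega)
    rw [Nat.sub_add_cancel h] at h1
    exact not_lt.1 h1

/-- (C3) -/
theorem LS (Q : QS) {p : E} (hp : p ∈ Sad Q.F) {D : Set ℂ} (hD : IsOpen D) {g : ℂ → E}
    (hg : DifferentiableOn ℂ g D) (hM : ∀ z ∈ D, Q.M (g z) = 0) {z₁ : ℂ} (hz : z₁ ∈ D)
    (hW : g z₁ ∈ Ws Q.F p) (hX : ∃ᶠ t in 𝓝 z₁, 0 < Q.P (g t)) :
    ∃ (r : ℕ → ℝ) (n : ℕ → ℕ) (τ : ℂ → ℂ), (∀ j, 0 < r j) ∧ Tendsto r atTop (𝓝 0) ∧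
      Tendsto n atTop atTop ∧ (∀ j, (Q.F ^ n j) p = p) ∧ (∀ j, ball z₁ (r j) ⊆ D) ∧
      DifferentiableOn ℂ τ (ball 0 1) ∧ τ 0 = 0 ∧ NC τ 0 ∧
      TendstoLocallyUniformlyOn (fun j (z : ℂ) => (Q.F ^ n j) (g (z₁ + (r j : ℂ) * z)))
        (fun z => Q.Xu p (τ z)) atTop (ball 0 1) := by
  obtain ⟨k, hk, hkp, -⟩ := id hp
  obtain ⟨c, hc, K, s₀, hs₀, hlow⟩ := poly_low Q hp hD hg hM hz hW hX
  have hPz : Q.P (g z₁) = 0 := Q.toSys.Ws_P hp hW
  have hdk : 1 < Q.d ^ k := one_lt_pow₀ Q.hd hk.ne'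
  obtain ⟨r₂, hr₂, hball⟩ := Metric.isOpen_iff.1 hD z₁ hz
  have hhalf : Tendsto (fun j : ℕ => (1 / 2 : ℝ) ^ j) atTop (𝓝 0) :=
    tendsto_pow_atTop_nhds_zero_of_lt_one (by norm_num) (by norm_num)
  have hgc : ContinuousAt g z₁ := ((hg z₁ hz).differentiableAt (hD.mem_nhds hz)).continuousAt
  have hPc : Tendsto (fun z => Q.P (g z)) (𝓝 z₁) (𝓝 0) := by
    have h1 : Tendsto (fun z => Q.P (g z)) (𝓝 z₁) (𝓝 (Q.P (g z₁))) :=
      (Q.cP.tendsto _).comp hgc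
    rwa [hPz] at h1
  obtain ⟨r₃, hr₃, hball3⟩ := Metric.eventually_nhds_iff_ball.1
    (hPc.eventually_lt_const (zero_lt_one (α := ℝ)))
  obtain ⟨j₁, hj₁⟩ := eventually_atTop.1 (hhalf.eventually_lt_const
    (show 0 < min s₀ (min r₂ r₃) by positivity))
  have hj1 : ∀ j ≥ j₁, (1 / 2 : ℝ) ^ j < s₀ := fun j hj =>
    (hj₁ j hj).trans_le (min_le_left _ _)
  have hj2 : ∀ j ≥ j₁, (1 / 2 : ℝ) ^ j < r₂ := fun j hj =>
    (hj₁ j hj).trans_le ((min_le_right _ _).trans (min_le_left _ _))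
  have hj3 : ∀ j ≥ j₁, (1 / 2 : ℝ) ^ j < r₃ := fun j hj =>
    (hj₁ j hj).trans_le ((min_le_right _ _).trans (min_le_right _ _))
  have hpow : ∀ j : ℕ, 0 < (1 / 2 : ℝ) ^ j := fun j => by positivity
  -- maximum points
  have hmax : ∀ j : ℕ, ∃ t : ℂ, j₁ ≤ j → (‖t‖ ≤ (1 / 2 : ℝ) ^ j ∧
      ∀ w : ℂ, ‖w‖ ≤ (1 / 2 : ℝ) ^ j → Q.P (g (z₁ + w)) ≤ Q.P (g (z₁ + t))) := by
    intro j
    by_cases hj : j₁ ≤ j
    · have hcont : ContinuousOn (fun t : ℂ => Q.P (g (z₁ + t)))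
          (closedBall 0 ((1 / 2 : ℝ) ^ j)) := by
        refine Q.cP.comp_continuousOn ?_
        refine hg.continuousOn.comp (by fun_prop) ?_
        intro t ht
        apply hball
        rw [mem_ball, dist_eq_norm, add_sub_cancel_left]
        exact (mem_closedBall_zero_iff.1 ht).trans_lt (hj2 j hj)
      obtain ⟨t, ht, hmax⟩ := (isCompact_closedBall (0 : ℂ) ((1 / 2 : ℝ) ^ j)).exists_isMaxOn
        ⟨0, mem_closedBall_self (hpow j).le⟩ hcont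
      exact ⟨t, fun _ => ⟨mem_closedBall_zero_iff.1 ht, fun w hw =>
        hmax (mem_closedBall_zero_iff.2 hw)⟩⟩
    · exact ⟨0, fun h => absurd h hj⟩
  choose t ht using hmax
  set N : ℕ → ℝ := fun j => Q.P (g (z₁ + t j)) with hN
  have hNlow : ∀ j ≥ j₁, c * ((1 / 2 : ℝ) ^ j) ^ K ≤ N j := by
    intro j hj
    obtain ⟨w, hw, hw1⟩ := hlow _ (hpow j) (hj1 j hj)
    exact hw1.trans ((ht j hj).2 w hw)
  have hNpos : ∀ j ≥ j₁, 0 < N j := fun j hj =>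
    lt_of_lt_of_le (by have := hpow j; positivity) (hNlow j hj)
  have hN1 : ∀ j ≥ j₁, N j ≤ 1 := by
    intro j hj
    refine (hball3 _ ?_).le
    rw [mem_ball, dist_eq_norm, add_sub_cancel_left]
    exact (ht j hj).1.trans_lt (hj3 j hj)
  choose J hJ hJrec using fun i : ℕ => LS_rec hc hNlow (i + j₁)
  have hJ1 : ∀ i, j₁ ≤ J i := fun i => (Nat.le_add_left _ _).trans (hJ i)
  have hJt : Tendsto J atTop atTop :=
    tendsto_atTop_mono (fun i => (Nat.le_add_right _ _).trans (hJ i)) tendsto_id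
  choose m hm1 hm2 using fun i : ℕ => LS_time hdk (hNpos (J i) (hJ1 i)) (hN1 (J i) (hJ1 i))
  set θ : ℝ := (1 / 2 : ℝ) ^ (K + 1) with hθ
  have hθ0 : 0 < θ := by positivity
  -- the values tend to zero
  have htt : Tendsto (fun i => z₁ + t (J i)) atTop (𝓝 z₁) := by
    have h1 : Tendsto (fun i => t (J i)) atTop (𝓝 0) := by
      refine squeeze_zero_norm (fun i => (ht _ (hJ1 i)).1) (hhalf.comp hJt)
    have h2 := h1.const_add z₁
    rwa [add_zero] at h2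
  have hNt : Tendsto (fun i => N (J i)) atTop (𝓝 0) := hPc.comp htt
  have hmt : Tendsto m atTop atTop := by
    rw [Filter.tendsto_atTop]
    intro B
    have h1 : 0 < ((Q.d ^ k) ^ B)⁻¹ := by
      have := Q.toSys.d_pos
      positivity
    filter_upwards [hNt.eventually_lt_const h1] with i hi
    by_contra hcon
    push Not at hcon
    have h2 : (Q.d ^ k) ^ (m i + 1) ≤ (Q.d ^ k) ^ B := pow_le_pow_right₀ hdk.le (by omega)
    have h3 : 0 < (Q.d ^ k) ^ (m i + 1) := by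
      have := Q.toSys.d_pos
      positivity
    have h4 := inv_anti₀ h3 h2
    exact absurd (hi.trans_le (h4.trans (hm1 i).le)) (lt_irrefl _)
  -- the rescaled curves
  set G : ℕ → ℂ → E := fun i z => (Q.F ^ (k * m i)) (g (z₁ + ((1 / 2 : ℝ) ^ (J i) : ℝ) * z))
    with hG
  have hin : ∀ i, ∀ z ∈ ball (0 : ℂ) 1, ‖(((1 / 2 : ℝ) ^ (J i) : ℝ) : ℂ) * z‖ ≤
      (1 / 2 : ℝ) ^ (J i) := by
    intro i z hz1
    rw [norm_mul, Complex.norm_real, Real.norm_of_nonneg (hpow _).le]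
    have h1 := mem_ball_zero_iff.1 hz1
    have h2 := hpow (J i)
    nlinarith
  have hinD : ∀ i, ∀ z ∈ ball (0 : ℂ) 1, z₁ + (((1 / 2 : ℝ) ^ (J i) : ℝ) : ℂ) * z ∈ D := by
    intro i z hz1
    apply hball
    rw [mem_ball, dist_eq_norm, add_sub_cancel_left]
    exact (hin i z hz1).trans_lt (hj2 _ (hJ1 i))
  have hGd : ∀ i, DifferentiableOn ℂ (G i) (ball 0 1) := by
    intro i
    refine (Q.diff_pow _).comp_differentiableOn ?_
    refine hg.comp (by fun_prop) ?_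
    exact fun z hz1 => hinD i z hz1
  have hGP : ∀ i, ∀ z ∈ ball (0 : ℂ) 1, Q.P (G i z) ≤ 1 := by
    intro i z hz1
    have h1 := (ht _ (hJ1 i)).2 _ (hin i z hz1)
    have h2 : 0 < (Q.d ^ k) ^ m i := by
      have := Q.toSys.d_pos
      positivity
    rw [hG]
    simp only
    rw [Q.toSys.P_pow, pow_mul]
    calc (Q.d ^ k) ^ m i * Q.P (g (z₁ + (((1 / 2 : ℝ) ^ (J i) : ℝ) : ℂ) * z)) ≤
          (Q.d ^ k) ^ m i * ((Q.d ^ k) ^ m i)⁻¹ :=
          mul_le_mul_of_nonneg_left (h1.trans (hm2 i)) h2.le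
      _ = 1 := mul_inv_cancel₀ h2.ne'
  have hGM : ∀ i, ∀ z ∈ ball (0 : ℂ) 1, Q.M (G i z) = 0 := by
    intro i z hz1
    rw [hG]
    simp only
    rw [Q.toSys.M_pow, hM _ (hinD i z hz1), mul_zero]
  obtain ⟨R, hR⟩ := Q.toSys.sub_bdd 1
  obtain ⟨φ, hφ, h, hh, hlim⟩ := montel (D := ball (0 : ℂ) 1) isOpen_ball G hGd
    (fun z _ => ⟨1, one_pos, R, fun n w _ hw =>
      hR _ (hGP n w hw) ((hGM n w hw).le.trans zero_le_one)⟩)
  have h0 : (0 : ℂ) ∈ ball (0 : ℂ) 1 := mem_ball_self one_pos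
  -- the limit at the centre
  have hh0 : h 0 = p := by
    refine tendsto_nhds_unique (hlim.tendsto_at h0) ?_
    have h1 : ∀ i, G i 0 = (Q.F ^ (k * m i)) (g z₁) := by
      intro i
      rw [hG]
      simp only [mul_zero, add_zero]
    simp only [h1]
    exact (StayA_of_Ws Q.toSys hk hkp hW).comp (hmt.comp hφ.tendsto_atTop)
  have hhM : ∀ z ∈ ball (0 : ℂ) 1, Q.M (h z) = 0 := by
    intro z hz1
    refine tendsto_nhds_unique ((Q.cM.tendsto _).comp (hlim.tendsto_at hz1)) ?_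
    refine tendsto_const_nhds.congr fun i => ?_
    exact (hGM _ z hz1).symm
  -- the limit is not constant
  have hne : ∃ z ∈ ball (0 : ℂ) 1, 0 < Q.P (h z) := by
    have h1 : ∀ i, ∃ z ∈ closedBall (0 : ℂ) (1 / 2), θ * (Q.d ^ k)⁻¹ ≤ Q.P (G i z) := by
      intro i
      have h2 := ht (J i + 1) ((hJ1 i).trans (Nat.le_succ _))
      have h3 : (((1 / 2 : ℝ) ^ (J i) : ℝ) : ℂ) ≠ 0 := by
        exact_mod_cast (hpow (J i)).ne'
      refine ⟨t (J i + 1) / (((1 / 2 : ℝ) ^ (J i) : ℝ) : ℂ), ?_, ?_⟩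
      · rw [mem_closedBall_zero_iff, norm_div, Complex.norm_real,
          Real.norm_of_nonneg (hpow _).le, div_le_iff₀ (hpow _)]
        refine h2.1.trans (le_of_eq ?_)
        rw [pow_succ']
      · rw [hG]
        simp only
        rw [mul_div_cancel₀ _ h3, Q.toSys.P_pow, pow_mul]
        have h4 : θ * N (J i) ≤ Q.P (g (z₁ + t (J i + 1))) := hJrec i
        have h5 : 0 < (Q.d ^ k) ^ m i := by
          have := Q.toSys.d_pos
          positivity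
        have h6 := hm1 i
        have h7 : (Q.d ^ k)⁻¹ = (Q.d ^ k) ^ m i * ((Q.d ^ k) ^ (m i + 1))⁻¹ := by
          have h8 : Q.d ^ k ≠ 0 := by linarith
          rw [pow_succ]
          field_simp
        calc θ * (Q.d ^ k)⁻¹ = (Q.d ^ k) ^ m i * (θ * ((Q.d ^ k) ^ (m i + 1))⁻¹) := by
              rw [h7]
              ring
          _ ≤ (Q.d ^ k) ^ m i * (θ * N (J i)) :=
              mul_le_mul_of_nonneg_left (mul_le_mul_of_nonneg_left h6.le hθ0.le) h5.le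
          _ ≤ (Q.d ^ k) ^ m i * Q.P (g (z₁ + t (J i + 1))) :=
              mul_le_mul_of_nonneg_left h4 h5.le
    choose w hw hwP using h1
    obtain ⟨w₀, hw₀, ψ, hψ, hwlim⟩ := (isCompact_closedBall (0 : ℂ) (1 / 2)).tendsto_subseq
      (fun i => hw (φ i))
    have hw1 : w₀ ∈ ball (0 : ℂ) 1 := closedBall_subset_ball (by norm_num) hw₀
    refine ⟨w₀, hw1, ?_⟩
    have h2 : Tendsto (fun i => G (φ (ψ i)) (w (φ (ψ i)))) atTop (𝓝 (h w₀)) := by
      have h3 : TendstoLocallyUniformlyOn (fun i => G (φ (ψ i))) h atTop (ball 0 1) := by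
        intro u hu x hx
        obtain ⟨s, hs, h4⟩ := hlim u hu x hx
        exact ⟨s, hs, hψ.tendsto_atTop.eventually h4⟩
      refine h3.tendsto_comp (hh.continuousOn w₀ hw1) hw1 ?_
      rw [isOpen_ball.nhdsWithin_eq hw1]
      exact hwlim
    have h3 : Tendsto (fun i => Q.P (G (φ (ψ i)) (w (φ (ψ i))))) atTop (𝓝 (Q.P (h w₀))) :=
      (Q.cP.tendsto _).comp h2
    have h4 : θ * (Q.d ^ k)⁻¹ ≤ Q.P (h w₀) := ge_of_tendsto' h3 fun i => hwP _
    have h5 : 0 < θ * (Q.d ^ k)⁻¹ := by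
      have := Q.toSys.d_pos
      positivity
    linarith
  -- the limit is in the unstable manifold
  have hWu : ∀ z ∈ ball (0 : ℂ) 1, h z ∈ Wu Q.F p := by
    refine stay_u Q.toSys isOpen_ball (convex_ball _ _).isPreconnected hh hhM hp h0 ?_
    rw [hh0]
    exact Q.toSys.self_mem_Wu p
  obtain ⟨τ, hτ, hhτ⟩ := alD Q hp isOpen_ball (convex_ball _ _).isPreconnected hh hWu
  have hXp := Q.hu p hp
  have hτ0 : τ 0 = 0 := by
    apply hXp.inj
    rw [← hhτ 0 h0, hh0, hXp.zero]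
  refine ⟨fun j => (1 / 2 : ℝ) ^ (J (φ j)), fun j => k * m (φ j), τ, fun j => hpow _,
    hhalf.comp (hJt.comp hφ.tendsto_atTop),
    (Tendsto.const_mul_atTop' hk (hmt.comp hφ.tendsto_atTop)),
    fun j => Q.toSys.per_mul hkp _, fun j => ?_, hτ, hτ0, ?_, ?_⟩
  · exact (ball_subset_ball (hj2 _ (hJ1 _)).le).trans hball
  · refine nc_of_conn isOpen_ball (convex_ball _ _).isPreconnected hτ ?_ h0
    obtain ⟨w₀, hw₀, hw1⟩ := hne
    refine ⟨w₀, hw₀, 0, h0, fun heq => ?_⟩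
    rw [hhτ _ hw₀, heq, hτ0, hXp.zero, Q.toSys.Sad_P hp] at hw1
    exact lt_irrefl _ hw1
  · exact hlim.congr_right fun z hz1 => hhτ z hz1

end Pool.Agent.HQ
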