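import Pool.Agent.HQD.HypH
import Pool.Agent.HQ.LEq
import Pool.Agent.HQ.StayA

/-!
# HQD [Low]: polynomial lower bound of the Green function at a crossing (C2)
-/

set_option autoImplicit false

open Filter Topology Set Metric

namespace Pool.Agent.HQ

/-- analytic functions which are not locally zero have a polynomial lower bound -/
theorem Low_poly {Φ : ℂ → ℂ} (hΦ : AnalyticAt ℂ Φ 0) (h : ¬ ∀ᶠ t in 𝓝 (0 : ℂ), Φ t = 0) :
    ∃ (m : ℕ) (c r : ℝ), 0 < c ∧ 0 < r ∧ ∀ t ∈ ball (0 : ℂ) r, c * ‖t‖ ^ m ≤ ‖Φ t‖ := by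
  obtain ⟨m, φ, hφ, hφ0, he⟩ := (hΦ.exists_eventuallyEq_pow_smul_nonzero_iff).2 h
  have h1 : Tendsto (fun t => ‖φ t‖) (𝓝 0) (𝓝 ‖φ 0‖) := hφ.continuousAt.norm
  have hpos : 0 < ‖φ 0‖ := norm_pos_iff.2 hφ0
  have h2 : ∀ᶠ t in 𝓝 (0 : ℂ), ‖φ 0‖ / 2 < ‖φ t‖ := h1.eventually_const_lt (by linarith)
  obtain ⟨r, hr, hball⟩ := Metric.eventually_nhds_iff_ball.1 (h2.and he)
  refine ⟨m, ‖φ 0‖ / 2, r, by positivity, hr, fun t ht => ?_⟩
  obtain ⟨h3, h4⟩ := hball t ht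
  rw [h4, sub_zero, norm_smul, norm_pow, mul_comm]
  exact mul_le_mul_of_nonneg_left h3.le (by positivity)

/-- time estimate: if `P` is small on a disc, the orbits stay near the saddle -/
theorem Low_time (Q : QS) {p : E} (hp : p ∈ Sad Q.F) {D : Set ℂ} (hD : IsOpen D) {g : ℂ → E}
    (hg : DifferentiableOn ℂ g D) (hM : ∀ z ∈ D, Q.M (g z) = 0) {z₁ : ℂ} (hz : z₁ ∈ D)
    (hW : g z₁ ∈ Ws Q.F p) (hX : ∃ᶠ t in 𝓝 z₁, 0 < Q.P (g t)) :
    ∃ (k n₀ m : ℕ) (ρ c s₁ : ℝ), 0 < k ∧ 1 < ρ ∧ 0 < c ∧ 0 < s₁ ∧ closedBall z₁ s₁ ⊆ D ∧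
      ∀ (s : ℝ) (n : ℕ), 0 < s → s < s₁ → n₀ ≤ n →
        (∀ t : ℂ, ‖t‖ ≤ s → Q.P (g (z₁ + t)) ≤ (Q.d ^ (k * n))⁻¹) →
        ρ ^ (n - n₀) * (c * s ^ m) ≤ 1 := by
  obtain ⟨k, H, δ, ρ, hk, hkp, hδ, hρ, hHd, hH1, hHz, hHe⟩ := expH Q hp
  have hlim := StayA_of_Ws Q.toSys hk hkp hW
  obtain ⟨n₀, hn₀⟩ := eventually_atTop.1 (hlim.eventually
    (ball_mem_nhds p (by positivity : 0 < δ / 2)))
  have hG : Differentiable ℂ (⇑(Q.F ^ (k * n₀))) := Q.diff_pow _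
  -- the analytic function
  set Φ : ℂ → ℂ := fun t => H ((Q.F ^ (k * n₀)) (g (z₁ + t))) with hΦ
  have hshift : Tendsto (fun t : ℂ => z₁ + t) (𝓝 0) (𝓝 z₁) := by
    have : Tendsto (fun t : ℂ => z₁ + t) (𝓝 0) (𝓝 (z₁ + 0)) :=
      (continuous_const.add continuous_id).tendsto 0
    rwa [add_zero] at this
  have hgc : ContinuousAt g z₁ := ((hg z₁ hz).differentiableAt (hD.mem_nhds hz)).continuousAt
  have hyt : Tendsto (fun t : ℂ => (Q.F ^ (k * n₀)) (g (z₁ + t))) (𝓝 0)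
      (𝓝 ((Q.F ^ (k * n₀)) (g z₁))) :=
    (hG.continuous.tendsto _).comp (hgc.tendsto.comp hshift)
  have hy0 : (Q.F ^ (k * n₀)) (g z₁) ∈ ball p δ :=
    ball_subset_ball (by linarith) (hn₀ n₀ le_rfl)
  have hyev : ∀ᶠ t in 𝓝 (0 : ℂ), (Q.F ^ (k * n₀)) (g (z₁ + t)) ∈ ball p δ :=
    hyt.eventually (isOpen_ball.mem_nhds hy0)
  have hDev : ∀ᶠ t in 𝓝 (0 : ℂ), z₁ + t ∈ D := hshift.eventually (hD.mem_nhds hz)
  have hΦan : AnalyticAt ℂ Φ 0 := by
    rw [Complex.analyticAt_iff_eventually_differentiableAt]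
    filter_upwards [hyev, hDev] with t h1 h2
    have h3 : DifferentiableAt ℂ g (z₁ + t) := (hg _ h2).differentiableAt (hD.mem_nhds h2)
    have h4 : DifferentiableAt ℂ (fun t : ℂ => g (z₁ + t)) t :=
      DifferentiableAt.comp t h3 (by fun_prop)
    have h5 : DifferentiableAt ℂ (fun t : ℂ => (Q.F ^ (k * n₀)) (g (z₁ + t))) t :=
      DifferentiableAt.comp t (hG _) h4
    exact DifferentiableAt.comp (g := H) t (hHd _ h1) h5
  have hΦne : ¬ ∀ᶠ t in 𝓝 (0 : ℂ), Φ t = 0 := by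
    intro h0
    apply hX
    have h1 : ∀ᶠ t in 𝓝 (0 : ℂ), ¬ 0 < Q.P (g (z₁ + t)) := by
      filter_upwards [h0, hyev] with t h2 h3
      have h4 := hHz _ h3 h2
      rw [Q.toSys.P_pow, mul_eq_zero] at h4
      rcases h4 with h4 | h4
      · exact absurd h4 (pow_ne_zero _ Q.toSys.d_pos.ne')
      · rw [h4]
        exact lt_irrefl _
    have h2 : Tendsto (fun t : ℂ => t - z₁) (𝓝 z₁) (𝓝 0) := by
      have : Tendsto (fun t : ℂ => t - z₁) (𝓝 z₁) (𝓝 (z₁ - z₁)) :=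
        (continuous_id.sub continuous_const).tendsto z₁
      rwa [sub_self] at this
    filter_upwards [h2.eventually h1] with t ht
    rwa [add_sub_cancel] at ht
  obtain ⟨m, c₁, r₁, hc₁, hr₁, hlow⟩ := Low_poly hΦan hΦne
  obtain ⟨r₂, hr₂, hball⟩ := Metric.isOpen_iff.1 hD z₁ hz
  obtain ⟨R', hR'⟩ := Q.toSys.sub_bdd 1
  set R : ℝ := max R' 1 with hR
  have hR1 : 1 ≤ R := le_max_right _ _
  set θ : ℝ := min (1 / 4) (δ / (32 * R)) with hθ
  have hθ0 : 0 < θ := by positivity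
  have hθ1 : θ ≤ 1 / 4 := min_le_left _ _
  have hθ2 : θ ≤ δ / (32 * R) := min_le_right _ _
  refine ⟨k, n₀, m, ρ, c₁ * θ ^ m, min r₁ (r₂ / 2), hk, hρ, by positivity, by positivity,
    ?_, ?_⟩
  · refine (closedBall_subset_ball ?_).trans hball
    refine (min_le_right _ _).trans_lt (by linarith)
  intro s n hs hs1 hn hPs
  have hsr1 : s < r₁ := hs1.trans_le (min_le_left _ _)
  have hsr2 : s < r₂ / 2 := hs1.trans_le (min_le_right _ _)
  -- the point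
  set t : ℂ := ((θ * s : ℝ) : ℂ) with ht
  have htn : ‖t‖ = θ * s := by rw [ht, Complex.norm_real, Real.norm_of_nonneg (by positivity)]
  have hsub : ball z₁ s ⊆ D := (ball_subset_ball (by linarith)).trans hball
  -- orbits are bounded
  have hbd : ∀ j ≤ n, ∀ w ∈ ball z₁ s, ‖(Q.F ^ (k * j)) (g w)‖ ≤ R := by
    intro j hj w hw
    refine (hR' _ ?_ ?_).trans (le_max_left _ _)
    · rw [Q.toSys.P_pow]
      have h1 := hPs (w - z₁) (by rw [mem_ball, dist_eq_norm] at hw; exact hw.le)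
      rw [add_sub_cancel] at h1
      have hdp : 0 < Q.d ^ (k * j) := pow_pos Q.toSys.d_pos _
      have h2 : Q.d ^ (k * j) ≤ Q.d ^ (k * n) :=
        pow_le_pow_right₀ Q.hd.le (Nat.mul_le_mul_left k hj)
      calc Q.d ^ (k * j) * Q.P (g w) ≤ Q.d ^ (k * j) * (Q.d ^ (k * n))⁻¹ :=
            mul_le_mul_of_nonneg_left h1 hdp.le
        _ ≤ Q.d ^ (k * n) * (Q.d ^ (k * n))⁻¹ :=
            mul_le_mul_of_nonneg_right h2 (inv_nonneg.2 (pow_pos Q.toSys.d_pos _).le)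
        _ = 1 := mul_inv_cancel₀ (pow_pos Q.toSys.d_pos _).ne'
    · rw [Q.toSys.M_pow, hM w (hsub hw), mul_zero]
      exact zero_le_one
  have hnear : ∀ j, n₀ ≤ j → j ≤ n → (Q.F ^ (k * j)) (g (z₁ + t)) ∈ ball p δ := by
    intro j hj0 hj
    have h1 : DifferentiableOn ℂ (fun w => (Q.F ^ (k * j)) (g w)) (ball z₁ s) :=
      (Q.diff_pow _).comp_differentiableOn (hg.mono hsub)
    have h2 := lip_of_bdd_disc hs h1 (hbd j hj) (z₁ + t) (by
      rw [mem_ball, dist_eq_norm, add_sub_cancel_left, htn]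
      nlinarith) z₁ (mem_ball_self (by positivity))
    rw [add_sub_cancel_left, htn] at h2
    have h3 : 8 * R / s * (θ * s) = 8 * R * θ := by field_simp
    rw [h3] at h2
    have h4 : 8 * R * θ ≤ δ / 4 := by
      have h5 : 8 * R * θ ≤ 8 * R * (δ / (32 * R)) :=
        mul_le_mul_of_nonneg_left hθ2 (by positivity)
      have h6 : 8 * R * (δ / (32 * R)) = δ / 4 := by
        field_simp
        ring
      linarith
    have h5 := hn₀ j hj0
    rw [dist_eq_norm] at h5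
    rw [mem_ball, dist_eq_norm]
    have h6 : (Q.F ^ (k * j)) (g (z₁ + t)) - p =
        ((Q.F ^ (k * j)) (g (z₁ + t)) - (Q.F ^ (k * j)) (g z₁)) +
        ((Q.F ^ (k * j)) (g z₁) - p) := by abel
    rw [h6]
    refine (norm_add_le _ _).trans_lt ?_
    linarith
  -- expansion along the orbit
  have hexp : ∀ i, n₀ + i ≤ n →
      ρ ^ i * ‖Φ t‖ ≤ ‖H ((Q.F ^ (k * (n₀ + i))) (g (z₁ + t)))‖ := by
    intro i
    induction i with
    | zero => intro _; simp [hΦ]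
    | succ i ih =>
      intro hi
      have h1 := ih (by omega)
      have h2 := hHe _ (hnear (n₀ + i) (by omega) (by omega))
      have h3 : (Q.F ^ (k * (n₀ + (i + 1)))) (g (z₁ + t)) =
          (Q.F ^ k) ((Q.F ^ (k * (n₀ + i))) (g (z₁ + t))) := by
        rw [← Equiv.Perm.mul_apply, ← pow_add]
        congr 2
        ring
      rw [h3]
      refine le_trans ?_ h2
      rw [pow_succ', mul_assoc]
      exact mul_le_mul_of_nonneg_left h1 (by linarith)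
  have h1 := hexp (n - n₀) (by omega)
  have h2 : n₀ + (n - n₀) = n := by omega
  rw [h2] at h1
  have h3 := hH1 _ (hnear n hn le_rfl)
  have h4 := hlow t (by
    rw [mem_ball_zero_iff, htn]
    nlinarith)
  rw [htn, mul_pow] at h4
  have h5 : ρ ^ (n - n₀) * (c₁ * θ ^ m * s ^ m) ≤ ρ ^ (n - n₀) * ‖Φ t‖ := by
    refine mul_le_mul_of_nonneg_left ?_ (by positivity)
    rw [mul_assoc]
    exact h4
  exact h5.trans (h1.trans h3)

/-- (C2) -/
theorem poly_low (Q : QS) {p : E} (hp : p ∈ Sad Q.F) {D : Set ℂ} (hD : IsOpen D) {g : ℂ → E}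
    (hg : DifferentiableOn ℂ g D) (hM : ∀ z ∈ D, Q.M (g z) = 0) {z₁ : ℂ} (hz : z₁ ∈ D)
    (hW : g z₁ ∈ Ws Q.F p) (hX : ∃ᶠ t in 𝓝 z₁, 0 < Q.P (g t)) :
    ∃ c > 0, ∃ K : ℕ, ∃ s₀ > 0, ∀ s : ℝ, 0 < s → s < s₀ →
      ∃ t : ℂ, ‖t‖ ≤ s ∧ c * s ^ K ≤ Q.P (g (z₁ + t)) := by
  obtain ⟨k, n₀, m, ρ, c, s₁, hk, hρ, hc, hs₁, hsub, htime⟩ :=
    Low_time Q hp hD hg hM hz hW hX
  have hd := Q.hd
  have hdk : 1 < Q.d ^ k := one_lt_pow₀ hd hk.ne'
  obtain ⟨q, hq⟩ := pow_unbounded_of_one_lt (Q.d ^ k) hρ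
  set c' : ℝ := min ((c ^ q) * (ρ ^ (q * (n₀ + 1)))⁻¹) ((Q.d ^ (k * n₀))⁻¹) with hc'
  have hc'0 : 0 < c' := by
    have := Q.toSys.d_pos
    positivity
  refine ⟨c', hc'0, m * q, min s₁ 1, by positivity, fun s hs hs0 => ?_⟩
  have hss1 : s < s₁ := hs0.trans_le (min_le_left _ _)
  have hs1 : s < 1 := hs0.trans_le (min_le_right _ _)
  -- the maximum
  have hcont : ContinuousOn (fun t : ℂ => Q.P (g (z₁ + t))) (closedBall 0 s) := by
    refine Q.cP.comp_continuousOn ?_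
    refine hg.continuousOn.comp (by fun_prop) ?_
    intro t ht
    apply hsub
    rw [mem_closedBall, dist_eq_norm, add_sub_cancel_left]
    exact (mem_closedBall_zero_iff.1 ht).trans hss1.le
  obtain ⟨t, ht, hmax⟩ := (isCompact_closedBall (0 : ℂ) s).exists_isMaxOn
    ⟨0, mem_closedBall_self hs.le⟩ hcont
  have hmax' : ∀ w : ℂ, ‖w‖ ≤ s → Q.P (g (z₁ + w)) ≤ Q.P (g (z₁ + t)) := fun w hw =>
    hmax (mem_closedBall_zero_iff.2 hw)
  refine ⟨t, mem_closedBall_zero_iff.1 ht, ?_⟩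
  -- positivity
  have hpos : 0 < Q.P (g (z₁ + t)) := by
    obtain ⟨w, hw, hw1⟩ := (hX.and_eventually (ball_mem_nhds z₁ hs)).exists
    have h1 := hmax' (w - z₁) (by
      have h2 : dist w z₁ < s := hw1
      rw [dist_eq_norm] at h2
      exact h2.le)
    rw [add_sub_cancel] at h1
    exact hw.trans_le h1
  -- the least time
  have hex : ∃ n : ℕ, (Q.d ^ (k * n))⁻¹ < Q.P (g (z₁ + t)) := by
    have h1 : Tendsto (fun n : ℕ => ((Q.d ^ k) ^ n)⁻¹) atTop (𝓝 0) :=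
      (tendsto_pow_atTop_atTop_of_one_lt hdk).inv_tendsto_atTop
    obtain ⟨n, hn⟩ := (h1.eventually_lt_const hpos).exists
    exact ⟨n, by rwa [pow_mul]⟩
  classical
  set n := Nat.find hex with hn
  have hn1 : (Q.d ^ (k * n))⁻¹ < Q.P (g (z₁ + t)) := Nat.find_spec hex
  refine le_trans ?_ hn1.le
  by_cases hle : n ≤ n₀
  · have h1 : (Q.d ^ (k * n₀))⁻¹ ≤ (Q.d ^ (k * n))⁻¹ := by
      have h2 : Q.d ^ (k * n) ≤ Q.d ^ (k * n₀) :=
        pow_le_pow_right₀ hd.le (Nat.mul_le_mul_left k hle)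
      have h3 : 0 < Q.d ^ (k * n) := pow_pos Q.toSys.d_pos _
      exact inv_anti₀ h3 h2
    have h2 : c' * s ^ (m * q) ≤ c' := by
      have h3 : s ^ (m * q) ≤ 1 := pow_le_one₀ hs.le hs1.le
      nlinarith
    exact h2.trans ((min_le_right _ _).trans h1)
  · push Not at hle
    have hprev : ¬ (Q.d ^ (k * (n - 1)))⁻¹ < Q.P (g (z₁ + t)) := Nat.find_min hex (by omega)
    push Not at hprev
    have h1 := htime s (n - 1) hs hss1 (by omega) (fun w hw => (hmax' w hw).trans hprev)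
    -- `d ^ (k n) ≤ ρ ^ (q n)`
    have h2 : Q.d ^ (k * n) ≤ ρ ^ (q * n) := by
      rw [pow_mul, pow_mul]
      exact pow_le_pow_left₀ (by linarith) hq.le n
    have h3 : ρ ^ (q * n) * (c * s ^ m) ^ q ≤ ρ ^ (q * (n₀ + 1)) := by
      have h4 : q * n = q * (n - 1 - n₀) + q * (n₀ + 1) := by
        rw [← Nat.mul_add]
        congr 1
        omega
      have h5 : (ρ ^ (n - 1 - n₀) * (c * s ^ m)) ^ q ≤ 1 :=
        pow_le_one₀ (by positivity) h1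
      have h6 : ρ ^ (q * n) * (c * s ^ m) ^ q =
          (ρ ^ (n - 1 - n₀) * (c * s ^ m)) ^ q * ρ ^ (q * (n₀ + 1)) := by
        have h7 : ρ ^ (q * (n - 1 - n₀)) = (ρ ^ (n - 1 - n₀)) ^ q := by
          rw [← pow_mul, mul_comm]
        rw [h4, pow_add, h7, mul_pow (ρ ^ (n - 1 - n₀))]
        ring
      rw [h6]
      have h7 : 0 < ρ ^ (q * (n₀ + 1)) := by positivity
      nlinarith
    have hdn : 0 < Q.d ^ (k * n) := pow_pos Q.toSys.d_pos _
    have h8 : Q.d ^ (k * n) * ((c * s ^ m) ^ q) ≤ ρ ^ (q * (n₀ + 1)) :=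
      (mul_le_mul_of_nonneg_right h2 (by positivity)).trans h3
    have h9 : c' * s ^ (m * q) ≤ (c ^ q) * (ρ ^ (q * (n₀ + 1)))⁻¹ * s ^ (m * q) :=
      mul_le_mul_of_nonneg_right (min_le_left _ _) (by positivity)
    refine h9.trans ?_
    rw [le_inv_comm₀ (by positivity) hdn]
    have h10 : (c ^ q * (ρ ^ (q * (n₀ + 1)))⁻¹ * s ^ (m * q)) =
        ((c * s ^ m) ^ q) * (ρ ^ (q * (n₀ + 1)))⁻¹ := by
      rw [mul_pow, ← pow_mul]
      ring
    rw [h10, mul_inv, inv_inv]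
    have h11 : 0 < (c * s ^ m) ^ q := by positivity
    rw [← div_eq_inv_mul, le_div_iff₀ h11]
    exact h8

end Pool.Agent.HQ
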