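import Pool.Agent.HQD.Inc

/-!
# HQD [Rl]: the relation between saddles (D1, D2)
-/

set_option autoImplicit false

open Filter Topology Set Metric

namespace Pool.Agent.HQ

theorem Rto_refl (Q : QS) {q : E} (hq : q ∈ Sad Q.F) : Rto Q q q := by
  refine ⟨0, ?_⟩
  rw [(Q.hu q hq).zero]
  exact self_mem_WsO Q.toSys q

theorem Rto_trans (Q : QS) {q q' q'' : E} (h : q ∈ Sad Q.F) (h' : q' ∈ Sad Q.F)
    (h'' : q'' ∈ Sad Q.F) (h1 : Rto Q q q') (h2 : Rto Q q' q'') : Rto Q q q'' := by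
  have hU := Xu_mem_U Q h
  obtain ⟨z, hz⟩ := h1
  obtain ⟨w, -, hw⟩ := CrAt_trans Q h' h'' isOpen_univ (g := Q.Xu q)
    (U_diff Q hU).differentiableOn (fun z _ => U_M0 Q hU z)
    ⟨z, mem_univ z, CrAt_U Q hU h' hz⟩ h2
  exact ⟨w, hw.1⟩

theorem Rto_orb (Q : QS) {q q' : E} (h : q ∈ Sad Q.F) (i j : ℤ) :
    Rto Q ((Q.F ^ i) q) ((Q.F ^ j) q') ↔ Rto Q q q' := by
  have key : ∀ x : E, Q.toSys.F x ∈ {y : E | y ∈ Sad Q.F ∧ Rto Q y q'} ↔
      x ∈ {y : E | y ∈ Sad Q.F ∧ Rto Q y q'} := by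
    intro x
    have hS : Q.F x ∈ Sad Q.F ↔ x ∈ Sad Q.F := Q.toSys.mem_Sad_one x
    constructor
    · rintro ⟨h1, z, hz⟩
      have hx := hS.1 h1
      refine ⟨hx, ?_⟩
      obtain ⟨l, hl, hfe⟩ := func_eq Q hx
      refine ⟨z / l, ?_⟩
      have h2 := hfe (z / l)
      rw [mul_div_cancel₀ _ hl] at h2
      rw [← h2] at hz
      have h3 := (WsO_zpow Q.toSys (q := q') (x := Q.Xu x (z / l)) 1)
      rw [zpow_one] at h3
      exact h3.1 hz
    · rintro ⟨hx, z, hz⟩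
      refine ⟨hS.2 hx, ?_⟩
      obtain ⟨l, hl, hfe⟩ := func_eq Q hx
      refine ⟨l * z, ?_⟩
      rw [← hfe z]
      have h3 := (WsO_zpow Q.toSys (q := q') (x := Q.Xu x z) 1)
      rw [zpow_one] at h3
      exact h3.2 hz
  have h2 := Q.toSys.zpow_mem_iff key i q
  have h3 : Rto Q ((Q.F ^ i) q) ((Q.F ^ j) q') ↔ Rto Q ((Q.F ^ i) q) q' := by
    unfold Rto
    rw [WsO_orb Q.toSys j]
  rw [h3]
  constructor
  · intro h4
    exact (h2.1 ⟨(Q.toSys.mem_Sad i q).2 h, h4⟩).2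
  · intro h4
    exact (h2.2 ⟨h, h4⟩).2

/-- a crossing of an affine reparametrisation of an unstable curve gives the relation -/
theorem Rto_of_AffC (Q : QS) {T : Set E} {g : ℂ → E} (hg : g ∈ AffC Q T) {z : ℂ} {q' : E}
    (h : CrAt Q g z q') : ∃ q ∈ T, Rto Q q q' := by
  obtain ⟨q, hq, a, b, -, rfl⟩ := hg
  exact ⟨q, hq, a * z + b, h.1⟩

private theorem Rl_sub {G : ℕ → ℂ → E} {η : ℂ → E} (h : TendstoLocallyUniformly G η atTop)
    {φ : ℕ → ℕ} (hφ : StrictMono φ) : TendstoLocallyUniformly (fun n => G (φ n)) η atTop := by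
  intro u hu x
  obtain ⟨t, ht1, ht2⟩ := h u hu x
  exact ⟨t, ht1, hφ.tendsto_atTop.eventually ht2⟩

private theorem Rl_fr (Q : QS) {ξ : ℂ → E} (hξ : ξ ∈ Q.U) :
    ∃ᶠ t in 𝓝 (0 : ℂ), 0 < Q.P (ξ t) := by
  rw [Metric.nhds_basis_ball.frequently_iff]
  intro r hr
  obtain ⟨z, hz, hP⟩ := U_pos Q hξ hr
  exact ⟨z, hz, hP⟩

/-- (D2) saddles near the same point of the closure are related -/
theorem Rto_near (Q : QS) {x : E} (hx : x ∈ closure (Sad Q.F)) : ∃ δ > 0, ∀ p ∈ Sad Q.F,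
    ∀ p' ∈ Sad Q.F, dist p x < δ → dist p' x < δ → Rto Q p p' := by
  by_contra hcon
  push Not at hcon
  choose p hp p' hp' hd hd' hn using fun n : ℕ => hcon (1 / ((n : ℝ) + 1)) (by positivity)
  have hlp : Tendsto p atTop (𝓝 x) := by
    rw [tendsto_iff_dist_tendsto_zero]
    exact squeeze_zero (fun n => dist_nonneg) (fun n => (hd n).le)
      tendsto_one_div_add_atTop_nhds_zero_nat
  have hlp' : Tendsto p' atTop (𝓝 x) := by
    rw [tendsto_iff_dist_tendsto_zero]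
    exact squeeze_zero (fun n => dist_nonneg) (fun n => (hd' n).le)
      tendsto_one_div_add_atTop_nhds_zero_nat
  obtain ⟨φ, hφ, ξ, hξ⟩ := Q.nu p hp
  obtain ⟨ψ, hψ, ξ', hξ'⟩ := Q.nu (fun n => p' (φ n)) (fun n => hp' _)
  obtain ⟨χ, hχ, σ, hσ⟩ := Q.ns (fun n => p' (φ (ψ n))) (fun n => hp' _)
  -- the subsequences
  set m : ℕ → ℕ := fun n => φ (ψ (χ n)) with hm
  have hmm : StrictMono m := hφ.comp (hψ.comp hχ)
  have h1 : TendstoLocallyUniformly (fun n => Q.Xu (p (m n))) ξ atTop :=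
    Rl_sub (Rl_sub hξ hψ) hχ
  have h2 : TendstoLocallyUniformly (fun n => Q.Xu (p' (m n))) ξ' atTop := Rl_sub hξ' hχ
  have h3 : TendstoLocallyUniformly (fun n => Q.Xs (p' (m n))) σ atTop := hσ
  have hξU : ξ ∈ Q.U := ⟨fun n => p (m n), fun n => hp _, h1⟩
  have hξU' : ξ' ∈ Q.U := ⟨fun n => p' (m n), fun n => hp' _, h2⟩
  have hσU : σ ∈ Q.Us := ⟨fun n => p' (m n), fun n => hp' _, h3⟩
  have e1 : ξ 0 = x := by
    refine tendsto_nhds_unique (UBas_pt h1 0) ?_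
    have : (fun n => Q.Xu (p (m n)) 0) = p ∘ m := by
      funext n
      exact (Q.hu _ (hp _)).zero
    rw [this]
    exact hlp.comp hmm.tendsto_atTop
  have e2 : ξ' 0 = x := by
    refine tendsto_nhds_unique (UBas_pt h2 0) ?_
    have : (fun n => Q.Xu (p' (m n)) 0) = p' ∘ m := by
      funext n
      exact (Q.hu _ (hp' _)).zero
    rw [this]
    exact hlp'.comp hmm.tendsto_atTop
  have e3 : σ 0 = x := by
    refine tendsto_nhds_unique (UBas_pt h3 0) ?_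
    have : (fun n => Q.Xs (p' (m n)) 0) = p' ∘ m := by
      funext n
      exact (Q.hs _ (hp' _)).zero
    rw [this]
    exact hlp'.comp hmm.tendsto_atTop
  have hXsU : ∀ n, Q.Xs (p' (m n)) ∈ Q.Us := by
    intro n
    have h4 := Xu_mem_U Q.dual (p := p' (m n)) (by rw [Q.dual_Sad]; exact hp' _)
    rwa [Q.dual_U] at h4
  -- (1) the curves of `p'` cross `σ`
  have s1 := B4a Q isOpen_univ (gs := fun n => Q.Xu (p' (m n))) (g := ξ')
    (fun n => (Q.hu _ (hp' _)).diff.differentiableOn) (tendstoLocallyUniformlyOn_univ.2 h2)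
    (mem_univ 0) hσU (w₀ := 0) (by rw [e2, e3]) (Rl_fr Q hξU') 1 one_pos
  -- (2) `ξ` crosses the stable curves of `p'`
  have s2 := B4b Q isOpen_univ isPreconnected_univ (g := ξ) (U_diff Q hξU).differentiableOn
    (mem_univ 0) hXsU hσU h3 (w₀ := 0) (by rw [e1, e3]) (Rl_fr Q hξU) 1 one_pos
  obtain ⟨J, ⟨z, -, w, -, -, hzw, hfr⟩, z', -, w', -, -, hzw', hfr'⟩ := (s1.and s2).exists
  have hXs : ∀ n w, Q.Xs (p' (m n)) w ∈ WsO Q.F (p' (m n)) := by
    intro n w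
    refine ⟨0, ?_⟩
    rw [zpow_zero, Equiv.Perm.one_apply, ← Fr23_Xs_range Q (hp' _)]
    exact mem_range_self w
  have s3 := B4b Q isOpen_univ isPreconnected_univ (g := Q.Xu (p' (m J)))
    (Q.hu _ (hp' _)).diff.differentiableOn (mem_univ z) hXsU hσU h3 (w₀ := w) hzw hfr 1 one_pos
  have hcr : CrAt Q ξ z' (p' (m J)) := by
    refine ⟨?_, hfr'⟩
    rw [hzw']
    exact hXs J w'
  have s4 := CrAt_lim Q isOpen_univ (gs := fun n => Q.Xu (p (m n))) (g := ξ)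
    (fun n => (Q.hu _ (hp _)).diff.differentiableOn) (tendstoLocallyUniformlyOn_univ.2 h1)
    (mem_univ z') (hp' _) hcr 1 one_pos
  obtain ⟨I, ⟨a, -, b, -, -, hab, -⟩, c, -, -, hc⟩ := (s3.and s4).exists
  refine hn (m I) (Rto_trans Q (hp _) (hp' (m J)) (hp' _) ⟨c, hc.1⟩ ⟨a, ?_⟩)
  rw [hab]
  exact hXs I b

end Pool.Agent.HQ
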