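import Pool.Agent.HQD.Rl

/-!
# HQD [Tm]: terminal classes (D3)
-/

set_option autoImplicit false

open Filter Topology Set Metric

namespace Pool.Agent.HQ

private theorem Tm_cpt (Q : QS) : IsCompact (closure (Sad Q.F)) := by
  obtain ⟨R, hR⟩ := Q.toSys.K_bdd
  refine Metric.isCompact_of_isClosed_isBounded isClosed_closure ?_
  refine isBounded_iff_forall_norm_le.2 ⟨R, fun x hx => ?_⟩
  exact hR x (Q.toSys.clSad_P hx) (Q.toSys.clSad_M hx)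

theorem exists_Trm (Q : QS) (hne : (Sad Q.F).Nonempty) : ∃ q₀, Trm Q q₀ := by
  classical
  have hd : ∀ x : E, ∃ δ : ℝ, 0 < δ ∧ (x ∈ closure (Sad Q.F) → ∀ p ∈ Sad Q.F,
      ∀ p' ∈ Sad Q.F, dist p x < δ → dist p' x < δ → Rto Q p p') := by
    intro x
    by_cases hx : x ∈ closure (Sad Q.F)
    · obtain ⟨δ, h1, h2⟩ := Rto_near Q hx
      exact ⟨δ, h1, fun _ => h2⟩
    · exact ⟨1, one_pos, fun h => absurd h hx⟩
  choose δ hδ hnear using hd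
  obtain ⟨t, ht, hcov⟩ := (Tm_cpt Q).elim_nhds_subcover (fun x => ball x (δ x))
    (fun x _ => ball_mem_nhds x (hδ x))
  let s : E → Finset E := fun q =>
    t.filter fun x => ∃ q' ∈ Sad Q.F, q' ∈ ball x (δ x) ∧ Rto Q q q'
  have hmin : ∃ q₀ ∈ Sad Q.F, ∀ q ∈ Sad Q.F, (s q₀).card ≤ (s q).card := by
    obtain ⟨p, hp⟩ := hne
    have hex : ∃ n : ℕ, ∃ q ∈ Sad Q.F, (s q).card = n := ⟨_, p, hp, rfl⟩
    obtain ⟨q₀, hq₀, hq⟩ := Nat.find_spec hex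
    refine ⟨q₀, hq₀, fun q hqS => ?_⟩
    rw [hq]
    exact Nat.find_min' hex ⟨q, hqS, rfl⟩
  obtain ⟨q₀, hq₀, hm⟩ := hmin
  refine ⟨q₀, hq₀, fun q' hq' h => ?_⟩
  have hsub : s q' ⊆ s q₀ := by
    intro x hx
    obtain ⟨hxt, r, hr, hrb, hrr⟩ := Finset.mem_filter.1 hx
    exact Finset.mem_filter.2 ⟨hxt, r, hr, hrb, Rto_trans Q hq₀ hq' hr h hrr⟩
  have heq : s q' = s q₀ := Finset.eq_of_subset_of_card_le hsub (hm q' hq')
  have hmem := hcov (subset_closure hq₀)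
  obtain ⟨x, hxt, hxb⟩ := mem_iUnion₂.1 hmem
  have hx0 : x ∈ s q₀ :=
    Finset.mem_filter.2 ⟨hxt, q₀, hq₀, hxb, Rto_refl Q hq₀⟩
  rw [← heq] at hx0
  obtain ⟨-, r, hr, hrb, hrr⟩ := Finset.mem_filter.1 hx0
  exact Rto_trans Q hq' hr hq₀ hrr (hnear x (ht x hxt) r hr q₀ hq₀ hrb hxb)

theorem Cls_rto (Q : QS) {q₀ : E} (h0 : Trm Q q₀) {q q' : E} (hq : q ∈ Cls Q q₀)
    (hq' : q' ∈ Cls Q q₀) : Rto Q q q' :=
  Rto_trans Q hq.1 h0.1 hq'.1 (h0.2 q hq.1 hq.2) hq'.2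

theorem Cls_up (Q : QS) {q₀ : E} (h0 : Trm Q q₀) {q q' : E} (hq : q ∈ Cls Q q₀)
    (hq' : q' ∈ Sad Q.F) (h : Rto Q q q') : q' ∈ Cls Q q₀ :=
  ⟨hq', Rto_trans Q h0.1 hq.1 hq' hq.2 h⟩

theorem Cls_zpow (Q : QS) {q₀ : E} (h0 : Trm Q q₀) {q : E} (n : ℤ) :
    (Q.F ^ n) q ∈ Cls Q q₀ ↔ q ∈ Cls Q q₀ := by
  have h1 : Rto Q q₀ ((Q.F ^ n) q) ↔ Rto Q q₀ q := by
    have h := Rto_orb Q (q' := q) h0.1 0 n
    rwa [zpow_zero, Equiv.Perm.one_apply] at h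
  exact and_congr (Q.toSys.mem_Sad n q) h1

theorem Cls_clo_zpow (Q : QS) {q₀ : E} (h0 : Trm Q q₀) {x : E} (n : ℤ) :
    (Q.F ^ n) x ∈ closure (Cls Q q₀) ↔ x ∈ closure (Cls Q q₀) := by
  have h : (Q.toSys.homeo n) ⁻¹' (Cls Q q₀) = Cls Q q₀ := by
    ext y
    exact Cls_zpow Q h0 n
  have h2 := (Q.toSys.homeo n).preimage_closure (Cls Q q₀)
  rw [h] at h2
  exact Iff.of_eq (congrArg (fun A : Set E => x ∈ A) h2)

/-- (E1, first line) the closure of a terminal class contains no other saddle -/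
theorem Cls_clo (Q : QS) {q₀ : E} (h0 : Trm Q q₀) {q : E} (hq : q ∈ Sad Q.F)
    (h : q ∈ closure (Cls Q q₀)) : q ∈ Cls Q q₀ := by
  obtain ⟨δ, hδ, hnear⟩ := Rto_near Q (subset_closure hq)
  obtain ⟨q', hq', hd⟩ := Metric.mem_closure_iff.1 h δ hδ
  rw [dist_comm] at hd
  exact Cls_up Q h0 hq' hq (hnear q' hq'.1 q hq hd (by rw [dist_self]; exact hδ))

end Pool.Agent.HQ
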